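import Pool.Agent.Helper25.Ind.Defs

open Complex Filter Topology MeasureTheory Set

namespace Helper25.Ind

lemma phi_contOn (p : ℕ) : ContinuousOn (fun y : ℝ => y ^ p / (1 + y)) (Ici 0) := by
  refine ContinuousOn.div (by fun_prop) (by fun_prop) ?_
  intro y hy
  have : (0 : ℝ) ≤ y := hy
  positivity

lemma phi_int (p : ℕ) {x y : ℝ} (hx : 0 ≤ x) (hy : 0 ≤ y) :
    IntervalIntegrable (fun y : ℝ => y ^ p / (1 + y)) volume x y := by
  apply ContinuousOn.intervalIntegrable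
  apply (phi_contOn p).mono
  intro u hu
  rw [mem_uIcc] at hu
  rcases hu with h | h
  · exact le_trans hx h.1
  · exact le_trans hy h.1

lemma Phi_nonneg (p : ℕ) {x : ℝ} (hx : 0 ≤ x) : 0 ≤ Phi p x := by
  unfold Phi
  apply intervalIntegral.integral_nonneg hx
  intro u hu
  have := hu.1
  positivity

lemma Phi_pos (p : ℕ) {x : ℝ} (hx : 0 < x) : 0 < Phi p x := by
  unfold Phi
  apply intervalIntegral.intervalIntegral_pos_of_pos_on (phi_int p le_rfl hx.le) _ hx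
  intro u hu
  have := hu.1
  positivity

lemma phi_add (p : ℕ) {x y : ℝ} (hx : 0 ≤ x) (hy : 0 ≤ y) :
    Phi p y = Phi p x + ∫ u in x..y, u ^ p / (1 + u) := by
  unfold Phi
  rw [intervalIntegral.integral_add_adjacent_intervals (phi_int p le_rfl hx) (phi_int p hx hy)]

lemma Phi_mono (p : ℕ) {x y : ℝ} (hx : 0 ≤ x) (hxy : x ≤ y) : Phi p x ≤ Phi p y := by
  rw [phi_add p hx (hx.trans hxy)]
  have : 0 ≤ ∫ u in x..y, u ^ p / (1 + u) := by
    apply intervalIntegral.integral_nonneg hxy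
    intro u hu
    have := hx.trans hu.1
    positivity
  linarith

lemma phi_eq_abs (p : ℕ) {x : ℝ} (hx : 0 ≤ x) :
    Phi p x = ∫ y in (0 : ℝ)..x, |y| ^ p / (1 + |y|) := by
  unfold Phi
  apply intervalIntegral.integral_congr
  intro u hu
  rw [uIcc_of_le hx] at hu
  simp only [abs_of_nonneg hu.1]

lemma phi_cont_abs (p : ℕ) : Continuous (fun y : ℝ => |y| ^ p / (1 + |y|)) := by
  apply Continuous.div (by fun_prop) (by fun_prop)
  intro y
  positivity

lemma continuousOn_Phi (p : ℕ) : ContinuousOn (Phi p) (Ici 0) := by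
  have h : Continuous (fun x : ℝ => ∫ y in (0 : ℝ)..x, |y| ^ p / (1 + |y|)) :=
    intervalIntegral.continuous_primitive (fun a b => (phi_cont_abs p).intervalIntegrable a b) 0
  exact h.continuousOn.congr (fun x hx => phi_eq_abs p hx)

/-- The right derivative of `Phi`. -/
lemma phi_hasDeriv (p : ℕ) {x : ℝ} (hx : 0 ≤ x) :
    HasDerivWithinAt (Phi p) (x ^ p / (1 + x)) (Ici x) x := by
  have h := (phi_cont_abs p).integral_hasStrictDerivAt 0 x
  have h1 : HasDerivWithinAt (fun x : ℝ => ∫ y in (0 : ℝ)..x, |y| ^ p / (1 + |y|))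
      (|x| ^ p / (1 + |x|)) (Ici x) x := h.hasDerivAt.hasDerivWithinAt
  rw [abs_of_nonneg hx] at h1
  exact h1.congr (fun y hy => phi_eq_abs p (hx.trans hy)) (phi_eq_abs p hx)

lemma Phi_ge (p : ℕ) {x : ℝ} (hx : 0 ≤ x) : x ^ (p + 1) / ((p + 1) * (1 + x)) ≤ Phi p x := by
  have h1 : ∫ y in (0 : ℝ)..x, y ^ p / (1 + x) = x ^ (p + 1) / ((p + 1) * (1 + x)) := by
    rw [intervalIntegral.integral_div, integral_pow]
    field_simp
    simp
  rw [← h1]
  unfold Phi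
  apply intervalIntegral.integral_mono_on hx
  · exact (by fun_prop : Continuous fun y : ℝ => y ^ p / (1 + x)).intervalIntegrable 0 x
  · exact phi_int p le_rfl hx
  · intro y hy
    have h2 := hy.1
    have h3 := hy.2
    gcongr

lemma Phi_le_rpow (p : ℕ) {κ x : ℝ} (hκ : 0 < κ) (hκ1 : κ ≤ 1) (hx : 0 ≤ x) :
    Phi p x ≤ x ^ ((p : ℝ) + κ) / (p + κ) := by
  have hp : (0 : ℝ) ≤ p := Nat.cast_nonneg p
  have hr : (-1 : ℝ) < p + κ - 1 := by linarith
  have h1 : ∫ y in (0 : ℝ)..x, y ^ ((p : ℝ) + κ - 1) = x ^ ((p : ℝ) + κ) / (p + κ) := by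
    rw [integral_rpow (Or.inl hr), sub_add_cancel, Real.zero_rpow (by positivity), sub_zero]
  rw [← h1]
  unfold Phi
  apply intervalIntegral.integral_mono_on_of_le_Ioo hx (phi_int p le_rfl hx)
    (intervalIntegral.intervalIntegrable_rpow' hr)
  intro y hy
  have hy0 : 0 < y := hy.1
  have h2 : y ^ ((p : ℝ) + κ - 1) = y ^ p / y ^ (1 - κ) := by
    rw [show (p : ℝ) + κ - 1 = p - (1 - κ) by ring, Real.rpow_sub hy0, Real.rpow_natCast]
  rw [h2]
  have h3 : y ^ (1 - κ) ≤ 1 + y := by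
    calc y ^ (1 - κ) ≤ (1 + y) ^ (1 - κ) := by
          apply Real.rpow_le_rpow hy0.le (by linarith) (by linarith)
      _ ≤ (1 + y) ^ (1 : ℝ) := by
          apply Real.rpow_le_rpow_of_exponent_le (by linarith) (by linarith)
      _ = 1 + y := Real.rpow_one _
  gcongr

lemma Phi_mul_le_small (p : ℕ) {x y : ℝ} (hx : 0 ≤ x) (hx1 : x ≤ 1) (hy : 0 ≤ y) (hy1 : y ≤ 1) :
    Phi p (x * y) ≤ 2 * x ^ (p + 1) * Phi p y := by
  have h1 := Phi_le_rpow p one_pos le_rfl (mul_nonneg hx hy)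
  have h2 := Phi_ge p hy
  have h3 : (x * y) ^ ((p : ℝ) + 1) = x ^ (p + 1) * y ^ (p + 1) := by
    rw [← mul_pow, ← Real.rpow_natCast]
    push_cast
    rfl
  rw [h3] at h1
  have h4 : y ^ (p + 1) / (2 * (p + 1)) ≤ y ^ (p + 1) / ((p + 1) * (1 + y)) := by
    apply div_le_div_of_nonneg_left (by positivity) (by positivity)
    nlinarith [(Nat.cast_nonneg p : (0 : ℝ) ≤ p)]
  calc Phi p (x * y) ≤ x ^ (p + 1) * y ^ (p + 1) / (p + 1) := h1
    _ = 2 * x ^ (p + 1) * (y ^ (p + 1) / (2 * (p + 1))) := by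
        field_simp
    _ ≤ 2 * x ^ (p + 1) * Phi p y := by
        gcongr
        exact h4.trans h2

lemma Phi_mul_le_large (p : ℕ) {κ : ℝ} (hκ : 0 < κ) (hκ1 : κ ≤ 1) :
    ∃ C > 0, ∀ x y : ℝ, 1 ≤ x → 1 ≤ y → Phi p (x * y) ≤ C * x ^ ((p : ℝ) + κ) * Phi p y := by
  have hp : (0 : ℝ) ≤ p := Nat.cast_nonneg p
  have hr : (-1 : ℝ) < p + κ - 1 := by linarith
  refine ⟨1 + 2 * (p + 1) / (p + κ), by positivity, ?_⟩
  intro x y hx hy
  have hx0 : 0 < x := by linarith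
  have hy0 : 0 < y := by linarith
  have hyx : y ≤ x * y := by nlinarith
  have hxy0 : 0 < x * y := by positivity
  rw [phi_add p hy0.le hxy0.le]
  have h1 : ∫ u in y..(x * y), y ^ (-κ) * u ^ ((p : ℝ) + κ - 1) =
      y ^ (-κ) * (((x * y) ^ ((p : ℝ) + κ) - y ^ ((p : ℝ) + κ)) / (p + κ)) := by
    rw [intervalIntegral.integral_const_mul, integral_rpow (Or.inl hr), sub_add_cancel]
  have h2 : ∫ u in y..(x * y), u ^ p / (1 + u) ≤
      ∫ u in y..(x * y), y ^ (-κ) * u ^ ((p : ℝ) + κ - 1) := by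
    apply intervalIntegral.integral_mono_on hyx (phi_int p hy0.le hxy0.le)
      ((intervalIntegral.intervalIntegrable_rpow' hr).const_mul _)
    intro u hu
    have hu0 : 0 < u := lt_of_lt_of_le hy0 hu.1
    have h3 : u ^ ((p : ℝ) + κ - 1) = u ^ p * u ^ κ / u := by
      rw [Real.rpow_sub hu0, Real.rpow_add hu0, Real.rpow_natCast, Real.rpow_one]
    have h4 : y ^ κ ≤ u ^ κ := Real.rpow_le_rpow hy0.le hu.1 hκ.le
    have h5 : 0 < y ^ κ := Real.rpow_pos_of_pos hy0 κ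
    rw [h3, Real.rpow_neg hy0.le, inv_mul_eq_div, div_div, div_le_div_iff₀ (by positivity)
      (by positivity)]
    have h6 : 0 < u ^ p := by positivity
    have h7 : u * y ^ κ ≤ (1 + u) * u ^ κ := by
      have : 0 < u ^ κ := Real.rpow_pos_of_pos hu0 κ
      nlinarith
    calc u ^ p * (u * y ^ κ) ≤ u ^ p * ((1 + u) * u ^ κ) := by gcongr
      _ = u ^ p * u ^ κ * (1 + u) := by ring
  have h3 : y ^ (-κ) * (((x * y) ^ ((p : ℝ) + κ) - y ^ ((p : ℝ) + κ)) / (p + κ)) ≤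
      x ^ ((p : ℝ) + κ) * y ^ p / (p + κ) := by
    have h4 : (x * y) ^ ((p : ℝ) + κ) = x ^ ((p : ℝ) + κ) * (y ^ p * y ^ κ) := by
      rw [Real.mul_rpow hx0.le hy0.le, Real.rpow_add hy0, Real.rpow_natCast]
    have h5 : 0 < y ^ κ := Real.rpow_pos_of_pos hy0 κ
    have h6 : 0 < y ^ ((p : ℝ) + κ) := Real.rpow_pos_of_pos hy0 _
    have h7 : 0 < y ^ (-κ) := Real.rpow_pos_of_pos hy0 _
    have h8 : y ^ (-κ) * (((x * y) ^ ((p : ℝ) + κ) - y ^ ((p : ℝ) + κ)) / (p + κ)) ≤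
        y ^ (-κ) * ((x * y) ^ ((p : ℝ) + κ) / (p + κ)) := by
      gcongr
      linarith
    refine h8.trans (le_of_eq ?_)
    rw [h4, Real.rpow_neg hy0.le]
    field_simp
  have h4 := Phi_ge p hy0.le
  have h5 : y ^ p ≤ 2 * (p + 1) * Phi p y := by
    have h6 : y ^ p / (2 * (p + 1)) ≤ y ^ (p + 1) / ((p + 1) * (1 + y)) := by
      rw [div_le_div_iff₀ (by positivity) (by positivity), pow_succ]
      have h7 : 0 < y ^ p := by positivity
      nlinarith [mul_pos h7 (by positivity : (0 : ℝ) < p + 1)]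
    have h7 := h6.trans h4
    rw [div_le_iff₀ (by positivity)] at h7
    linarith
  have h6 : 1 ≤ x ^ ((p : ℝ) + κ) := Real.one_le_rpow hx (by positivity)
  have h7 := Phi_nonneg p hy0.le
  have h8 : x ^ ((p : ℝ) + κ) * y ^ p / (p + κ) ≤
      x ^ ((p : ℝ) + κ) * (2 * (p + 1) * Phi p y) / (p + κ) := by
    gcongr
  calc Phi p y + ∫ u in y..(x * y), u ^ p / (1 + u)
      ≤ Phi p y + x ^ ((p : ℝ) + κ) * (2 * (p + 1) * Phi p y) / (p + κ) := by
        linarith [h2, h1.le, h3]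
    _ ≤ x ^ ((p : ℝ) + κ) * Phi p y + x ^ ((p : ℝ) + κ) * (2 * (p + 1) * Phi p y) / (p + κ) := by
        nlinarith
    _ = (1 + 2 * (p + 1) / (p + κ)) * x ^ ((p : ℝ) + κ) * Phi p y := by
        field_simp

end Helper25.Ind
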