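import Pool.Agent.Helper25.Ind.Defs
import Pool.Agent.Helper25.Ind.Phi

open Complex Filter Topology MeasureTheory Set

namespace Helper25.Ind

lemma primary_eq_zero_iff (p : ℕ) (u : ℂ) : primary p u = 0 ↔ u = 1 := by
  unfold primary
  rw [mul_eq_zero]
  constructor
  · rintro (h | h)
    · exact (sub_eq_zero.1 h).symm
    · exact absurd h (Complex.exp_ne_zero _)
  · rintro rfl
    exact Or.inl (sub_self _)

lemma differentiable_primary (p : ℕ) : Differentiable ℂ (primary p) := by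
  unfold primary
  fun_prop

/-- The exponent of the primary factor for small `u`. -/
lemma kerc_log (p : ℕ) {u : ℂ} (hu : ‖u‖ ≤ 1 / 2) :
    ∃ w : ℂ, primary p u = Complex.exp w ∧ ‖w‖ ≤ 2 * ‖u‖ ^ (p + 1) := by
  have hu1 : ‖-u‖ < 1 := by
    rw [norm_neg]
    linarith
  refine ⟨Complex.log (1 + -u) - Complex.logTaylor (p + 1) (-u), ?_, ?_⟩
  · have h1 : (1 : ℂ) + -u ≠ 0 := by
      intro h
      have h2 : u = 1 := by linear_combination -h
      rw [h2, norm_one] at hu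
      norm_num at hu
    have h3 : Complex.logTaylor (p + 1) (-u) = -∑ j ∈ Finset.range p, u ^ (j + 1) / (j + 1) := by
      unfold Complex.logTaylor
      rw [Finset.sum_range_succ', ← Finset.sum_neg_distrib]
      have h4 : ((-1 : ℂ) ^ (0 + 1) * (-u) ^ 0 / ((0 : ℕ) : ℂ)) = 0 := by simp
      rw [h4, add_zero]
      refine Finset.sum_congr rfl fun j _ => ?_
      have h5 : (-1 : ℂ) ^ (j + 1 + 1) * (-u) ^ (j + 1) = -u ^ (j + 1) := by
        rw [neg_pow u (j + 1), ← mul_assoc, ← pow_add]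
        have h6 : (-1 : ℂ) ^ (j + 1 + 1 + (j + 1)) = -1 :=
          Odd.neg_one_pow ⟨j + 1, by ring⟩
        rw [h6]
        ring
      rw [h5]
      push_cast
      ring
    rw [Complex.exp_sub, Complex.exp_log h1, h3, Complex.exp_neg]
    unfold primary
    rw [div_inv_eq_mul]
    ring
  · refine (Complex.norm_log_sub_logTaylor_le p hu1).trans ?_
    rw [norm_neg]
    have h1 : (1 - ‖u‖)⁻¹ ≤ 2 := by
      rw [inv_le_comm₀ (by linarith) (by norm_num)]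
      linarith
    have h2 : (0 : ℝ) ≤ ‖u‖ ^ (p + 1) := by positivity
    have h3 : (1 : ℝ) ≤ (p : ℝ) + 1 := by
      have : (0 : ℝ) ≤ p := Nat.cast_nonneg p
      linarith
    have h4 : 0 ≤ (1 - ‖u‖)⁻¹ := by
      apply inv_nonneg.2
      linarith
    calc ‖u‖ ^ (p + 1) * (1 - ‖u‖)⁻¹ / ((p : ℝ) + 1)
        ≤ ‖u‖ ^ (p + 1) * (1 - ‖u‖)⁻¹ := div_le_self (mul_nonneg h2 h4) h3
      _ ≤ ‖u‖ ^ (p + 1) * 2 := mul_le_mul_of_nonneg_left h1 h2
      _ = 2 * ‖u‖ ^ (p + 1) := mul_comm _ _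

/-- A crude bound. -/
lemma kerc_crude (p : ℕ) (u : ℂ) :
    ‖primary p u‖ ≤ (1 + ‖u‖) * Real.exp (∑ j ∈ Finset.range p, ‖u‖ ^ (j + 1)) := by
  unfold primary
  rw [norm_mul, Complex.norm_exp]
  have h1 : ‖(1 : ℂ) - u‖ ≤ 1 + ‖u‖ := by
    refine (norm_sub_le _ _).trans ?_
    rw [norm_one]
  refine mul_le_mul h1 (Real.exp_le_exp.2 ?_) (Real.exp_pos _).le (by positivity)
  refine (Complex.re_le_norm _).trans ((norm_sum_le _ _).trans (Finset.sum_le_sum fun j _ => ?_))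
  rw [norm_div, norm_pow]
  refine div_le_self (by positivity) ?_
  have h2 : ‖((j : ℂ) + 1)‖ = (j : ℝ) + 1 := by
    have : ((j : ℂ) + 1) = (((j : ℝ) + 1 : ℝ) : ℂ) := by push_cast; rfl
    rw [this, Complex.norm_real, Real.norm_of_nonneg (by positivity)]
  rw [h2]
  have : (0 : ℝ) ≤ j := Nat.cast_nonneg j
  linarith

lemma norm_primary_sub_one_le (p : ℕ) :
    ∃ C > 0, ∀ u : ℂ, ‖u‖ ≤ 1 → ‖primary p u - 1‖ ≤ C * ‖u‖ ^ (p + 1) := by
  refine ⟨(2 * Real.exp p + 1) * 2 ^ (p + 1) + 4, by positivity, fun u hu => ?_⟩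
  have hpow : (0 : ℝ) ≤ ‖u‖ ^ (p + 1) := by positivity
  rcases le_or_gt ‖u‖ (1 / 2) with h | h
  · obtain ⟨w, hw, hwn⟩ := kerc_log p h
    have hw1 : ‖w‖ ≤ 1 := by
      refine hwn.trans ?_
      have : ‖u‖ ^ (p + 1) ≤ (1 / 2 : ℝ) ^ (p + 1) := pow_le_pow_left₀ (norm_nonneg _) h _
      have h2 : (1 / 2 : ℝ) ^ (p + 1) ≤ (1 / 2 : ℝ) ^ 1 :=
        pow_le_pow_of_le_one (by norm_num) (by norm_num) (by omega)
      linarith
    rw [hw]
    have h3 : ‖Complex.exp w - 1‖ ≤ 2 * ‖w‖ := Complex.norm_exp_sub_one_le hw1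
    have h4 : 0 ≤ (2 * Real.exp p + 1) * 2 ^ (p + 1) * ‖u‖ ^ (p + 1) := by positivity
    linarith [h3, hwn, h4]
  · have h1 : ‖primary p u - 1‖ ≤ 2 * Real.exp p + 1 := by
      refine (norm_sub_le _ _).trans ?_
      rw [norm_one]
      have h2 := kerc_crude p u
      have h3 : ∑ j ∈ Finset.range p, ‖u‖ ^ (j + 1) ≤ p := by
        calc ∑ j ∈ Finset.range p, ‖u‖ ^ (j + 1) ≤ ∑ j ∈ Finset.range p, (1 : ℝ) :=
              Finset.sum_le_sum fun j _ => pow_le_one₀ (norm_nonneg _) hu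
          _ = p := by simp
      have h4 : (1 + ‖u‖) * Real.exp (∑ j ∈ Finset.range p, ‖u‖ ^ (j + 1)) ≤ 2 * Real.exp p :=
        mul_le_mul (by linarith) (Real.exp_le_exp.2 h3) (Real.exp_pos _).le (by norm_num)
      linarith
    have h5 : 1 ≤ 2 ^ (p + 1) * ‖u‖ ^ (p + 1) := by
      rw [← mul_pow]
      exact one_le_pow₀ (by linarith)
    have h6 : 0 < 2 * Real.exp p + 1 := by positivity
    calc ‖primary p u - 1‖ ≤ (2 * Real.exp p + 1) * 1 := by linarith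
      _ ≤ (2 * Real.exp p + 1) * (2 ^ (p + 1) * ‖u‖ ^ (p + 1)) :=
          mul_le_mul_of_nonneg_left h5 h6.le
      _ ≤ ((2 * Real.exp p + 1) * 2 ^ (p + 1) + 4) * ‖u‖ ^ (p + 1) := by nlinarith

lemma abs_log_primary_le (p : ℕ) :
    ∃ C > 0, ∀ u : ℂ, ‖u‖ ≤ 1 / 2 → |Real.log ‖primary p u‖| ≤ C * ‖u‖ ^ (p + 1) := by
  refine ⟨2, by norm_num, fun u hu => ?_⟩
  obtain ⟨w, hw, hwn⟩ := kerc_log p hu
  rw [hw, Complex.norm_exp, Real.log_exp]
  exact (Complex.abs_re_le_norm w).trans hwn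

lemma kerc_Phi_zero {x : ℝ} (hx : 0 ≤ x) : Phi 0 x = Real.log (1 + x) := by
  unfold Phi
  have h1 : (∫ y in (0 : ℝ)..x, y ^ 0 / (1 + y)) = ∫ y in (0 : ℝ)..x, (fun t => 1 / t) (1 + y) := by
    refine intervalIntegral.integral_congr fun y _ => ?_
    simp
  rw [h1, intervalIntegral.integral_comp_add_left (fun t => 1 / t) 1, add_zero,
    integral_one_div_of_pos one_pos (by linarith), div_one]

lemma norm_primary_le (p : ℕ) : ∃ C > 0, ∀ u : ℂ, ‖primary p u‖ ≤ Real.exp (C * Phi p ‖u‖) := by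
  refine ⟨3 * (p + 1) ^ 2 * 2 ^ p, by positivity, fun u => ?_⟩
  have hx0 : 0 ≤ ‖u‖ := norm_nonneg u
  have hP := Phi_nonneg p hx0
  have hge := Phi_ge p hx0
  have hp0 : (0 : ℝ) ≤ p := Nat.cast_nonneg p
  have h2p : (1 : ℝ) ≤ 2 ^ p := one_le_pow₀ (by norm_num)
  rcases Nat.eq_zero_or_pos p with rfl | hp
  · have h1 := kerc_crude 0 u
    rw [Finset.range_zero, Finset.sum_empty, Real.exp_zero, mul_one] at h1
    refine h1.trans ?_
    have h2 : Real.exp (Phi 0 ‖u‖) = 1 + ‖u‖ := by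
      rw [kerc_Phi_zero hx0, Real.exp_log (by linarith)]
    rw [← h2]
    refine Real.exp_le_exp.2 ?_
    push_cast
    nlinarith
  rcases le_or_gt ‖u‖ (1 / 2) with h | h
  · obtain ⟨w, hw, hwn⟩ := kerc_log p h
    rw [hw, Complex.norm_exp]
    refine Real.exp_le_exp.2 ((Complex.re_le_norm w).trans (hwn.trans ?_))
    have h1 : ‖u‖ ^ (p + 1) ≤ (p + 1) * (1 + ‖u‖) * Phi p ‖u‖ := by
      rw [div_le_iff₀ (by positivity)] at hge
      linarith
    have h2 : (p + 1) * (1 + ‖u‖) * Phi p ‖u‖ ≤ (p + 1) * (3 / 2) * Phi p ‖u‖ := by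
      apply mul_le_mul_of_nonneg_right _ hP
      apply mul_le_mul_of_nonneg_left _ (by positivity)
      linarith
    have h3 : 3 * ((p : ℝ) + 1) * Phi p ‖u‖ ≤ 3 * ((p : ℝ) + 1) ^ 2 * 2 ^ p * Phi p ‖u‖ := by
      apply mul_le_mul_of_nonneg_right _ hP
      nlinarith [mul_nonneg (mul_nonneg hp0 hp0) (by linarith : (0 : ℝ) ≤ 2 ^ p)]
    linarith
  · have hcr := kerc_crude p u
    refine hcr.trans ?_
    have h1 : 1 + ‖u‖ ≤ Real.exp ‖u‖ := by
      have := Real.add_one_le_exp ‖u‖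
      linarith
    have hxj : ∀ j < p, ‖u‖ ^ (j + 1) ≤ 2 ^ p * ‖u‖ ^ p := by
      intro j hj
      obtain ⟨d, rfl⟩ : ∃ d, p = j + 1 + d := ⟨p - (j + 1), by omega⟩
      have h3 : (1 : ℝ) ≤ 2 ^ d * ‖u‖ ^ d := by
        rw [← mul_pow]
        exact one_le_pow₀ (by linarith)
      have h4 : (2 : ℝ) ^ d ≤ 2 ^ (j + 1 + d) := pow_le_pow_right₀ (by norm_num) (by omega)
      calc ‖u‖ ^ (j + 1) = ‖u‖ ^ (j + 1) * 1 := (mul_one _).symm
        _ ≤ ‖u‖ ^ (j + 1) * (2 ^ d * ‖u‖ ^ d) := mul_le_mul_of_nonneg_left h3 (by positivity)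
        _ = 2 ^ d * ‖u‖ ^ (j + 1 + d) := by ring
        _ ≤ 2 ^ (j + 1 + d) * ‖u‖ ^ (j + 1 + d) := mul_le_mul_of_nonneg_right h4 (by positivity)
    have hsum : ∑ j ∈ Finset.range p, ‖u‖ ^ (j + 1) ≤ p * (2 ^ p * ‖u‖ ^ p) := by
      calc ∑ j ∈ Finset.range p, ‖u‖ ^ (j + 1) ≤ ∑ j ∈ Finset.range p, (2 ^ p * ‖u‖ ^ p) :=
            Finset.sum_le_sum fun j hj => hxj j (Finset.mem_range.1 hj)
        _ = p * (2 ^ p * ‖u‖ ^ p) := by simp
    have hx1 : ‖u‖ ≤ 2 ^ p * ‖u‖ ^ p := by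
      have := hxj 0 hp
      simpa using this
    have hlow : ‖u‖ ^ p ≤ 3 * (p + 1) * Phi p ‖u‖ := by
      rw [div_le_iff₀ (by positivity)] at hge
      have h5 : ‖u‖ ^ p * (1 + ‖u‖) ≤ 3 * ‖u‖ ^ (p + 1) := by
        have : 0 ≤ ‖u‖ ^ p := by positivity
        rw [pow_succ]
        nlinarith
      have h6 : ‖u‖ ^ p * (1 + ‖u‖) ≤ (3 * (p + 1) * Phi p ‖u‖) * (1 + ‖u‖) := by nlinarith
      exact le_of_mul_le_mul_right h6 (by linarith)
    calc (1 + ‖u‖) * Real.exp (∑ j ∈ Finset.range p, ‖u‖ ^ (j + 1))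
        ≤ Real.exp ‖u‖ * Real.exp (p * (2 ^ p * ‖u‖ ^ p)) :=
          mul_le_mul h1 (Real.exp_le_exp.2 hsum) (Real.exp_pos _).le (Real.exp_pos _).le
      _ = Real.exp (‖u‖ + p * (2 ^ p * ‖u‖ ^ p)) := by rw [Real.exp_add]
      _ ≤ Real.exp (3 * (p + 1) ^ 2 * 2 ^ p * Phi p ‖u‖) := by
          refine Real.exp_le_exp.2 ?_
          have h7 : ‖u‖ + p * (2 ^ p * ‖u‖ ^ p) ≤ (p + 1) * 2 ^ p * ‖u‖ ^ p := by nlinarith
          have h8 : ((p : ℝ) + 1) * 2 ^ p * ‖u‖ ^ p ≤ (p + 1) * 2 ^ p * (3 * (p + 1) * Phi p ‖u‖) :=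
            mul_le_mul_of_nonneg_left hlow (by positivity)
          calc _ ≤ _ := h7
            _ ≤ _ := h8
            _ = _ := by ring

end Helper25.Ind
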