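import Pool.Agent.Helper25.Ind.Defs
import Pool.Agent.Helper25.Ind.KerC

open Complex Filter Topology MeasureTheory Set

namespace Helper25.Ind

/-- the factor minus one -/
noncomputable def canonG {ι : Type} (p : ℕ) (a : ι → ℝ) (i : ι) (z : ℂ) : ℂ :=
  primary p (-z / a i) - 1

lemma canon_norm_arg {a : ℝ} (ha : 0 < a) (z : ℂ) : ‖-z / (a : ℂ)‖ = ‖z‖ * a⁻¹ := by
  rw [norm_div, norm_neg, Complex.norm_real, Real.norm_eq_abs, abs_of_pos ha, div_eq_mul_inv]

lemma canon_tendsto {ι : Type} {p : ℕ} (a : ι → ℝ) (ha : ∀ i, 0 < a i)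
    (hs : Summable fun i => (a i)⁻¹ ^ (p + 1)) : Tendsto (fun i => (a i)⁻¹) cofinite (𝓝 0) := by
  have h := hs.tendsto_cofinite_zero
  rw [Metric.tendsto_nhds] at h ⊢
  intro ε hε
  filter_upwards [h (ε ^ (p + 1)) (by positivity)] with i hi
  have hp : 0 < (a i)⁻¹ := inv_pos.mpr (ha i)
  rw [dist_zero_right, Real.norm_eq_abs, abs_of_pos (by positivity)] at hi ⊢
  exact lt_of_pow_lt_pow_left₀ _ hε.le hi

lemma canon_bound {ι : Type} {p : ℕ} (a : ι → ℝ) (ha : ∀ i, 0 < a i)
    (hs : Summable fun i => (a i)⁻¹ ^ (p + 1)) {R : ℝ} (hR : 0 < R) {C : ℝ} (hC : 0 < C)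
    (hC' : ∀ u : ℂ, ‖u‖ ≤ 1 → ‖primary p u - 1‖ ≤ C * ‖u‖ ^ (p + 1)) :
    ∀ᶠ i in cofinite, ∀ x ∈ Metric.ball (0 : ℂ) R,
      ‖canonG p a i x‖ ≤ (C * R ^ (p + 1)) * (a i)⁻¹ ^ (p + 1) := by
  have h := canon_tendsto a ha hs
  filter_upwards [h.eventually_lt_const (show (0 : ℝ) < R⁻¹ by positivity)] with i hi x hx
  have hx' : ‖x‖ < R := by simpa using hx
  have hp : 0 < (a i)⁻¹ := inv_pos.mpr (ha i)
  have h1 : ‖-x / (a i : ℂ)‖ ≤ R * (a i)⁻¹ := by
    rw [canon_norm_arg (ha i)]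
    exact mul_le_mul_of_nonneg_right hx'.le hp.le
  have h2 : R * (a i)⁻¹ ≤ 1 := by
    calc R * (a i)⁻¹ ≤ R * R⁻¹ := mul_le_mul_of_nonneg_left hi.le hR.le
      _ = 1 := mul_inv_cancel₀ hR.ne'
  calc ‖canonG p a i x‖ ≤ C * ‖-x / (a i : ℂ)‖ ^ (p + 1) := hC' _ (h1.trans h2)
    _ ≤ C * (R * (a i)⁻¹) ^ (p + 1) := by gcongr
    _ = (C * R ^ (p + 1)) * (a i)⁻¹ ^ (p + 1) := by rw [mul_pow]; ring

lemma canon_diff {ι : Type} (p : ℕ) (a : ι → ℝ) (i : ι) : Differentiable ℂ (canonG p a i) := by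
  unfold canonG
  have h := differentiable_primary p
  exact (h.comp ((differentiable_id.neg).div_const _)).sub_const 1

lemma canon_summable {ι : Type} {p : ℕ} (a : ι → ℝ) (ha : ∀ i, 0 < a i)
    (hs : Summable fun i => (a i)⁻¹ ^ (p + 1)) (z : ℂ) :
    Summable fun i => ‖canonG p a i z‖ := by
  obtain ⟨C, hC, hC'⟩ := norm_primary_sub_one_le p
  have hR : 0 < ‖z‖ + 1 := by positivity
  have hb := canon_bound a ha hs hR hC hC'
  refine Summable.of_norm_bounded_eventually (hs.mul_left (C * (‖z‖ + 1) ^ (p + 1))) ?_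
  filter_upwards [hb] with i hi
  rw [norm_norm]
  exact hi z (by simp)

theorem exists_canonical {ι : Type} [Countable ι] {p : ℕ} (a : ι → ℝ) (ha : ∀ i, 0 < a i)
    (hs : Summable fun i => (a i)⁻¹ ^ (p + 1)) :
    ∃ f : ℂ → ℂ, Differentiable ℂ f ∧ f 0 = 1 ∧ (∀ z, f z = 0 ↔ ∃ i, z = -(a i : ℂ)) ∧
      ∀ z, f z ≠ 0 → (Summable fun i => ker p z (a i)) ∧
        Real.log ‖f z‖ = ∑' i, ker p z (a i) := by
  have hfac : ∀ i z, 1 + canonG p a i z = primary p (-z / a i) := fun i z => by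
    simp [canonG]
  have hzero : ∀ i z, 1 + canonG p a i z = 0 ↔ z = -(a i : ℂ) := by
    intro i z
    have hne : (a i : ℂ) ≠ 0 := by exact_mod_cast (ha i).ne'
    rw [hfac, primary_eq_zero_iff, div_eq_iff hne, one_mul, neg_eq_iff_eq_neg]
  refine ⟨fun z => ∏' i, (1 + canonG p a i z), ?_, ?_, ?_, ?_⟩
  · intro z
    obtain ⟨C, hC, hC'⟩ := norm_primary_sub_one_le p
    have hR : 0 < ‖z‖ + 1 := by positivity
    have hb := canon_bound a ha hs hR hC hC'
    have h1 := Summable.hasProdLocallyUniformlyOn_one_add (K := Metric.ball (0 : ℂ) (‖z‖ + 1))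
      Metric.isOpen_ball (hs.mul_left (C * (‖z‖ + 1) ^ (p + 1))) hb
      (fun i => (canon_diff p a i).continuous.continuousOn)
    have h2 : TendstoLocallyUniformlyOn
      (fun (s : Finset ι) z => ∏ i ∈ s, (1 + canonG p a i z))
      (fun z => ∏' i, (1 + canonG p a i z)) atTop (Metric.ball (0 : ℂ) (‖z‖ + 1)) := h1
    have h3 := h2.differentiableOn (Eventually.of_forall fun s => by
      have : Differentiable ℂ fun z => ∏ i ∈ s, (1 + canonG p a i z) := by
        refine Differentiable.fun_finsetProd fun i _ => ?_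
        exact (differentiable_const 1).add (canon_diff p a i)
      exact this.differentiableOn) Metric.isOpen_ball
    exact h3.differentiableAt (Metric.isOpen_ball.mem_nhds (by simp))
  · have : ∀ i, 1 + canonG p a i 0 = 1 := by
      intro i
      rw [hfac]
      simp [primary]
    simp only [this, tprod_one]
  · intro z
    constructor
    · intro h
      by_contra hne
      push Not at hne
      exact tprod_one_add_ne_zero_of_summable (fun i h0 => hne i ((hzero i z).mp h0))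
        (canon_summable a ha hs z) h
    · rintro ⟨i, hi⟩
      exact tprod_of_exists_eq_zero ⟨i, (hzero i z).mpr hi⟩
  · intro z hz
    have hsum := canon_summable a ha hs z
    have hne : ∀ i, 1 + canonG p a i z ≠ 0 := by
      intro i hi
      exact hz (tprod_of_exists_eq_zero ⟨i, hi⟩)
    have hlog := hsum.summable_log_norm_one_add
    have hk : (fun i => Real.log ‖1 + canonG p a i z‖) = fun i => ker p z (a i) := by
      funext i
      rw [hfac]
      rfl
    rw [hk] at hlog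
    refine ⟨hlog, ?_⟩
    have hm : Multipliable fun i => (1 + canonG p a i z) :=
      multipliable_one_add_of_summable hsum
    have h1 : ‖∏' i, (1 + canonG p a i z)‖ = Real.exp (∑' i, ker p z (a i)) := by
      rw [hm.norm_tprod, ← hk]
      exact (Real.rexp_tsum_eq_tprod (fun i => norm_pos_iff.mpr (hne i))
        hsum.summable_log_norm_one_add).symm
    show Real.log ‖∏' i, (1 + canonG p a i z)‖ = _
    rw [h1, Real.log_exp]

end Helper25.Ind
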