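import Mathlib

/-!
# Indicators of entire functions with negative zeros: definitions
-/

open Complex Filter Topology MeasureTheory Set

namespace Helper25.Ind

/-- The Weierstrass primary factor `E(u, p) = (1 - u) exp (u + u^2/2 + ... + u^p/p)`. -/
noncomputable def primary (p : ℕ) (u : ℂ) : ℂ :=
  (1 - u) * Complex.exp (∑ j ∈ Finset.range p, u ^ (j + 1) / (j + 1))

/-- The class `N_ρ`: entire functions of order exactly `ρ`, all of whose zeros are negative. -/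
structure IsN (ρ : ℝ) (f : ℂ → ℂ) : Prop where
  /-- `f` is entire -/
  differentiable : Differentiable ℂ f
  /-- all zeros are negative real numbers (in particular `f 0 ≠ 0`) -/
  zeros : ∀ z, f z = 0 → z.im = 0 ∧ z.re < 0
  /-- the order is at most `ρ` -/
  upper : ∀ σ, ρ < σ → ∃ R, ∀ z, R ≤ ‖z‖ → ‖f z‖ ≤ Real.exp (‖z‖ ^ σ)
  /-- the order is at least `ρ` -/
  lower : ∀ σ, σ < ρ → ∀ R, ∃ z, R ≤ ‖z‖ ∧ Real.exp (‖z‖ ^ σ) ≤ ‖f z‖

/-- `r^{-ρ} log |f(r e^{iθ})|`, equal to `-∞` where `f(r e^{iθ}) = 0`. -/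
noncomputable def ratio (ρ : ℝ) (f : ℂ → ℂ) (θ r : ℝ) : EReal :=
  if f (r * Complex.exp (θ * Complex.I)) = 0 then ⊥
  else ((Real.log ‖f (r * Complex.exp (θ * Complex.I))‖ / r ^ ρ : ℝ) : EReal)

/-- The indicator `h_f(θ) = limsup_{r → ∞} r^{-ρ} log |f(r e^{iθ})|`. -/
noncomputable def indicatorOf (ρ : ℝ) (f : ℂ → ℂ) (θ : ℝ) : EReal :=
  limsup (ratio ρ f θ) atTop

/-- The `ρ`-homogeneous function `H(z) = |z|^ρ h(arg z)`. -/
noncomputable def homog (ρ : ℝ) (h : ℝ → ℝ) (z : ℂ) : ℝ := ‖z‖ ^ ρ * h z.arg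

/-- The majorisation inequalities, with the primary factors of genus `p = ⌊ρ⌋`: whenever
`z₀, z₁, ..., z_n` are outside the negative axis, `m_j ≥ 0` and
`log |E(-z₀/t, p)| ≤ ∑ m_j log |E(-z_j/t, p)|` for all `t > 0`, then `H(z₀) ≤ ∑ m_j H(z_j)`. -/
def MajIneq (ρ : ℝ) (h : ℝ → ℝ) : Prop :=
  ∀ (n : ℕ) (z : Fin n → ℂ) (m : Fin n → ℝ) (z₀ : ℂ),
    (∀ j, z j ∈ slitPlane) → z₀ ∈ slitPlane → (∀ j, 0 ≤ m j) →
    (∀ t : ℝ, 0 < t → Real.log ‖primary ⌊ρ⌋₊ (-z₀ / t)‖ ≤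
      ∑ j, m j * Real.log ‖primary ⌊ρ⌋₊ (-z j / t)‖) →
    homog ρ h z₀ ≤ ∑ j, m j * homog ρ h (z j)

/-- The potential of a unit mass at `-t`: `ker p z t = log |E(-z/t, p)|`. -/
noncomputable def ker (p : ℕ) (z : ℂ) (t : ℝ) : ℝ := Real.log ‖primary p (-z / t)‖

/-- The majorant `Φ_p(x) = ∫_0^x y^p/(1+y) dy`. -/
noncomputable def Phi (p : ℕ) (x : ℝ) : ℝ := ∫ y in (0 : ℝ)..x, y ^ p / (1 + y)

/-- A direction in which all potentials are positive. -/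
noncomputable def star (p : ℕ) : ℝ := Real.pi - Real.pi / (2 * p + 1)

/-- The constant `sin (π / (4 p + 2))`. -/
noncomputable def s0 (p : ℕ) : ℝ := Real.sin (Real.pi / (4 * p + 2))

/-- Growth condition: no mass on `(-∞, 0]` and mass at most `A t^ρ` on `(0, t]`. -/
def Growth (ρ A : ℝ) (μ : Measure ℝ) : Prop :=
  μ (Iic 0) = 0 ∧ ∀ t : ℝ, 0 < t → μ (Iic t) ≤ ENNReal.ofReal (A * t ^ ρ)

/-- The measure `∑ δ_{a k}`. -/
noncomputable def diracs (a : ℕ → ℝ) : Measure ℝ := Measure.sum fun k => Measure.dirac (a k)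

/-- Windows: a measure `μ` with growth bound whose potential is almost below `H` in a large annular
sector and almost touches `H` at `e^{iθ₀}`. -/
def Window (p : ℕ) (ρ : ℝ) (h : ℝ → ℝ) (A ε δ M θ₀ : ℝ) (μ : Measure ℝ) : Prop :=
  Growth ρ A μ ∧
  (∀ z ∈ slitPlane, |z.arg| ≤ Real.pi - δ → Real.exp (-M) ≤ ‖z‖ → ‖z‖ ≤ Real.exp M →
    ∫ t, ker p z t ∂μ ≤ (h z.arg + ε) * ‖z‖ ^ ρ) ∧
  h θ₀ - ε ≤ ∫ t, ker p (Complex.exp (θ₀ * Complex.I)) t ∂μ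

end Helper25.Ind
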