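import Pool.Agent.Helper25.Ind.Defs
import Pool.Agent.Helper25.Ind.Phi

open Complex Filter Topology MeasureTheory Set

namespace Helper25.Ind

lemma int_aux_pow (α ρ : ℝ) (j : ℕ) :
    ((2 : ℝ) ^ (j + 1)) ^ α * ((1 / 2 : ℝ) ^ j) ^ ρ = 2 ^ α * ((2 : ℝ) ^ (α - ρ)) ^ j := by
  rw [← Real.rpow_pow_comm (by norm_num : (0 : ℝ) ≤ 2), ← Real.rpow_pow_comm (by norm_num),
    Real.rpow_sub (by norm_num), one_div, Real.inv_rpow (by norm_num), div_eq_mul_inv, mul_pow,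
    pow_succ]
  ring

lemma int_aux_exp_large {κ x : ℝ} (hx : 1 ≤ x) : Real.exp (κ * |Real.log x|) = x ^ κ := by
  rw [abs_of_nonneg (Real.log_nonneg hx), Real.rpow_def_of_pos (by linarith), mul_comm]

lemma int_aux_exp_small {κ x : ℝ} (hx0 : 0 < x) (hx : x ≤ 1) :
    Real.exp (κ * |Real.log x|) = x ^ (-κ) := by
  rw [abs_of_nonpos (Real.log_nonpos hx0.le hx), Real.rpow_def_of_pos hx0]
  congr 1
  ring

/-- A cell: the integrand is at most `c` on `S ⊆ Iic s`. -/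
lemma int_aux_cell {ρ A : ℝ} {μ : Measure ℝ} (hμ : Growth ρ A μ) {S : Set ℝ}
    (hS : MeasurableSet S) {s : ℝ} (hs : 0 < s) (hSs : S ⊆ Iic s) {f : ℝ → ℝ} {c : ℝ}
    (hc : 0 ≤ c) (hf : ∀ t ∈ S, f t ≤ c) :
    ∫⁻ t in S, ENNReal.ofReal (f t) ∂μ ≤ ENNReal.ofReal (c * (A * s ^ ρ)) := by
  calc ∫⁻ t in S, ENNReal.ofReal (f t) ∂μ ≤ ∫⁻ _ in S, ENNReal.ofReal c ∂μ :=
        setLIntegral_mono' hS fun t ht => ENNReal.ofReal_le_ofReal (hf t ht)
    _ = ENNReal.ofReal c * μ S := setLIntegral_const _ _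
    _ ≤ ENNReal.ofReal c * ENNReal.ofReal (A * s ^ ρ) := by
        gcongr
        exact (measure_mono hSs).trans (hμ.2 s hs)
    _ = ENNReal.ofReal (c * (A * s ^ ρ)) := (ENNReal.ofReal_mul hc).symm

lemma int_aux_geom {a q : ℝ} (ha : 0 ≤ a) (hq : 0 ≤ q) (hq1 : q < 1) :
    ∑' j : ℕ, ENNReal.ofReal (a * q ^ j) = ENNReal.ofReal (a / (1 - q)) := by
  rw [← ENNReal.ofReal_tsum_of_nonneg (fun j => by positivity)
    ((summable_geometric_of_lt_one hq hq1).mul_left a), tsum_mul_left,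
    tsum_geometric_of_lt_one hq hq1, div_eq_mul_inv]

theorem lintegral_exp_weight_le {p : ℕ} {ρ : ℝ} (h1 : (p : ℝ) < ρ) (h2 : ρ < p + 1) :
    ∃ κ > 0, ∃ C > 0, ∀ (A : ℝ) (μ : Measure ℝ), 0 ≤ A → Growth ρ A μ → ∀ r : ℝ, 0 < r →
      ∫⁻ t, ENNReal.ofReal (Real.exp (κ * |Real.log (r / t)|) * Phi p (r / t)) ∂μ ≤
        ENNReal.ofReal (C * A * r ^ ρ) := by
  have hp0 : (0 : ℝ) ≤ p := Nat.cast_nonneg p
  obtain ⟨κ, hκ, hκ1, hα, hβ⟩ : ∃ κ : ℝ, 0 < κ ∧ κ ≤ 1 ∧ (p : ℝ) + 2 * κ < ρ ∧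
      ρ < p + 1 - κ := by
    refine ⟨min (ρ - p) (p + 1 - ρ) / 4, ?_, ?_, ?_, ?_⟩
    · have : 0 < min (ρ - p) (p + 1 - ρ) := lt_min (by linarith) (by linarith)
      linarith
    · have := min_le_left (ρ - p) (p + 1 - ρ)
      linarith
    · have := min_le_left (ρ - p) (p + 1 - ρ)
      have h3 : 0 < min (ρ - p) (p + 1 - ρ) := lt_min (by linarith) (by linarith)
      linarith
    · have := min_le_right (ρ - p) (p + 1 - ρ)
      have h3 : 0 < min (ρ - p) (p + 1 - ρ) := lt_min (by linarith) (by linarith)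
      linarith
  set α : ℝ := p + 2 * κ with hαdef
  set β : ℝ := p + 1 - κ with hβdef
  set q₁ : ℝ := (2 : ℝ) ^ (α - ρ) with hq₁
  set q₂ : ℝ := (2 : ℝ) ^ (ρ - β) with hq₂
  have hq₁0 : 0 ≤ q₁ := by positivity
  have hq₂0 : 0 ≤ q₂ := by positivity
  have hq₁1 : q₁ < 1 := Real.rpow_lt_one_of_one_lt_of_neg (by norm_num) (by linarith)
  have hq₂1 : q₂ < 1 := Real.rpow_lt_one_of_one_lt_of_neg (by norm_num) (by linarith)
  have hpκ : 0 < (p : ℝ) + κ := by linarith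
  have hp1 : 0 < (p : ℝ) + 1 := by linarith
  have h1q₁ : 0 < 1 - q₁ := by linarith
  have h1q₂ : 0 < 1 - q₂ := by linarith
  refine ⟨κ, hκ, 2 ^ α / (p + κ) / (1 - q₁) + 2 ^ ρ / (p + 1) / (1 - q₂), by positivity,
    fun A μ hA hμ r hr => ?_⟩
  set f : ℝ → ℝ := fun t => Real.exp (κ * |Real.log (r / t)|) * Phi p (r / t) with hf
  set Cj : ℕ → Set ℝ := fun j => Ioc (r * (1 / 2) ^ (j + 1)) (r * (1 / 2) ^ j) with hCj
  set Dj : ℕ → Set ℝ := fun j => Ico (r * 2 ^ j) (r * 2 ^ (j + 1)) with hDj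
  -- bounds on the cells
  have hC : ∀ j, ∫⁻ t in Cj j, ENNReal.ofReal (f t) ∂μ ≤
      ENNReal.ofReal ((2 ^ α / (p + κ) * (A * r ^ ρ)) * q₁ ^ j) := by
    intro j
    have hs : 0 < r * (1 / 2 : ℝ) ^ j := by positivity
    refine (int_aux_cell hμ measurableSet_Ioc hs (fun t ht => ht.2)
      (c := ((2 : ℝ) ^ (j + 1)) ^ α / (p + κ)) (by positivity) ?_).trans (le_of_eq ?_)
    · intro t ht
      have ht0 : 0 < t := lt_trans (by positivity) ht.1
      have hx1 : 1 ≤ r / t := by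
        rw [le_div_iff₀ ht0, one_mul]
        refine ht.2.trans ?_
        have : (1 / 2 : ℝ) ^ j ≤ 1 := pow_le_one₀ (by norm_num) (by norm_num)
        nlinarith
      have hx2 : r / t ≤ 2 ^ (j + 1) := by
        rw [div_le_iff₀ ht0]
        have h3 : r * (1 / 2) ^ (j + 1) * 2 ^ (j + 1) = r := by
          rw [mul_assoc, ← mul_pow]
          norm_num
        nlinarith [ht.1, pow_pos (by norm_num : (0 : ℝ) < 2) (j + 1)]
      have hx0 : 0 < r / t := by positivity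
      have h4 := Phi_le_rpow p hκ hκ1 hx0.le
      rw [hf]
      dsimp only
      rw [int_aux_exp_large hx1]
      calc (r / t) ^ κ * Phi p (r / t) ≤ (r / t) ^ κ * ((r / t) ^ ((p : ℝ) + κ) / (p + κ)) := by
            gcongr
        _ = (r / t) ^ α / (p + κ) := by
            rw [hαdef, mul_div_assoc', ← Real.rpow_add hx0]
            congr 2
            ring
        _ ≤ ((2 : ℝ) ^ (j + 1)) ^ α / (p + κ) := by
            gcongr
    · congr 1
      have h5 := int_aux_pow α ρ j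
      rw [Real.mul_rpow hr.le (by positivity)]
      rw [← hq₁] at h5
      calc ((2 : ℝ) ^ (j + 1)) ^ α / (p + κ) * (A * (r ^ ρ * ((1 / 2 : ℝ) ^ j) ^ ρ)) =
            (((2 : ℝ) ^ (j + 1)) ^ α * ((1 / 2 : ℝ) ^ j) ^ ρ) / (p + κ) * (A * r ^ ρ) := by ring
        _ = _ := by rw [h5]; ring
  have hD : ∀ j, ∫⁻ t in Dj j, ENNReal.ofReal (f t) ∂μ ≤
      ENNReal.ofReal ((2 ^ ρ / (p + 1) * (A * r ^ ρ)) * q₂ ^ j) := by
    intro j
    have hs : 0 < r * (2 : ℝ) ^ (j + 1) := by positivity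
    refine (int_aux_cell hμ measurableSet_Ico hs (fun t ht => ht.2.le)
      (c := ((1 / 2 : ℝ) ^ j) ^ β / (p + 1)) (by positivity) ?_).trans (le_of_eq ?_)
    · intro t ht
      have ht0 : 0 < t := lt_of_lt_of_le (by positivity) ht.1
      have hx2 : r / t ≤ (1 / 2) ^ j := by
        rw [div_le_iff₀ ht0]
        have h3 : (1 / 2 : ℝ) ^ j * (r * 2 ^ j) = r := by
          rw [mul_comm r, ← mul_assoc, ← mul_pow]
          norm_num
        have h4 : (1 / 2 : ℝ) ^ j * (r * 2 ^ j) ≤ (1 / 2 : ℝ) ^ j * t :=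
          mul_le_mul_of_nonneg_left ht.1 (by positivity)
        linarith
      have hx1 : r / t ≤ 1 := hx2.trans (pow_le_one₀ (by norm_num) (by norm_num))
      have hx0 : 0 < r / t := by positivity
      have h4 := Phi_le_rpow p one_pos le_rfl hx0.le
      rw [hf]
      dsimp only
      rw [int_aux_exp_small hx0 hx1]
      calc (r / t) ^ (-κ) * Phi p (r / t) ≤
            (r / t) ^ (-κ) * ((r / t) ^ ((p : ℝ) + 1) / (p + 1)) := by
            gcongr
        _ = (r / t) ^ β / (p + 1) := by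
            rw [hβdef, mul_div_assoc', ← Real.rpow_add hx0]
            congr 2
            ring
        _ ≤ ((1 / 2 : ℝ) ^ j) ^ β / (p + 1) := by
            have : 0 ≤ β := by linarith
            gcongr
    · congr 1
      have h5 := int_aux_pow ρ β j
      rw [Real.mul_rpow hr.le (by positivity)]
      rw [← hq₂] at h5
      calc ((1 / 2 : ℝ) ^ j) ^ β / (p + 1) * (A * (r ^ ρ * ((2 : ℝ) ^ (j + 1)) ^ ρ)) =
            (((2 : ℝ) ^ (j + 1)) ^ ρ * ((1 / 2 : ℝ) ^ j) ^ β) / (p + 1) * (A * r ^ ρ) := by ring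
        _ = _ := by rw [h5]; ring
  -- the cells cover
  have hcover : (univ : Set ℝ) ⊆ Iic 0 ∪ ((⋃ j, Cj j) ∪ ⋃ j, Dj j) := by
    intro t _
    rcases le_or_gt t 0 with ht | ht
    · exact Or.inl ht
    · right
      rcases le_or_gt t r with htr | htr
      · left
        obtain ⟨n, hn1, hn2⟩ := exists_nat_pow_near_of_lt_one (x := t / r) (y := (1 / 2 : ℝ))
          (by positivity) ((div_le_one hr).2 htr) (by norm_num) (by norm_num)
        refine mem_iUnion.2 ⟨n, ?_, ?_⟩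
        · rw [lt_div_iff₀ hr] at hn1
          linarith
        · rw [div_le_iff₀ hr] at hn2
          linarith
      · right
        obtain ⟨n, hn1, hn2⟩ := exists_nat_pow_near (x := t / r) (y := (2 : ℝ))
          ((one_le_div hr).2 htr.le) (by norm_num)
        refine mem_iUnion.2 ⟨n, ?_, ?_⟩
        · rw [le_div_iff₀ hr] at hn1
          linarith
        · rw [div_lt_iff₀ hr] at hn2
          linarith
  have hAr : 0 ≤ A * r ^ ρ := by positivity
  calc ∫⁻ t, ENNReal.ofReal (f t) ∂μ = ∫⁻ t in univ, ENNReal.ofReal (f t) ∂μ := by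
        rw [Measure.restrict_univ]
    _ ≤ ∫⁻ t in Iic 0 ∪ ((⋃ j, Cj j) ∪ ⋃ j, Dj j), ENNReal.ofReal (f t) ∂μ :=
        lintegral_mono_set hcover
    _ ≤ ∫⁻ t in Iic 0, ENNReal.ofReal (f t) ∂μ +
          (∫⁻ t in ⋃ j, Cj j, ENNReal.ofReal (f t) ∂μ +
            ∫⁻ t in ⋃ j, Dj j, ENNReal.ofReal (f t) ∂μ) :=
        (lintegral_union_le _ _ _).trans (add_le_add le_rfl (lintegral_union_le _ _ _))
    _ = ∫⁻ t in ⋃ j, Cj j, ENNReal.ofReal (f t) ∂μ +
            ∫⁻ t in ⋃ j, Dj j, ENNReal.ofReal (f t) ∂μ := by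
        rw [setLIntegral_measure_zero _ _ hμ.1, zero_add]
    _ ≤ (∑' j, ENNReal.ofReal ((2 ^ α / (p + κ) * (A * r ^ ρ)) * q₁ ^ j)) +
          ∑' j, ENNReal.ofReal ((2 ^ ρ / (p + 1) * (A * r ^ ρ)) * q₂ ^ j) :=
        add_le_add ((lintegral_iUnion_le _ _).trans (ENNReal.tsum_le_tsum hC))
          ((lintegral_iUnion_le _ _).trans (ENNReal.tsum_le_tsum hD))
    _ = ENNReal.ofReal ((2 ^ α / (p + κ) / (1 - q₁) + 2 ^ ρ / (p + 1) / (1 - q₂)) * A *
          r ^ ρ) := by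
        rw [int_aux_geom (by positivity) hq₁0 hq₁1, int_aux_geom (by positivity) hq₂0 hq₂1,
          ← ENNReal.ofReal_add (by positivity) (by positivity)]
        congr 1
        ring

end Helper25.Ind
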