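import Pool.Agent.Helper25.Ind.Defs
import Pool.Agent.Helper25.Ind.Phi

open Complex Filter Topology MeasureTheory Set

namespace Helper25.Ind

lemma norm_one_add_ge {z : ℂ} {δ : ℝ} (hδ : 0 < δ) (hδ' : δ ≤ Real.pi)
    (hz : |z.arg| ≤ Real.pi - δ) : (1 + ‖z‖) * Real.sin (δ / 2) ≤ ‖1 + z‖ := by
  have hc : Real.sin (δ / 2) ≤ Real.cos (z.arg / 2) := by
    rw [← Real.cos_pi_div_two_sub, ← Real.cos_abs (z.arg / 2)]
    apply Real.cos_le_cos_of_nonneg_of_le_pi (abs_nonneg _)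
    · linarith [Real.pi_pos]
    · rw [abs_div, abs_two]
      linarith
  have hs : 0 ≤ Real.sin (δ / 2) := Real.sin_nonneg_of_nonneg_of_le_pi (by linarith)
    (by linarith)
  have hre : z.re = ‖z‖ * Real.cos z.arg := by
    rw [Complex.norm_mul_cos_arg]
  have h1 : ‖1 + z‖ ^ 2 = 1 + 2 * z.re + ‖z‖ ^ 2 := by
    rw [← Complex.normSq_eq_norm_sq, ← Complex.normSq_eq_norm_sq, Complex.normSq_apply,
      Complex.normSq_apply]
    simp
    ring
  have h2 : Real.cos z.arg = 2 * Real.cos (z.arg / 2) ^ 2 - 1 := by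
    rw [← Real.cos_two_mul]
    congr 1
    ring
  have h3 : Real.cos (z.arg / 2) ^ 2 ≤ 1 := Real.cos_sq_le_one _
  have h4 : ((1 + ‖z‖) * Real.sin (δ / 2)) ^ 2 ≤ ‖1 + z‖ ^ 2 := by
    rw [h1, hre, h2, mul_pow]
    have h5 : Real.sin (δ / 2) ^ 2 ≤ Real.cos (z.arg / 2) ^ 2 := by
      gcongr
    have h6 : 0 ≤ (1 + ‖z‖) ^ 2 := sq_nonneg _
    have h7 : 0 ≤ (1 - ‖z‖) ^ 2 * (1 - Real.cos (z.arg / 2) ^ 2) :=
      mul_nonneg (sq_nonneg _) (by linarith)
    nlinarith [mul_le_mul_of_nonneg_left h5 h6]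
  exact abs_le_of_sq_le_sq' h4 (norm_nonneg _) |>.2

lemma ker_scale (p : ℕ) (z : ℂ) {r t : ℝ} (hr : 0 < r) (ht : 0 < t) :
    ker p (r * z) t = ker p z (t / r) := by
  unfold ker
  have hr' : (r : ℂ) ≠ 0 := by exact_mod_cast hr.ne'
  have ht' : (t : ℂ) ≠ 0 := by exact_mod_cast ht.ne'
  have : -(↑r * z) / (t : ℂ) = -z / ((t / r : ℝ) : ℂ) := by
    push_cast
    field_simp
  rw [this]

lemma ker_conj (p : ℕ) (z : ℂ) (t : ℝ) : ker p (starRingEnd ℂ z) t = ker p z t := by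
  unfold ker
  have : primary p (-(starRingEnd ℂ z) / t) = starRingEnd ℂ (primary p (-z / t)) := by
    unfold primary
    rw [map_mul, ← Complex.exp_conj, map_sum]
    simp
  rw [this, Complex.norm_conj]

/-- The logarithm of the primary factor, `Λ(ζ) = log E(-ζ, p)`. -/
noncomputable def keraLog (p : ℕ) (ζ : ℂ) : ℂ :=
  Complex.log (1 + ζ) + ∑ j ∈ Finset.range p, (-ζ) ^ (j + 1) / (j + 1)

lemma kera_slit {z : ℂ} (hz : z ∈ slitPlane) {c : ℝ} (hc : 0 ≤ c) : 1 + c * z ∈ slitPlane := by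
  rw [mem_slitPlane_iff] at hz ⊢
  rcases hz with h | h
  · left
    simp
    positivity
  · rcases hc.eq_or_lt with h0 | h0
    · left
      simp [← h0]
    · right
      simp
      exact ⟨h0.ne', h⟩

lemma kera_eq (p : ℕ) (z : ℂ) {t : ℝ} (h : 1 + z / t ≠ 0) :
    ker p z t = (keraLog p (z / t)).re := by
  unfold ker keraLog primary
  rw [norm_mul, Real.log_mul (by rw [neg_div, sub_neg_eq_add]; exact norm_ne_zero_iff.2 h)
    (by rw [Complex.norm_exp]; exact (Real.exp_pos _).ne'), Complex.norm_exp, Real.log_exp,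
    Complex.add_re, Complex.log_re, neg_div, sub_neg_eq_add]

lemma kera_hasDeriv (p : ℕ) {ζ : ℂ} (h : 1 + ζ ∈ slitPlane) :
    HasDerivAt (keraLog p) ((-ζ) ^ p / (1 + ζ)) ζ := by
  have h0 : 1 + ζ ≠ 0 := slitPlane_ne_zero h
  have h1 : HasDerivAt (fun ζ : ℂ => Complex.log (1 + ζ)) (1 / (1 + ζ)) ζ := by
    have := ((hasDerivAt_id ζ).const_add 1).clog h
    simpa using this
  have h2 : HasDerivAt (fun ζ : ℂ => ∑ j ∈ Finset.range p, (-ζ) ^ (j + 1) / ((j : ℂ) + 1))
      (∑ j ∈ Finset.range p, -(-ζ) ^ j) ζ := by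
    apply HasDerivAt.fun_sum
    intro j _
    have h4 : ((j : ℂ) + 1) ≠ 0 := by
      exact_mod_cast Nat.succ_ne_zero j
    have h3 : HasDerivAt (fun ζ : ℂ => (-ζ) ^ (j + 1)) (((j + 1 : ℕ) : ℂ) * (-ζ) ^ j * (-1)) ζ := by
      have := (hasDerivAt_neg ζ).fun_pow (j + 1)
      simpa using this
    refine (h3.div_const ((j : ℂ) + 1)).congr_deriv ?_
    push_cast
    field_simp
  have h3 := h1.fun_add h2
  refine HasDerivAt.congr_deriv (f := keraLog p) h3 ?_
  have h4 := geom_sum_mul (-ζ) p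
  have h5 : (∑ j ∈ Finset.range p, (-ζ) ^ j) * (1 + ζ) = 1 - (-ζ) ^ p := by
    linear_combination -h4
  rw [Finset.sum_neg_distrib, ← sub_eq_add_neg, div_sub' h0]
  congr 1
  linear_combination -h5

lemma hasDerivAt_ker (p : ℕ) {z : ℂ} (hz : z ∈ slitPlane) {t : ℝ} (ht : 0 < t) :
    HasDerivAt (ker p z) (((-z / t) ^ (p + 1) / (1 + z / t)).re / t) t := by
  have hs : ∀ t : ℝ, 0 < t → 1 + z / t ∈ slitPlane := by
    intro t ht
    have := kera_slit hz (inv_nonneg.2 ht.le)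
    convert this using 2
    push_cast
    rw [div_eq_inv_mul]
  have ht' : (t : ℂ) ≠ 0 := by exact_mod_cast ht.ne'
  have h1 : HasDerivAt (fun t : ℝ => z / (t : ℂ)) (-z / (t : ℂ) ^ 2) t := by
    have h2 : HasDerivAt (fun w : ℂ => z / w) (-z / (t : ℂ) ^ 2) (t : ℂ) := by
      refine HasDerivAt.congr_deriv ((hasDerivAt_inv ht').const_mul z) ?_
      rw [mul_neg, neg_div, div_eq_mul_inv]
    exact h2.comp_ofReal
  have h2 : HasDerivAt (keraLog p ∘ fun t : ℝ => z / (t : ℂ))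
      ((-(z / t)) ^ p / (1 + z / t) * (-z / (t : ℂ) ^ 2)) t :=
    HasDerivAt.comp t (kera_hasDeriv p (hs t ht)) h1
  have h3 := (Complex.reCLM.hasFDerivAt (x := keraLog p (z / t))).comp_hasDerivAt t h2
  have h4 : (ker p z) =ᶠ[𝓝 t] fun t : ℝ => (keraLog p (z / t)).re := by
    filter_upwards [lt_mem_nhds ht] with s hs'
    exact kera_eq p z (slitPlane_ne_zero (hs s hs'))
  refine HasDerivAt.congr_of_eventuallyEq ?_ h4
  have h5 : ((-z / t) ^ (p + 1) / (1 + z / t)).re / t =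
      (((-(z / t)) ^ p / (1 + z / t) * (-z / (t : ℂ) ^ 2))).re := by
    have h6 : (-(z / (t : ℂ))) ^ p / (1 + z / t) * (-z / (t : ℂ) ^ 2) =
        ((-z / t) ^ (p + 1) / (1 + z / t)) / (t : ℂ) := by
      rw [neg_div (t : ℂ) z, show -z / (t : ℂ) ^ 2 = -(z / t) / t by field_simp, pow_succ]
      ring
    rw [h6]
    rw [Complex.div_ofReal_re]
  rw [h5]
  exact h3

lemma kera_pow_le (p : ℕ) {ζ : ℂ} {δ : ℝ} (hδ : 0 < δ) (hδ' : δ ≤ Real.pi)
    (hζ : |ζ.arg| ≤ Real.pi - δ) :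
    ‖(-ζ) ^ p / (1 + ζ)‖ ≤ ‖ζ‖ ^ p / (1 + ‖ζ‖) / Real.sin (δ / 2) := by
  have hs : 0 < Real.sin (δ / 2) := Real.sin_pos_of_pos_of_lt_pi (by linarith)
    (by linarith [Real.pi_pos])
  have h1 := norm_one_add_ge hδ hδ' hζ
  rw [norm_div, norm_pow, norm_neg, div_div]
  apply div_le_div_of_nonneg_left (by positivity) (by positivity) h1

lemma kera_zero (p : ℕ) : keraLog p 0 = 0 := by
  simp [keraLog]

lemma abs_ker_le (p : ℕ) {z : ℂ} (hz : z ∈ slitPlane) {δ : ℝ} (hδ : 0 < δ) (hδ' : δ ≤ Real.pi)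
    (hz' : |z.arg| ≤ Real.pi - δ) {t : ℝ} (ht : 0 < t) :
    |ker p z t| ≤ Phi p (‖z‖ / t) / Real.sin (δ / 2) := by
  have hsin : 0 < Real.sin (δ / 2) := Real.sin_pos_of_pos_of_lt_pi (by linarith)
    (by linarith [Real.pi_pos])
  have hz0 : z ≠ 0 := slitPlane_ne_zero hz
  have hn : 0 < ‖z‖ := norm_pos_iff.2 hz0
  have hn' : (‖z‖ : ℂ) ≠ 0 := by exact_mod_cast hn.ne'
  have ht' : (t : ℂ) ≠ 0 := by exact_mod_cast ht.ne'
  set e : ℂ := z / ‖z‖ with he
  have he1 : ‖e‖ = 1 := by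
    rw [he, norm_div, Complex.norm_real, norm_norm, div_self hn.ne']
  have hslit : ∀ x : ℝ, 0 ≤ x → 1 + x * e ∈ slitPlane := by
    intro x hx
    have := kera_slit hz (c := x / ‖z‖) (by positivity)
    convert this using 2
    rw [he]
    push_cast
    ring
  have harg : ∀ x : ℝ, 0 ≤ x → |(x * e).arg| ≤ Real.pi - δ := by
    intro x hx
    rcases hx.eq_or_lt with h | h
    · rw [← h]
      simp
      linarith
    · rw [Complex.arg_real_mul _ h, he, show z / (‖z‖ : ℂ) = ((‖z‖⁻¹ : ℝ) : ℂ) * z by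
        push_cast
        rw [div_eq_inv_mul], Complex.arg_real_mul _ (by positivity)]
      exact hz'
  have hd : ∀ x : ℝ, 0 ≤ x →
      HasDerivAt (fun x : ℝ => keraLog p (x * e)) ((-(x * e)) ^ p / (1 + x * e) * e) x := by
    intro x hx
    have h1 : HasDerivAt (fun x : ℝ => (x : ℂ) * e) e x := by
      have := (hasDerivAt_id (x : ℂ)).mul_const e
      simp only [one_mul] at this
      exact this.comp_ofReal
    exact HasDerivAt.comp (h₂ := keraLog p) x (kera_hasDeriv p (hslit x hx)) h1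
  have key : ∀ ⦃x⦄, x ∈ Icc (0 : ℝ) (‖z‖ / t) →
      ‖keraLog p (x * e)‖ ≤ Phi p x / Real.sin (δ / 2) := by
    apply image_norm_le_of_norm_deriv_right_le_deriv_boundary' (E := ℂ) (a := 0) (b := ‖z‖ / t)
      (f := fun x : ℝ => keraLog p (x * e)) (B := fun x => Phi p x / Real.sin (δ / 2))
      (f' := fun x => (-(x * e)) ^ p / (1 + x * e) * e)
      (B' := fun x => x ^ p / (1 + x) / Real.sin (δ / 2))
    · intro x hx
      exact (hd x hx.1).continuousAt.continuousWithinAt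
    · intro x hx
      exact (hd x hx.1).hasDerivWithinAt
    · simp [kera_zero, Phi]
    · apply ContinuousOn.div_const
      exact (continuousOn_Phi p).mono (fun x hx => hx.1)
    · intro x hx
      exact (phi_hasDeriv p hx.1).div_const _
    · intro x hx
      rw [norm_mul, he1, mul_one]
      have h1 := kera_pow_le p hδ hδ' (harg x hx.1)
      rw [norm_mul, he1, mul_one, Complex.norm_real, Real.norm_of_nonneg hx.1] at h1
      exact h1
  have h1 := key (x := ‖z‖ / t) ⟨by positivity, le_rfl⟩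
  have h2 : ((‖z‖ / t : ℝ) : ℂ) * e = z / t := by
    rw [he]
    push_cast
    field_simp
  rw [h2] at h1
  have h3 : 1 + z / t ∈ slitPlane := by
    rw [← h2]
    exact hslit _ (by positivity)
  rw [kera_eq p z (slitPlane_ne_zero h3)]
  exact (Complex.abs_re_le_norm _).trans h1

lemma abs_ker_sub_le (p : ℕ) {z z' : ℂ} (hz : z ∈ slitPlane) (hz' : z' ∈ slitPlane) {δ : ℝ}
    (hδ : 0 < δ) (hδ' : δ ≤ Real.pi) (h1 : |z.arg| ≤ Real.pi - δ) (h2 : |z'.arg| ≤ Real.pi - δ)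
    (h3 : |Real.log ‖z‖ - Real.log ‖z'‖| ≤ 1) {t : ℝ} (ht : 0 < t) :
    |ker p z t - ker p z' t| ≤ (p + 1) * Real.exp (p + 1) *
      (|Real.log ‖z‖ - Real.log ‖z'‖| + |z.arg - z'.arg|) * Phi p (‖z'‖ / t) / Real.sin (δ / 2) := by
  have hsin : 0 < Real.sin (δ / 2) := Real.sin_pos_of_pos_of_lt_pi (by linarith)
    (by linarith [Real.pi_pos])
  have hz0 : z ≠ 0 := slitPlane_ne_zero hz
  have hz0' : z' ≠ 0 := slitPlane_ne_zero hz'
  have hn : 0 < ‖z‖ := norm_pos_iff.2 hz0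
  have hn' : 0 < ‖z'‖ := norm_pos_iff.2 hz0'
  have ht' : (t : ℂ) ≠ 0 := by exact_mod_cast ht.ne'
  set a : ℂ := Complex.log z' - Real.log t with ha
  set b : ℂ := Complex.log z - Complex.log z' with hb
  have hlt : Complex.exp (Real.log t : ℂ) = t := by
    rw [← Complex.ofReal_exp, Real.exp_log ht]
  have e0 : Complex.exp a = z' / t := by
    rw [ha, Complex.exp_sub, Complex.exp_log hz0', hlt]
  have e1 : Complex.exp (a + b) = z / t := by
    rw [ha, hb, show Complex.log z' - (Real.log t : ℂ) + (Complex.log z - Complex.log z') =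
      Complex.log z - Real.log t by ring, Complex.exp_sub, Complex.exp_log hz0, hlt]
  have aim : a.im = z'.arg := by
    simp [ha, Complex.log_im]
  have bim : b.im = z.arg - z'.arg := by
    simp [hb, Complex.log_im]
  have are : a.re = Real.log (‖z'‖ / t) := by
    rw [Real.log_div hn'.ne' ht.ne']
    simp [ha, Complex.log_re]
  have bre : b.re = Real.log ‖z‖ - Real.log ‖z'‖ := by
    simp [hb, Complex.log_re]
  have him : ∀ s : ℝ, 0 ≤ s → s ≤ 1 → |(a + s * b).im| ≤ Real.pi - δ := by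
    intro s hs0 hs1
    rw [abs_le] at h1 h2 ⊢
    have : (a + s * b).im = (1 - s) * z'.arg + s * z.arg := by
      simp [aim, bim]
      ring
    rw [this]
    constructor <;> nlinarith
  have hargs : ∀ s : ℝ, 0 ≤ s → s ≤ 1 → (Complex.exp (a + s * b)).arg = (a + s * b).im := by
    intro s hs0 hs1
    have h4 := abs_le.1 (him s hs0 hs1)
    rw [Complex.arg_exp]
    rw [toIocMod_eq_self]
    constructor <;> linarith
  have hslit : ∀ s : ℝ, 0 ≤ s → s ≤ 1 → 1 + Complex.exp (a + s * b) ∈ slitPlane := by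
    intro s hs0 hs1
    have h4 : Complex.exp (a + s * b) ∈ slitPlane := by
      rw [Complex.mem_slitPlane_iff_arg]
      refine ⟨?_, Complex.exp_ne_zero _⟩
      rw [hargs s hs0 hs1]
      have h5 := abs_le.1 (him s hs0 hs1)
      intro h6
      linarith
    have := kera_slit h4 (c := 1) zero_le_one
    simpa using this
  have hd : ∀ s : ℝ, 0 ≤ s → s ≤ 1 →
      HasDerivAt (fun s : ℝ => keraLog p (Complex.exp (a + s * b)))
        ((-(Complex.exp (a + s * b))) ^ p / (1 + Complex.exp (a + s * b)) *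
          (Complex.exp (a + s * b) * b)) s := by
    intro s hs0 hs1
    have h4 : HasDerivAt (fun s : ℝ => Complex.exp (a + s * b))
        (Complex.exp (a + s * b) * b) s := by
      have h5 : HasDerivAt (fun w : ℂ => a + w * b) b (s : ℂ) := by
        have := ((hasDerivAt_id (s : ℂ)).mul_const b).const_add a
        simpa using this
      exact (h5.cexp).comp_ofReal
    exact HasDerivAt.comp (h₂ := keraLog p) s (kera_hasDeriv p (hslit s hs0 hs1)) h4
  set R : ℝ := ‖z'‖ / t with hR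
  have hR0 : 0 < R := by positivity
  set K : ℝ := (p + 1) * Real.exp (p + 1) * Phi p R / Real.sin (δ / 2) with hK
  have hbn : ‖b‖ ≤ |Real.log ‖z‖ - Real.log ‖z'‖| + |z.arg - z'.arg| := by
    rw [← bre, ← bim]
    exact Complex.norm_le_abs_re_add_abs_im b
  have hbound : ∀ s : ℝ, 0 ≤ s → s ≤ 1 →
      ‖(-(Complex.exp (a + s * b))) ^ p / (1 + Complex.exp (a + s * b)) *
          (Complex.exp (a + s * b) * b)‖ ≤ K * ‖b‖ := by
    intro s hs0 hs1
    set ζ : ℂ := Complex.exp (a + s * b) with hζ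
    have h4 : |ζ.arg| ≤ Real.pi - δ := by
      rw [hargs s hs0 hs1]
      exact him s hs0 hs1
    have h5 := kera_pow_le p hδ hδ' h4
    have h6 : 0 < ‖ζ‖ := norm_pos_iff.2 (Complex.exp_ne_zero _)
    have h7 : ‖ζ‖ ≤ Real.exp 1 * R := by
      rw [hζ, Complex.norm_exp]
      have : Real.exp 1 * R = Real.exp (1 + Real.log R) := by
        rw [Real.exp_add, Real.exp_log hR0]
      rw [this]
      apply Real.exp_le_exp.2
      have h8 : (a + s * b).re = Real.log R + s * (Real.log ‖z‖ - Real.log ‖z'‖) := by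
        simp [are, bre]
      rw [h8]
      have h9 := abs_le.1 h3
      nlinarith
    have h8 : ‖ζ‖ ^ (p + 1) / (1 + ‖ζ‖) ≤ Real.exp (p + 1) * (R ^ (p + 1) / (1 + R)) := by
      have h9 : Real.exp ((p : ℝ) + 1) = Real.exp 1 ^ (p + 1) := by
        rw [← Real.exp_nat_mul]
        push_cast
        ring_nf
      have h10 : (1 : ℝ) ≤ Real.exp 1 := Real.one_le_exp zero_le_one
      calc ‖ζ‖ ^ (p + 1) / (1 + ‖ζ‖)
          ≤ (Real.exp 1 * R) ^ (p + 1) / (1 + Real.exp 1 * R) := by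
            rw [div_le_div_iff₀ (by positivity) (by positivity)]
            have h11 : ‖ζ‖ ^ p ≤ (Real.exp 1 * R) ^ p := pow_le_pow_left₀ h6.le h7 p
            have h12 : ‖ζ‖ * (1 + Real.exp 1 * R) ≤ Real.exp 1 * R * (1 + ‖ζ‖) := by
              nlinarith
            calc ‖ζ‖ ^ (p + 1) * (1 + Real.exp 1 * R)
                = ‖ζ‖ ^ p * (‖ζ‖ * (1 + Real.exp 1 * R)) := by ring
              _ ≤ (Real.exp 1 * R) ^ p * (Real.exp 1 * R * (1 + ‖ζ‖)) := by gcongr
              _ = (Real.exp 1 * R) ^ (p + 1) * (1 + ‖ζ‖) := by ring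
        _ ≤ (Real.exp 1 * R) ^ (p + 1) / (1 + R) := by
            apply div_le_div_of_nonneg_left (by positivity) (by positivity)
            nlinarith
        _ = Real.exp (p + 1) * (R ^ (p + 1) / (1 + R)) := by
            rw [h9, mul_pow]
            ring
    have h9 : R ^ (p + 1) / (1 + R) ≤ (p + 1) * Phi p R := by
      have := Phi_ge p hR0.le
      have h10 : R ^ (p + 1) / (1 + R) = (p + 1) * (R ^ (p + 1) / ((p + 1) * (1 + R))) := by
        field_simp
      rw [h10]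
      gcongr
    rw [norm_mul, norm_mul]
    calc ‖(-ζ) ^ p / (1 + ζ)‖ * (‖ζ‖ * ‖b‖)
        ≤ ‖ζ‖ ^ p / (1 + ‖ζ‖) / Real.sin (δ / 2) * (‖ζ‖ * ‖b‖) := by gcongr
      _ = (‖ζ‖ ^ (p + 1) / (1 + ‖ζ‖)) / Real.sin (δ / 2) * ‖b‖ := by ring
      _ ≤ (Real.exp (p + 1) * (R ^ (p + 1) / (1 + R))) / Real.sin (δ / 2) * ‖b‖ := by gcongr
      _ ≤ (Real.exp (p + 1) * ((p + 1) * Phi p R)) / Real.sin (δ / 2) * ‖b‖ := by gcongr
      _ = K * ‖b‖ := by rw [hK]; ring
  have key := norm_image_sub_le_of_norm_deriv_le_segment_01'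
    (f := fun s : ℝ => keraLog p (Complex.exp (a + s * b)))
    (fun s hs => (hd s hs.1 hs.2).hasDerivWithinAt)
    (fun s hs => hbound s hs.1 hs.2.le)
  simp only [Complex.ofReal_one, one_mul, Complex.ofReal_zero, zero_mul, add_zero] at key
  have s1 := hslit 1 zero_le_one le_rfl
  have s0 := hslit 0 le_rfl zero_le_one
  simp only [Complex.ofReal_one, one_mul, Complex.ofReal_zero, zero_mul, add_zero] at s1 s0
  rw [e0] at key s0
  rw [e1] at key s1
  rw [kera_eq p z (slitPlane_ne_zero s1), kera_eq p z' (slitPlane_ne_zero s0), ← Complex.sub_re]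
  have hK0 : 0 ≤ K := by
    have := Phi_nonneg p hR0.le
    rw [hK]
    positivity
  calc |(keraLog p (z / t) - keraLog p (z' / t)).re|
      ≤ ‖keraLog p (z / t) - keraLog p (z' / t)‖ := Complex.abs_re_le_norm _
    _ ≤ K * ‖b‖ := key
    _ ≤ K * (|Real.log ‖z‖ - Real.log ‖z'‖| + |z.arg - z'.arg|) := by gcongr
    _ = _ := by rw [hK]; ring

end Helper25.Ind
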