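import Pool.Agent.Helper25.Ind.Defs
import Pool.Agent.Helper25.Ind.KerA
import Pool.Agent.Helper25.Ind.Int

open Complex Filter Topology MeasureTheory Set

namespace Helper25.Ind

private lemma layer_pos {ρ A : ℝ} {μ : Measure ℝ} (hμ : Growth ρ A μ) : ∀ᵐ t ∂μ, 0 < t := by
  rw [ae_iff]
  have h : {t : ℝ | ¬ 0 < t} = Iic 0 := by ext t; simp
  rw [h]
  exact hμ.1

private lemma layer_fin {p : ℕ} {ρ A : ℝ} (h1 : (p : ℝ) < ρ) (h2 : ρ < p + 1) (hA : 0 ≤ A)
    {μ : Measure ℝ} (hμ : Growth ρ A μ) {r s : ℝ} (hr : 0 < r) (hs : 0 < s) :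
    ∫⁻ t, ENNReal.ofReal (Phi p (r / t) / s) ∂μ < ⊤ := by
  obtain ⟨κ, hκ, C, hC, H⟩ := lintegral_exp_weight_le h1 h2
  have h3 := H A μ hA hμ r hr
  calc ∫⁻ t, ENNReal.ofReal (Phi p (r / t) / s) ∂μ
      ≤ ∫⁻ t, ENNReal.ofReal s⁻¹ *
          ENNReal.ofReal (Real.exp (κ * |Real.log (r / t)|) * Phi p (r / t)) ∂μ := by
        refine lintegral_mono_ae ?_
        filter_upwards [layer_pos hμ] with t ht
        rw [← ENNReal.ofReal_mul (by positivity)]
        refine ENNReal.ofReal_le_ofReal ?_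
        have hP := Phi_nonneg p (div_pos hr ht).le
        rw [div_eq_inv_mul]
        refine mul_le_mul_of_nonneg_left ?_ (by positivity)
        have h4 : 1 ≤ Real.exp (κ * |Real.log (r / t)|) := Real.one_le_exp (by positivity)
        nlinarith
    _ = ENNReal.ofReal s⁻¹ * ∫⁻ t,
          ENNReal.ofReal (Real.exp (κ * |Real.log (r / t)|) * Phi p (r / t)) ∂μ :=
        lintegral_const_mul' _ _ ENNReal.ofReal_ne_top
    _ ≤ ENNReal.ofReal s⁻¹ * ENNReal.ofReal (C * A * r ^ ρ) := by gcongr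
    _ < ⊤ := ENNReal.mul_lt_top ENNReal.ofReal_lt_top ENNReal.ofReal_lt_top

private lemma layer_measurable_ker (p : ℕ) (z : ℂ) : Measurable (ker p z) := by
  have h1 : Continuous (primary p) := by
    unfold primary
    fun_prop
  have h2 : Measurable fun t : ℝ => -z / (t : ℂ) :=
    Measurable.div measurable_const Complex.measurable_ofReal
  exact Real.measurable_log.comp (h1.measurable.comp h2).norm

/-- the data attached to `z` in the slit plane -/
private lemma layer_delta {z : ℂ} (hz : z ∈ slitPlane) :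
    0 < ‖z‖ ∧ 0 < Real.pi - |z.arg| ∧ Real.pi - |z.arg| ≤ Real.pi ∧
      0 < Real.sin ((Real.pi - |z.arg|) / 2) := by
  have h0 : z ≠ 0 := slitPlane_ne_zero hz
  have h1 : |z.arg| < Real.pi := by
    rw [abs_lt]
    refine ⟨neg_pi_lt_arg z, lt_of_le_of_ne (arg_le_pi z) ?_⟩
    exact (mem_slitPlane_iff_arg.1 hz).1
  have h2 := abs_nonneg z.arg
  refine ⟨norm_pos_iff.2 h0, by linarith, by linarith, Real.sin_pos_of_pos_of_lt_pi ?_ ?_⟩
  · linarith
  · linarith [Real.pi_pos]

theorem integrable_ker {p : ℕ} {ρ A : ℝ} (h1 : (p : ℝ) < ρ) (h2 : ρ < p + 1) (hA : 0 ≤ A)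
    {μ : Measure ℝ} (hμ : Growth ρ A μ) {z : ℂ} (hz : z ∈ slitPlane) :
    Integrable (ker p z) μ := by
  obtain ⟨hr, hδ, hδ', hs⟩ := layer_delta hz
  refine ⟨(layer_measurable_ker p z).aestronglyMeasurable, ?_⟩
  refine lt_of_le_of_lt (lintegral_mono_ae ?_) (layer_fin h1 h2 hA hμ hr hs)
  filter_upwards [layer_pos hμ] with t ht
  rw [Real.enorm_eq_ofReal_abs]
  exact ENNReal.ofReal_le_ofReal (abs_ker_le p hz hδ hδ' (by linarith) ht)

private lemma layer_phi_deriv (p : ℕ) {x : ℝ} (hx : 0 < x) :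
    HasDerivAt (Phi p) (x ^ p / (1 + x)) x := by
  have hc : ContinuousOn (fun y : ℝ => y ^ p / (1 + y)) (Ioi (-1)) := by
    refine ContinuousOn.div (by fun_prop) (by fun_prop) fun y hy => ?_
    have : (-1 : ℝ) < y := hy
    linarith
  have hsub : uIcc 0 x ⊆ Ioi (-1 : ℝ) := by
    rw [uIcc_of_le hx.le]
    intro y hy
    have := hy.1
    show (-1 : ℝ) < y
    linarith
  refine intervalIntegral.integral_hasDerivAt_right
    (hc.mono hsub).intervalIntegrable ?_ (hc.continuousAt (Ioi_mem_nhds (by linarith)))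
  exact hc.stronglyMeasurableAtFilter isOpen_Ioi x (show (-1 : ℝ) < x by linarith)

private lemma layer_comp_deriv (p : ℕ) {r τ : ℝ} (hr : 0 < r) (hτ : 0 < τ) :
    HasDerivAt (fun t => Phi p (r / t)) (-((r / τ) ^ (p + 1) / ((1 + r / τ) * τ))) τ := by
  have h1 := layer_phi_deriv p (div_pos hr hτ)
  have h2 : HasDerivAt (fun t : ℝ => r / t) (-(r / τ ^ 2)) τ := by
    have := (hasDerivAt_inv hτ.ne').const_mul r
    simpa [div_eq_mul_inv] using this
  have h3 := h1.comp τ h2
  refine h3.congr_deriv ?_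
  have h4 : 1 + r / τ ≠ 0 := by positivity
  have h5 : (r / τ) ^ (p + 1) = (r / τ) ^ p * (r / τ) := pow_succ _ _
  rw [h5]
  generalize (r / τ) ^ p = X
  field_simp

private lemma layer_tendsto (p : ℕ) {r : ℝ} (hr : 0 < r) :
    Tendsto (fun t => Phi p (r / t)) atTop (𝓝 0) := by
  have h0 : Phi p 0 = 0 := by simp [Phi]
  have h1 : Tendsto (fun t : ℝ => r / t) atTop (𝓝[Ici 0] 0) := by
    refine tendsto_nhdsWithin_iff.2 ⟨tendsto_const_nhds.div_atTop tendsto_id, ?_⟩
    filter_upwards [eventually_gt_atTop 0] with t ht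
    exact (div_pos hr ht).le
  have h2 := (continuousOn_Phi p 0 (mem_Ici.2 le_rfl)).tendsto.comp h1
  rwa [h0] at h2

private lemma layer_G (p : ℕ) {r t : ℝ} (hr : 0 < r) (ht : 0 < t) :
    IntegrableOn (fun τ : ℝ => (r / τ) ^ (p + 1) / ((1 + r / τ) * τ)) (Ioi t) ∧
      ∫ τ in Ioi t, (r / τ) ^ (p + 1) / ((1 + r / τ) * τ) = Phi p (r / t) := by
  have hd : ∀ x ∈ Ioi t, HasDerivAt (fun t => Phi p (r / t))
      (-((r / x) ^ (p + 1) / ((1 + r / x) * x))) x := fun x hx =>
    layer_comp_deriv p hr (ht.trans hx)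
  have hc : ContinuousWithinAt (fun t => Phi p (r / t)) (Ici t) t :=
    (layer_comp_deriv p hr ht).continuousAt.continuousWithinAt
  have hneg : ∀ x ∈ Ioi t, -((r / x) ^ (p + 1) / ((1 + r / x) * x)) ≤ 0 := fun x hx => by
    have hx0 : 0 < x := ht.trans hx
    have : 0 ≤ (r / x) ^ (p + 1) / ((1 + r / x) * x) := by positivity
    linarith
  have h1 := integrableOn_Ioi_deriv_of_nonpos hc hd hneg (layer_tendsto p hr)
  have h2 := integral_Ioi_of_hasDerivAt_of_nonpos hc hd hneg (layer_tendsto p hr)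
  refine ⟨?_, ?_⟩
  · have := h1.neg
    refine this.congr ?_
    exact ae_of_all _ fun x => by simp
  · rw [integral_neg] at h2
    linarith

private lemma layer_bound (p : ℕ) {z : ℂ} (hz : z ∈ slitPlane) {τ : ℝ} (hτ : 0 < τ) :
    |((-z / τ) ^ (p + 1) / (1 + z / τ)).re / τ| ≤
      (‖z‖ / τ) ^ (p + 1) / ((1 + ‖z‖ / τ) * τ) / Real.sin ((Real.pi - |z.arg|) / 2) := by
  obtain ⟨hr, hδ, hδ', hs⟩ := layer_delta hz
  have harg : (z / τ).arg = z.arg := by
    have : z / (τ : ℂ) = ((τ⁻¹ : ℝ) : ℂ) * z := by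
      rw [ofReal_inv, div_eq_inv_mul]
    rw [this, arg_real_mul z (inv_pos.2 hτ)]
  have hnorm : ‖z / (τ : ℂ)‖ = ‖z‖ / τ := by
    rw [norm_div, norm_real, Real.norm_of_nonneg hτ.le]
  have h1 := norm_one_add_ge (z := z / τ) hδ hδ' (by rw [harg]; linarith)
  rw [hnorm] at h1
  have h2 : 0 < 1 + ‖z‖ / τ := by positivity
  rw [abs_div, abs_of_pos hτ]
  have h3 : |((-z / τ) ^ (p + 1) / (1 + z / τ)).re| ≤ (‖z‖ / τ) ^ (p + 1) /
      ((1 + ‖z‖ / τ) * Real.sin ((Real.pi - |z.arg|) / 2)) := by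
    refine (abs_re_le_norm _).trans ?_
    rw [norm_div, norm_pow, neg_div, norm_neg, hnorm]
    exact div_le_div_of_nonneg_left (by positivity) (by positivity) h1
  calc |((-z / τ) ^ (p + 1) / (1 + z / τ)).re| / τ ≤ (‖z‖ / τ) ^ (p + 1) /
      ((1 + ‖z‖ / τ) * Real.sin ((Real.pi - |z.arg|) / 2)) / τ := by gcongr
    _ = _ := by field_simp

private lemma layer_measurable_k (p : ℕ) (z : ℂ) :
    Measurable fun τ : ℝ => ((-z / τ) ^ (p + 1) / (1 + z / τ)).re / τ := by
  have h : ∀ w : ℂ, Measurable fun t : ℝ => w / (t : ℂ) := fun w =>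
    Measurable.div measurable_const Complex.measurable_ofReal
  refine Measurable.div (Complex.measurable_re.comp ?_) measurable_id
  exact ((h (-z)).pow_const _).div (measurable_const.add (h z))

private lemma layer_k (p : ℕ) {z : ℂ} (hz : z ∈ slitPlane) {t : ℝ} (ht : 0 < t) :
    IntegrableOn (fun τ : ℝ => ((-z / τ) ^ (p + 1) / (1 + z / τ)).re / τ) (Ioi t) ∧
      ∫ τ in Ioi t, ((-z / τ) ^ (p + 1) / (1 + z / τ)).re / τ = -ker p z t ∧
      ∫ τ in Ioi t, |((-z / τ) ^ (p + 1) / (1 + z / τ)).re / τ| ≤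
        Phi p (‖z‖ / t) / Real.sin ((Real.pi - |z.arg|) / 2) := by
  obtain ⟨hr, hδ, hδ', hs⟩ := layer_delta hz
  obtain ⟨hG, hG'⟩ := layer_G p hr ht
  have hint : IntegrableOn (fun τ : ℝ => ((-z / τ) ^ (p + 1) / (1 + z / τ)).re / τ) (Ioi t) := by
    refine Integrable.mono' (hG.div_const (Real.sin ((Real.pi - |z.arg|) / 2)))
      (layer_measurable_k p z).aestronglyMeasurable ?_
    refine (ae_restrict_iff' measurableSet_Ioi).2 (ae_of_all _ fun τ hτ => ?_)
    exact layer_bound p hz (ht.trans hτ)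
  refine ⟨hint, ?_, ?_⟩
  · have htend : Tendsto (ker p z) atTop (𝓝 0) := by
      rw [tendsto_zero_iff_abs_tendsto_zero]
      have h1 := (layer_tendsto p hr).div_const (Real.sin ((Real.pi - |z.arg|) / 2))
      rw [zero_div] at h1
      refine squeeze_zero' (Eventually.of_forall fun t => abs_nonneg _) ?_ h1
      filter_upwards [eventually_gt_atTop 0] with t ht
      exact abs_ker_le p hz hδ hδ' (by linarith) ht
    have h2 := integral_Ioi_of_hasDerivAt_of_tendsto
      (hasDerivAt_ker p hz ht).continuousAt.continuousWithinAt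
      (fun x hx => hasDerivAt_ker p hz (ht.trans hx)) hint htend
    rw [h2, zero_sub]
  · rw [← hG', ← integral_div]
    refine integral_mono_of_nonneg (ae_of_all _ fun τ => abs_nonneg _)
      (hG.div_const _) ?_
    refine (ae_restrict_iff' measurableSet_Ioi).2 (ae_of_all _ fun τ hτ => ?_)
    exact layer_bound p hz (ht.trans hτ)

private lemma layer_sigmaFinite {ρ A : ℝ} {μ : Measure ℝ} (hμ : Growth ρ A μ) :
    SigmaFinite μ := by
  refine ⟨⟨⟨fun n : ℕ => Iic ((n : ℝ) + 1), fun _ => trivial, fun n => ?_, ?_⟩⟩⟩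
  · exact lt_of_le_of_lt (hμ.2 _ (by positivity)) ENNReal.ofReal_lt_top
  · refine eq_univ_of_forall fun x => ?_
    obtain ⟨n, hn⟩ := exists_nat_ge x
    exact mem_iUnion.2 ⟨n, by
      show x ≤ (n : ℝ) + 1
      linarith⟩

theorem integral_ker_eq {p : ℕ} {ρ A : ℝ} (h1 : (p : ℝ) < ρ) (h2 : ρ < p + 1) (hA : 0 ≤ A)
    {μ : Measure ℝ} (hμ : Growth ρ A μ) {z : ℂ} (hz : z ∈ slitPlane) :
    IntegrableOn (fun t : ℝ => (μ (Iic t)).toReal * (((-z / t) ^ (p + 1) / (1 + z / t)).re / t))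
      (Ioi 0) ∧
    ∫ t, ker p z t ∂μ =
      -∫ t in Ioi (0 : ℝ), (μ (Iic t)).toReal * (((-z / t) ^ (p + 1) / (1 + z / t)).re / t) := by
  obtain ⟨hr, hδ, hδ', hs⟩ := layer_delta hz
  have hσ := layer_sigmaFinite hμ
  set k : ℝ → ℝ := fun τ => ((-z / τ) ^ (p + 1) / (1 + z / τ)).re / τ with hk
  have hkm : Measurable k := layer_measurable_k p z
  set F : ℝ → ℝ → ℝ := fun t τ => (Ici t).indicator k τ with hF
  have hFm : StronglyMeasurable (Function.uncurry F) := by
    have h3 : Function.uncurry F = {x : ℝ × ℝ | x.1 ≤ x.2}.indicator fun x => k x.2 := by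
      ext ⟨t, τ⟩
      simp [hF, Function.uncurry, indicator]
    rw [h3]
    exact ((hkm.comp measurable_snd).indicator
      (measurableSet_le measurable_fst measurable_snd)).stronglyMeasurable
  -- the inner integrals
  have hset : ∀ t : ℝ, 0 < t → Ici t ∩ Ioi 0 = Ici t := fun t ht =>
    inter_eq_left.2 fun x hx => lt_of_lt_of_le ht hx
  have hFint : ∀ t, 0 < t → Integrable (F t) (volume.restrict (Ioi 0)) := fun t ht => by
    rw [hF]
    show Integrable ((Ici t).indicator k) (volume.restrict (Ioi 0))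
    rw [integrable_indicator_iff measurableSet_Ici, IntegrableOn,
      Measure.restrict_restrict measurableSet_Ici, hset t ht]
    exact (integrableOn_Ici_iff_integrableOn_Ioi (by simp)).2 (layer_k p hz ht).1
  have hFval : ∀ t, 0 < t → ∫ τ in Ioi 0, F t τ = -ker p z t := fun t ht => by
    rw [hF]
    show ∫ τ in Ioi 0, (Ici t).indicator k τ = _
    rw [integral_indicator measurableSet_Ici, Measure.restrict_restrict measurableSet_Ici,
      hset t ht, integral_Ici_eq_integral_Ioi]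
    exact (layer_k p hz ht).2.1
  have hFabs : ∀ t, 0 < t → ∫ τ in Ioi 0, ‖F t τ‖ ≤
      Phi p (‖z‖ / t) / Real.sin ((Real.pi - |z.arg|) / 2) := fun t ht => by
    rw [hF]
    show ∫ τ in Ioi 0, ‖(Ici t).indicator k τ‖ ≤ _
    simp_rw [norm_indicator_eq_indicator_norm]
    rw [integral_indicator measurableSet_Ici, Measure.restrict_restrict measurableSet_Ici,
      hset t ht, integral_Ici_eq_integral_Ioi]
    exact (layer_k p hz ht).2.2
  have hprod : Integrable (Function.uncurry F) (μ.prod (volume.restrict (Ioi 0))) := by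
    rw [integrable_prod_iff hFm.aestronglyMeasurable]
    refine ⟨?_, ?_⟩
    · filter_upwards [layer_pos hμ] with t ht
      exact hFint t ht
    · refine ⟨hFm.norm.integral_prod_right'.aestronglyMeasurable, ?_⟩
      refine lt_of_le_of_lt (lintegral_mono_ae ?_) (layer_fin h1 h2 hA hμ hr hs)
      filter_upwards [layer_pos hμ] with t ht
      rw [Real.enorm_eq_ofReal_abs,
        abs_of_nonneg (integral_nonneg fun _ => norm_nonneg _)]
      exact ENNReal.ofReal_le_ofReal (hFabs t ht)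
  have hswap := integral_integral_swap (f := F) hprod
  have hinner : ∀ τ : ℝ, 0 < τ → ∫ t, F t τ ∂μ = (μ (Iic τ)).toReal * k τ := fun τ hτ => by
    have h3 : (fun t => F t τ) = (Iic τ).indicator fun _ => k τ := by
      ext t
      simp [hF, indicator]
    rw [h3, integral_indicator_const _ measurableSet_Iic]
    rfl
  have hI := hprod.integral_prod_right
  refine ⟨?_, ?_⟩
  · refine hI.congr ?_
    refine (ae_restrict_iff' measurableSet_Ioi).2 (ae_of_all _ fun τ hτ => ?_)
    exact hinner τ hτ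
  · have h3 : ∫ t, ker p z t ∂μ = -∫ t, (∫ τ in Ioi 0, F t τ) ∂μ := by
      rw [← integral_neg]
      refine integral_congr_ae ?_
      filter_upwards [layer_pos hμ] with t ht
      rw [hFval t ht, neg_neg]
    rw [h3, hswap]
    congr 1
    refine setIntegral_congr_fun measurableSet_Ioi fun τ hτ => ?_
    exact hinner τ hτ

end Helper25.Ind
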