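import Pool.Agent.Helper25.Ind.Defs

/-!
# Quantiles of a locally finite measure with infinite mass
-/

open Complex Filter Topology MeasureTheory Set

namespace Helper25.Ind

private theorem quant_right {ν : Measure ℝ} (hfin : ∀ t, ν (Iic t) < ⊤) (a c : ℝ)
    (h : ∀ s, a < s → c ≤ (ν (Iic s)).toReal) : c ≤ (ν (Iic a)).toReal := by
  have h1 : Tendsto (fun n : ℕ => ν (Iic (a + 1 / ((n : ℝ) + 1)))) atTop
      (𝓝 (ν (⋂ n : ℕ, Iic (a + 1 / ((n : ℝ) + 1))))) := by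
    refine tendsto_measure_iInter_atTop (fun n => measurableSet_Iic.nullMeasurableSet) ?_
      ⟨0, (hfin _).ne⟩
    intro m n hmn
    refine Iic_subset_Iic.2 ?_
    have : (1 : ℝ) / ((n : ℝ) + 1) ≤ 1 / ((m : ℝ) + 1) := by
      apply one_div_le_one_div_of_le
      · positivity
      · have : (m : ℝ) ≤ n := by exact_mod_cast hmn
        linarith
    linarith
  have h2 : (⋂ n : ℕ, Iic (a + 1 / ((n : ℝ) + 1))) = Iic a := by
    ext x
    simp only [mem_iInter, mem_Iic]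
    constructor
    · intro hx
      refine le_of_forall_pos_le_add fun ε hε => ?_
      obtain ⟨n, hn⟩ := exists_nat_one_div_lt hε
      exact (hx n).trans (by linarith)
    · intro hx n
      have : (0 : ℝ) < 1 / ((n : ℝ) + 1) := by positivity
      linarith
  rw [h2] at h1
  have h3 : Tendsto (fun n : ℕ => (ν (Iic (a + 1 / ((n : ℝ) + 1)))).toReal) atTop
      (𝓝 (ν (Iic a)).toReal) :=
    (ENNReal.tendsto_toReal (hfin a).ne).comp h1
  refine ge_of_tendsto' h3 fun n => h _ ?_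
  have : (0 : ℝ) < 1 / ((n : ℝ) + 1) := by positivity
  linarith

private theorem quant_top {ν : Measure ℝ} (hfin : ∀ t, ν (Iic t) < ⊤) (hinf : ν univ = ⊤)
    (c : ℝ) : ∃ t, c ≤ (ν (Iic t)).toReal := by
  have h1 : Tendsto (fun n : ℕ => ν (Iic (n : ℝ))) atTop (𝓝 (ν (⋃ n : ℕ, Iic (n : ℝ)))) := by
    refine tendsto_measure_iUnion_atTop ?_
    intro m n hmn
    exact Iic_subset_Iic.2 (by exact_mod_cast hmn)
  have h2 : (⋃ n : ℕ, Iic (n : ℝ)) = univ := by
    rw [eq_univ_iff_forall]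
    intro x
    obtain ⟨n, hn⟩ := exists_nat_ge x
    exact mem_iUnion.2 ⟨n, hn⟩
  rw [h2, hinf] at h1
  have h3 : ∀ᶠ n : ℕ in atTop, ENNReal.ofReal c < ν (Iic (n : ℝ)) :=
    h1.eventually (lt_mem_nhds ENNReal.ofReal_lt_top)
  obtain ⟨n, hn⟩ := h3.exists
  exact ⟨n, (ENNReal.ofReal_le_iff_le_toReal (hfin _).ne).1 hn.le⟩

theorem exists_quantiles {ν : Measure ℝ} (h0 : ν (Iic 1) = 0) (hfin : ∀ t, ν (Iic t) < ⊤)
    (hinf : ν univ = ⊤) :
    ∃ a : ℕ → ℝ, (∀ k, 1 ≤ a k) ∧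
      ∀ t, (diracs a) (Iic t) = ((⌊(ν (Iic t)).toReal⌋₊ : ℕ) : ENNReal) := by
  have hmono : ∀ s t : ℝ, s ≤ t → (ν (Iic s)).toReal ≤ (ν (Iic t)).toReal := fun s t h =>
    ENNReal.toReal_mono (hfin t).ne (measure_mono (Iic_subset_Iic.2 h))
  have hbd : ∀ (k : ℕ) (t : ℝ), ((k : ℝ) + 1) ≤ (ν (Iic t)).toReal → 1 ≤ t := by
    intro k t h
    by_contra hlt
    push Not at hlt
    have h1 : ν (Iic t) = 0 := measure_mono_null (Iic_subset_Iic.2 hlt.le) h0
    rw [h1] at h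
    simp only [ENNReal.toReal_zero] at h
    have : (0 : ℝ) ≤ k := Nat.cast_nonneg _
    linarith
  have hne : ∀ k : ℕ, {t : ℝ | ((k : ℝ) + 1) ≤ (ν (Iic t)).toReal}.Nonempty := fun k =>
    quant_top hfin hinf _
  have hbb : ∀ k : ℕ, BddBelow {t : ℝ | ((k : ℝ) + 1) ≤ (ν (Iic t)).toReal} := fun k =>
    ⟨1, fun t ht => hbd k t ht⟩
  have hiff : ∀ (k : ℕ) (t : ℝ), sInf {t : ℝ | ((k : ℝ) + 1) ≤ (ν (Iic t)).toReal} ≤ t ↔
      ((k : ℝ) + 1) ≤ (ν (Iic t)).toReal := by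
    intro k t
    constructor
    · intro h
      refine le_trans ?_ (hmono _ _ h)
      refine quant_right hfin _ _ fun s hs => ?_
      obtain ⟨r, hr, hrs⟩ := exists_lt_of_csInf_lt (hne k) hs
      exact le_trans hr (hmono _ _ hrs.le)
    · intro h
      exact csInf_le (hbb k) h
  refine ⟨fun k => sInf {t : ℝ | ((k : ℝ) + 1) ≤ (ν (Iic t)).toReal}, fun k => ?_, fun t => ?_⟩
  · exact le_csInf (hne k) fun t ht => hbd k t ht
  · unfold diracs
    rw [Measure.sum_apply _ measurableSet_Iic]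
    have h1 : ∀ k : ℕ, (Measure.dirac (sInf {t : ℝ | ((k : ℝ) + 1) ≤ (ν (Iic t)).toReal}))
        (Iic t) = if k < ⌊(ν (Iic t)).toReal⌋₊ then (1 : ENNReal) else 0 := by
      intro k
      rw [Measure.dirac_apply' _ measurableSet_Iic, indicator_apply]
      have h2 : sInf {t : ℝ | ((k : ℝ) + 1) ≤ (ν (Iic t)).toReal} ∈ Iic t ↔
          k < ⌊(ν (Iic t)).toReal⌋₊ := by
        rw [mem_Iic, hiff k t, Nat.lt_iff_add_one_le, Nat.le_floor_iff ENNReal.toReal_nonneg]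
        push_cast
        rfl
      simp only [h2, Pi.one_apply]
    simp only [h1]
    rw [tsum_eq_sum (s := Finset.range ⌊(ν (Iic t)).toReal⌋₊)]
    · rw [Finset.sum_congr rfl fun k hk => if_pos (Finset.mem_range.1 hk)]
      simp
    · intro k hk
      exact if_neg fun h => hk (Finset.mem_range.2 h)

end Helper25.Ind
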