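import Pool.Agent.Helper25.Ind.Defs
import Pool.Agent.Helper25.Ind.Layer
import Pool.Agent.Helper25.Ind.Quant

open Complex Filter Topology MeasureTheory Set

namespace Helper25.Ind

lemma disc_hasDerivAt_Phi (p : ℕ) {x : ℝ} (hx : 0 < x) :
    HasDerivAt (Phi p) (x ^ p / (1 + x)) x := by
  have hc : ContinuousOn (fun y : ℝ => y ^ p / (1 + y)) (Ici 0) := by
    intro y hy
    have hy' : (0 : ℝ) ≤ y := hy
    refine ContinuousAt.continuousWithinAt ?_
    exact (continuousAt_id.pow p).div (continuousAt_const.add continuousAt_id)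
      (by show (1 : ℝ) + y ≠ 0; positivity)
  have hi : IntervalIntegrable (fun y : ℝ => y ^ p / (1 + y)) volume 0 x := by
    refine (hc.mono ?_).intervalIntegrable
    rw [uIcc_of_le hx.le]
    exact fun y hy => hy.1
  have h1 : StronglyMeasurableAtFilter (fun y : ℝ => y ^ p / (1 + y)) (𝓝 x) volume := by
    refine ContinuousOn.stronglyMeasurableAtFilter isOpen_Ioi (hc.mono ?_) x (mem_Ioi.2 hx)
    exact Ioi_subset_Ici_self
  have h2 : ContinuousAt (fun y : ℝ => y ^ p / (1 + y)) x :=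
    (hc x hx.le).continuousAt (Ici_mem_nhds hx)
  exact intervalIntegral.integral_hasDerivAt_right hi h1 h2

lemma disc_hasDerivAt (p : ℕ) {r t : ℝ} (hr : 0 < r) (ht : 0 < t) :
    HasDerivAt (fun τ : ℝ => -Phi p (r / τ)) ((r / t) ^ (p + 1) / ((1 + r / t) * t)) t := by
  have h1 : HasDerivAt (fun τ : ℝ => r / τ) (-r / t ^ 2) t := by
    have := (hasDerivAt_const t r).fun_div (hasDerivAt_id' t) ht.ne'
    simpa using this
  have h2 := (disc_hasDerivAt_Phi p (div_pos hr ht)).comp t h1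
  have h3 := h2.neg
  have h4 : (1 : ℝ) + r / t ≠ 0 := by positivity
  have h5 : t ≠ 0 := ht.ne'
  have h6 : t + r ≠ 0 := by positivity
  have h7 : -((r / t) ^ p / (1 + r / t) * (-r / t ^ 2)) =
      (r / t) ^ (p + 1) / ((1 + r / t) * t) := by
    have h8 : t * (r / t) = r := by field_simp
    have h9 : (r / t) ^ (p + 1) = (r / t) ^ p * (r / t) := pow_succ _ _
    rw [h9]
    generalize (r / t) ^ p = q
    field_simp
  rw [h7] at h3
  exact h3

lemma disc_tendsto (p : ℕ) (r : ℝ) (hr : 0 < r) :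
    Tendsto (fun τ : ℝ => -Phi p (r / τ)) atTop (𝓝 0) := by
  have h0 : Phi p 0 = 0 := by simp [Phi]
  have h1 : Tendsto (fun τ : ℝ => r / τ) atTop (𝓝[Ici 0] 0) := by
    refine tendsto_nhdsWithin_iff.2 ⟨tendsto_const_nhds.div_atTop tendsto_id, ?_⟩
    filter_upwards [eventually_gt_atTop (0 : ℝ)] with τ hτ
    exact (div_pos hr hτ).le
  have h2 := (continuousOn_Phi p 0 (by simp : (0 : ℝ) ∈ Ici (0 : ℝ)))
  have h3 : Tendsto (Phi p) (𝓝[Ici 0] 0) (𝓝 (Phi p 0)) := h2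
  have h4 := (h3.comp h1).neg
  rw [h0, neg_zero] at h4
  exact h4

lemma disc_integral (p : ℕ) {r : ℝ} (hr : 0 < r) :
    IntegrableOn (fun t : ℝ => (r / t) ^ (p + 1) / ((1 + r / t) * t)) (Ioi 1) ∧
    ∫ t in Ioi (1 : ℝ), (r / t) ^ (p + 1) / ((1 + r / t) * t) = Phi p r := by
  have hd : ∀ x ∈ Ici (1 : ℝ), HasDerivAt (fun τ : ℝ => -Phi p (r / τ))
      ((r / x) ^ (p + 1) / ((1 + r / x) * x)) x := fun x hx =>
    disc_hasDerivAt p hr (lt_of_lt_of_le one_pos hx)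
  have hn : ∀ x ∈ Ioi (1 : ℝ), 0 ≤ (r / x) ^ (p + 1) / ((1 + r / x) * x) := by
    intro x hx
    have : (0 : ℝ) < x := lt_trans one_pos hx
    positivity
  refine ⟨integrableOn_Ioi_deriv_of_nonneg' hd hn (disc_tendsto p r hr), ?_⟩
  rw [integral_Ioi_of_hasDerivAt_of_nonneg' hd hn (disc_tendsto p r hr)]
  simp

lemma disc_bound (p : ℕ) {z : ℂ} {δ : ℝ} (hδ : 0 < δ) (hδ' : δ ≤ Real.pi)
    (hz : |z.arg| ≤ Real.pi - δ) {t : ℝ} (ht : 0 < t) :
    |((-z / t) ^ (p + 1) / (1 + z / t)).re / t| ≤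
      (‖z‖ / t) ^ (p + 1) / ((1 + ‖z‖ / t) * t) / Real.sin (δ / 2) := by
  have hs : 0 < Real.sin (δ / 2) := Real.sin_pos_of_pos_of_lt_pi (by linarith)
    (by linarith [Real.pi_pos])
  have h1 : ‖z / t‖ = ‖z‖ / t := by
    rw [norm_div, Complex.norm_real, Real.norm_of_nonneg ht.le]
  have harg : (z / t).arg = z.arg := by
    have : z / t = ((t⁻¹ : ℝ) : ℂ) * z := by push_cast; field_simp
    rw [this, Complex.arg_real_mul _ (inv_pos.2 ht)]
  have h2 := norm_one_add_ge (z := z / t) hδ hδ' (by rw [harg]; exact hz)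
  rw [h1] at h2
  have hx : 0 ≤ ‖z‖ / t := by positivity
  have hpos : 0 < (1 + ‖z‖ / t) * Real.sin (δ / 2) := by positivity
  rw [abs_div, abs_of_pos ht]
  have h3 : |((-z / t) ^ (p + 1) / (1 + z / t)).re| ≤
      (‖z‖ / t) ^ (p + 1) / ((1 + ‖z‖ / t) * Real.sin (δ / 2)) := by
    refine (Complex.abs_re_le_norm _).trans ?_
    rw [norm_div, norm_pow]
    have : ‖-z / (t : ℂ)‖ = ‖z‖ / t := by
      rw [norm_div, norm_neg, Complex.norm_real, Real.norm_of_nonneg ht.le]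
    rw [this]
    exact div_le_div_of_nonneg_left (by positivity) hpos h2
  calc |((-z / t) ^ (p + 1) / (1 + z / t)).re| / t
      ≤ (‖z‖ / t) ^ (p + 1) / ((1 + ‖z‖ / t) * Real.sin (δ / 2)) / t := by gcongr
    _ = _ := by
      rw [div_div, div_div]
      congr 1
      ring

theorem discretize {p : ℕ} {ρ A : ℝ} (h1 : (p : ℝ) < ρ) (h2 : ρ < p + 1) (hA : 0 ≤ A)
    {ν : Measure ℝ} (hν : Growth ρ A ν) (h0 : ν (Iic 1) = 0) (hinf : ν univ = ⊤) :
    ∃ a : ℕ → ℝ, (∀ k, 1 ≤ a k) ∧ Growth ρ A (diracs a) ∧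
      ∀ δ : ℝ, 0 < δ → δ ≤ Real.pi → ∀ z ∈ slitPlane, |z.arg| ≤ Real.pi - δ →
        |(∫ t, ker p z t ∂(diracs a)) - ∫ t, ker p z t ∂ν| ≤ Phi p ‖z‖ / Real.sin (δ / 2) := by
  have hz0 : ∀ t : ℝ, t ≤ 1 → ν (Iic t) = 0 := fun t ht =>
    measure_mono_null (Iic_subset_Iic.2 ht) h0
  have hfin : ∀ t, ν (Iic t) < ⊤ := by
    intro t
    rcases le_or_gt t 0 with ht | ht
    · rw [hz0 t (by linarith)]
      exact ENNReal.zero_lt_top
    · exact (hν.2 t ht).trans_lt ENNReal.ofReal_lt_top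
  obtain ⟨a, ha1, ha2⟩ := exists_quantiles h0 hfin hinf
  have hG : Growth ρ A (diracs a) := by
    refine ⟨?_, fun t ht => ?_⟩
    · rw [ha2, hz0 0 (by norm_num)]
      simp
    · rw [ha2]
      refine le_trans ?_ (hν.2 t ht)
      have : ((⌊(ν (Iic t)).toReal⌋₊ : ℕ) : ENNReal) =
          ENNReal.ofReal ((⌊(ν (Iic t)).toReal⌋₊ : ℕ) : ℝ) := by
        rw [ENNReal.ofReal_natCast]
      rw [this, ← ENNReal.ofReal_toReal (hfin t).ne]
      refine ENNReal.ofReal_le_ofReal ?_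
      rw [ENNReal.toReal_ofReal ENNReal.toReal_nonneg]
      exact Nat.floor_le ENNReal.toReal_nonneg
  refine ⟨a, ha1, hG, ?_⟩
  intro δ hδ hδ' z hz hza
  have hs : 0 < Real.sin (δ / 2) := Real.sin_pos_of_pos_of_lt_pi (by linarith)
    (by linarith [Real.pi_pos])
  obtain ⟨hi1, he1⟩ := integral_ker_eq h1 h2 hA hG hz
  obtain ⟨hi2, he2⟩ := integral_ker_eq h1 h2 hA hν hz
  have hr : 0 < ‖z‖ := norm_pos_iff.2 (slitPlane_ne_zero hz)
  rw [he1, he2]
  have hsub : -(∫ t in Ioi (0 : ℝ), ((diracs a) (Iic t)).toReal *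
        (((-z / t) ^ (p + 1) / (1 + z / t)).re / t)) -
      -(∫ t in Ioi (0 : ℝ), (ν (Iic t)).toReal * (((-z / t) ^ (p + 1) / (1 + z / t)).re / t)) =
      ∫ t in Ioi (0 : ℝ), ((ν (Iic t)).toReal * (((-z / t) ^ (p + 1) / (1 + z / t)).re / t) -
        ((diracs a) (Iic t)).toReal * (((-z / t) ^ (p + 1) / (1 + z / t)).re / t)) := by
    rw [integral_sub hi2 hi1]
    ring
  rw [hsub]
  have hzero : ∀ t ∈ Ioi (0 : ℝ) \ Ioi 1,
      ((ν (Iic t)).toReal * (((-z / t) ^ (p + 1) / (1 + z / t)).re / t) -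
        ((diracs a) (Iic t)).toReal * (((-z / t) ^ (p + 1) / (1 + z / t)).re / t)) = 0 := by
    intro t ht
    have ht1 : t ≤ 1 := not_lt.1 ht.2
    rw [ha2, hz0 t ht1]
    simp
  rw [setIntegral_eq_of_subset_of_forall_sdiff_eq_zero measurableSet_Ioi
    (Ioi_subset_Ioi zero_le_one) hzero]
  obtain ⟨hi, he⟩ := disc_integral p hr
  rw [← he, ← Real.norm_eq_abs, ← integral_div]
  refine norm_integral_le_of_norm_le (hi.div_const _) ?_
  refine (ae_restrict_iff' measurableSet_Ioi).2 (Eventually.of_forall fun t ht => ?_)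
  have ht0 : (0 : ℝ) < t := lt_trans one_pos ht
  rw [← sub_mul, norm_mul, Real.norm_eq_abs, Real.norm_eq_abs]
  have hF : |(ν (Iic t)).toReal - ((diracs a) (Iic t)).toReal| ≤ 1 := by
    rw [ha2, ENNReal.toReal_natCast, abs_le]
    constructor
    · linarith [Nat.floor_le (ENNReal.toReal_nonneg (a := ν (Iic t)))]
    · linarith [Nat.lt_floor_add_one (ν (Iic t)).toReal]
  calc |(ν (Iic t)).toReal - ((diracs a) (Iic t)).toReal| *
        |((-z / t) ^ (p + 1) / (1 + z / t)).re / t|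
      ≤ 1 * |((-z / t) ^ (p + 1) / (1 + z / t)).re / t| := by gcongr
    _ = |((-z / t) ^ (p + 1) / (1 + z / t)).re / t| := one_mul _
    _ ≤ _ := disc_bound p hδ hδ' hza ht0

end Helper25.Ind
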