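import Pool.Agent.Helper25.Ind.Defs

open Complex Filter Topology MeasureTheory Set

namespace Helper25.Ind

/-- If a linear function `x ↦ a - c * m` stays below `u` for all `c ≥ 0`, then `0 ≤ m`. -/
lemma dual_aux_nonneg {a m u : ℝ} (h : ∀ c : ℝ, 0 ≤ c → a - c * m < u) : 0 ≤ m := by
  by_contra hm
  push Not at hm
  have hm' : 0 < -m := by linarith
  have hc : 0 ≤ (|a| + |u|) / (-m) := by positivity
  have h1 := h _ hc
  have h2 : (|a| + |u|) / (-m) * m = -(|a| + |u|) := by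
    rw [div_neg, neg_mul, div_mul_cancel₀ _ hm.ne]
  rw [h2] at h1
  have h3 := neg_abs_le a
  have h4 := le_abs_self u
  linarith

lemma dual_aux_lc1 {ι σ : Type*} (v : ι → (σ → ℝ) × ℝ) (w : ι →₀ ℝ) (z : σ) :
    (Finsupp.linearCombination ℝ v w).1 z = ∑ t ∈ w.support, w t * (v t).1 z := by
  rw [Finsupp.linearCombination_apply, Finsupp.sum, Prod.fst_sum, Finset.sum_apply]
  rfl

lemma dual_aux_lc2 {ι σ : Type*} (v : ι → (σ → ℝ) × ℝ) (w : ι →₀ ℝ) :
    (Finsupp.linearCombination ℝ v w).2 = ∑ t ∈ w.support, w t * (v t).2 := by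
  rw [Finsupp.linearCombination_apply, Finsupp.sum, Prod.snd_sum]
  rfl

lemma dual_aux_decomp {σ : Type*} [Fintype σ] [DecidableEq σ]
    (f : ((σ → ℝ) × ℝ) →L[ℝ] ℝ) (y : (σ → ℝ) × ℝ) :
    f y = (∑ z, f (Pi.single z 1, 0) * y.1 z) - (-f (0, 1)) * y.2 := by
  have h1 : y = ∑ z, y.1 z • ((Pi.single z (1 : ℝ), 0) : (σ → ℝ) × ℝ) +
      y.2 • ((0, 1) : (σ → ℝ) × ℝ) := by
    refine Prod.ext ?_ ?_
    · funext z
      rw [Prod.fst_add, Prod.fst_sum, Pi.add_apply, Finset.sum_apply]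
      have h2 : ∀ c, ((y.1 c • ((Pi.single c (1 : ℝ), 0) : (σ → ℝ) × ℝ)).1 : σ → ℝ) z =
          if z = c then y.1 c else 0 := by
        intro c
        show y.1 c * (Pi.single c (1 : ℝ) : σ → ℝ) z = _
        rw [Pi.single_apply]
        split_ifs <;> simp
      simp only [h2, Finset.sum_ite_eq, Finset.mem_univ, if_true]
      show y.1 z = y.1 z + y.2 * 0
      ring
    · rw [Prod.snd_add, Prod.snd_sum]
      have h2 : ∀ c, ((y.1 c • ((Pi.single c (1 : ℝ), 0) : (σ → ℝ) × ℝ)).2 : ℝ) = 0 := by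
        intro c
        show y.1 c * 0 = 0
        ring
      simp only [h2, Finset.sum_const_zero, zero_add]
      show y.2 = y.2 * 1
      ring
  conv_lhs => rw [h1]
  rw [map_add, map_sum]
  simp only [map_smul, smul_eq_mul]
  rw [neg_mul, sub_neg_eq_add, mul_comm (f (0, 1))]
  congr 1
  exact Finset.sum_congr rfl fun z _ => mul_comm _ _

theorem dual {ρ : ℝ} {h : ℝ → ℝ} (hmaj : MajIneq ρ h) (Z : Finset ℂ)
    (hZ : ∀ z ∈ Z, z ∈ slitPlane) {z₀ : ℂ} (hz₀ : z₀ ∈ slitPlane) {ε : ℝ} (hε : 0 < ε) :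
    ∃ (T : Finset ℝ) (w : ℝ → ℝ), (∀ t ∈ T, 0 < t) ∧ (∀ t ∈ T, 0 ≤ w t) ∧
      (∀ z ∈ Z, ∑ t ∈ T, w t * ker ⌊ρ⌋₊ z t ≤ homog ρ h z + ε * ‖z‖ ^ ρ) ∧
      homog ρ h z₀ - ε * ‖z₀‖ ^ ρ ≤ ∑ t ∈ T, w t * ker ⌊ρ⌋₊ z₀ t := by
  classical
  set p := ⌊ρ⌋₊ with hp
  have hpos : ∀ z ∈ slitPlane, 0 < ε * ‖z‖ ^ ρ := fun z hz =>
    mul_pos hε (Real.rpow_pos_of_pos (norm_pos_iff.2 (slitPlane_ne_zero hz)) _)
  let v : {t : ℝ // 0 < t} → (↥Z → ℝ) × ℝ := fun t => (fun z => ker p z t, ker p z₀ t)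
  let Λ : ({t : ℝ // 0 < t} →₀ ℝ) →ₗ[ℝ] (↥Z → ℝ) × ℝ := Finsupp.linearCombination ℝ v
  set K : Set ((↥Z → ℝ) × ℝ) := Λ '' {w | ∀ t, 0 ≤ w t} with hK
  set U : Set ((↥Z → ℝ) × ℝ) := {y | (∀ z : ↥Z, y.1 z < homog ρ h z + ε * ‖(z : ℂ)‖ ^ ρ) ∧
    homog ρ h z₀ - ε * ‖z₀‖ ^ ρ < y.2} with hU
  have hΛ1 : ∀ (w : {t : ℝ // 0 < t} →₀ ℝ) (z : ↥Z),
      (Λ w).1 z = ∑ t ∈ w.support, w t * ker p z t :=
    fun w z => dual_aux_lc1 v w z
  have hΛ2 : ∀ w : {t : ℝ // 0 < t} →₀ ℝ,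
      (Λ w).2 = ∑ t ∈ w.support, w t * ker p z₀ t :=
    fun w => dual_aux_lc2 v w
  by_cases hdis : Disjoint U K
  swap
  · obtain ⟨y, hyU, ⟨w, hw, rfl⟩⟩ := Set.not_disjoint_iff.1 hdis
    refine ⟨w.support.map (Function.Embedding.subtype _),
      fun t => if ht : 0 < t then w ⟨t, ht⟩ else 0, ?_, ?_, ?_, ?_⟩
    · intro t ht
      obtain ⟨s, -, rfl⟩ := Finset.mem_map.1 ht
      exact s.2
    · intro t ht
      dsimp only
      split_ifs with h0
      · exact hw _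
      · exact le_rfl
    · intro z hz
      have h1 := (hyU.1 ⟨z, hz⟩).le
      rw [hΛ1] at h1
      rw [Finset.sum_map]
      refine le_trans (le_of_eq ?_) h1
      refine Finset.sum_congr rfl fun t _ => ?_
      simp [t.2]
    · have h1 := hyU.2.le
      rw [hΛ2] at h1
      rw [Finset.sum_map]
      refine h1.trans (le_of_eq ?_)
      refine Finset.sum_congr rfl fun t _ => ?_
      simp [t.2]
  · exfalso
    have hUconv : Convex ℝ U := by
      have hA : Convex ℝ {y : (↥Z → ℝ) × ℝ | ∀ z : ↥Z, y.1 z < homog ρ h z + ε * ‖(z : ℂ)‖ ^ ρ} := by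
        rw [Set.ofPred_forall]
        refine convex_iInter fun z => ?_
        exact convex_halfSpace_lt (f := fun y : (↥Z → ℝ) × ℝ => y.1 z)
          ⟨fun x y => rfl, fun c x => rfl⟩ _
      have hB : Convex ℝ {y : (↥Z → ℝ) × ℝ | homog ρ h z₀ - ε * ‖z₀‖ ^ ρ < y.2} :=
        convex_halfSpace_gt (f := fun y : (↥Z → ℝ) × ℝ => y.2) ⟨fun x y => rfl, fun c x => rfl⟩ _
      exact hA.inter hB
    have hUopen : IsOpen U := by
      have hA : IsOpen {y : (↥Z → ℝ) × ℝ | ∀ z : ↥Z, y.1 z < homog ρ h z + ε * ‖(z : ℂ)‖ ^ ρ} := by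
        rw [Set.ofPred_forall]
        refine isOpen_iInter_of_finite fun z => ?_
        exact isOpen_lt ((continuous_apply z).comp continuous_fst) continuous_const
      have hB : IsOpen {y : (↥Z → ℝ) × ℝ | homog ρ h z₀ - ε * ‖z₀‖ ^ ρ < y.2} :=
        isOpen_lt continuous_const continuous_snd
      exact hA.inter hB
    have hKconv : Convex ℝ K := by
      refine Convex.linear_image ?_ Λ
      intro x hx y hy a b ha hb _ t
      simp only [Finsupp.coe_add, Finsupp.coe_smul, Pi.add_apply, Pi.smul_apply, smul_eq_mul]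
      exact add_nonneg (mul_nonneg ha (hx t)) (mul_nonneg hb (hy t))
    obtain ⟨f, u, hfU, hfK⟩ := geometric_hahn_banach_open hUconv hUopen hKconv hdis
    -- the coefficients
    set m : ↥Z → ℝ := fun z => f (Pi.single z 1, 0) with hm
    set m₀ : ℝ := -f (0, 1) with hm₀
    have hf : ∀ y : (↥Z → ℝ) × ℝ, f y = (∑ z, m z * y.1 z) - m₀ * y.2 := fun y =>
      dual_aux_decomp f y
    have hu0 : u ≤ 0 := by
      have h0 : (0 : (↥Z → ℝ) × ℝ) ∈ K := ⟨0, fun t => le_rfl, map_zero _⟩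
      simpa using hfK 0 h0
    set y₁ : (↥Z → ℝ) × ℝ := (fun z => homog ρ h z, homog ρ h z₀) with hy₁
    have hy₁U : y₁ ∈ U := by
      refine ⟨fun z => ?_, ?_⟩
      · have := hpos z (hZ z z.2)
        show homog ρ h z < _
        linarith
      · have := hpos z₀ hz₀
        show _ < homog ρ h z₀
        linarith
    have hmnn : ∀ z, 0 ≤ m z := by
      intro z
      refine dual_aux_nonneg (a := f y₁) (u := u) fun c hc => ?_
      have h1 : y₁ - c • ((Pi.single z (1 : ℝ), 0) : (↥Z → ℝ) × ℝ) ∈ U := by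
        refine ⟨fun z' => ?_, ?_⟩
        · have h2 := hy₁U.1 z'
          have h3 : (y₁ - c • ((Pi.single z (1 : ℝ), 0) : (↥Z → ℝ) × ℝ)).1 z' =
              y₁.1 z' - c * (Pi.single z (1 : ℝ) : ↥Z → ℝ) z' := rfl
          rw [h3]
          have h4 : 0 ≤ c * (Pi.single z (1 : ℝ) : ↥Z → ℝ) z' := by
            refine mul_nonneg hc ?_
            rw [Pi.single_apply]
            split_ifs <;> norm_num
          linarith
        · have h2 := hy₁U.2
          have h3 : (y₁ - c • ((Pi.single z (1 : ℝ), 0) : (↥Z → ℝ) × ℝ)).2 = y₁.2 - c * 0 := rfl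
          rw [h3]
          linarith
      have h2 := hfU _ h1
      rwa [map_sub, map_smul, smul_eq_mul] at h2
    have hm₀nn : 0 ≤ m₀ := by
      refine dual_aux_nonneg (a := f y₁) (u := u) fun c hc => ?_
      have h1 : y₁ + c • ((0, 1) : (↥Z → ℝ) × ℝ) ∈ U := by
        refine ⟨fun z' => ?_, ?_⟩
        · have h2 := hy₁U.1 z'
          have h3 : (y₁ + c • ((0, 1) : (↥Z → ℝ) × ℝ)).1 z' = y₁.1 z' + c * 0 := rfl
          rw [h3]
          linarith
        · have h2 := hy₁U.2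
          have h3 : (y₁ + c • ((0, 1) : (↥Z → ℝ) × ℝ)).2 = y₁.2 + c * 1 := rfl
          rw [h3]
          linarith
      have h2 := hfU _ h1
      rw [map_add, map_smul, smul_eq_mul] at h2
      rw [hm₀]
      linarith
    have hneg : (∑ z, m z * homog ρ h z) - m₀ * homog ρ h z₀ < 0 := by
      have h1 := hfU y₁ hy₁U
      rw [hf] at h1
      exact lt_of_lt_of_le h1 hu0
    have hker : ∀ t : ℝ, 0 < t → m₀ * ker p z₀ t ≤ ∑ z : ↥Z, m z * ker p z t := by
      intro t ht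
      have h1 : ∀ c : ℝ, 0 ≤ c → c • v ⟨t, ht⟩ ∈ K := by
        intro c hc
        refine ⟨Finsupp.single ⟨t, ht⟩ c, fun s => ?_, ?_⟩
        · rw [Finsupp.single_apply]
          split_ifs
          · exact hc
          · exact le_rfl
        · simp [Λ, Finsupp.linearCombination_single]
      have h2 : 0 ≤ f (v ⟨t, ht⟩) := by
        refine dual_aux_nonneg (a := 0) (u := -u + 1) fun c hc => ?_
        have h3 := hfK _ (h1 c hc)
        rw [map_smul, smul_eq_mul] at h3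
        linarith
      rw [hf] at h2
      have h3 : (∑ z : ↥Z, m z * (v ⟨t, ht⟩).1 z) = ∑ z : ↥Z, m z * ker p z t := rfl
      have h4 : (v ⟨t, ht⟩).2 = ker p z₀ t := rfl
      rw [h3, h4] at h2
      linarith
    let e : Fin (Fintype.card ↥Z) ≃ ↥Z := (Fintype.equivFin ↥Z).symm
    rcases hm₀nn.lt_or_eq with hm₀pos | hm₀zero
    · have h1 := hmaj (Fintype.card ↥Z) (fun j => (e j : ℂ)) (fun j => m (e j) / m₀) z₀
        (fun j => hZ _ (e j).2) hz₀ (fun j => div_nonneg (hmnn _) hm₀pos.le) (fun t ht => ?_)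
      · have h2 : ∑ j, m (e j) / m₀ * homog ρ h (e j) = (∑ z : ↥Z, m z * homog ρ h z) / m₀ := by
          rw [Finset.sum_div, ← e.sum_comp]
          exact Finset.sum_congr rfl fun j _ => by ring
        rw [h2, le_div_iff₀ hm₀pos] at h1
        linarith
      · have h2 := hker t ht
        have h3 : ∑ j, m (e j) / m₀ * Real.log ‖primary ⌊ρ⌋₊ (-(e j : ℂ) / t)‖ =
            (∑ z : ↥Z, m z * ker p z t) / m₀ := by
          rw [Finset.sum_div, ← e.sum_comp]
          exact Finset.sum_congr rfl fun j _ => by rw [ker]; ring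
        rw [h3, le_div_iff₀ hm₀pos, mul_comm]
        exact h2
    · rw [← hm₀zero, zero_mul, sub_zero] at hneg
      have h1 := hmaj (Fintype.card ↥Z + 1) (Fin.cons z₀ fun j => (e j : ℂ))
        (Fin.cons 1 fun j => m (e j)) z₀ (fun j => ?_) hz₀ (fun j => ?_) (fun t ht => ?_)
      · rw [Fin.sum_univ_succ] at h1
        simp only [Fin.cons_zero, Fin.cons_succ, one_mul] at h1
        have h2 : ∑ j, m (e j) * homog ρ h (e j) = ∑ z : ↥Z, m z * homog ρ h z :=
          e.sum_comp fun z => m z * homog ρ h z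
        rw [h2] at h1
        linarith
      · refine Fin.cases ?_ (fun i => ?_) j
        · simpa using hz₀
        · simpa using hZ _ (e i).2
      · refine Fin.cases ?_ (fun i => ?_) j
        · simp
        · simpa using hmnn (e i)
      · rw [Fin.sum_univ_succ]
        simp only [Fin.cons_zero, Fin.cons_succ, one_mul]
        have h2 := hker t ht
        rw [← hm₀zero, zero_mul] at h2
        have h3 : ∑ j, m (e j) * Real.log ‖primary ⌊ρ⌋₊ (-(e j : ℂ) / t)‖ =
            ∑ z : ↥Z, m z * ker p z t := e.sum_comp fun z => m z * ker p z t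
        rw [h3]
        linarith

end Helper25.Ind
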