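import Pool.Agent.Helper25.Ind.Defs

open Complex Filter Topology MeasureTheory Set

namespace Helper25.Ind

/-- divide out one zero completely -/
theorem fac_step {f : ℂ → ℂ} (hf : Differentiable ℂ f) {b : ℂ} (hb : analyticOrderAt f b ≠ ⊤) :
    ∃ g : ℂ → ℂ, Differentiable ℂ g ∧ g b ≠ 0 ∧
      ∀ z, f z = (z - b) ^ (analyticOrderNatAt f b) * g z := by
  classical
  have hfa : AnalyticAt ℂ f b := hf.analyticAt b
  obtain ⟨g₀, hg₀, hg₀b, hev⟩ := hfa.analyticOrderAt_ne_top.1 hb
  generalize analyticOrderNatAt f b = n at hev ⊢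
  refine ⟨Function.update (fun z => f z / (z - b) ^ n) b (g₀ b), ?_, by simpa using hg₀b, ?_⟩
  · intro z
    by_cases hz : z = b
    · rw [hz]
      have h1 : Function.update (fun w => f w / (w - b) ^ n) b (g₀ b) =ᶠ[𝓝 b] g₀ := by
        filter_upwards [hev] with w hw
        by_cases hwz : w = b
        · rw [hwz, Function.update_self]
        · rw [Function.update_of_ne hwz]
          have h2 : (w - b) ^ n ≠ 0 := pow_ne_zero _ (sub_ne_zero.2 hwz)
          rw [hw, smul_eq_mul]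
          field_simp
      exact h1.differentiableAt_iff.2 hg₀.differentiableAt
    · have h1 : Function.update (fun w => f w / (w - b) ^ n) b (g₀ b)
          =ᶠ[𝓝 z] fun w => f w / (w - b) ^ n := by
        filter_upwards [isOpen_ne.mem_nhds hz] with w hw
        rw [Function.update_of_ne hw]
      refine h1.differentiableAt_iff.2 ?_
      exact (hf z).div (by fun_prop) (pow_ne_zero _ (sub_ne_zero.2 hz))
  · intro z
    by_cases hz : z = b
    · rw [hz, Function.update_self]
      simpa using hev.self_of_nhds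
    · rw [Function.update_of_ne hz]
      have h2 : (z - b) ^ n ≠ 0 := pow_ne_zero _ (sub_ne_zero.2 hz)
      field_simp

/-- divide out finitely many negative zeros completely -/
theorem fac_fin {f : ℂ → ℂ} (hf : Differentiable ℂ f) (hne : ∀ b, analyticOrderAt f b ≠ ⊤)
    (T : Finset ℝ) (hT : ∀ x ∈ T, 0 < x) :
    ∃ g : ℂ → ℂ, Differentiable ℂ g ∧ (∀ x ∈ T, g (-(x : ℂ)) ≠ 0) ∧
      ∀ z, f z = g z * ∏ x ∈ T, (1 + z / x) ^ analyticOrderNatAt f (-(x : ℂ)) := by
  classical
  induction T using Finset.induction_on with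
  | empty => exact ⟨f, hf, by simp, by simp⟩
  | insert y T hy ih =>
    obtain ⟨g, hg, hgT, hfg⟩ := ih (fun x hx => hT x (Finset.mem_insert_of_mem hx))
    have hy0 : 0 < y := hT y (Finset.mem_insert_self _ _)
    have hy0' : (y : ℂ) ≠ 0 := by exact_mod_cast hy0.ne'
    have hPd : Differentiable ℂ
        (fun z : ℂ => ∏ x ∈ T, (1 + z / x) ^ analyticOrderNatAt f (-(x : ℂ))) := by
      fun_prop
    have hPy : (fun z : ℂ => ∏ x ∈ T, (1 + z / x) ^ analyticOrderNatAt f (-(x : ℂ)))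
        (-(y : ℂ)) ≠ 0 := by
      refine Finset.prod_ne_zero_iff.2 fun x hx => pow_ne_zero _ ?_
      have hx0 : (x : ℂ) ≠ 0 := by
        exact_mod_cast (hT x (Finset.mem_insert_of_mem hx)).ne'
      intro h
      have h2 : (x : ℂ) = y := by
        field_simp at h
        linear_combination h
      have h3 : x = y := by exact_mod_cast h2
      exact hy (h3 ▸ hx)
    have hfeq : f = g * (fun z : ℂ => ∏ x ∈ T, (1 + z / x) ^ analyticOrderNatAt f (-(x : ℂ))) :=
      funext hfg
    have hord : analyticOrderAt f (-(y : ℂ)) = analyticOrderAt g (-(y : ℂ)) := by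
      conv_lhs => rw [hfeq]
      have hP0 : analyticOrderAt (fun z : ℂ => ∏ x ∈ T, (1 + z / x) ^ analyticOrderNatAt f
          (-(x : ℂ))) (-(y : ℂ)) = 0 := analyticOrderAt_eq_zero.2 (Or.inr hPy)
      rw [analyticOrderAt_mul (hg.analyticAt _) (hPd.analyticAt _), hP0, add_zero]
    have hgt : analyticOrderAt g (-(y : ℂ)) ≠ ⊤ := hord ▸ hne _
    have hn : analyticOrderNatAt g (-(y : ℂ)) = analyticOrderNatAt f (-(y : ℂ)) := by
      simp [analyticOrderNatAt, hord]
    obtain ⟨g', hg', hg'y, hgg'⟩ := fac_step hg hgt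
    rw [hn] at hgg'
    refine ⟨fun z => (y : ℂ) ^ analyticOrderNatAt f (-(y : ℂ)) * g' z, by fun_prop, ?_, ?_⟩
    · intro x hx
      refine mul_ne_zero (pow_ne_zero _ hy0') ?_
      rcases Finset.mem_insert.1 hx with hx | hx
      · rw [hx]; exact hg'y
      · have h1 := hgT x hx
        rw [hgg'] at h1
        exact right_ne_zero_of_mul h1
    · intro z
      rw [hfg z, Finset.prod_insert hy, hgg' z]
      have h1 : z - -(y : ℂ) = y * (1 + z / y) := by field_simp; ring
      rw [h1, mul_pow]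
      ring

theorem factor {f : ℂ → ℂ} (hf : Differentiable ℂ f) (hz : ∀ z, f z = 0 → z.im = 0 ∧ z.re < 0) :
    ∃ (ι : Type) (_ : Countable ι) (a : ι → ℝ), (∀ i, 0 < a i) ∧
      (∀ z, f z = 0 ↔ ∃ i, z = -(a i : ℂ)) ∧
      ∀ R : ℝ, ∃ (s : Finset ι) (g : ℂ → ℂ), (∀ i, i ∈ s ↔ a i ≤ R) ∧ Differentiable ℂ g ∧
        (∀ z, f z = g z * ∏ i ∈ s, (1 + z / a i)) ∧ ∀ z, ‖z‖ ≤ R → g z ≠ 0 := by
  classical
  have hf0 : f 0 ≠ 0 := fun h => by simpa using (hz 0 h).2
  have hfa : AnalyticOnNhd ℂ f univ := fun z _ => hf.analyticAt z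
  have hacc : ∀ b : ℂ, ¬ ∃ᶠ z in 𝓝[≠] b, f z = 0 := by
    intro b hb
    have h1 := hfa.eqOn_zero_of_preconnected_of_frequently_eq_zero isPreconnected_univ
      (mem_univ b) hb
    exact hf0 (h1 (mem_univ 0))
  have hne : ∀ b, analyticOrderAt f b ≠ ⊤ := by
    intro b hb
    rw [analyticOrderAt_eq_top] at hb
    exact hacc b ((hb.filter_mono nhdsWithin_le_nhds).frequently)
  have hfinC : ∀ R : ℝ, {z : ℂ | ‖z‖ ≤ R ∧ f z = 0}.Finite := by
    intro R
    by_contra hinf
    obtain ⟨b, -, hb⟩ := Set.Infinite.exists_accPt_of_subset_isCompact hinf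
      (isCompact_closedBall (0 : ℂ) R) (fun z hz => by simpa using hz.1)
    rw [accPt_iff_frequently_nhdsNE] at hb
    exact hacc b (hb.mono fun z hz => hz.2)
  have hfin : ∀ R : ℝ, {x : ℝ | (0 < x ∧ f (-(x : ℂ)) = 0) ∧ x ≤ R}.Finite := by
    intro R
    refine Set.Finite.of_finite_image (f := fun x : ℝ => -(x : ℂ))
      ((hfinC R).subset ?_) ?_
    · rintro _ ⟨x, ⟨⟨hx0, hx1⟩, hx2⟩, rfl⟩
      refine ⟨?_, hx1⟩
      rw [norm_neg, Complex.norm_real, Real.norm_eq_abs, abs_of_pos hx0]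
      exact hx2
    · intro x _ y _ hxy
      simpa using hxy
  have hcount : Countable {x : ℝ // 0 < x ∧ f (-(x : ℂ)) = 0} := by
    have h1 : {x : ℝ | 0 < x ∧ f (-(x : ℂ)) = 0} ⊆
        ⋃ n : ℕ, {x : ℝ | (0 < x ∧ f (-(x : ℂ)) = 0) ∧ x ≤ n} := by
      intro x hx
      obtain ⟨n, hn⟩ := exists_nat_ge x
      exact mem_iUnion.2 ⟨n, hx, hn⟩
    exact ((countable_iUnion fun n : ℕ => (hfin n).countable).mono h1).to_subtype
  refine ⟨Σ x : {x : ℝ // 0 < x ∧ f (-(x : ℂ)) = 0}, Fin (analyticOrderNatAt f (-(x.1 : ℂ))),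
    inferInstance, fun i => i.1.1, fun i => i.1.2.1, ?_, ?_⟩
  · intro z
    constructor
    · intro h
      obtain ⟨h1, h2⟩ := hz z h
      have h3 : z = -((-z.re : ℝ) : ℂ) := by
        apply Complex.ext <;> simp [h1]
      have h4 : 0 < -z.re ∧ f (-((-z.re : ℝ) : ℂ)) = 0 := ⟨by linarith, by rw [← h3]; exact h⟩
      have h5 : 0 < analyticOrderNatAt f (-((-z.re : ℝ) : ℂ)) := by
        rw [← h3]
        refine Nat.pos_of_ne_zero fun h0 => ?_
        have h6 : analyticOrderAt f z = 0 := by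
          rw [← Nat.cast_analyticOrderNatAt (hne z), h0]; rfl
        rcases analyticOrderAt_eq_zero.1 h6 with h7 | h7
        · exact h7 (hf.analyticAt z)
        · exact h7 h
      exact ⟨⟨⟨-z.re, h4⟩, ⟨0, h5⟩⟩, h3⟩
    · rintro ⟨i, rfl⟩
      exact i.1.2.2
  · intro R
    obtain ⟨g, hg, hgT, hfg⟩ := fac_fin hf hne (hfin R).toFinset
      (fun x hx => ((hfin R).mem_toFinset.1 hx).1.1)
    refine ⟨((hfin R).toFinset.subtype (fun x : ℝ => 0 < x ∧ f (-(x : ℂ)) = 0)).sigma
      (fun _ => Finset.univ), g, ?_, hg, ?_, ?_⟩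
    · rintro ⟨x, j⟩
      simp only [Finset.mem_sigma, Finset.mem_subtype, Set.Finite.mem_toFinset, mem_ofPred_eq,
        Finset.mem_univ, and_true]
      exact ⟨fun h => h.2, fun h => ⟨x.2, h⟩⟩
    · intro z
      rw [hfg z, Finset.prod_sigma]
      congr 1
      simp only [Finset.prod_const, Finset.card_univ, Fintype.card_fin]
      rw [Finset.prod_subtype_eq_prod_filter (s := (hfin R).toFinset)
        (f := fun x : ℝ => (1 + z / (x : ℂ)) ^ analyticOrderNatAt f (-(x : ℂ)))]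
      refine Finset.prod_congr ?_ fun _ _ => rfl
      ext x
      simp only [Set.Finite.mem_toFinset, mem_ofPred_eq, Finset.mem_filter]
      tauto
    · intro z hzR hgz
      have h0 : f z = 0 := by rw [hfg z, hgz, zero_mul]
      obtain ⟨h1, h2⟩ := hz z h0
      have h3 : z = -((-z.re : ℝ) : ℂ) := by
        apply Complex.ext <;> simp [h1]
      have h4 : (-z.re) ∈ (hfin R).toFinset := by
        rw [Set.Finite.mem_toFinset]
        refine ⟨⟨by linarith, by rw [← h3]; exact h0⟩, ?_⟩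
        have h5 := Complex.abs_re_le_norm z
        have h6 := neg_le_abs z.re
        linarith
      exact hgT _ h4 (by rw [← h3]; exact hgz)

end Helper25.Ind
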