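import Pool.Agent.Helper25.Ind.Defs
import Pool.Agent.Helper25.Ind.Layer

open Complex Filter Topology MeasureTheory Set

namespace Helper25.Ind

lemma glue1_aux_int {μ : Measure ℝ} {f W : ℝ → ℝ} {K B : ℝ} (hK : 0 ≤ K) (hB : 0 ≤ B)
    (hf : ∀ᵐ t ∂μ, |f t| ≤ K * W t)
    (hW : ∫⁻ t, ENNReal.ofReal (W t) ∂μ ≤ ENNReal.ofReal B) :
    ∫ t, |f t| ∂μ ≤ K * B := by
  have h1 : ‖∫ t, |f t| ∂μ‖ ≤ (∫⁻ t, ENNReal.ofReal ‖|f t|‖ ∂μ).toReal :=
    norm_integral_le_lintegral_norm _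
  have h2 : ∫⁻ t, ENNReal.ofReal ‖|f t|‖ ∂μ ≤ ENNReal.ofReal (K * B) := by
    calc ∫⁻ t, ENNReal.ofReal ‖|f t|‖ ∂μ
        ≤ ∫⁻ t, ENNReal.ofReal K * ENNReal.ofReal (W t) ∂μ := by
          refine lintegral_mono_ae ?_
          filter_upwards [hf] with t ht
          rw [← ENNReal.ofReal_mul hK]
          refine ENNReal.ofReal_le_ofReal ?_
          rw [Real.norm_eq_abs, abs_abs]
          exact ht
      _ = ENNReal.ofReal K * ∫⁻ t, ENNReal.ofReal (W t) ∂μ :=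
          lintegral_const_mul' _ _ ENNReal.ofReal_ne_top
      _ ≤ ENNReal.ofReal K * ENNReal.ofReal B := by gcongr
      _ = ENNReal.ofReal (K * B) := (ENNReal.ofReal_mul hK).symm
  have h3 : (∫⁻ t, ENNReal.ofReal ‖|f t|‖ ∂μ).toReal ≤ K * B := by
    have := ENNReal.toReal_mono ENNReal.ofReal_ne_top h2
    rwa [ENNReal.toReal_ofReal (mul_nonneg hK hB)] at this
  exact (le_abs_self _).trans (h1.trans h3)

lemma glue1_aux_exp {κ x : ℝ} (hκ : 0 < κ) : |x| ≤ κ⁻¹ * Real.exp (κ * |x|) := by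
  have h := Real.add_one_le_exp (κ * |x|)
  have h2 : κ * |x| ≤ Real.exp (κ * |x|) := by linarith
  calc |x| = κ⁻¹ * (κ * |x|) := by field_simp
    _ ≤ κ⁻¹ * Real.exp (κ * |x|) := by
      apply mul_le_mul_of_nonneg_left h2 (inv_nonneg.mpr hκ.le)

theorem cutoff_estimate {p : ℕ} {ρ : ℝ} (h1 : (p : ℝ) < ρ) (h2 : ρ < p + 1) :
    ∃ κ > 0, ∃ C > 0, ∀ (A : ℝ) (μ : Measure ℝ), 0 ≤ A → Growth ρ A μ →
      ∀ (χ : ℝ → ℝ) (L : ℝ), (∀ s, 0 ≤ χ s) → (∀ s, χ s ≤ 1) → 0 ≤ L →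
        (∀ s s', |χ s - χ s'| ≤ L * |s - s'|) →
        ∀ δ : ℝ, 0 < δ → δ ≤ Real.pi → ∀ z ∈ slitPlane, |z.arg| ≤ Real.pi - δ →
          Integrable (fun t => χ (Real.log t) * ker p z t) μ ∧
          |(∫ t, χ (Real.log t) * ker p z t ∂μ) - χ (Real.log ‖z‖) * ∫ t, ker p z t ∂μ| ≤
            C * A * L / Real.sin (δ / 2) * ‖z‖ ^ ρ ∧
          ∀ d : ℝ, 0 ≤ d → (∀ s, |s - Real.log ‖z‖| < d → χ s = 0) →
            ∫ t, |χ (Real.log t) * ker p z t| ∂μ ≤
              C * A * Real.exp (-κ * d) / Real.sin (δ / 2) * ‖z‖ ^ ρ := by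
  obtain ⟨κ, hκ, C₀, hC₀, hW⟩ := lintegral_exp_weight_le h1 h2
  refine ⟨κ, hκ, C₀ * (1 + κ⁻¹), by positivity, ?_⟩
  intro A μ hA hμ χ L hχ0 hχ1 hL hLip δ hδ hδ' z hz hzδ
  have hz0 : z ≠ 0 := slitPlane_ne_zero hz
  have hr : 0 < ‖z‖ := norm_pos_iff.mpr hz0
  have hW' := hW A μ hA hμ ‖z‖ hr
  have hsin : 0 < Real.sin (δ / 2) :=
    Real.sin_pos_of_pos_of_lt_pi (by linarith) (by linarith [Real.pi_pos])
  have hB : 0 ≤ C₀ * A * ‖z‖ ^ ρ := by positivity
  have hpos : ∀ᵐ t ∂μ, 0 < t := by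
    have : μ (Iic 0) = 0 := hμ.1
    rw [ae_iff]
    convert this using 2
    ext t
    simp
  have hint : Integrable (ker p z) μ := integrable_ker h1 h2 hA hμ hz
  have hχc : Continuous χ := by
    have : LipschitzWith ⟨L, hL⟩ χ := by
      refine LipschitzWith.of_dist_le_mul ?_
      intro s s'
      rw [Real.dist_eq, Real.dist_eq]
      exact hLip s s'
    exact this.continuous
  have hχm : AEStronglyMeasurable (fun t => χ (Real.log t)) μ :=
    (hχc.measurable.comp Real.measurable_log).aestronglyMeasurable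
  have hI : Integrable (fun t => χ (Real.log t) * ker p z t) μ := by
    refine hint.mono (hχm.mul hint.1) ?_
    refine Eventually.of_forall fun t => ?_
    rw [norm_mul]
    have : ‖χ (Real.log t)‖ ≤ 1 := by
      rw [Real.norm_eq_abs, abs_of_nonneg (hχ0 _)]
      exact hχ1 _
    calc ‖χ (Real.log t)‖ * ‖ker p z t‖ ≤ 1 * ‖ker p z t‖ := by gcongr
      _ = ‖ker p z t‖ := one_mul _
  refine ⟨hI, ?_, ?_⟩
  · rw [← integral_const_mul, ← integral_sub hI (hint.const_mul _)]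
    have key : ∫ t, |χ (Real.log t) * ker p z t - χ (Real.log ‖z‖) * ker p z t| ∂μ ≤
        (L * κ⁻¹ / Real.sin (δ / 2)) * (C₀ * A * ‖z‖ ^ ρ) := by
      refine glue1_aux_int (by positivity) hB ?_ hW'
      filter_upwards [hpos] with t ht
      rw [← sub_mul, abs_mul]
      have e1 : |χ (Real.log t) - χ (Real.log ‖z‖)| ≤
          L * (κ⁻¹ * Real.exp (κ * |Real.log (‖z‖ / t)|)) := by
        refine (hLip _ _).trans ?_
        refine mul_le_mul_of_nonneg_left ?_ hL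
        rw [Real.log_div hr.ne' ht.ne', abs_sub_comm]
        exact glue1_aux_exp hκ
      have e2 : |ker p z t| ≤ Phi p (‖z‖ / t) / Real.sin (δ / 2) :=
        abs_ker_le p hz hδ hδ' hzδ ht
      calc |χ (Real.log t) - χ (Real.log ‖z‖)| * |ker p z t|
          ≤ (L * (κ⁻¹ * Real.exp (κ * |Real.log (‖z‖ / t)|))) *
            (Phi p (‖z‖ / t) / Real.sin (δ / 2)) := by
            apply mul_le_mul e1 e2 (abs_nonneg _) (by positivity)
        _ = _ := by ring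
    calc |∫ t, χ (Real.log t) * ker p z t - χ (Real.log ‖z‖) * ker p z t ∂μ|
        ≤ ∫ t, |χ (Real.log t) * ker p z t - χ (Real.log ‖z‖) * ker p z t| ∂μ :=
          abs_integral_le_integral_abs
      _ ≤ (L * κ⁻¹ / Real.sin (δ / 2)) * (C₀ * A * ‖z‖ ^ ρ) := key
      _ ≤ C₀ * (1 + κ⁻¹) * A * L / Real.sin (δ / 2) * ‖z‖ ^ ρ := by
          have e3 : C₀ * (1 + κ⁻¹) * A * L / Real.sin (δ / 2) * ‖z‖ ^ ρ =
            (L * κ⁻¹ / Real.sin (δ / 2)) * (C₀ * A * ‖z‖ ^ ρ) +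
            (L / Real.sin (δ / 2)) * (C₀ * A * ‖z‖ ^ ρ) := by ring
          rw [e3]
          have : 0 ≤ (L / Real.sin (δ / 2)) * (C₀ * A * ‖z‖ ^ ρ) := by positivity
          linarith
  · intro d hd hχd
    have key : ∫ t, |χ (Real.log t) * ker p z t| ∂μ ≤
        (Real.exp (-κ * d) / Real.sin (δ / 2)) * (C₀ * A * ‖z‖ ^ ρ) := by
      refine glue1_aux_int (by positivity) hB ?_ hW'
      filter_upwards [hpos] with t ht
      have hPhi : 0 ≤ Phi p (‖z‖ / t) := Phi_nonneg p (by positivity)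
      by_cases hlt : |Real.log t - Real.log ‖z‖| < d
      · rw [hχd _ hlt, zero_mul, abs_zero]
        positivity
      · push Not at hlt
        have e2 : |ker p z t| ≤ Phi p (‖z‖ / t) / Real.sin (δ / 2) :=
          abs_ker_le p hz hδ hδ' hzδ ht
        have e1 : 1 ≤ Real.exp (-κ * d) * Real.exp (κ * |Real.log (‖z‖ / t)|) := by
          rw [← Real.exp_add]
          apply Real.one_le_exp
          rw [Real.log_div hr.ne' ht.ne', abs_sub_comm]
          nlinarith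
        rw [abs_mul]
        have e3 : |χ (Real.log t)| ≤ 1 := by
          rw [abs_of_nonneg (hχ0 _)]
          exact hχ1 _
        calc |χ (Real.log t)| * |ker p z t| ≤ 1 * (Phi p (‖z‖ / t) / Real.sin (δ / 2)) := by
              apply mul_le_mul e3 e2 (abs_nonneg _) zero_le_one
          _ ≤ (Real.exp (-κ * d) * Real.exp (κ * |Real.log (‖z‖ / t)|)) *
              (Phi p (‖z‖ / t) / Real.sin (δ / 2)) := by
              apply mul_le_mul_of_nonneg_right e1 (by positivity)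
          _ = _ := by ring
    calc ∫ t, |χ (Real.log t) * ker p z t| ∂μ
        ≤ (Real.exp (-κ * d) / Real.sin (δ / 2)) * (C₀ * A * ‖z‖ ^ ρ) := key
      _ ≤ C₀ * (1 + κ⁻¹) * A * Real.exp (-κ * d) / Real.sin (δ / 2) * ‖z‖ ^ ρ := by
          have e3 : C₀ * (1 + κ⁻¹) * A * Real.exp (-κ * d) / Real.sin (δ / 2) * ‖z‖ ^ ρ =
            (Real.exp (-κ * d) / Real.sin (δ / 2)) * (C₀ * A * ‖z‖ ^ ρ) +
            (Real.exp (-κ * d) * κ⁻¹ / Real.sin (δ / 2)) * (C₀ * A * ‖z‖ ^ ρ) := by ring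
          rw [e3]
          have : 0 ≤ (Real.exp (-κ * d) * κ⁻¹ / Real.sin (δ / 2)) * (C₀ * A * ‖z‖ ^ ρ) := by
            positivity
          linarith

end Helper25.Ind
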