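import Pool.Agent.Helper25.Ind.Defs
import Pool.Agent.Helper25.Ind.KerA

open Complex Filter Topology MeasureTheory Set

namespace Helper25.Ind

lemma glue2_aux_ker (p : ℕ) (z : ℂ) {E : ℝ} (hE : 0 < E) (t : ℝ) :
    ker p z (E * t) = ker p ((E⁻¹ : ℝ) * z) t := by
  unfold ker
  congr 3
  have hE' : (E : ℂ) ≠ 0 := by exact_mod_cast hE.ne'
  push_cast
  field_simp

lemma glue2_aux_integral (p : ℕ) (z : ℂ) {E c : ℝ} (hE : 0 < E) (hc : 0 ≤ c) (μ : Measure ℝ) :
    ∫ t, ker p z t ∂(ENNReal.ofReal c • Measure.map (fun t => E * t) μ) =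
      c * ∫ t, ker p ((E⁻¹ : ℝ) * z) t ∂μ := by
  have hemb : MeasurableEmbedding (fun t : ℝ => E * t) := measurableEmbedding_mulLeft₀ hE.ne'
  rw [integral_smul_measure, hemb.integral_map, ENNReal.toReal_ofReal hc, smul_eq_mul]
  simp only [glue2_aux_ker p z hE]

theorem window_scale {p : ℕ} {ρ : ℝ} (h1 : (p : ℝ) < ρ) (h2 : ρ < p + 1) {h : ℝ → ℝ}
    {A ε δ M θ₀ : ℝ} (hA : 0 ≤ A) {μ : Measure ℝ} (hμ : Window p ρ h A ε δ M θ₀ μ) (s : ℝ) :
    ∃ μ' : Measure ℝ, Growth ρ A μ' ∧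
      (∀ z ∈ slitPlane, |z.arg| ≤ Real.pi - δ → Real.exp (s - M) ≤ ‖z‖ →
        ‖z‖ ≤ Real.exp (s + M) → ∫ t, ker p z t ∂μ' ≤ (h z.arg + ε) * ‖z‖ ^ ρ) ∧
      (h θ₀ - ε) * Real.exp s ^ ρ ≤
        ∫ t, ker p (Real.exp s * Complex.exp (θ₀ * Complex.I)) t ∂μ' := by
  obtain ⟨⟨hg0, hgt⟩, hw, hlow⟩ := hμ
  set E := Real.exp s with hEdef
  have hE : 0 < E := Real.exp_pos s
  have hc : 0 ≤ E ^ ρ := by positivity
  refine ⟨ENNReal.ofReal (E ^ ρ) • Measure.map (fun t => E * t) μ, ⟨?_, ?_⟩, ?_, ?_⟩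
  · rw [Measure.smul_apply, Measure.map_apply (measurable_const_mul E) measurableSet_Iic]
    have : (fun t : ℝ => E * t) ⁻¹' Iic 0 = Iic 0 := by
      ext t
      simp only [mem_preimage, mem_Iic]
      constructor
      · intro h0
        by_contra ht
        push Not at ht
        nlinarith [mul_pos hE ht]
      · intro h0
        nlinarith
    rw [this, hg0, smul_zero]
  · intro t ht
    rw [Measure.smul_apply, Measure.map_apply (measurable_const_mul E) measurableSet_Iic]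
    have : (fun t : ℝ => E * t) ⁻¹' Iic t = Iic (t / E) := by
      ext x
      simp only [mem_preimage, mem_Iic]
      rw [le_div_iff₀ hE, mul_comm]
    rw [this, smul_eq_mul]
    calc ENNReal.ofReal (E ^ ρ) * μ (Iic (t / E)) ≤
          ENNReal.ofReal (E ^ ρ) * ENNReal.ofReal (A * (t / E) ^ ρ) := by
          gcongr
          exact hgt _ (by positivity)
      _ = ENNReal.ofReal (A * t ^ ρ) := by
          rw [← ENNReal.ofReal_mul hc, Real.div_rpow ht.le hE.le]
          congr 1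
          field_simp
  · intro z hz harg hz1 hz2
    rw [glue2_aux_integral p z hE hc μ]
    have hEinv : 0 < E⁻¹ := inv_pos.2 hE
    have harg' : ((E⁻¹ : ℝ) * z).arg = z.arg := Complex.arg_real_mul z hEinv
    have hnorm : ‖((E⁻¹ : ℝ) * z : ℂ)‖ = ‖z‖ / E := by
      rw [norm_mul, Complex.norm_real, Real.norm_of_nonneg hEinv.le]
      ring
    have hslit : ((E⁻¹ : ℝ) * z : ℂ) ∈ slitPlane := by
      rw [Complex.mem_slitPlane_iff_arg] at hz ⊢
      rw [harg']
      refine ⟨hz.1, mul_ne_zero ?_ hz.2⟩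
      exact_mod_cast hEinv.ne'
    have h3 := hw _ hslit (by rw [harg']; exact harg) (by
      rw [hnorm, le_div_iff₀ hE, hEdef, ← Real.exp_add]
      refine le_trans (le_of_eq ?_) hz1
      congr 1
      ring) (by
      rw [hnorm, div_le_iff₀ hE, hEdef, ← Real.exp_add]
      refine hz2.trans (le_of_eq ?_)
      congr 1
      ring)
    rw [harg', hnorm] at h3
    calc E ^ ρ * ∫ t, ker p ((E⁻¹ : ℝ) * z) t ∂μ ≤ E ^ ρ * ((h z.arg + ε) * (‖z‖ / E) ^ ρ) := by
          gcongr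
      _ = (h z.arg + ε) * ‖z‖ ^ ρ := by
          rw [Real.div_rpow (norm_nonneg z) hE.le]
          have : E ^ ρ ≠ 0 := (Real.rpow_pos_of_pos hE ρ).ne'
          field_simp
  · rw [glue2_aux_integral p _ hE hc μ]
    have h4 : ((E⁻¹ : ℝ) : ℂ) * ((E : ℂ) * Complex.exp (θ₀ * Complex.I)) =
        Complex.exp (θ₀ * Complex.I) := by
      have hE' : (E : ℂ) ≠ 0 := by exact_mod_cast hE.ne'
      push_cast
      field_simp
    rw [h4, mul_comm]
    gcongr

end Helper25.Ind
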