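import Pool.Agent.Helper25.Ind.Defs
import Pool.Agent.Helper25.Ind.Glue1
import Pool.Agent.Helper25.Ind.Glue2

open Complex Filter Topology MeasureTheory Set

namespace Helper25.Ind

/-- hat functions in the variable `√s`, centred at `j + 2` -/
noncomputable def glue3_chi (j : ℕ) (s : ℝ) : ℝ := max 0 (1 - |√s - ((j : ℝ) + 2)|)

lemma glue3_chi_nonneg (j : ℕ) (s : ℝ) : 0 ≤ glue3_chi j s := le_max_left _ _

lemma glue3_chi_le_one (j : ℕ) (s : ℝ) : glue3_chi j s ≤ 1 := by
  unfold glue3_chi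
  apply max_le zero_le_one
  have := abs_nonneg (√s - ((j : ℝ) + 2))
  linarith

lemma glue3_chi_continuous (j : ℕ) : Continuous (glue3_chi j) := by
  unfold glue3_chi
  fun_prop

lemma glue3_chi_eq_zero {j : ℕ} {s : ℝ} (h : 1 ≤ |√s - ((j : ℝ) + 2)|) : glue3_chi j s = 0 := by
  unfold glue3_chi
  apply max_eq_left
  linarith

lemma glue3_chi_eq_max (j : ℕ) (s : ℝ) :
    glue3_chi j s = max 0 (1 - |√(max s (((j : ℝ) + 1) ^ 2)) - ((j : ℝ) + 2)|) := by
  rcases le_total (((j : ℝ) + 1) ^ 2) s with h | h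
  · rw [max_eq_left h]; rfl
  · rw [max_eq_right h]
    have hj : (0 : ℝ) ≤ (j : ℝ) + 1 := by positivity
    rw [Real.sqrt_sq hj]
    have h1 : √s ≤ (j : ℝ) + 1 := by
      rw [← Real.sqrt_sq hj]
      exact Real.sqrt_le_sqrt h
    rw [glue3_chi_eq_zero]
    · have : |(j : ℝ) + 1 - ((j : ℝ) + 2)| = 1 := by
        have : (j : ℝ) + 1 - ((j : ℝ) + 2) = -1 := by ring
        rw [this]; norm_num
      rw [this]; simp
    · rw [abs_of_nonpos (by linarith)]
      linarith

lemma glue3_chi_lip (j : ℕ) (s s' : ℝ) :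
    |glue3_chi j s - glue3_chi j s'| ≤ 1 / (2 * ((j : ℝ) + 1)) * |s - s'| := by
  rw [glue3_chi_eq_max j s, glue3_chi_eq_max j s']
  have hj : (0 : ℝ) < (j : ℝ) + 1 := by positivity
  set a := max s (((j : ℝ) + 1) ^ 2) with ha
  set b := max s' (((j : ℝ) + 1) ^ 2) with hb
  have ha1 : ((j : ℝ) + 1) ^ 2 ≤ a := le_max_right _ _
  have hb1 : ((j : ℝ) + 1) ^ 2 ≤ b := le_max_right _ _
  have ha0 : 0 ≤ a := le_trans (by positivity) ha1
  have hb0 : 0 ≤ b := le_trans (by positivity) hb1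
  have hsa : (j : ℝ) + 1 ≤ √a := by
    rw [← Real.sqrt_sq hj.le]; exact Real.sqrt_le_sqrt ha1
  have hsb : (j : ℝ) + 1 ≤ √b := by
    rw [← Real.sqrt_sq hj.le]; exact Real.sqrt_le_sqrt hb1
  have hab : |a - b| ≤ |s - s'| := by
    have := abs_max_sub_max_le_max s (((j : ℝ) + 1) ^ 2) s' (((j : ℝ) + 1) ^ 2)
    simpa using this
  have hsub : |√a - √b| * (2 * ((j : ℝ) + 1)) ≤ |s - s'| := by
    calc |√a - √b| * (2 * ((j : ℝ) + 1)) ≤ |√a - √b| * (√a + √b) := by
          apply mul_le_mul_of_nonneg_left _ (abs_nonneg _); linarith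
      _ = |(√a - √b) * (√a + √b)| := by
          rw [abs_mul, abs_of_nonneg (by linarith : (0 : ℝ) ≤ √a + √b)]
      _ = |a - b| := by
          congr 1
          have h1 := Real.sq_sqrt ha0
          have h2 := Real.sq_sqrt hb0
          (first | linarith | nlinarith)
      _ ≤ _ := hab
  calc |max 0 (1 - |√a - ((j : ℝ) + 2)|) - max 0 (1 - |√b - ((j : ℝ) + 2)|)|
      ≤ max |(0 : ℝ) - 0| |(1 - |√a - ((j : ℝ) + 2)|) - (1 - |√b - ((j : ℝ) + 2)|)| :=
        abs_max_sub_max_le_max _ _ _ _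
    _ ≤ |√a - √b| := by
        apply max_le
        · simp
        · have e : (1 - |√a - ((j : ℝ) + 2)|) - (1 - |√b - ((j : ℝ) + 2)|) =
              |√b - ((j : ℝ) + 2)| - |√a - ((j : ℝ) + 2)| := by ring
          rw [e]
          refine (abs_abs_sub_abs_le_abs_sub _ _).trans ?_
          have e2 : √b - ((j : ℝ) + 2) - (√a - ((j : ℝ) + 2)) = -(√a - √b) := by ring
          rw [e2, abs_neg]
    _ ≤ 1 / (2 * ((j : ℝ) + 1)) * |s - s'| := by
        rw [div_mul_eq_mul_div, one_mul, le_div_iff₀ (by positivity)]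
        exact hsub

lemma glue3_sum_chi {k : ℕ} {s : ℝ} (h1 : (k : ℝ) + 3 ≤ √s) (h2 : √s < (k : ℝ) + 4) :
    ∑ j ∈ Finset.Ico k (k + 4), glue3_chi j s = 1 := by
  have e : Finset.Ico k (k + 4) = {k, k + 1, k + 2, k + 3} := by
    ext x; simp only [Finset.mem_Ico, Finset.mem_insert, Finset.mem_singleton]; omega
  rw [e, Finset.sum_insert (by simp), Finset.sum_insert (by simp), Finset.sum_insert (by simp),
    Finset.sum_singleton]
  have e0 : glue3_chi k s = 0 := by
    apply glue3_chi_eq_zero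
    rw [abs_of_nonneg (by linarith)]; linarith
  have e3 : glue3_chi (k + 3) s = 0 := by
    apply glue3_chi_eq_zero
    push_cast
    rw [abs_of_nonpos (by linarith)]; linarith
  have e1 : glue3_chi (k + 1) s = (k : ℝ) + 4 - √s := by
    unfold glue3_chi
    push_cast
    rw [abs_of_nonneg (by linarith), max_eq_right (by linarith)]; ring
  have e2 : glue3_chi (k + 2) s = √s - (k : ℝ) - 3 := by
    unfold glue3_chi
    push_cast
    rw [abs_of_nonpos (by linarith), max_eq_right (by linarith)]; ring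
  rw [e0, e1, e2, e3]; ring

/-- the pieces of the glued measure -/
noncomputable def glue3_piece (μ : ℕ → Measure ℝ) (j : ℕ) : Measure ℝ :=
  (μ j).withDensity fun t => ENNReal.ofReal (glue3_chi j (Real.log t))

lemma glue3_measurable (j : ℕ) : Measurable fun t : ℝ => glue3_chi j (Real.log t) :=
  (glue3_chi_continuous j).measurable.comp Real.measurable_log

lemma glue3_piece_le {ρ A : ℝ} (hρ : 0 < ρ) {μ : ℕ → Measure ℝ} {j : ℕ}
    (hμ : Growth ρ A (μ j)) {t m : ℝ} (hm : 0 < m)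
    (h : ∀ τ, 0 < τ → τ ≤ t → m < τ → glue3_chi j (Real.log τ) = 0) :
    glue3_piece μ j (Iic t) ≤ ENNReal.ofReal (A * m ^ ρ) := by
  unfold glue3_piece
  rw [withDensity_apply _ measurableSet_Iic]
  refine le_trans ?_ (hμ.2 m hm)
  rw [← lintegral_indicator_one (measurableSet_Iic (a := m)),
    ← lintegral_indicator measurableSet_Iic]
  apply lintegral_mono_ae
  have hae : ∀ᵐ τ ∂(μ j), 0 < τ := by
    rw [ae_iff]
    have : {a : ℝ | ¬0 < a} = Iic 0 := by ext x; simp
    rw [this]; exact hμ.1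
  filter_upwards [hae] with τ hτ
  by_cases hτt : τ ∈ Iic t
  · rw [indicator_of_mem hτt]
    by_cases hτm : τ ∈ Iic m
    · rw [indicator_of_mem hτm]
      simp only [Pi.one_apply]
      rw [← ENNReal.ofReal_one]
      exact ENNReal.ofReal_le_ofReal (glue3_chi_le_one _ _)
    · rw [h τ hτ hτt (not_le.1 hτm)]
      simp
  · rw [indicator_of_notMem hτt]
    exact bot_le

lemma glue3_piece_eq_zero {ρ A : ℝ} {μ : ℕ → Measure ℝ} {j : ℕ}
    (hμ : Growth ρ A (μ j)) {t : ℝ} (ht : √(Real.log t) ≤ (j : ℝ) + 1) :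
    glue3_piece μ j (Iic t) = 0 := by
  unfold glue3_piece
  rw [withDensity_apply _ measurableSet_Iic, ← lintegral_indicator measurableSet_Iic]
  rw [lintegral_eq_zero_iff']
  · have hae : ∀ᵐ τ ∂(μ j), 0 < τ := by
      rw [ae_iff]
      have : {a : ℝ | ¬0 < a} = Iic 0 := by ext x; simp
      rw [this]; exact hμ.1
    filter_upwards [hae] with τ hτ
    by_cases hτt : τ ∈ Iic t
    · rw [indicator_of_mem hτt]
      have h1 : √(Real.log τ) ≤ (j : ℝ) + 1 :=
        (Real.sqrt_le_sqrt (Real.log_le_log hτ hτt)).trans ht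
      rw [glue3_chi_eq_zero]
      · simp
      · rw [abs_of_nonpos (by linarith)]; linarith
    · rw [indicator_of_notMem hτt]; rfl
  · exact ((glue3_measurable j).ennreal_ofReal.indicator measurableSet_Iic).aemeasurable

lemma glue3_growth {ρ A : ℝ} (hρ : 0 < ρ) (hA : 0 ≤ A) {μ : ℕ → Measure ℝ}
    (hμ : ∀ j, Growth ρ A (μ j)) :
    Growth ρ (A * Real.exp (3 * ρ) / (1 - Real.exp (-ρ))) (Measure.sum (glue3_piece μ)) ∧
      Measure.sum (glue3_piece μ) (Iic 1) = 0 := by
  have hx : Real.exp (-ρ) < 1 := by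
    rw [Real.exp_lt_one_iff]; linarith
  have hx0 : 0 < Real.exp (-ρ) := Real.exp_pos _
  have h1 : Measure.sum (glue3_piece μ) (Iic 1) = 0 := by
    rw [Measure.sum_apply _ measurableSet_Iic, ENNReal.tsum_eq_zero]
    intro j
    apply glue3_piece_eq_zero (hμ j)
    rw [Real.log_one, Real.sqrt_zero]
    positivity
  refine ⟨⟨?_, ?_⟩, h1⟩
  · exact measure_mono_null (Iic_subset_Iic.2 zero_le_one) h1
  · intro t ht
    rw [Measure.sum_apply _ measurableSet_Iic]
    set s := Real.log t with hs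
    set n := ⌊√s⌋₊ with hn
    have hn1 : (n : ℝ) ≤ √s := Nat.floor_le (Real.sqrt_nonneg _)
    have hn2 : √s < (n : ℝ) + 1 := Nat.lt_floor_add_one _
    have hts : t = Real.exp s := (Real.exp_log ht).symm
    rw [tsum_eq_sum (s := Finset.range (n + 1))]
    · have hb : ∀ j ∈ Finset.range (n + 1), glue3_piece μ j (Iic t) ≤
          ENNReal.ofReal (A * t ^ ρ * Real.exp (3 * ρ) * Real.exp (-ρ) ^ (n - j)) := by
        intro j hj
        have hjn : j ≤ n := Nat.lt_succ_iff.1 (Finset.mem_range.1 hj)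
        have hm0 : 0 < min t (Real.exp (((j : ℝ) + 3) ^ 2)) := lt_min ht (Real.exp_pos _)
        refine (glue3_piece_le hρ (hμ j) hm0 ?_).trans ?_
        · intro τ hτ hτt hτm
          have h2 : Real.exp (((j : ℝ) + 3) ^ 2) < τ := by
            rcases min_lt_iff.1 hτm with h | h
            · linarith
            · exact h
          have h3 : ((j : ℝ) + 3) ^ 2 < Real.log τ := (Real.lt_log_iff_exp_lt hτ).2 h2
          have h4 : (j : ℝ) + 3 < √(Real.log τ) := Real.lt_sqrt_of_sq_lt h3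
          apply glue3_chi_eq_zero
          rw [abs_of_nonneg (by linarith)]; linarith
        · apply ENNReal.ofReal_le_ofReal
          rw [mul_assoc, mul_assoc]
          apply mul_le_mul_of_nonneg_left _ hA
          have hsq : (n : ℝ) ^ 2 ≤ s ∨ n = 0 := by
            rcases Nat.eq_zero_or_pos n with h | h
            · right; exact h
            · left
              have hpos : 0 < √s := lt_of_lt_of_le (by exact_mod_cast h) hn1
              have hs0 : 0 < s := Real.sqrt_pos.1 hpos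
              have := Real.sq_sqrt hs0.le
              (first | linarith | nlinarith)
          have key : min t (Real.exp (((j : ℝ) + 3) ^ 2)) ≤
              Real.exp (s + 3 - ((n : ℝ) - j)) := by
            by_cases hc : n ≤ j + 3
            · refine (min_le_left _ _).trans ?_
              rw [hts]
              apply Real.exp_le_exp.2
              have : (n : ℝ) ≤ (j : ℝ) + 3 := by exact_mod_cast hc
              linarith
            · refine (min_le_right _ _).trans ?_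
              apply Real.exp_le_exp.2
              rw [not_le] at hc
              rcases hsq with h | h
              · have hc' : (j : ℝ) + 3 + 1 ≤ (n : ℝ) := by exact_mod_cast hc
                (first | linarith | nlinarith)
              · omega
          calc (min t (Real.exp (((j : ℝ) + 3) ^ 2))) ^ ρ
              ≤ (Real.exp (s + 3 - ((n : ℝ) - j))) ^ ρ :=
                Real.rpow_le_rpow hm0.le key hρ.le
            _ = t ^ ρ * (Real.exp (3 * ρ) * Real.exp (-ρ) ^ (n - j)) := by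
                rw [hts, ← Real.exp_mul, ← Real.exp_mul, ← Real.exp_nat_mul, ← Real.exp_add,
                  ← Real.exp_add]
                congr 1
                rw [Nat.cast_sub hjn]
                ring
      refine (Finset.sum_le_sum hb).trans ?_
      rw [← ENNReal.ofReal_sum_of_nonneg]
      · apply ENNReal.ofReal_le_ofReal
        rw [← Finset.mul_sum]
        have hg : ∑ i ∈ Finset.range (n + 1), Real.exp (-ρ) ^ (n - i) ≤ 1 / (1 - Real.exp (-ρ)) := by
          have e := Finset.sum_range_reflect (fun i => Real.exp (-ρ) ^ i) (n + 1)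
          simp only [Nat.add_sub_cancel] at e
          rw [e, one_div, ← tsum_geometric_of_lt_one hx0.le hx]
          exact (summable_geometric_of_lt_one hx0.le hx).sum_le_tsum _
            (fun i _ => pow_nonneg hx0.le i)
        have hA2 : 0 ≤ A * t ^ ρ * Real.exp (3 * ρ) := by positivity
        calc A * t ^ ρ * Real.exp (3 * ρ) * ∑ i ∈ Finset.range (n + 1), Real.exp (-ρ) ^ (n - i)
            ≤ A * t ^ ρ * Real.exp (3 * ρ) * (1 / (1 - Real.exp (-ρ))) :=
              mul_le_mul_of_nonneg_left hg hA2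
          _ = _ := by ring
      · intro i _
        positivity
    · intro j hj
      apply glue3_piece_eq_zero (hμ j)
      have : n + 1 ≤ j := by
        by_contra hcon
        exact hj (Finset.mem_range.2 (by omega))
      have h3 : (n : ℝ) + 1 ≤ j := by exact_mod_cast this
      rw [← hs]
      linarith

/-- the main estimate -/
lemma glue3_main {p : ℕ} {ρ A A' κ C : ℝ} (h1 : (p : ℝ) < ρ) (h2 : ρ < p + 1) (hA : 0 ≤ A)
    (hA' : 0 ≤ A') (hκ : 0 < κ) (hC : 0 < C)
    (hcut : ∀ (A : ℝ) (μ : Measure ℝ), 0 ≤ A → Growth ρ A μ →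
      ∀ (χ : ℝ → ℝ) (L : ℝ), (∀ s, 0 ≤ χ s) → (∀ s, χ s ≤ 1) → 0 ≤ L →
        (∀ s s', |χ s - χ s'| ≤ L * |s - s'|) →
        ∀ δ : ℝ, 0 < δ → δ ≤ Real.pi → ∀ z ∈ slitPlane, |z.arg| ≤ Real.pi - δ →
          Integrable (fun t => χ (Real.log t) * ker p z t) μ ∧
          |(∫ t, χ (Real.log t) * ker p z t ∂μ) - χ (Real.log ‖z‖) * ∫ t, ker p z t ∂μ| ≤
            C * A * L / Real.sin (δ / 2) * ‖z‖ ^ ρ ∧
          ∀ d : ℝ, 0 ≤ d → (∀ s, |s - Real.log ‖z‖| < d → χ s = 0) →
            ∫ t, |χ (Real.log t) * ker p z t| ∂μ ≤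
              C * A * Real.exp (-κ * d) / Real.sin (δ / 2) * ‖z‖ ^ ρ)
    {μ : ℕ → Measure ℝ} (hμ : ∀ j, Growth ρ A (μ j))
    (hν : Growth ρ A' (Measure.sum (glue3_piece μ))) {δ : ℝ} (hδ : 0 < δ) (hδπ : δ ≤ Real.pi)
    {z : ℂ} (hz : z ∈ slitPlane) (hzδ : |z.arg| ≤ Real.pi - δ) {k : ℕ}
    (hk1 : (k : ℝ) + 3 ≤ √(Real.log ‖z‖)) (hk2 : √(Real.log ‖z‖) < (k : ℝ) + 4) :
    |(∫ t, ker p z t ∂(Measure.sum (glue3_piece μ))) -
      ∑ j ∈ Finset.Ico k (k + 4), glue3_chi j (Real.log ‖z‖) * ∫ t, ker p z t ∂(μ j)| ≤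
      (C * A / Real.sin (δ / 2)) * (2 / ((k : ℝ) + 1) +
        Real.exp (-κ / 2) ^ k * (1 / (1 - Real.exp (-κ / 2)))) * ‖z‖ ^ ρ := by
  set s := Real.log ‖z‖ with hs
  set u := √s with hu
  set x := Real.exp (-κ / 2) with hx
  have hx0 : 0 < x := Real.exp_pos _
  have hx1 : x < 1 := by rw [hx, Real.exp_lt_one_iff]; linarith
  have hu3 : 3 ≤ u := by
    have : (0 : ℝ) ≤ k := Nat.cast_nonneg k
    linarith
  have hs0 : 0 < s := Real.sqrt_pos.1 (by linarith)
  have hus : u ^ 2 = s := Real.sq_sqrt hs0.le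
  have hsin : 0 < Real.sin (δ / 2) := by
    apply Real.sin_pos_of_pos_of_lt_pi <;> linarith
  have hzρ : 0 ≤ ‖z‖ ^ ρ := Real.rpow_nonneg (norm_nonneg _) _
  -- the integral over the sum
  have hint : Integrable (ker p z) (Measure.sum (glue3_piece μ)) := integrable_ker h1 h2 hA' hν hz
  have hsum : HasSum (fun j => ∫ t, ker p z t ∂(glue3_piece μ j))
      (∫ t, ker p z t ∂(Measure.sum (glue3_piece μ))) := hasSum_integral_measure hint
  have hpiece : ∀ j, ∫ t, ker p z t ∂(glue3_piece μ j) =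
      ∫ t, glue3_chi j (Real.log t) * ker p z t ∂(μ j) := by
    intro j
    unfold glue3_piece
    rw [integral_withDensity_eq_integral_toReal_smul (glue3_measurable j).ennreal_ofReal
      (Filter.Eventually.of_forall fun t => ENNReal.ofReal_lt_top)]
    apply integral_congr_ae
    apply Filter.Eventually.of_forall
    intro t
    simp only [smul_eq_mul]
    rw [ENNReal.toReal_ofReal (glue3_chi_nonneg _ _)]
  simp_rw [hpiece] at hsum
  set I : ℕ → ℝ := fun j => ∫ t, glue3_chi j (Real.log t) * ker p z t ∂(μ j) with hI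
  set V : ℕ → ℝ := fun j => ∫ t, ker p z t ∂(μ j) with hV
  set F := Finset.Ico k (k + 4) with hF
  have hsumF : HasSum (fun j => if j ∈ F then glue3_chi j s * V j else 0)
      (∑ j ∈ F, glue3_chi j s * V j) := by
    have : HasSum (fun j => if j ∈ F then glue3_chi j s * V j else 0)
        (∑ j ∈ F, if j ∈ F then glue3_chi j s * V j else 0) :=
      hasSum_sum_of_ne_finset_zero (fun j hj => by simp [hj])
    convert this using 1
    apply Finset.sum_congr rfl
    intro j hj
    simp [hj]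
  have hdiff := hsum.sub hsumF
  set B := C * A / Real.sin (δ / 2) * ‖z‖ ^ ρ with hB
  have hB0 : 0 ≤ B := by positivity
  have hgeo : HasSum (fun j : ℕ => x ^ k * x ^ j) (x ^ k * (1 - x)⁻¹) :=
    (hasSum_geometric_of_lt_one hx0.le hx1).mul_left _
  have hind : HasSum (fun j : ℕ => if j ∈ F then 1 / (2 * ((k : ℝ) + 1)) else 0)
      (2 / ((k : ℝ) + 1)) := by
    have : HasSum (fun j : ℕ => if j ∈ F then 1 / (2 * ((k : ℝ) + 1)) else 0)
        (∑ j ∈ F, if j ∈ F then 1 / (2 * ((k : ℝ) + 1)) else 0) :=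
      hasSum_sum_of_ne_finset_zero (fun j hj => by simp [hj])
    convert this using 1
    rw [Finset.sum_ite_mem, Finset.inter_self, Finset.sum_const, hF, Nat.card_Ico, nsmul_eq_mul]
    have : k + 4 - k = 4 := by omega
    rw [this]
    field_simp
    norm_num
  have hbound : HasSum (fun j : ℕ => B * ((if j ∈ F then 1 / (2 * ((k : ℝ) + 1)) else 0) +
      x ^ k * x ^ j)) (B * (2 / ((k : ℝ) + 1) + x ^ k * (1 - x)⁻¹)) :=
    (hind.add hgeo).mul_left _
  have hterm : ∀ j, ‖I j - (if j ∈ F then glue3_chi j s * V j else 0)‖ ≤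
      B * ((if j ∈ F then 1 / (2 * ((k : ℝ) + 1)) else 0) + x ^ k * x ^ j) := by
    intro j
    have hj0 : (0 : ℝ) ≤ j := Nat.cast_nonneg j
    have hL : (0 : ℝ) ≤ 1 / (2 * ((j : ℝ) + 1)) := by positivity
    obtain ⟨hi, hnear, hfar⟩ := hcut A (μ j) hA (hμ j) (glue3_chi j) (1 / (2 * ((j : ℝ) + 1)))
      (glue3_chi_nonneg j) (glue3_chi_le_one j) hL (glue3_chi_lip j) δ hδ hδπ z hz hzδ
    by_cases hj : j ∈ F
    · rw [if_pos hj, if_pos hj, Real.norm_eq_abs]
      refine hnear.trans ?_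
      have hkj : (k : ℝ) ≤ j := by exact_mod_cast (Finset.mem_Ico.1 hj).1
      have h3 : 1 / (2 * ((j : ℝ) + 1)) ≤ 1 / (2 * ((k : ℝ) + 1)) := by
        apply one_div_le_one_div_of_le (by positivity); linarith
      calc C * A * (1 / (2 * ((j : ℝ) + 1))) / Real.sin (δ / 2) * ‖z‖ ^ ρ
          = B * (1 / (2 * ((j : ℝ) + 1))) := by rw [hB]; ring
        _ ≤ B * (1 / (2 * ((k : ℝ) + 1)) + x ^ k * x ^ j) := by
            apply mul_le_mul_of_nonneg_left _ hB0
            have : 0 ≤ x ^ k * x ^ j := by positivity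
            linarith
    · rw [if_neg hj, if_neg hj, sub_zero, zero_add, Real.norm_eq_abs]
      have hd0 : 0 ≤ (u + (j + 2)) / 2 := by positivity
      have hz2 : ∀ s', |s' - Real.log ‖z‖| < (u + (j + 2)) / 2 → glue3_chi j s' = 0 := by
        intro s' hs'
        rw [← hs] at hs'
        apply glue3_chi_eq_zero
        by_contra hcon
        rw [not_le, abs_lt] at hcon
        obtain ⟨hc1, hc2⟩ := hcon
        have hv1 : (j : ℝ) + 1 < √s' := by linarith
        have hv2 : √s' < (j : ℝ) + 3 := by linarith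
        have hs'0 : 0 < s' := Real.sqrt_pos.1 (by linarith)
        have hv3 := Real.sq_sqrt hs'0.le
        rw [abs_lt] at hs'
        have hjF : j < k ∨ k + 4 ≤ j := by
          by_contra hcc
          apply hj
          rw [hF, Finset.mem_Ico]
          omega
        rcases hjF with h | h
        · have h4 : (j : ℝ) + 1 ≤ k := by exact_mod_cast h
          (first | linarith | nlinarith)
        · have h4 : (k : ℝ) + 4 ≤ j := by exact_mod_cast h
          (first | linarith | nlinarith)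
      have h5 := hfar _ hd0 hz2
      have h6 : |I j| ≤ ∫ t, |glue3_chi j (Real.log t) * ker p z t| ∂(μ j) :=
        abs_integral_le_integral_abs
      refine h6.trans (h5.trans ?_)
      have h7 : Real.exp (-κ * ((u + (j + 2)) / 2)) ≤ x ^ k * x ^ j := by
        rw [hx, ← Real.exp_nat_mul, ← Real.exp_nat_mul, ← Real.exp_add]
        apply Real.exp_le_exp.2
        have : (k : ℝ) + 3 ≤ u := hk1
        (first | linarith | nlinarith)
      calc C * A * Real.exp (-κ * ((u + (j + 2)) / 2)) / Real.sin (δ / 2) * ‖z‖ ^ ρ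
          = B * Real.exp (-κ * ((u + (j + 2)) / 2)) := by rw [hB]; ring
        _ ≤ B * (x ^ k * x ^ j) := mul_le_mul_of_nonneg_left h7 hB0
  have hfin := tsum_of_norm_bounded hbound hterm
  rw [hdiff.tsum_eq, Real.norm_eq_abs] at hfin
  refine hfin.trans (le_of_eq ?_)
  rw [hB, one_div]
  ring

/-- a sequence of directions which takes every rational value in `(-π, π)` infinitely often -/
lemma glue3_seq : ∃ θ : ℕ → ℝ, (∀ j, |θ j| < Real.pi) ∧
    ∀ q : ℚ, |(q : ℝ)| < Real.pi → ∀ N : ℕ, ∃ j ≥ N, θ j = q := by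
  classical
  obtain ⟨e, he⟩ := exists_surjective_nat ℚ
  refine ⟨fun j => if |(e (Nat.unpair j).1 : ℝ)| < Real.pi then (e (Nat.unpair j).1 : ℝ) else 0,
    ?_, ?_⟩
  · intro j
    dsimp only
    split_ifs with h
    · exact h
    · rw [abs_zero]; exact Real.pi_pos
  · intro q hq N
    obtain ⟨a, ha⟩ := he q
    refine ⟨Nat.pair a N, Nat.right_le_pair a N, ?_⟩
    simp only [Nat.unpair_pair]
    rw [ha, if_pos hq]

theorem glue {p : ℕ} {ρ : ℝ} (h1 : (p : ℝ) < ρ) (h2 : ρ < p + 1) {h : ℝ → ℝ}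
    (hc : Continuous h) {A : ℝ} (hA : 0 ≤ A)
    (hw : ∀ ε > 0, ∀ δ > 0, ∀ M > 0, ∀ θ₀ : ℝ, |θ₀| < Real.pi →
      ∃ μ : Measure ℝ, Window p ρ h A ε δ M θ₀ μ) :
    ∃ (A' : ℝ) (ν : Measure ℝ), 0 ≤ A' ∧ Growth ρ A' ν ∧ ν (Iic 1) = 0 ∧
      (∀ δ > 0, ∀ ε > 0, ∃ R, ∀ z ∈ slitPlane, |z.arg| ≤ Real.pi - δ → R ≤ ‖z‖ →
        ∫ t, ker p z t ∂ν ≤ (h z.arg + ε) * ‖z‖ ^ ρ) ∧
      ∀ q : ℚ, |(q : ℝ)| < Real.pi → ∀ ε > 0, ∀ R : ℝ, ∃ r, R ≤ r ∧
        (h q - ε) * r ^ ρ ≤ ∫ t, ker p (r * Complex.exp ((q : ℝ) * Complex.I)) t ∂ν := by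
  have hπ := Real.pi_pos
  have hρ : 0 < ρ := lt_of_le_of_lt (Nat.cast_nonneg p) h1
  obtain ⟨θ, hθ, hθq⟩ := glue3_seq
  -- choose the windows
  have hwin : ∀ j : ℕ, ∃ μ' : Measure ℝ, Growth ρ A μ' ∧
      (∀ z ∈ slitPlane, |z.arg| ≤ Real.pi - 1 / ((j : ℝ) + 2) →
        Real.exp (((j : ℝ) + 2) ^ 2 - (2 * ((j : ℝ) + 2) + 1)) ≤ ‖z‖ →
        ‖z‖ ≤ Real.exp (((j : ℝ) + 2) ^ 2 + (2 * ((j : ℝ) + 2) + 1)) →
        ∫ t, ker p z t ∂μ' ≤ (h z.arg + 1 / ((j : ℝ) + 2)) * ‖z‖ ^ ρ) ∧
      (h (θ j) - 1 / ((j : ℝ) + 2)) * Real.exp (((j : ℝ) + 2) ^ 2) ^ ρ ≤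
        ∫ t, ker p (Real.exp (((j : ℝ) + 2) ^ 2) * Complex.exp (θ j * Complex.I)) t ∂μ' := by
    intro j
    obtain ⟨μ, hμ⟩ := hw (1 / ((j : ℝ) + 2)) (by positivity) (1 / ((j : ℝ) + 2)) (by positivity)
      (2 * ((j : ℝ) + 2) + 1) (by positivity) (θ j) (hθ j)
    exact window_scale h1 h2 hA hμ (((j : ℝ) + 2) ^ 2)
  choose μ hμG hμU hμL using hwin
  obtain ⟨κ, hκ, C, hC, hcut⟩ := cutoff_estimate h1 h2
  obtain ⟨hνG, hν1⟩ := glue3_growth hρ hA hμG
  set ν := Measure.sum (glue3_piece μ) with hν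
  set A' := A * Real.exp (3 * ρ) / (1 - Real.exp (-ρ)) with hA'
  have hx : Real.exp (-ρ) < 1 := by rw [Real.exp_lt_one_iff]; linarith
  have hA'0 : 0 ≤ A' := by
    apply div_nonneg (by positivity)
    linarith
  set x := Real.exp (-κ / 2) with hxdef
  have hx0 : 0 < x := Real.exp_pos _
  have hx1 : x < 1 := by rw [hxdef, Real.exp_lt_one_iff]; linarith
  -- the error tends to zero
  have herr : ∀ δ : ℝ, Tendsto (fun k : ℕ => (C * A / Real.sin (δ / 2)) * (2 / ((k : ℝ) + 1) +
        x ^ k * (1 / (1 - x)))) atTop (𝓝 0) := by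
    intro δ
    have t1 : Tendsto (fun k : ℕ => 2 / ((k : ℝ) + 1)) atTop (𝓝 0) := by
      have := tendsto_one_div_add_atTop_nhds_zero_nat (𝕜 := ℝ)
      have := this.const_mul 2
      simpa [div_eq_mul_inv] using this
    have t2 : Tendsto (fun k : ℕ => x ^ k * (1 / (1 - x))) atTop (𝓝 0) := by
      have := (tendsto_pow_atTop_nhds_zero_of_lt_one hx0.le hx1).mul_const (1 / (1 - x))
      simpa using this
    have := (t1.add t2).const_mul (C * A / Real.sin (δ / 2))
    simpa using this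
  have hinv : Tendsto (fun k : ℕ => 1 / ((k : ℝ) + 2)) atTop (𝓝 0) := by
    have := (tendsto_one_div_add_atTop_nhds_zero_nat (𝕜 := ℝ)).comp (tendsto_add_atTop_nat 1)
    refine this.congr fun k => ?_
    simp only [Function.comp_apply]
    push_cast
    ring
  refine ⟨A', ν, hA'0, hνG, hν1, ?_, ?_⟩
  · -- upper bound
    intro δ₀ hδ₀ ε hε
    set δ := min δ₀ Real.pi with hδdef
    have hδ : 0 < δ := lt_min hδ₀ hπ
    have hδπ : δ ≤ Real.pi := min_le_right _ _
    have ev := ((herr δ).eventually (gt_mem_nhds (show (0 : ℝ) < ε / 2 by positivity))).and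
      ((hinv.eventually (gt_mem_nhds (show (0 : ℝ) < ε / 2 by positivity))).and
        (hinv.eventually (gt_mem_nhds hδ)))
    obtain ⟨k₀, hk₀⟩ := eventually_atTop.1 ev
    refine ⟨Real.exp (((k₀ : ℝ) + 4) ^ 2), ?_⟩
    intro z hz hzδ₀ hR
    have hzδ : |z.arg| ≤ Real.pi - δ := by
      have : δ ≤ δ₀ := min_le_left _ _
      linarith
    have hz0 : 0 < ‖z‖ := lt_of_lt_of_le (Real.exp_pos _) hR
    have hzρ : 0 ≤ ‖z‖ ^ ρ := Real.rpow_nonneg (norm_nonneg _) _
    set s := Real.log ‖z‖ with hs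
    set u := √s with hu
    have hs4 : ((k₀ : ℝ) + 4) ^ 2 ≤ s := (Real.le_log_iff_exp_le hz0).2 hR
    have hu4 : (k₀ : ℝ) + 4 ≤ u := Real.le_sqrt_of_sq_le hs4
    set i := ⌊u⌋₊ with hi
    have hi1 : (i : ℝ) ≤ u := Nat.floor_le (Real.sqrt_nonneg _)
    have hi2 : u < (i : ℝ) + 1 := Nat.lt_floor_add_one _
    have hi3 : k₀ + 4 ≤ i := by
      apply Nat.le_floor
      push_cast
      exact hu4
    obtain ⟨k, hk⟩ : ∃ k, i = k + 3 := ⟨i - 3, by omega⟩
    have hkk₀ : k₀ ≤ k := by omega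
    have hk1 : (k : ℝ) + 3 ≤ u := by
      have : (i : ℝ) = (k : ℝ) + 3 := by rw [hk]; push_cast; ring
      linarith
    have hk2 : u < (k : ℝ) + 4 := by
      have : (i : ℝ) = (k : ℝ) + 3 := by rw [hk]; push_cast; ring
      linarith
    have hs0 : 0 < s := lt_of_lt_of_le (by positivity) hs4
    have hus : u ^ 2 = s := Real.sq_sqrt hs0.le
    obtain ⟨he1, he2, he3⟩ := hk₀ k hkk₀
    have hmain := glue3_main h1 h2 hA hA'0 hκ hC hcut hμG hνG hδ hδπ hz hzδ hk1 hk2
    have hmain' := (abs_le.1 hmain).2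
    have hsumle : ∑ j ∈ Finset.Ico k (k + 4), glue3_chi j s * ∫ t, ker p z t ∂(μ j) ≤
        (h z.arg + 1 / ((k : ℝ) + 2)) * ‖z‖ ^ ρ := by
      calc ∑ j ∈ Finset.Ico k (k + 4), glue3_chi j s * ∫ t, ker p z t ∂(μ j)
          ≤ ∑ j ∈ Finset.Ico k (k + 4), glue3_chi j s *
            ((h z.arg + 1 / ((k : ℝ) + 2)) * ‖z‖ ^ ρ) := by
            apply Finset.sum_le_sum
            intro j hj
            have hkj : k ≤ j := (Finset.mem_Ico.1 hj).1
            have hkj' : (k : ℝ) ≤ j := by exact_mod_cast hkj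
            by_cases hχ : glue3_chi j s = 0
            · rw [hχ]; simp
            · apply mul_le_mul_of_nonneg_left _ (glue3_chi_nonneg _ _)
              have hclose : |u - ((j : ℝ) + 2)| < 1 := by
                by_contra hcon
                exact hχ (glue3_chi_eq_zero (not_lt.1 hcon))
              rw [abs_lt] at hclose
              have hj0 : (0 : ℝ) ≤ j := Nat.cast_nonneg j
              have hmono : 1 / ((j : ℝ) + 2) ≤ 1 / ((k : ℝ) + 2) := by
                apply one_div_le_one_div_of_le (by positivity); linarith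
              refine (hμU j z hz ?_ ?_ ?_).trans ?_
              · linarith
              · rw [← Real.le_log_iff_exp_le hz0, ← hs]
                (first | linarith | nlinarith)
              · rw [← Real.log_le_iff_le_exp hz0, ← hs]
                (first | linarith | nlinarith)
              · apply mul_le_mul_of_nonneg_right _ hzρ
                linarith
        _ = (h z.arg + 1 / ((k : ℝ) + 2)) * ‖z‖ ^ ρ := by
            rw [← Finset.sum_mul, glue3_sum_chi hk1 hk2, one_mul]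
    have hfin : ∫ t, ker p z t ∂ν ≤ (h z.arg + 1 / ((k : ℝ) + 2)) * ‖z‖ ^ ρ +
        (C * A / Real.sin (δ / 2)) * (2 / ((k : ℝ) + 1) + x ^ k * (1 / (1 - x))) * ‖z‖ ^ ρ := by
      linarith
    refine hfin.trans ?_
    rw [← add_mul]
    apply mul_le_mul_of_nonneg_right _ hzρ
    linarith
  · -- lower bound
    intro q hq ε hε R
    set δ := Real.pi - |(q : ℝ)| with hδdef
    have hδ : 0 < δ := by linarith
    have hδπ : δ ≤ Real.pi := by
      have := abs_nonneg (q : ℝ); linarith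
    have ev := ((herr δ).eventually (gt_mem_nhds (show (0 : ℝ) < ε / 2 by positivity))).and
      (hinv.eventually (gt_mem_nhds (show (0 : ℝ) < ε / 2 by positivity)))
    obtain ⟨k₀, hk₀⟩ := eventually_atTop.1 ev
    obtain ⟨N, hN⟩ := exists_nat_ge R
    obtain ⟨j₀, hj₀, hθj⟩ := hθq q hq (k₀ + N + 1)
    obtain ⟨k, hk⟩ : ∃ k, j₀ = k + 1 := ⟨j₀ - 1, by omega⟩
    have hkk₀ : k₀ ≤ k := by omega
    have hkN : N ≤ k := by omega
    set J : ℝ := (j₀ : ℝ) + 2 with hJ
    have hJk : J = (k : ℝ) + 3 := by rw [hJ, hk]; push_cast; ring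
    have hJ0 : 0 < J := by rw [hJk]; positivity
    set r := Real.exp (J ^ 2) with hr
    have hr0 : 0 < r := Real.exp_pos _
    refine ⟨r, ?_, ?_⟩
    · have h3 : (N : ℝ) ≤ k := by exact_mod_cast hkN
      have h4 : J ^ 2 + 1 ≤ Real.exp (J ^ 2) := Real.add_one_le_exp _
      (first | linarith | nlinarith)
    · set z : ℂ := (r : ℂ) * Complex.exp ((q : ℝ) * Complex.I) with hz
      have hqπ := abs_lt.1 hq
      have harg : z.arg = q := by
        rw [hz, Complex.exp_mul_I]
        exact Complex.arg_mul_cos_add_sin_mul_I hr0 ⟨hqπ.1, hqπ.2.le⟩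
      have hznorm : ‖z‖ = r := by
        rw [hz, norm_mul, Complex.norm_exp_ofReal_mul_I, mul_one, Complex.norm_real,
          Real.norm_of_nonneg hr0.le]
      have hz0 : z ≠ 0 := by
        rw [← norm_pos_iff, hznorm]; exact hr0
      have hzs : z ∈ slitPlane := by
        rw [Complex.mem_slitPlane_iff_arg]
        refine ⟨?_, hz0⟩
        rw [harg]; exact hqπ.2.ne
      have hzδ : |z.arg| ≤ Real.pi - δ := by
        rw [harg, hδdef]; simp
      have hlog : Real.log ‖z‖ = J ^ 2 := by rw [hznorm, hr, Real.log_exp]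
      have hsq : √(Real.log ‖z‖) = J := by rw [hlog, Real.sqrt_sq hJ0.le]
      have hmain := glue3_main h1 h2 hA hA'0 hκ hC hcut hμG hνG hδ hδπ hzs hzδ (k := k)
        (by rw [hsq, hJk]) (by rw [hsq, hJk]; linarith)
      have hsumeq : ∑ j ∈ Finset.Ico k (k + 4), glue3_chi j (Real.log ‖z‖) *
          ∫ t, ker p z t ∂(μ j) = ∫ t, ker p z t ∂(μ j₀) := by
        rw [Finset.sum_eq_single j₀]
        · have : glue3_chi j₀ (Real.log ‖z‖) = 1 := by
            unfold glue3_chi
            rw [hsq, hJ, sub_self, abs_zero, sub_zero]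
            exact max_eq_right zero_le_one
          rw [this, one_mul]
        · intro j _ hjne
          rw [glue3_chi_eq_zero, zero_mul]
          rw [hsq, hJ]
          have e : (j₀ : ℝ) + 2 - ((j : ℝ) + 2) = ((j₀ : ℤ) - (j : ℤ) : ℤ) := by
            push_cast; ring
          rw [e, ← Int.cast_abs]
          have : (1 : ℤ) ≤ |(j₀ : ℤ) - (j : ℤ)| := by
            apply Int.one_le_abs
            omega
          exact_mod_cast this
        · intro hcon
          exfalso
          apply hcon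
          rw [Finset.mem_Ico]
          omega
      rw [hsumeq] at hmain
      have hlow := hμL j₀
      rw [hθj] at hlow
      obtain ⟨he1, he2⟩ := hk₀ k hkk₀
      have hmain' := (abs_le.1 hmain).1
      have hrρ : 0 ≤ r ^ ρ := Real.rpow_nonneg hr0.le _
      have hj₀k : 1 / ((j₀ : ℝ) + 2) ≤ 1 / ((k : ℝ) + 2) := by
        apply one_div_le_one_div_of_le (by positivity)
        rw [hk]; push_cast; linarith
      rw [hznorm] at hmain'
      have hlow' : (h q - 1 / ((j₀ : ℝ) + 2)) * r ^ ρ ≤ ∫ t, ker p z t ∂(μ j₀) := hlow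
      have h5 : (h q - ε) * r ^ ρ ≤ (h q - 1 / ((j₀ : ℝ) + 2)) * r ^ ρ -
          (C * A / Real.sin (δ / 2)) * (2 / ((k : ℝ) + 1) + x ^ k * (1 / (1 - x))) * r ^ ρ := by
        rw [← sub_mul]
        apply mul_le_mul_of_nonneg_right _ hrρ
        linarith
      linarith

end Helper25.Ind
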