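import Pool.Agent.Helper25.Ind.Defs

open Complex Filter Topology MeasureTheory Set

namespace Helper25.Ind

/-- A holomorphic logarithm on a disc, with prescribed value at the centre. -/
theorem logT_exists {g : ℂ → ℂ} (hg : Differentiable ℂ g) {R : ℝ} (hR : 0 < R)
    (hnz : ∀ z, ‖z‖ ≤ R → g z ≠ 0) :
    ∃ G : ℂ → ℂ, DifferentiableOn ℂ G (Metric.ball 0 R) ∧
      (∀ z ∈ Metric.ball (0 : ℂ) R, Complex.exp (G z) = g z) ∧ G 0 = Complex.log (g 0) := by
  have hnz' : ∀ z ∈ Metric.ball (0 : ℂ) R, g z ≠ 0 := fun z hz =>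
    hnz z (by simpa using (mem_ball_zero_iff.mp hz).le)
  have hdg : Differentiable ℂ (deriv g) := hg.deriv
  have hd : DifferentiableOn ℂ (fun z => deriv g z / g z) (Metric.ball 0 R) :=
    hdg.differentiableOn.div hg.differentiableOn hnz'
  obtain ⟨G, hG0, hG⟩ := (hd.isExactOn_ball).with_val_at 0 (Complex.log (g 0))
  have h0 : (0 : ℂ) ∈ Metric.ball (0 : ℂ) R := Metric.mem_ball_self hR
  refine ⟨G, fun z hz => (hG z hz).differentiableAt.differentiableWithinAt, ?_, hG0⟩
  intro z hz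
  have hderiv : ∀ w ∈ Metric.ball (0 : ℂ) R,
      HasDerivAt (fun w => g w * Complex.exp (-G w)) 0 w := by
    intro w hw
    have h1 := (hg w).hasDerivAt.mul ((hG w hw).neg.cexp)
    convert! h1 using 1
    field_simp [hnz' w hw]
    ring
  have hconst : g z * Complex.exp (-G z) = g 0 * Complex.exp (-G 0) := by
    apply (Metric.isOpen_ball (x := (0 : ℂ)) (ε := R)).is_const_of_deriv_eq_zero
      (convex_ball (0 : ℂ) R).isPreconnected
      (fun w hw => (hderiv w hw).differentiableAt.differentiableWithinAt)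
      (fun w hw => (hderiv w hw).deriv) hz h0
  rw [hG0, Complex.exp_neg, Complex.exp_neg, Complex.exp_log (hnz' 0 h0),
    mul_inv_cancel₀ (hnz' 0 h0)] at hconst
  have hne := Complex.exp_ne_zero (G z)
  field_simp at hconst
  exact hconst.symm

theorem log_taylor {g : ℂ → ℂ} (hg : Differentiable ℂ g) {R M : ℝ} (hR : 0 < R) (hM : 0 < M)
    (hnz : ∀ z, ‖z‖ ≤ R → g z ≠ 0) (hle : ∀ z, ‖z‖ ≤ R → ‖g z‖ ≤ Real.exp M) :
    ∃ G : ℂ → ℂ, DifferentiableOn ℂ G (Metric.ball 0 R) ∧
      (∀ z ∈ Metric.ball (0 : ℂ) R, Complex.exp (G z) = g z) ∧ G 0 = Complex.log (g 0) ∧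
      ∀ n : ℕ, ∃ T : Polynomial ℂ, T.natDegree ≤ n ∧ ∀ z : ℂ, ‖z‖ ≤ R / 4 →
        ‖G z - T.eval z‖ ≤ 2 * (2 * M + 3 * ‖Complex.log (g 0)‖) * (2 * ‖z‖ / R) ^ (n + 1) := by
  obtain ⟨G, hGd, hGe, hG0⟩ := logT_exists hg hR hnz
  refine ⟨G, hGd, hGe, hG0, fun n => ?_⟩
  set B : ℝ := 2 * M + 3 * ‖Complex.log (g 0)‖ with hB
  have hB0 : 0 ≤ B := by positivity
  have hre : Set.MapsTo G (Metric.ball 0 R) {z | z.re ≤ M} := by
    intro z hz
    have h1 : ‖Complex.exp (G z)‖ ≤ Real.exp M := by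
      rw [hGe z hz]
      exact hle z (mem_ball_zero_iff.mp hz).le
    rw [Complex.norm_exp] at h1
    exact Real.exp_le_exp.mp h1
  have hhalf : ∀ z : ℂ, ‖z‖ ≤ R / 2 → ‖G z‖ ≤ B := by
    intro z hz
    have hzR : z ∈ Metric.ball (0 : ℂ) R := mem_ball_zero_iff.mpr (by linarith)
    have h1 := Complex.borelCaratheodory hM hGd hre hR hzR
    rw [hG0] at h1
    have hden : 0 < R - ‖z‖ := by linarith
    have h2 : 2 * M * ‖z‖ / (R - ‖z‖) ≤ 2 * M := by
      rw [div_le_iff₀ hden]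
      nlinarith
    have h3 : ‖Complex.log (g 0)‖ * (R + ‖z‖) / (R - ‖z‖) ≤ 3 * ‖Complex.log (g 0)‖ := by
      rw [div_le_iff₀ hden]
      nlinarith [norm_nonneg (Complex.log (g 0))]
    linarith
  have hR2 : 0 < R / 2 := by linarith
  have hsub : Metric.closedBall (0 : ℂ) (R / 2) ⊆ Metric.ball 0 R :=
    Metric.closedBall_subset_ball (by linarith)
  have hdc : DiffContOnCl ℂ G (Metric.ball 0 (R / 2)) := by
    apply DifferentiableOn.diffContOnCl
    rw [closure_ball _ hR2.ne']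
    exact hGd.mono hsub
  have hcoef : ∀ j : ℕ, ‖iteratedDeriv j G 0‖ ≤ j.factorial * B / (R / 2) ^ j := fun j =>
    Complex.norm_iteratedDeriv_le_of_forall_mem_sphere_norm_le j hR2 hdc
      (fun z hz => hhalf z (by simpa using (mem_sphere_zero_iff_norm.mp hz).le))
  let c : ℕ → ℂ := fun j => (j.factorial : ℂ)⁻¹ * iteratedDeriv j G 0
  have hc : ∀ j, ‖c j‖ ≤ B * (2 / R) ^ j := by
    intro j
    have h1 : ‖c j‖ = (j.factorial : ℝ)⁻¹ * ‖iteratedDeriv j G 0‖ := by
      simp [c]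
    rw [h1]
    have hf : (0 : ℝ) < j.factorial := by exact_mod_cast j.factorial_pos
    calc (j.factorial : ℝ)⁻¹ * ‖iteratedDeriv j G 0‖
        ≤ (j.factorial : ℝ)⁻¹ * (j.factorial * B / (R / 2) ^ j) := by
          gcongr
          exact hcoef j
      _ = B * (2 / R) ^ j := by
          rw [div_pow, div_pow]
          field_simp
  refine ⟨∑ j ∈ Finset.range (n + 1), Polynomial.C (c j) * Polynomial.X ^ j, ?_, ?_⟩
  · apply Polynomial.natDegree_sum_le_of_forall_le
    intro j hj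
    exact (Polynomial.natDegree_C_mul_X_pow_le _ _).trans
      (Nat.lt_succ_iff.mp (Finset.mem_range.mp hj))
  · intro z hz
    have hzb : z ∈ Metric.ball (0 : ℂ) R := mem_ball_zero_iff.mpr (by
      have := norm_nonneg z
      linarith)
    have hsum : HasSum (fun j : ℕ => c j * z ^ j) (G z) := by
      have h1 := Complex.hasSum_taylorSeries_on_ball hGd hzb
      convert! h1 using 1
      funext j
      simp only [c, sub_zero, smul_eq_mul]
      ring
    have htail := (hasSum_nat_add_iff' (n + 1)).mpr hsum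
    set x : ℝ := 2 * ‖z‖ / R with hx
    have hx0 : 0 ≤ x := by positivity
    have hx1 : x ≤ 1 / 2 := by
      rw [hx, div_le_iff₀ hR]
      linarith
    have hgeo : HasSum (fun j : ℕ => B * x ^ (n + 1) * x ^ j) (B * x ^ (n + 1) * (1 - x)⁻¹) :=
      (hasSum_geometric_of_lt_one hx0 (by linarith)).mul_left _
    have hbound : ∀ j : ℕ, ‖c (j + (n + 1)) * z ^ (j + (n + 1))‖ ≤ B * x ^ (n + 1) * x ^ j := by
      intro j
      rw [norm_mul, norm_pow]
      calc ‖c (j + (n + 1))‖ * ‖z‖ ^ (j + (n + 1))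
          ≤ B * (2 / R) ^ (j + (n + 1)) * ‖z‖ ^ (j + (n + 1)) := by
            gcongr
            exact hc _
        _ = B * x ^ (n + 1) * x ^ j := by
            rw [hx, mul_assoc, ← mul_pow, mul_assoc, ← pow_add, add_comm (n + 1) j]
            congr 2
            ring
    have hfin := htail.norm_le_of_bounded hgeo hbound
    have heval : (∑ j ∈ Finset.range (n + 1), Polynomial.C (c j) * Polynomial.X ^ j).eval z =
        ∑ j ∈ Finset.range (n + 1), c j * z ^ j := by
      simp [Polynomial.eval_finsetSum]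
    rw [heval]
    refine hfin.trans ?_
    have h2 : (1 - x)⁻¹ ≤ 2 := by
      rw [inv_le_comm₀ (by linarith) (by norm_num)]
      linarith
    calc B * x ^ (n + 1) * (1 - x)⁻¹ ≤ B * x ^ (n + 1) * 2 := by gcongr
      _ = 2 * B * x ^ (n + 1) := by ring

end Helper25.Ind
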