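import Pool.Agent.Helper25.Ind.Defs
import Pool.Agent.Helper25.Ind.Fac
import Pool.Agent.Helper25.Ind.LogT
import Pool.Agent.Helper25.Ind.KerC

open Complex Filter Topology MeasureTheory Set

namespace Helper25.Ind

lemma had_max {g : ℂ → ℂ} (hg : Differentiable ℂ g) {r B : ℝ} (hr : 0 < r)
    (hB : ∀ z, ‖z‖ = r → ‖g z‖ ≤ B) {z : ℂ} (hz : ‖z‖ ≤ r) : ‖g z‖ ≤ B := by
  apply Complex.norm_le_of_forall_mem_frontier_norm_le (U := Metric.ball 0 r)
    Metric.isBounded_ball hg.diffContOnCl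
  · intro w hw
    rw [frontier_ball _ hr.ne'] at hw
    exact hB w (by simpa using hw)
  · rw [closure_ball _ hr.ne']
    simpa using hz

lemma had_factor_ge {z : ℂ} {a R c : ℝ} (ha : 0 < a) (haR : a ≤ R) (hc : 0 ≤ c)
    (hz : ‖z‖ = c * R) : c - 1 ≤ ‖1 + z / (a : ℂ)‖ := by
  have h1 : ‖z / (a : ℂ)‖ = ‖z‖ / a := by
    rw [norm_div, Complex.norm_real, Real.norm_of_nonneg ha.le]
  have h2 : c ≤ ‖z‖ / a := by
    rw [hz, le_div_iff₀ ha]
    exact mul_le_mul_of_nonneg_left haR hc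
  have h3 : ‖z / (a : ℂ)‖ ≤ ‖1 + z / (a : ℂ)‖ + 1 := by
    calc ‖z / (a : ℂ)‖ = ‖(1 + z / (a : ℂ)) - 1‖ := by ring_nf
      _ ≤ ‖1 + z / (a : ℂ)‖ + ‖(1 : ℂ)‖ := norm_sub_le _ _
      _ = _ := by rw [norm_one]
  linarith

lemma had_prod_ge {ι : Type} {a : ι → ℝ} (ha : ∀ i, 0 < a i) {s : Finset ι} {R c : ℝ}
    (hs : ∀ i ∈ s, a i ≤ R) (hc : 1 ≤ c) {z : ℂ} (hz : ‖z‖ = c * R) :
    (c - 1) ^ s.card ≤ ‖∏ i ∈ s, (1 + z / (a i : ℂ))‖ := by
  rw [norm_prod, ← Finset.prod_const]
  apply Finset.prod_le_prod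
  · intro i _; linarith
  · intro i hi
    exact had_factor_ge (ha i) (hs i hi) (by linarith) hz

lemma had_lower {ι : Type} (a : ι → ℝ) (ha : ∀ i, 0 < a i) (S : Finset ι) :
    ∃ c > 0, ∀ i ∈ S, c ≤ a i := by
  classical
  induction S using Finset.induction_on with
  | empty => exact ⟨1, one_pos, by simp⟩
  | insert i S _ ih =>
    obtain ⟨c, hc, hcS⟩ := ih
    refine ⟨min c (a i), lt_min hc (ha i), ?_⟩
    intro j hj
    rcases Finset.mem_insert.1 hj with h | h
    · rw [h]; exact min_le_right _ _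
    · exact (min_le_left _ _).trans (hcS j h)

lemma had_summable {ι : Type} {a : ι → ℝ} (ha : ∀ i, 0 < a i)
    (hfin : ∃ S : Finset ι, ∀ i, a i ≤ 1 → i ∈ S) {σ σ' C : ℝ} (hσ : 0 < σ) (hσ' : σ < σ')
    (hC : ∀ R : ℝ, 1 ≤ R → ∀ F : Finset ι, (∀ i ∈ F, a i ≤ R) → (F.card : ℝ) ≤ C * R ^ σ) :
    Summable fun i => a i ^ (-σ') := by
  classical
  have hC0 : 0 ≤ C := by
    have := hC 1 le_rfl ∅ (by simp)
    simpa using this
  have hσ'0 : 0 < σ' := hσ.trans hσ'
  obtain ⟨S, hS⟩ := hfin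
  obtain ⟨c', hc', hcS⟩ := had_lower a ha S
  set c₀ := min c' 1 with hc₀
  have hc₀pos : 0 < c₀ := lt_min hc' one_pos
  have hc₀a : ∀ i, c₀ ≤ a i := by
    intro i
    rcases le_or_gt (a i) 1 with h | h
    · exact (min_le_left _ _).trans (hcS i (hS i h))
    · exact (min_le_right _ _).trans h.le
  set m : ι → ℕ := fun i => ⌈Real.logb 2 (a i)⌉₊ with hm
  have hm1 : ∀ i, a i ≤ 2 ^ (m i) := by
    intro i
    have h1 : Real.logb 2 (a i) ≤ (m i : ℝ) := Nat.le_ceil _
    rw [Real.logb_le_iff_le_rpow one_lt_two (ha i)] at h1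
    rwa [Real.rpow_natCast] at h1
  set y : ℝ := 2 ^ (-σ') with hy
  have hy0 : 0 < y := Real.rpow_pos_of_pos two_pos _
  set K : ℝ := c₀ ^ (-σ') + 2 ^ σ' with hK
  have hK0 : 0 ≤ K := by positivity
  have hbd : ∀ i, a i ^ (-σ') ≤ K * y ^ (m i) := by
    intro i
    rcases Nat.eq_zero_or_pos (m i) with h | h
    · rw [h, pow_zero, mul_one, hK]
      have h1 : a i ^ (-σ') ≤ c₀ ^ (-σ') :=
        Real.rpow_le_rpow_of_nonpos hc₀pos (hc₀a i) (by linarith)
      have h2 : (0 : ℝ) ≤ 2 ^ σ' := by positivity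
      linarith
    · obtain ⟨k, hk⟩ : ∃ k, m i = k + 1 := ⟨m i - 1, by omega⟩
      have h1 : (k : ℝ) < Real.logb 2 (a i) := by
        apply Nat.lt_ceil.1
        change k < m i
        omega
      rw [Real.lt_logb_iff_rpow_lt one_lt_two (ha i)] at h1
      have h2 : a i ^ (-σ') ≤ ((2 : ℝ) ^ (k : ℝ)) ^ (-σ') :=
        Real.rpow_le_rpow_of_nonpos (by positivity) h1.le (by linarith)
      have h3 : ((2 : ℝ) ^ (k : ℝ)) ^ (-σ') = 2 ^ σ' * y ^ (m i) := by
        rw [hk, hy, ← Real.rpow_natCast, ← Real.rpow_mul (by norm_num), ← Real.rpow_mul (by norm_num),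
          ← Real.rpow_add (by norm_num)]
        congr 1
        push_cast
        ring
      rw [h3] at h2
      refine h2.trans ?_
      apply mul_le_mul_of_nonneg_right _ (by positivity)
      have h4 : (0 : ℝ) ≤ c₀ ^ (-σ') := by positivity
      linarith
  set w : ℝ := 2 ^ (σ - σ') with hw
  have hw0 : 0 < w := Real.rpow_pos_of_pos two_pos _
  have hw1 : w < 1 := Real.rpow_lt_one_of_one_lt_of_neg one_lt_two (by linarith)
  apply summable_of_sum_le (c := K * (C * (1 - w)⁻¹))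
  · intro i
    exact Real.rpow_nonneg (ha i).le _
  · intro F
    calc ∑ i ∈ F, a i ^ (-σ') ≤ ∑ i ∈ F, K * y ^ (m i) := Finset.sum_le_sum fun i _ => hbd i
      _ = K * ∑ i ∈ F, y ^ (m i) := by rw [Finset.mul_sum]
      _ ≤ K * (C * (1 - w)⁻¹) := by
          apply mul_le_mul_of_nonneg_left _ hK0
          rw [← Finset.sum_fiberwise_of_maps_to (t := F.image m) (g := m)
            (fun i hi => Finset.mem_image_of_mem m hi)]
          calc ∑ k ∈ F.image m, ∑ i ∈ F with m i = k, y ^ (m i)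
              ≤ ∑ k ∈ F.image m, C * w ^ k := by
                apply Finset.sum_le_sum
                intro k _
                have h1 : ∑ i ∈ F with m i = k, y ^ (m i) =
                    ((F.filter fun i => m i = k).card : ℝ) * y ^ k := by
                  rw [Finset.sum_congr rfl (g := fun _ => y ^ k), Finset.sum_const, nsmul_eq_mul]
                  intro i hi
                  rw [(Finset.mem_filter.1 hi).2]
                rw [h1]
                have h2 := hC (2 ^ k) (one_le_pow₀ one_le_two) (F.filter fun i => m i = k) (by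
                  intro i hi
                  have := hm1 i
                  rwa [(Finset.mem_filter.1 hi).2] at this)
                calc ((F.filter fun i => m i = k).card : ℝ) * y ^ k
                    ≤ (C * ((2 : ℝ) ^ k) ^ σ) * y ^ k :=
                      mul_le_mul_of_nonneg_right h2 (by positivity)
                  _ = C * w ^ k := by
                      rw [hy, hw, mul_assoc]
                      congr 1
                      rw [← Real.rpow_natCast, ← Real.rpow_natCast, ← Real.rpow_natCast,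
                        ← Real.rpow_mul (by norm_num), ← Real.rpow_mul (by norm_num),
                        ← Real.rpow_mul (by norm_num), ← Real.rpow_add (by norm_num)]
                      congr 1
                      ring
            _ = C * ∑ k ∈ F.image m, w ^ k := by rw [Finset.mul_sum]
            _ ≤ C * (1 - w)⁻¹ := by
                apply mul_le_mul_of_nonneg_left _ hC0
                rw [← tsum_geometric_of_lt_one hw0.le hw1]
                exact (summable_geometric_of_lt_one hw0.le hw1).sum_le_tsum _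
                  (fun i _ => pow_nonneg hw0.le i)

/-- the exponential sum which occurs in the primary factor -/
lemma had_ker_eq {p : ℕ} {z : ℂ} {a : ℝ} (hne : 1 + z / (a : ℂ) ≠ 0) :
    ker p z a = Real.log ‖1 + z / (a : ℂ)‖ +
      (∑ j ∈ Finset.range p, (-z / (a : ℂ)) ^ (j + 1) / ((j : ℂ) + 1)).re := by
  unfold ker primary
  have h1 : 1 - -z / (a : ℂ) = 1 + z / (a : ℂ) := by ring
  rw [h1, norm_mul, Complex.norm_exp, Real.log_mul (norm_ne_zero_iff.2 hne) (Real.exp_pos _).ne',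
    Real.log_exp]

/-- the polynomial part of a finite product -/
noncomputable def had_poly {ι : Type} (p : ℕ) (a : ι → ℝ) (s : Finset ι) : Polynomial ℂ :=
  ∑ i ∈ s, ∑ j ∈ Finset.range p,
    Polynomial.C ((-1 / (a i : ℂ)) ^ (j + 1) / ((j : ℂ) + 1)) * Polynomial.X ^ (j + 1)

lemma had_poly_natDegree {ι : Type} (p : ℕ) (a : ι → ℝ) (s : Finset ι) :
    (had_poly p a s).natDegree ≤ p := by
  unfold had_poly
  apply Polynomial.natDegree_sum_le_of_forall_le
  intro i _
  apply Polynomial.natDegree_sum_le_of_forall_le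
  intro j hj
  refine (Polynomial.natDegree_C_mul_X_pow_le _ _).trans ?_
  have := Finset.mem_range.1 hj
  omega

lemma had_poly_eval {ι : Type} (p : ℕ) (a : ι → ℝ) (s : Finset ι) (z : ℂ) :
    (had_poly p a s).eval z =
      ∑ i ∈ s, ∑ j ∈ Finset.range p, (-z / (a i : ℂ)) ^ (j + 1) / ((j : ℂ) + 1) := by
  unfold had_poly
  rw [Polynomial.eval_finset_sum]
  apply Finset.sum_congr rfl
  intro i _
  rw [Polynomial.eval_finset_sum]
  apply Finset.sum_congr rfl
  intro j _
  rw [Polynomial.eval_mul, Polynomial.eval_C, Polynomial.eval_pow, Polynomial.eval_X]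
  have : -z / (a i : ℂ) = (-1 / (a i : ℂ)) * z := by ring
  rw [this, mul_pow]
  ring

theorem hadamard {σ₀ : ℝ} {f : ℂ → ℂ} (hf : Differentiable ℂ f)
    (hz : ∀ z, f z = 0 → z.im = 0 ∧ z.re < 0)
    (hgr : ∀ σ, σ₀ < σ → ∃ R, ∀ z, R ≤ ‖z‖ → ‖f z‖ ≤ Real.exp (‖z‖ ^ σ)) (h0 : 0 < σ₀)
    {p : ℕ} (hp : σ₀ < p + 1) :
    ∃ (ι : Type) (_ : Countable ι) (a : ι → ℝ) (Q : Polynomial ℂ),
      (∀ i, 0 < a i) ∧ Q.natDegree ≤ p ∧ (∀ σ, σ₀ < σ → Summable fun i => a i ^ (-σ)) ∧
      (∀ z, f z = 0 ↔ ∃ i, z = -(a i : ℂ)) ∧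
      ∀ z, f z ≠ 0 → (Summable fun i => ker p z (a i)) ∧
        Real.log ‖f z‖ = (Q.eval z).re + ∑' i, ker p z (a i) := by
  classical
  obtain ⟨ι, hι, a, ha, hza, hfac⟩ := factor hf hz
  choose s g hs hgd hfg hgnz using hfac
  have hf0 : f 0 ≠ 0 := by
    intro h
    have := (hz 0 h).2
    simp at this
  have hg0 : ∀ R, g R 0 = f 0 := by
    intro R
    rw [hfg R 0]
    simp
  have hmono : ∀ {R R' : ℝ}, R ≤ R' → s R ⊆ s R' := by
    intro R R' h i hi
    rw [hs] at hi ⊢
    exact hi.trans h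
  -- counting
  have hcount : ∀ σ, σ₀ < σ → ∃ C : ℝ, ∀ R : ℝ, 1 ≤ R → ∀ F : Finset ι, (∀ i ∈ F, a i ≤ R) →
      (F.card : ℝ) ≤ C * R ^ σ := by
    intro σ hσ
    have hσ0 : 0 < σ := h0.trans hσ
    obtain ⟨R₀, hR₀⟩ := hgr σ hσ
    set R₁ := max R₀ 1 with hR₁
    have hlog3 : 0 < Real.log 3 := Real.log_pos (by norm_num)
    refine ⟨((4 : ℝ) ^ σ + |Real.log ‖f 0‖|) / Real.log 3 + (s R₁).card, ?_⟩
    intro R hR F hF
    have hFs : F ⊆ s R := fun i hi => (hs R i).2 (hF i hi)
    have hcard : (F.card : ℝ) ≤ (s R).card := by exact_mod_cast Finset.card_le_card hFs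
    have hRσ : 1 ≤ R ^ σ := Real.one_le_rpow hR hσ0.le
    have hR0 : 0 < R := by linarith
    refine hcard.trans ?_
    rcases le_or_gt R R₁ with h | h
    · have h1 : ((s R).card : ℝ) ≤ (s R₁).card := by
        exact_mod_cast Finset.card_le_card (hmono h)
      have h2 : (0 : ℝ) ≤ ((4 : ℝ) ^ σ + |Real.log ‖f 0‖|) / Real.log 3 := by positivity
      have h3 : (0 : ℝ) ≤ ((s R₁).card : ℝ) := Nat.cast_nonneg _
      nlinarith
    · have hb : ∀ z, ‖z‖ = 4 * R → ‖g R z‖ ≤ Real.exp ((4 * R) ^ σ) / 3 ^ (s R).card := by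
        intro z hz4
        rw [le_div_iff₀ (by positivity)]
        have h1 := had_prod_ge ha (s := s R) (R := R) (c := 4) (fun i hi => (hs R i).1 hi)
          (by norm_num) hz4
        have h2 := hR₀ z (by
          rw [hz4]
          have : R₀ ≤ R₁ := le_max_left _ _
          linarith)
        rw [hz4] at h2
        have h3 : ‖f z‖ = ‖g R z‖ * ‖∏ i ∈ s R, (1 + z / (a i : ℂ))‖ := by
          rw [hfg R z, norm_mul]
        have e3 : (4 : ℝ) - 1 = 3 := by norm_num
        rw [e3] at h1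
        calc ‖g R z‖ * 3 ^ (s R).card ≤ ‖g R z‖ * ‖∏ i ∈ s R, (1 + z / (a i : ℂ))‖ :=
              mul_le_mul_of_nonneg_left h1 (norm_nonneg _)
          _ = ‖f z‖ := h3.symm
          _ ≤ _ := h2
      have h4 := had_max (hgd R) (by positivity : (0 : ℝ) < 4 * R) hb (z := 0)
        (by rw [norm_zero]; positivity)
      rw [hg0, le_div_iff₀ (by positivity)] at h4
      have h5 := Real.log_le_log (by positivity) h4
      rw [Real.log_mul (norm_ne_zero_iff.2 hf0) (by positivity), Real.log_pow, Real.log_exp,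
        Real.mul_rpow (by norm_num) hR0.le] at h5
      have h6 : ((s R).card : ℝ) ≤ (4 ^ σ * R ^ σ + |Real.log ‖f 0‖|) / Real.log 3 := by
        rw [le_div_iff₀ hlog3]
        have := neg_abs_le (Real.log ‖f 0‖)
        linarith
      refine h6.trans ?_
      have h7 : (4 ^ σ * R ^ σ + |Real.log ‖f 0‖|) / Real.log 3 ≤
          ((4 : ℝ) ^ σ + |Real.log ‖f 0‖|) / Real.log 3 * R ^ σ := by
        rw [div_mul_eq_mul_div]
        apply div_le_div_of_nonneg_right _ hlog3.le
        have := abs_nonneg (Real.log ‖f 0‖)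
        nlinarith
      refine h7.trans ?_
      have h3 : (0 : ℝ) ≤ ((s R₁).card : ℝ) := Nat.cast_nonneg _
      nlinarith
  have hsumm : ∀ σ, σ₀ < σ → Summable fun i => a i ^ (-σ) := by
    intro σ hσ
    obtain ⟨σ₁, h1, h2⟩ := exists_between hσ
    obtain ⟨C, hC⟩ := hcount σ₁ h1
    exact had_summable ha ⟨s 1, fun i hi => (hs 1 i).2 hi⟩ (h0.trans h1) h2 hC
  -- summability of the kernels
  have hker : ∀ z, Summable fun i => ker p z (a i) := by
    intro z
    obtain ⟨C, hC, hCb⟩ := abs_log_primary_le p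
    have hS : Summable fun i => C * (‖z‖ ^ (p + 1) * a i ^ (-((p : ℝ) + 1))) :=
      ((hsumm _ hp).mul_left _).mul_left _
    apply Summable.of_norm_bounded_eventually hS
    rw [Filter.eventually_cofinite]
    apply Set.Finite.subset (s (2 * ‖z‖)).finite_toSet
    intro i hi
    rw [Finset.mem_coe, hs]
    by_contra hcon
    rw [not_le] at hcon
    apply hi
    have hai := ha i
    have hn : ‖-z / (a i : ℂ)‖ = ‖z‖ / a i := by
      rw [norm_div, norm_neg, Complex.norm_real, Real.norm_of_nonneg hai.le]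
    have h1 : ‖-z / (a i : ℂ)‖ ≤ 1 / 2 := by
      rw [hn, div_le_iff₀ hai]
      linarith
    have h2 := hCb _ h1
    rw [hn] at h2
    rw [Real.norm_eq_abs]
    refine h2.trans (le_of_eq ?_)
    rw [div_pow, Real.rpow_neg hai.le]
    have : a i ^ ((p : ℝ) + 1) = a i ^ (p + 1) := by
      rw [← Real.rpow_natCast]; push_cast; rfl
    rw [this]
    ring
  -- choose σ
  obtain ⟨σ, hσ1, hσ2⟩ : ∃ σ, σ₀ < σ ∧ σ < (p : ℝ) + 1 := exists_between hp
  have hσ0 : 0 < σ := h0.trans hσ1
  obtain ⟨R₀, hR₀⟩ := hgr σ hσ1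
  set K₀ : ℝ := ‖Complex.log (f 0)‖ with hK₀
  -- the polynomial approximations
  have hP : ∀ n : ℕ, max R₀ 1 ≤ (n : ℝ) → ∃ P : Polynomial ℂ, P.natDegree ≤ p ∧
      ∀ z, ‖z‖ ≤ (n : ℝ) / 4 → f z ≠ 0 →
        |Real.log ‖f z‖ - ∑ i ∈ s n, ker p z (a i) - (P.eval z).re| ≤
          2 * (2 * (2 * (n : ℝ)) ^ σ + 3 * K₀) * (2 * ‖z‖ / n) ^ (p + 1) := by
    intro n hn
    have hn1 : (1 : ℝ) ≤ n := (le_max_right _ _).trans hn
    have hn0 : (0 : ℝ) < n := by linarith
    have hnR : R₀ ≤ (n : ℝ) := (le_max_left _ _).trans hn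
    have hb : ∀ z, ‖z‖ = 2 * (n : ℝ) → ‖g n z‖ ≤ Real.exp ((2 * (n : ℝ)) ^ σ) := by
      intro z hz2
      have h1 := had_prod_ge ha (s := s n) (R := n) (c := 2) (fun i hi => (hs n i).1 hi)
          (by norm_num) hz2
      have h2 := hR₀ z (by rw [hz2]; linarith)
      rw [hz2] at h2
      have h3 : ‖f z‖ = ‖g n z‖ * ‖∏ i ∈ s n, (1 + z / (a i : ℂ))‖ := by
        rw [hfg n z, norm_mul]
      have e3 : (2 : ℝ) - 1 = 1 := by norm_num
      rw [e3, one_pow] at h1
      calc ‖g n z‖ = ‖g n z‖ * 1 := (mul_one _).symm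
        _ ≤ ‖g n z‖ * ‖∏ i ∈ s n, (1 + z / (a i : ℂ))‖ :=
            mul_le_mul_of_nonneg_left h1 (norm_nonneg _)
        _ = ‖f z‖ := h3.symm
        _ ≤ _ := h2
    obtain ⟨G, _, hGexp, _, hGT⟩ := log_taylor (hgd n) hn0
      (Real.rpow_pos_of_pos (by positivity) σ : (0 : ℝ) < (2 * (n : ℝ)) ^ σ) (hgnz n)
      (fun z hzn => had_max (hgd n) (by positivity) hb (by linarith))
    obtain ⟨T, hTdeg, hT⟩ := hGT p
    refine ⟨T - had_poly p a (s n), ?_, ?_⟩
    · exact (Polynomial.natDegree_sub_le _ _).trans (max_le hTdeg (had_poly_natDegree _ _ _))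
    · intro z hzn hfz
      have hzball : z ∈ Metric.ball (0 : ℂ) n := by
        rw [mem_ball_zero_iff]; linarith
      have h1 := hT z hzn
      rw [hg0] at h1
      have hprod : ∏ i ∈ s n, (1 + z / (a i : ℂ)) ≠ 0 := by
        intro h
        apply hfz
        rw [hfg n z, h, mul_zero]
      have hfacne : ∀ i ∈ s n, 1 + z / (a i : ℂ) ≠ 0 := Finset.prod_ne_zero_iff.1 hprod
      have hgz : g n z ≠ 0 := by
        intro h
        apply hfz
        rw [hfg n z, h, zero_mul]
      have h2 : Real.log ‖f z‖ = (G z).re + ∑ i ∈ s n, Real.log ‖1 + z / (a i : ℂ)‖ := by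
        rw [hfg n z, norm_mul, Real.log_mul (norm_ne_zero_iff.2 hgz) (norm_ne_zero_iff.2 hprod),
          norm_prod, Real.log_prod (fun i hi => norm_ne_zero_iff.2 (hfacne i hi)),
          ← hGexp z hzball, Complex.norm_exp, Real.log_exp]
      have h3 : ∑ i ∈ s n, ker p z (a i) = ∑ i ∈ s n, Real.log ‖1 + z / (a i : ℂ)‖ +
          ((had_poly p a (s n)).eval z).re := by
        rw [had_poly_eval, Complex.re_sum, ← Finset.sum_add_distrib]
        apply Finset.sum_congr rfl
        intro i hi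
        exact had_ker_eq (hfacne i hi)
      have h4 : Real.log ‖f z‖ - ∑ i ∈ s n, ker p z (a i) -
          ((T - had_poly p a (s n)).eval z).re = (G z - T.eval z).re := by
        rw [h2, h3, Polynomial.eval_sub, Complex.sub_re, Complex.sub_re]
        ring
      rw [h4]
      exact (Complex.abs_re_le_norm _).trans h1
  choose! P hPdeg hPb using hP
  -- the linear map
  set S : Type := {z : ℂ // f z ≠ 0} with hSdef
  let Φ : (Fin (p + 1) → ℂ) →ₗ[ℝ] (S → ℝ) :=
    { toFun := fun c z => (∑ j, c j * (z : ℂ) ^ (j : ℕ)).re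
      map_add' := by
        intro c d
        ext z
        simp only [Pi.add_apply, add_mul, Finset.sum_add_distrib, Complex.add_re]
      map_smul' := by
        intro r c
        ext z
        simp only [Pi.smul_apply, Complex.real_smul, RingHom.id_apply, smul_eq_mul, mul_assoc,
          ← Finset.mul_sum, Complex.re_ofReal_mul] }
  have hclosed : IsClosed (LinearMap.range Φ : Set (S → ℝ)) :=
    Submodule.closed_of_finiteDimensional (LinearMap.range Φ)
  have hlim : Tendsto (fun (n : ℕ) (z : S) => ((P n).eval (z : ℂ)).re) atTop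
      (𝓝 fun z : S => Real.log ‖f z‖ - ∑' i, ker p z (a i)) := by
    rw [tendsto_pi_nhds]
    intro z
    have hsn : Tendsto (fun n : ℕ => s (n : ℝ)) atTop atTop := by
      apply Filter.tendsto_atTop_finset_of_monotone
      · intro m n hmn
        exact hmono (by exact_mod_cast hmn)
      · intro i
        obtain ⟨n, hn⟩ := exists_nat_ge (a i)
        exact ⟨n, (hs n i).2 hn⟩
    have h1 : Tendsto (fun n : ℕ => ∑ i ∈ s (n : ℝ), ker p z (a i)) atTop
        (𝓝 (∑' i, ker p z (a i))) := (hker z).hasSum.comp hsn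
    have h2 : Tendsto (fun n : ℕ => 2 * (2 * (2 * (n : ℝ)) ^ σ + 3 * K₀) *
        (2 * ‖(z : ℂ)‖ / n) ^ (p + 1)) atTop (𝓝 0) := by
      have e1 : Tendsto (fun n : ℕ => (n : ℝ) ^ (σ - (p + 1))) atTop (𝓝 0) := by
        have h := (tendsto_rpow_neg_atTop (show 0 < (p : ℝ) + 1 - σ by linarith)).comp
          tendsto_natCast_atTop_atTop
        refine h.congr fun n => ?_
        simp only [Function.comp_apply]
        congr 1
        ring
      have e2 : Tendsto (fun n : ℕ => (n : ℝ) ^ (-((p : ℝ) + 1))) atTop (𝓝 0) :=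
        (tendsto_rpow_neg_atTop (show 0 < (p : ℝ) + 1 by positivity)).comp
          tendsto_natCast_atTop_atTop
      have e3 := (e1.const_mul (4 * 2 ^ σ * (2 * ‖(z : ℂ)‖) ^ (p + 1))).add
        (e2.const_mul (6 * K₀ * (2 * ‖(z : ℂ)‖) ^ (p + 1)))
      rw [mul_zero, mul_zero, add_zero] at e3
      refine e3.congr' ?_
      filter_upwards [eventually_gt_atTop 0] with n hn
      have hn0 : (0 : ℝ) < n := by exact_mod_cast hn
      rw [Real.mul_rpow (by norm_num) hn0.le, div_pow, Real.rpow_sub hn0, Real.rpow_neg hn0.le]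
      have : (n : ℝ) ^ ((p : ℝ) + 1) = (n : ℝ) ^ (p + 1) := by
        rw [← Real.rpow_natCast]; push_cast; rfl
      rw [this]
      field_simp
      ring
    have h3 : Tendsto (fun n : ℕ => Real.log ‖f z‖ - ∑ i ∈ s (n : ℝ), ker p z (a i) -
        ((P n).eval (z : ℂ)).re) atTop (𝓝 0) := by
      apply squeeze_zero_norm' _ h2
      obtain ⟨N, hN⟩ := exists_nat_ge (max (max R₀ 1) (4 * ‖(z : ℂ)‖))
      filter_upwards [eventually_ge_atTop N] with n hn
      have hn' : max (max R₀ 1) (4 * ‖(z : ℂ)‖) ≤ (n : ℝ) := hN.trans (by exact_mod_cast hn)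
      have hn1 := (le_max_left _ _).trans hn'
      have hn2 := (le_max_right _ _).trans hn'
      rw [Real.norm_eq_abs]
      exact hPb n hn1 z (by linarith) z.2
    have h4 := ((tendsto_const_nhds (x := Real.log ‖f z‖)).sub h1).sub h3
    rw [sub_zero] at h4
    refine h4.congr fun n => ?_
    ring
  have hmem : (fun z : S => Real.log ‖f z‖ - ∑' i, ker p z (a i)) ∈
      (LinearMap.range Φ : Set (S → ℝ)) := by
    apply hclosed.mem_of_tendsto hlim
    obtain ⟨N, hN⟩ := exists_nat_ge (max R₀ 1)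
    filter_upwards [eventually_ge_atTop N] with n hn
    have hn' : max R₀ 1 ≤ (n : ℝ) := hN.trans (by exact_mod_cast hn)
    refine ⟨fun j => (P n).coeff j, ?_⟩
    ext z
    change (∑ j : Fin (p + 1), (P n).coeff j * (z : ℂ) ^ (j : ℕ)).re = _
    rw [Polynomial.eval_eq_sum_range' (Nat.lt_succ_of_le (hPdeg n hn')), Finset.sum_range]
  obtain ⟨c, hc⟩ := hmem
  refine ⟨ι, hι, a, ∑ j : Fin (p + 1), Polynomial.C (c j) * Polynomial.X ^ (j : ℕ), ha, ?_, hsumm,
    hza, ?_⟩
  · apply Polynomial.natDegree_sum_le_of_forall_le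
    intro j _
    exact (Polynomial.natDegree_C_mul_X_pow_le _ _).trans (Nat.lt_succ_iff.1 j.2)
  · intro z hfz
    refine ⟨hker z, ?_⟩
    have := congrFun hc ⟨z, hfz⟩
    change (∑ j : Fin (p + 1), c j * z ^ (j : ℕ)).re = Real.log ‖f z‖ - ∑' i, ker p z (a i) at this
    rw [Polynomial.eval_finset_sum]
    simp only [Polynomial.eval_mul, Polynomial.eval_C, Polynomial.eval_pow, Polynomial.eval_X]
    rw [this]
    ring

end Helper25.Ind
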