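import Pool.Agent.Helper25.Ind.Defs

open Complex Filter Topology MeasureTheory Set

namespace Helper25.Ind

/-- the critical kernel `log |1-u| u^(-3/2)` -/
noncomputable def hkL (u : ℝ) : ℝ := Real.log |1 - u| / (√u) ^ 3

/-- `(1-w) log |1-w| + (1+w) log |1+w|` -/
noncomputable def hkX (w : ℝ) : ℝ := (1 - w) * Real.log (1 - w) + (1 + w) * Real.log (1 + w)

/-- primitive of `hkL` in the variable `w = √u` -/
noncomputable def hkP (w : ℝ) : ℝ := -2 * hkX w / w

lemma hk_X_deriv {w : ℝ} (h0 : 0 ≤ w) (h1 : w ≠ 1) :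
    HasDerivAt hkX (Real.log (1 + w) - Real.log (1 - w)) w := by
  have ha : (1 - w) ≠ 0 := sub_ne_zero.2 (Ne.symm h1)
  have hb : (1 + w) ≠ 0 := by positivity
  have h2 : HasDerivAt (fun w : ℝ => 1 - w) (-1) w := by
    simpa using (hasDerivAt_id w).const_sub 1
  have h3 : HasDerivAt (fun w : ℝ => 1 + w) 1 w := by
    simpa using (hasDerivAt_id w).const_add 1
  have h4 := (h2.mul (h2.log ha)).add (h3.mul (h3.log hb))
  refine h4.congr_deriv ?_
  field_simp
  ring

lemma hk_P_deriv {w : ℝ} (h0 : 0 < w) (h1 : w ≠ 1) :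
    HasDerivAt hkP (2 * Real.log |1 - w ^ 2| / w ^ 2) w := by
  have h2 := (((hk_X_deriv h0.le h1).const_mul (-2)).div (hasDerivAt_id w) h0.ne')
  refine h2.congr_deriv ?_
  have ha : (1 - w) ≠ 0 := sub_ne_zero.2 (Ne.symm h1)
  have hb : (1 + w) ≠ 0 := by positivity
  have h3 : Real.log |1 - w ^ 2| = Real.log (1 - w) + Real.log (1 + w) := by
    rw [Real.log_abs, ← Real.log_mul ha hb]
    congr 1; ring
  rw [h3]
  simp only [id, hkX]
  field_simp
  ring

lemma hk_G_deriv {u : ℝ} (h0 : 0 < u) (h1 : u ≠ 1) :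
    HasDerivAt (fun u => hkP (√u)) (hkL u) u := by
  have hw : 0 < √u := Real.sqrt_pos.2 h0
  have hw1 : √u ≠ 1 := by
    intro h
    rw [Real.sqrt_eq_one] at h
    exact h1 h
  have h2 := (hk_P_deriv hw hw1).comp u (Real.hasDerivAt_sqrt h0.ne')
  refine h2.congr_deriv ?_
  rw [Real.sq_sqrt h0.le, hkL]
  have h3 : (√u) ^ 3 = u * √u := by
    rw [pow_succ, Real.sq_sqrt h0.le]
  rw [h3]
  field_simp

lemma hk_P_continuousOn : ContinuousOn hkP (Ioi 0) := by
  intro w hw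
  have h1 : Continuous (fun x : ℝ => x * Real.log x) := Real.continuous_mul_log
  have h2 : Continuous hkX := by
    have h3 : Continuous (fun w : ℝ => 1 - w) := by fun_prop
    have h4 : Continuous (fun w : ℝ => 1 + w) := by fun_prop
    exact (h1.comp h3).add (h1.comp h4)
  have h5 : ContinuousAt hkP w := by
    unfold hkP
    exact ((continuous_const.mul h2).continuousAt).div continuousAt_id (ne_of_gt hw)
  exact h5.continuousWithinAt

lemma hk_P_zero : hkP 0 = 0 := by simp [hkP]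

lemma hk_P_tendsto_zero : Tendsto hkP (𝓝[≠] 0) (𝓝 0) := by
  have h1 := hk_X_deriv (w := 0) le_rfl (by norm_num)
  rw [hasDerivAt_iff_tendsto_slope] at h1
  have h2 : Tendsto (fun w => -2 * slope hkX 0 w) (𝓝[≠] 0) (𝓝 (-2 * (Real.log (1 + 0) -
    Real.log (1 - 0)))) := h1.const_mul _
  simp only [add_zero, sub_zero, Real.log_one, mul_zero] at h2
  refine h2.congr fun w => ?_
  simp [slope, hkP, hkX]
  ring

lemma hk_P_continuousAt_zero : ContinuousAt hkP 0 := by
  rw [continuousAt_iff_punctured_nhds, hk_P_zero]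
  exact hk_P_tendsto_zero

lemma hk_P_continuousOn' : ContinuousOn hkP (Ici 0) := by
  intro w hw
  rcases eq_or_lt_of_le (mem_Ici.1 hw) with h | h
  · rw [← h]; exact hk_P_continuousAt_zero.continuousWithinAt
  · exact ((hk_P_continuousOn w h).continuousAt (Ioi_mem_nhds h)).continuousWithinAt

lemma hk_G_continuousOn : ContinuousOn (fun u => hkP (√u)) (Ici 0) :=
  hk_P_continuousOn'.comp Real.continuous_sqrt.continuousOn fun u _ => Real.sqrt_nonneg u

lemma hk_P_tendsto_top : Tendsto hkP atTop (𝓝 0) := by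
  have h1 : Tendsto (fun w : ℝ => -2 * (2 * (Real.log w / w) + 2 * (w - 1)⁻¹)) atTop
      (𝓝 (-2 * (2 * 0 + 2 * 0))) := by
    have ha : Tendsto (fun w : ℝ => Real.log w / w) atTop (𝓝 0) := by
      have := Real.isLittleO_log_id_atTop.tendsto_div_nhds_zero
      simpa using this
    have hb : Tendsto (fun w : ℝ => (w - 1)⁻¹) atTop (𝓝 0) :=
      tendsto_inv_atTop_zero.comp (tendsto_atTop_add_const_right _ _ tendsto_id)
    exact ((ha.const_mul 2).add (hb.const_mul 2)).const_mul (-2)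
  norm_num at h1
  refine tendsto_of_tendsto_of_tendsto_of_le_of_le' h1 tendsto_const_nhds ?_ ?_
  · filter_upwards [eventually_ge_atTop 2] with w hw
    have hw0 : (0 : ℝ) < w := by linarith
    have hX : hkX w = Real.log (w ^ 2 - 1) + w * Real.log ((w + 1) / (w - 1)) := by
      have e1 : Real.log (1 - w) = Real.log (w - 1) := by
        rw [← Real.log_neg_eq_log]; congr 1; ring
      have e2 : Real.log (w ^ 2 - 1) = Real.log (w - 1) + Real.log (1 + w) := by
        rw [← Real.log_mul (by linarith) (by linarith)]; congr 1; ring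
      have e3 : Real.log ((w + 1) / (w - 1)) = Real.log (1 + w) - Real.log (w - 1) := by
        rw [Real.log_div (by linarith) (by linarith), add_comm w 1]
      rw [hkX, e1, e2, e3]; ring
    have h3 : Real.log (w ^ 2 - 1) ≤ 2 * Real.log w := by
      have : Real.log (w ^ 2) = 2 * Real.log w := by rw [Real.log_pow]; norm_num
      rw [← this]
      exact Real.log_le_log (by nlinarith) (by linarith)
    have h4 : Real.log ((w + 1) / (w - 1)) ≤ 2 * (w - 1)⁻¹ := by
      have h5 := Real.log_le_sub_one_of_pos (x := (w + 1) / (w - 1))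
        (div_pos (by linarith) (by linarith))
      have h6 : (w + 1) / (w - 1) - 1 = 2 * (w - 1)⁻¹ := by
        have : w - 1 ≠ 0 := by linarith
        field_simp; ring
      linarith
    have h7 : hkX w / w ≤ 2 * (Real.log w / w) + 2 * (w - 1)⁻¹ := by
      rw [hX, add_div, mul_div_cancel_left₀ _ hw0.ne']
      have : Real.log (w ^ 2 - 1) / w ≤ 2 * (Real.log w / w) := by
        rw [← mul_div_assoc]; gcongr
      linarith
    have h8 : hkP w = -2 * (hkX w / w) := by rw [hkP]; ring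
    rw [h8]
    nlinarith
  · filter_upwards [eventually_ge_atTop 2] with w hw
    have hw0 : (0 : ℝ) < w := by linarith
    have e1 : Real.log (1 - w) = Real.log (w - 1) := by
      rw [← Real.log_neg_eq_log]; congr 1; ring
    have hX : 0 ≤ hkX w := by
      have h1 : Real.log (w - 1) ≤ Real.log (1 + w) := Real.log_le_log (by linarith) (by linarith)
      have h2 : 0 ≤ Real.log (w - 1) := Real.log_nonneg (by linarith)
      rw [hkX, e1]
      nlinarith
    have h8 : hkP w = -(2 * (hkX w / w)) := by rw [hkP]; ring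
    rw [h8]
    have : 0 ≤ hkX w / w := div_nonneg hX hw0.le
    linarith

lemma hk_L_nonpos {u : ℝ} (h0 : 0 ≤ u) (h2 : u ≤ 2) : hkL u ≤ 0 := by
  have h1 : |1 - u| ≤ 1 := by rw [abs_le]; constructor <;> linarith
  exact div_nonpos_of_nonpos_of_nonneg (Real.log_nonpos (abs_nonneg _) h1) (by positivity)

lemma hk_L_nonneg {u : ℝ} (h2 : 2 ≤ u) : 0 ≤ hkL u := by
  have h1 : 1 ≤ |1 - u| := by rw [abs_sub_comm, abs_of_nonneg (by linarith)]; linarith
  exact div_nonneg (Real.log_nonneg h1) (by positivity)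

lemma hk_piece {a b : ℝ} (ha : 0 ≤ a) (hab : a ≤ b) (hb : b ≤ 2) (h1 : ∀ x ∈ Ioo a b, x ≠ 1) :
    IntegrableOn hkL (Ioc a b) ∧ ∫ u in Ioc a b, hkL u = hkP (√b) - hkP (√a) := by
  have hc : ContinuousOn (fun u => hkP (√u)) (Icc a b) :=
    hk_G_continuousOn.mono fun x hx => le_trans ha hx.1
  have hd : ∀ x ∈ Ioo a b, HasDerivAt (fun u => hkP (√u)) (hkL x) x := fun x hx =>
    hk_G_deriv (lt_of_le_of_lt ha hx.1) (h1 x hx)
  have hi : IntegrableOn hkL (Ioc a b) := by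
    have := intervalIntegral.integrableOn_deriv_of_nonneg hc.neg (fun x hx => (hd x hx).neg)
      (fun x hx => by
        have := hk_L_nonpos (u := x) (le_trans ha hx.1.le) (le_trans hx.2.le hb)
        linarith)
    have h2 := this.neg
    simpa using h2
  refine ⟨hi, ?_⟩
  rw [← intervalIntegral.integral_of_le hab]
  exact intervalIntegral.integral_eq_sub_of_hasDerivAt_of_le hab hc hd
    ((intervalIntegrable_iff_integrableOn_Ioc_of_le hab).2 hi)

lemma hk_L_int : IntegrableOn hkL (Ioi 0) ∧ ∫ u in Ioi (0 : ℝ), hkL u = 0 := by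
  obtain ⟨i1, e1⟩ := hk_piece (a := 0) (b := 1) le_rfl zero_le_one one_le_two
    (fun x hx => hx.2.ne)
  obtain ⟨i2, e2⟩ := hk_piece (a := 1) (b := 2) zero_le_one one_le_two le_rfl
    (fun x hx => hx.1.ne')
  have hT : Tendsto (fun u => hkP (√u)) atTop (𝓝 0) :=
    hk_P_tendsto_top.comp Real.tendsto_sqrt_atTop
  have hd : ∀ x ∈ Ici (2 : ℝ), HasDerivAt (fun u => hkP (√u)) (hkL x) x := fun x hx =>
    hk_G_deriv (by have := mem_Ici.1 hx; linarith) (by have := mem_Ici.1 hx; linarith)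
  have hn : ∀ x ∈ Ioi (2 : ℝ), 0 ≤ hkL x := fun x hx => hk_L_nonneg (le_of_lt hx)
  have i3 := integrableOn_Ioi_deriv_of_nonneg' hd hn hT
  have e3 := integral_Ioi_of_hasDerivAt_of_nonneg' hd hn hT
  have u1 : Ioc (0 : ℝ) 1 ∪ Ioc 1 2 = Ioc 0 2 := Ioc_union_Ioc_eq_Ioc zero_le_one one_le_two
  have u2 : Ioc (0 : ℝ) 2 ∪ Ioi 2 = Ioi 0 := Ioc_union_Ioi_eq_Ioi zero_le_two
  have i4 : IntegrableOn hkL (Ioc 0 2) := u1 ▸ i1.union i2
  refine ⟨u2 ▸ i4.union i3, ?_⟩
  rw [← u2, setIntegral_union (Ioc_disjoint_Ioi le_rfl) measurableSet_Ioi i4 i3, ← u1,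
    setIntegral_union (Ioc_disjoint_Ioc_of_le le_rfl) measurableSet_Ioc i1 i2, e1, e2, e3]
  simp [hk_P_zero]

/-- the kernel `log |1-u| u^(-1-s)` -/
noncomputable def hkG (s u : ℝ) : ℝ := Real.log |1 - u| * u ^ (-1 - s)

lemma hk_G_eq {s u : ℝ} (hu : 0 < u) : hkG s u = hkL u * u ^ (1 / 2 - s) := by
  have h1 : (√u) ^ 3 = u ^ ((3 : ℝ) / 2) := by
    rw [Real.sqrt_eq_rpow, ← Real.rpow_natCast, ← Real.rpow_mul hu.le]
    norm_num
  rw [hkG, hkL, h1, div_eq_mul_inv, ← Real.rpow_neg hu.le, mul_assoc, ← Real.rpow_add hu]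
  congr 2
  ring

lemma hk_G_meas (s : ℝ) : Measurable (hkG s) := by
  unfold hkG
  fun_prop

lemma hk_G_int {s : ℝ} (hs : 0 < s) (hs2 : s < 1 / 2) : IntegrableOn (hkG s) (Ioi 0) := by
  have u2 : Ioc (0 : ℝ) 2 ∪ Ioi 2 = Ioi 0 := Ioc_union_Ioi_eq_Ioi zero_le_two
  rw [← u2]
  refine IntegrableOn.union ?_ ?_
  · have h1 : IntegrableOn (fun u => 2 * ‖hkL u‖) (Ioc 0 2) :=
      ((hk_L_int.1.mono_set Ioc_subset_Ioi_self).norm).const_mul 2
    refine Integrable.mono' h1 (hk_G_meas s).aestronglyMeasurable ?_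
    refine (ae_restrict_mem measurableSet_Ioc).mono fun u hu => ?_
    rw [hk_G_eq hu.1, norm_mul, mul_comm]
    refine mul_le_mul_of_nonneg_right ?_ (norm_nonneg _)
    rw [Real.norm_of_nonneg (Real.rpow_nonneg hu.1.le _)]
    calc u ^ (1 / 2 - s) ≤ 2 ^ (1 / 2 - s) :=
          Real.rpow_le_rpow hu.1.le hu.2 (by linarith)
      _ ≤ 2 ^ (1 : ℝ) := Real.rpow_le_rpow_of_exponent_le one_le_two (by linarith)
      _ = 2 := by norm_num
  · have h1 : IntegrableOn (fun u : ℝ => (s / 2)⁻¹ * u ^ (-1 - s / 2)) (Ioi 2) :=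
      (integrableOn_Ioi_rpow_of_lt (by linarith) zero_lt_two).const_mul _
    refine Integrable.mono' h1 (hk_G_meas s).aestronglyMeasurable ?_
    refine (ae_restrict_mem measurableSet_Ioi).mono fun u hu => ?_
    have hu' : (2 : ℝ) < u := hu
    have hu0 : (0 : ℝ) < u := by linarith
    have h2 : |1 - u| = u - 1 := by rw [abs_sub_comm, abs_of_nonneg (by linarith)]
    have h3 : 0 ≤ Real.log (u - 1) := Real.log_nonneg (by linarith)
    have h4 : Real.log (u - 1) ≤ u ^ (s / 2) / (s / 2) :=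
      (Real.log_le_log (by linarith) (by linarith)).trans
        (Real.log_le_rpow_div hu0.le (by linarith))
    rw [hkG, h2, norm_mul, Real.norm_of_nonneg h3, Real.norm_of_nonneg (Real.rpow_nonneg hu0.le _)]
    calc Real.log (u - 1) * u ^ (-1 - s) ≤ u ^ (s / 2) / (s / 2) * u ^ (-1 - s) :=
          mul_le_mul_of_nonneg_right h4 (Real.rpow_nonneg hu0.le _)
      _ = (s / 2)⁻¹ * u ^ (-1 - s / 2) := by
          have : u ^ (-1 - s / 2) = u ^ (s / 2) * u ^ (-1 - s) := by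
            rw [← Real.rpow_add hu0]; congr 1; ring
          rw [this]; ring

lemma hk_J0_pos {s : ℝ} (hs : 0 < s) (hs2 : s < 1 / 2) : 0 < ∫ u in Ioi (0 : ℝ), hkG s u := by
  have hi := hk_G_int hs hs2
  have h1 : ∫ u in Ioi (0 : ℝ), hkG s u =
      ∫ u in Ioi (0 : ℝ), (hkG s u - 2 ^ (1 / 2 - s) * hkL u) := by
    rw [integral_sub hi (hk_L_int.1.const_mul _), integral_const_mul, hk_L_int.2]
    ring
  have hcong : ∀ u ∈ Ioi (0 : ℝ), hkG s u - 2 ^ (1 / 2 - s) * hkL u =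
      hkL u * (u ^ (1 / 2 - s) - 2 ^ (1 / 2 - s)) := by
    intro u hu
    rw [hk_G_eq hu]; ring
  rw [h1, setIntegral_pos_iff_support_of_nonneg_ae]
  · refine lt_of_lt_of_le (b := volume (Ioo (2 : ℝ) 3)) (by simp; norm_num) (measure_mono ?_)
    intro u hu
    have hu0 : (0 : ℝ) < u := by have := hu.1; linarith
    refine ⟨?_, hu0⟩
    rw [Function.mem_support, hcong u hu0]
    refine mul_ne_zero ?_ ?_
    · have h2 : |1 - u| = u - 1 := by rw [abs_sub_comm, abs_of_nonneg (by linarith [hu.1])]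
      rw [hkL, h2]
      exact (div_pos (Real.log_pos (by linarith [hu.1])) (by positivity)).ne'
    · have h2 := Real.rpow_lt_rpow zero_le_two hu.1 (show (0 : ℝ) < 1 / 2 - s by linarith)
      linarith
  · refine (ae_restrict_mem measurableSet_Ioi).mono fun u hu => ?_
    have hu' : (0 : ℝ) < u := hu
    show 0 ≤ hkG s u - 2 ^ (1 / 2 - s) * hkL u
    rw [hcong u hu]
    rcases le_total u 2 with h2 | h2
    · refine mul_nonneg_of_nonpos_of_nonpos (hk_L_nonpos hu'.le h2) ?_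
      have := Real.rpow_le_rpow hu'.le h2 (show (0 : ℝ) ≤ 1 / 2 - s by linarith)
      linarith
    · refine mul_nonneg (hk_L_nonneg h2) ?_
      have := Real.rpow_le_rpow zero_le_two h2 (show (0 : ℝ) ≤ 1 / 2 - s by linarith)
      linarith
  · exact hi.sub (hk_L_int.1.const_mul _)

lemma hk_G_nonpos {s u : ℝ} (h0 : 0 < u) (h1 : u ≤ 1) : hkG s u ≤ 0 := by
  rw [hk_G_eq h0]
  exact mul_nonpos_of_nonpos_of_nonneg (hk_L_nonpos h0.le (by linarith))
    (Real.rpow_nonneg h0.le _)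

lemma hk_tail {s b : ℝ} (hs : 0 < s) (hs2 : s < 1 / 2) (hb : 0 ≤ b) (hb1 : b ≤ 1) :
    ∫ u in Ioi (0 : ℝ), hkG s u ≤ ∫ u in Ioi b, hkG s u := by
  have hi := hk_G_int hs hs2
  have u2 : Ioc (0 : ℝ) b ∪ Ioi b = Ioi 0 := Ioc_union_Ioi_eq_Ioi hb
  have i1 : IntegrableOn (hkG s) (Ioc 0 b) := hi.mono_set Ioc_subset_Ioi_self
  have i2 : IntegrableOn (hkG s) (Ioi b) := hi.mono_set (Ioi_subset_Ioi hb)
  rw [← u2, setIntegral_union (Ioc_disjoint_Ioi le_rfl) measurableSet_Ioi i1 i2]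
  have : ∫ u in Ioc 0 b, hkG s u ≤ 0 :=
    setIntegral_nonpos measurableSet_Ioc fun u hu => hk_G_nonpos hu.1 (hu.2.trans hb1)
  linarith

lemma hk_scale {s t : ℝ} (ht : 0 < t) {y : ℝ} (hy : 0 < y) :
    Real.log |1 - y / t| * y ^ (-1 - s) = t⁻¹ ^ (1 + s) * hkG s (t⁻¹ * y) := by
  have h1 : 0 < t⁻¹ := inv_pos.2 ht
  rw [hkG, Real.mul_rpow h1.le hy.le, div_eq_inv_mul]
  have h2 : t⁻¹ ^ (1 + s) * t⁻¹ ^ (-1 - s) = 1 := by
    rw [← Real.rpow_add h1]; ring_nf; simp
  calc Real.log |1 - t⁻¹ * y| * y ^ (-1 - s)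
      = (t⁻¹ ^ (1 + s) * t⁻¹ ^ (-1 - s)) * (Real.log |1 - t⁻¹ * y| * y ^ (-1 - s)) := by
        rw [h2, one_mul]
    _ = _ := by ring

/-- the kernel inequality, `0 < s < 1/2` -/
theorem half_kernel {s : ℝ} (hs : 0 < s) (hs2 : s < 1 / 2) :
    ∃ c > 0, ∀ t : ℝ, 0 < t →
      IntegrableOn (fun y : ℝ => Real.log |1 - y / t| * y ^ (-1 - s)) (Ioi 1) ∧
      c * Real.log (1 + 1 / t) ≤ ∫ y in Ioi (1 : ℝ), Real.log |1 - y / t| * y ^ (-1 - s) := by
  have hJ := hk_J0_pos hs hs2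
  have hi := hk_G_int hs hs2
  refine ⟨min (∫ u in Ioi (0 : ℝ), hkG s u) 1, lt_min hJ one_pos, fun t ht => ?_⟩
  have hb : 0 < t⁻¹ := inv_pos.2 ht
  have hint : IntegrableOn (fun y : ℝ => Real.log |1 - y / t| * y ^ (-1 - s)) (Ioi 1) := by
    have h1 : IntegrableOn (fun y => t⁻¹ ^ (1 + s) * hkG s (t⁻¹ * y)) (Ioi 1) := by
      refine Integrable.const_mul ?_ _
      refine (integrableOn_Ioi_comp_mul_left_iff (hkG s) 1 hb).2 (hi.mono_set ?_)
      exact Ioi_subset_Ioi (by positivity)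
    refine h1.congr_fun (fun y hy => ?_) measurableSet_Ioi
    exact (hk_scale ht (lt_trans zero_lt_one hy)).symm
  refine ⟨hint, ?_⟩
  rw [one_div]
  rcases le_total t⁻¹ 1 with h1 | h1
  · have h2 : ∫ y in Ioi (1 : ℝ), Real.log |1 - y / t| * y ^ (-1 - s) =
        t⁻¹ ^ s * ∫ u in Ioi t⁻¹, hkG s u := by
      rw [setIntegral_congr_fun measurableSet_Ioi
        (fun y hy => hk_scale (s := s) ht (lt_trans zero_lt_one hy)), integral_const_mul,
        integral_comp_mul_left_Ioi (hkG s) 1 hb, mul_one, smul_eq_mul, ← mul_assoc]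
      congr 1
      rw [← Real.rpow_neg_one, ← Real.rpow_neg_one, ← Real.rpow_mul ht.le, ← Real.rpow_mul ht.le,
        ← Real.rpow_mul ht.le, ← Real.rpow_add ht]
      congr 1; ring
    rw [h2]
    have h3 : t⁻¹ ≤ t⁻¹ ^ s := by
      calc t⁻¹ = t⁻¹ ^ (1 : ℝ) := (Real.rpow_one _).symm
        _ ≤ t⁻¹ ^ s := Real.rpow_le_rpow_of_exponent_ge hb h1 (by linarith)
    have h4 : Real.log (1 + t⁻¹) ≤ t⁻¹ := by
      have := Real.log_le_sub_one_of_pos (x := 1 + t⁻¹) (by linarith)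
      linarith
    have h5 : 0 ≤ Real.log (1 + t⁻¹) := Real.log_nonneg (by linarith)
    have h6 := hk_tail hs hs2 hb.le h1
    calc min (∫ u in Ioi (0 : ℝ), hkG s u) 1 * Real.log (1 + t⁻¹)
        ≤ (∫ u in Ioi (0 : ℝ), hkG s u) * t⁻¹ := by
          refine mul_le_mul (min_le_left _ _) h4 h5 hJ.le
      _ ≤ (∫ u in Ioi t⁻¹, hkG s u) * t⁻¹ ^ s := by
          refine mul_le_mul h6 h3 hb.le (hJ.le.trans h6)
      _ = _ := by ring
  · have hlogb : 0 ≤ Real.log t⁻¹ := Real.log_nonneg h1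
    have h2 : ∀ y ∈ Ioi (1 : ℝ), Real.log t⁻¹ * y ^ (-1 - s) + hkG s y ≤
        Real.log |1 - y / t| * y ^ (-1 - s) := by
      intro y hy
      have hy1 : (1 : ℝ) < y := hy
      have e1 : |1 - y| = y - 1 := by rw [abs_sub_comm, abs_of_nonneg (by linarith)]
      have e3 : t⁻¹ * (y - 1) ≤ t⁻¹ * y - 1 := by nlinarith
      have e4 : 0 < t⁻¹ * (y - 1) := mul_pos hb (by linarith)
      have e2 : |1 - y / t| = t⁻¹ * y - 1 := by
        rw [div_eq_inv_mul, abs_sub_comm, abs_of_nonneg (by linarith)]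
      rw [hkG, e1, e2, ← add_mul]
      refine mul_le_mul_of_nonneg_right ?_ (Real.rpow_nonneg (by linarith) _)
      rw [← Real.log_mul hb.ne' (by linarith)]
      exact Real.log_le_log e4 e3
    have i1 : IntegrableOn (fun y : ℝ => Real.log t⁻¹ * y ^ (-1 - s)) (Ioi 1) :=
      (integrableOn_Ioi_rpow_of_lt (by linarith) zero_lt_one).const_mul _
    have i2 : IntegrableOn (hkG s) (Ioi 1) := hi.mono_set (Ioi_subset_Ioi zero_le_one)
    have h3 := setIntegral_mono_on (i1.add i2) hint measurableSet_Ioi h2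
    have h4 : ∫ y in Ioi (1 : ℝ), (Real.log t⁻¹ * y ^ (-1 - s) + hkG s y) =
        Real.log t⁻¹ / s + ∫ y in Ioi (1 : ℝ), hkG s y := by
      rw [integral_add i1 i2, integral_const_mul,
        integral_Ioi_rpow_of_lt (by linarith) zero_lt_one]
      congr 1
      rw [Real.one_rpow]
      have : -1 - s + 1 = -s := by ring
      rw [this]
      field_simp
    have h5 := hk_tail hs hs2 zero_le_one le_rfl
    have h6 : Real.log (1 + t⁻¹) ≤ Real.log 2 + Real.log t⁻¹ := by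
      rw [← Real.log_mul two_ne_zero hb.ne']
      exact Real.log_le_log (by linarith) (by linarith)
    have h7 : Real.log t⁻¹ ≤ Real.log t⁻¹ / s := by
      rw [le_div_iff₀ hs]
      nlinarith
    have h8 : Real.log 2 ≤ 1 := by
      have := Real.log_le_sub_one_of_pos (x := 2) two_pos
      linarith
    have h9 : 0 ≤ Real.log 2 := Real.log_nonneg one_le_two
    have m1 : min (∫ u in Ioi (0 : ℝ), hkG s u) 1 ≤ ∫ u in Ioi (0 : ℝ), hkG s u := min_le_left _ _
    have m2 : min (∫ u in Ioi (0 : ℝ), hkG s u) 1 ≤ 1 := min_le_right _ _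
    have m3 : 0 < min (∫ u in Ioi (0 : ℝ), hkG s u) 1 := lt_min hJ one_pos
    calc min (∫ u in Ioi (0 : ℝ), hkG s u) 1 * Real.log (1 + t⁻¹)
        ≤ min (∫ u in Ioi (0 : ℝ), hkG s u) 1 * (Real.log 2 + Real.log t⁻¹) := by gcongr
      _ ≤ Real.log t⁻¹ / s + ∫ y in Ioi (1 : ℝ), hkG s y := by nlinarith
      _ = _ := h4.symm
      _ ≤ _ := h3

end Helper25.Ind
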