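import Pool.Agent.Helper25.Ind.Defs

open Complex Filter Topology MeasureTheory Set

namespace Helper25.Ind

private lemma ratio_lt_imp {ρ θ A r : ℝ} {f : ℂ → ℂ} (hr : 0 < r)
    (h : ratio ρ f θ r < (A : EReal)) :
    ‖f (r * Complex.exp (θ * Complex.I))‖ ≤ Real.exp (A * r ^ ρ) := by
  have hp : (0 : ℝ) < r ^ ρ := Real.rpow_pos_of_pos hr ρ
  unfold ratio at h
  split_ifs at h with h0
  · rw [h0, norm_zero]
    exact (Real.exp_pos _).le
  · have h1 : Real.log ‖f (r * Complex.exp (θ * Complex.I))‖ / r ^ ρ < A := by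
      exact_mod_cast h
    rw [div_lt_iff₀ hp] at h1
    have hn : 0 < ‖f (r * Complex.exp (θ * Complex.I))‖ := norm_pos_iff.2 h0
    rw [← Real.log_le_iff_le_exp hn]
    exact h1.le

private lemma ratio_le_of {ρ θ A r : ℝ} {f : ℂ → ℂ} (hr : 0 < r)
    (h : ‖f (r * Complex.exp (θ * Complex.I))‖ ≤ Real.exp (A * r ^ ρ)) :
    ratio ρ f θ r ≤ (A : EReal) := by
  have hp : (0 : ℝ) < r ^ ρ := Real.rpow_pos_of_pos hr ρ
  unfold ratio
  split_ifs with h0
  · exact bot_le
  · have hn : 0 < ‖f (r * Complex.exp (θ * Complex.I))‖ := norm_pos_iff.2 h0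
    rw [← Real.log_le_iff_le_exp hn] at h
    have h1 : Real.log ‖f (r * Complex.exp (θ * Complex.I))‖ / r ^ ρ ≤ A := by
      rw [div_le_iff₀ hp]
      exact h
    exact_mod_cast h1

private lemma lt_ratio_imp {ρ θ A r : ℝ} {f : ℂ → ℂ} (hr : 0 < r)
    (h : (A : EReal) < ratio ρ f θ r) :
    Real.exp (A * r ^ ρ) ≤ ‖f (r * Complex.exp (θ * Complex.I))‖ := by
  have hp : (0 : ℝ) < r ^ ρ := Real.rpow_pos_of_pos hr ρ
  unfold ratio at h
  split_ifs at h with h0
  · exact absurd h not_lt_bot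
  · have h1 : A < Real.log ‖f (r * Complex.exp (θ * Complex.I))‖ / r ^ ρ := by
      exact_mod_cast h
    rw [lt_div_iff₀ hp] at h1
    have hn : 0 < ‖f (r * Complex.exp (θ * Complex.I))‖ := norm_pos_iff.2 h0
    rw [← Real.le_log_iff_exp_le hn]
    exact h1.le

private lemma le_ratio_of {ρ θ A r : ℝ} {f : ℂ → ℂ} (hr : 0 < r)
    (h : Real.exp (A * r ^ ρ) ≤ ‖f (r * Complex.exp (θ * Complex.I))‖) :
    (A : EReal) ≤ ratio ρ f θ r := by
  have hp : (0 : ℝ) < r ^ ρ := Real.rpow_pos_of_pos hr ρ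
  have hn : 0 < ‖f (r * Complex.exp (θ * Complex.I))‖ := (Real.exp_pos _).trans_le h
  unfold ratio
  split_ifs with h0
  · rw [h0, norm_zero] at hn
    exact absurd hn (lt_irrefl _)
  · rw [← Real.le_log_iff_exp_le hn] at h
    have h1 : A ≤ Real.log ‖f (r * Complex.exp (θ * Complex.I))‖ / r ^ ρ := by
      rw [le_div_iff₀ hp]
      exact h
    exact_mod_cast h1

lemma eventually_le_of_indicatorOf_lt {ρ θ A : ℝ} {f : ℂ → ℂ}
    (h : indicatorOf ρ f θ < (A : EReal)) :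
    ∀ᶠ r : ℝ in atTop, ‖f (r * Complex.exp (θ * Complex.I))‖ ≤ Real.exp (A * r ^ ρ) := by
  filter_upwards [eventually_lt_of_limsup_lt h, eventually_gt_atTop (0 : ℝ)] with r h1 h2
  exact ratio_lt_imp h2 h1

lemma indicatorOf_le_of_eventually {ρ θ A : ℝ} {f : ℂ → ℂ}
    (h : ∀ ε : ℝ, 0 < ε → ∀ᶠ r : ℝ in atTop,
      ‖f (r * Complex.exp (θ * Complex.I))‖ ≤ Real.exp ((A + ε) * r ^ ρ)) :
    indicatorOf ρ f θ ≤ (A : EReal) := by
  by_contra hc
  rw [not_le] at hc
  obtain ⟨q, hq1, hq2⟩ := EReal.lt_iff_exists_real_btwn.1 hc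
  have hq1' : A < q := by exact_mod_cast hq1
  have h1 : indicatorOf ρ f θ ≤ (q : EReal) := by
    refine limsup_le_of_le (h := ?_)
    filter_upwards [h (q - A) (by linarith), eventually_gt_atTop (0 : ℝ)] with r h1 h2
    refine ratio_le_of h2 ?_
    rwa [add_sub_cancel] at h1
  exact absurd hq2 (not_lt.2 h1)

lemma frequently_le_of_lt_indicatorOf {ρ θ A : ℝ} {f : ℂ → ℂ}
    (h : (A : EReal) < indicatorOf ρ f θ) :
    ∃ᶠ r : ℝ in atTop, Real.exp (A * r ^ ρ) ≤ ‖f (r * Complex.exp (θ * Complex.I))‖ := by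
  have h1 : ∃ᶠ r : ℝ in atTop, (A : EReal) < ratio ρ f θ r :=
    frequently_lt_of_lt_limsup (h := h)
  refine (h1.and_eventually (eventually_gt_atTop (0 : ℝ))).mono ?_
  rintro r ⟨h2, h3⟩
  exact lt_ratio_imp h3 h2

lemma le_indicatorOf_of_frequently {ρ θ A : ℝ} {f : ℂ → ℂ}
    (h : ∀ ε : ℝ, 0 < ε → ∃ᶠ r : ℝ in atTop,
      Real.exp ((A - ε) * r ^ ρ) ≤ ‖f (r * Complex.exp (θ * Complex.I))‖) :
    (A : EReal) ≤ indicatorOf ρ f θ := by
  by_contra hc
  rw [not_le] at hc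
  obtain ⟨q, hq1, hq2⟩ := EReal.lt_iff_exists_real_btwn.1 hc
  have hq2' : q < A := by exact_mod_cast hq2
  have h1 : (q : EReal) ≤ indicatorOf ρ f θ := by
    refine le_limsup_of_frequently_le ?_
    refine ((h (A - q) (by linarith)).and_eventually (eventually_gt_atTop (0 : ℝ))).mono ?_
    rintro r ⟨h2, h3⟩
    refine le_ratio_of h3 ?_
    rwa [sub_sub_cancel] at h2
  exact absurd hq1 (not_lt.2 h1)

lemma indicatorOf_add_two_pi (ρ θ : ℝ) (f : ℂ → ℂ) :
    indicatorOf ρ f (θ + 2 * Real.pi) = indicatorOf ρ f θ := by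
  have h : Complex.exp (((θ + 2 * Real.pi : ℝ) : ℂ) * Complex.I) =
      Complex.exp ((θ : ℂ) * Complex.I) := by
    rw [Complex.ofReal_add, add_mul, Complex.ofReal_mul, Complex.ofReal_ofNat,
      Complex.exp_periodic]
  unfold indicatorOf
  congr 1
  funext r
  unfold ratio
  rw [h]

private lemma indicatorOf_le_add {ρ θ θ' β : ℝ} {F f : ℂ → ℂ}
    (h0 : ∀ᶠ r : ℝ in atTop, f (r * Complex.exp (θ' * Complex.I)) = 0 →
      F (r * Complex.exp (θ * Complex.I)) = 0)
    (h : ∀ ε : ℝ, 0 < ε → ∀ᶠ r : ℝ in atTop, f (r * Complex.exp (θ' * Complex.I)) ≠ 0 →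
      Real.log ‖F (r * Complex.exp (θ * Complex.I))‖ ≤
        Real.log ‖f (r * Complex.exp (θ' * Complex.I))‖ + (β + ε) * r ^ ρ) :
    indicatorOf ρ F θ ≤ indicatorOf ρ f θ' + (β : EReal) := by
  by_contra hc
  rw [not_le] at hc
  obtain ⟨q, hq1, hq2⟩ := EReal.lt_iff_exists_real_btwn.1 hc
  have hq3 : indicatorOf ρ f θ' < ((q - β : ℝ) : EReal) := by
    rw [EReal.coe_sub]
    exact (EReal.lt_sub_iff_add_lt (Or.inl (EReal.coe_ne_bot β))
      (Or.inl (EReal.coe_ne_top β))).2 hq1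
  obtain ⟨q', hq4, hq5⟩ := EReal.lt_iff_exists_real_btwn.1 hq3
  have hq5' : q' < q - β := by exact_mod_cast hq5
  have h1 : indicatorOf ρ F θ ≤ (q : EReal) := by
    refine limsup_le_of_le (h := ?_)
    filter_upwards [h (q - β - q') (by linarith), eventually_gt_atTop (0 : ℝ), h0,
      eventually_lt_of_limsup_lt hq4] with r h1 h2 h3 h4
    have hp : (0 : ℝ) < r ^ ρ := Real.rpow_pos_of_pos h2 ρ
    by_cases hf : f (r * Complex.exp (θ' * Complex.I)) = 0
    · have := h3 hf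
      unfold ratio
      rw [if_pos this]
      exact bot_le
    · have h5 := h1 hf
      unfold ratio at h4 ⊢
      rw [if_neg hf] at h4
      have h4' : Real.log ‖f (r * Complex.exp (θ' * Complex.I))‖ / r ^ ρ < q' := by
        exact_mod_cast h4
      rw [div_lt_iff₀ hp] at h4'
      split_ifs with hF
      · exact bot_le
      · have h6 : Real.log ‖F (r * Complex.exp (θ * Complex.I))‖ / r ^ ρ ≤ q := by
          rw [div_le_iff₀ hp]
          nlinarith
        exact_mod_cast h6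
  exact absurd hq2 (not_lt.2 h1)

/-- comparison of two indicators -/
lemma indicatorOf_eq_add {ρ θ θ' β : ℝ} {F f : ℂ → ℂ}
    (h0 : ∀ᶠ r : ℝ in atTop, F (r * Complex.exp (θ * Complex.I)) = 0 ↔
      f (r * Complex.exp (θ' * Complex.I)) = 0)
    (h : ∀ ε : ℝ, 0 < ε → ∀ᶠ r : ℝ in atTop, f (r * Complex.exp (θ' * Complex.I)) ≠ 0 →
      |Real.log ‖F (r * Complex.exp (θ * Complex.I))‖ -
        Real.log ‖f (r * Complex.exp (θ' * Complex.I))‖ - β * r ^ ρ| ≤ ε * r ^ ρ) :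
    indicatorOf ρ F θ = indicatorOf ρ f θ' + (β : EReal) := by
  apply le_antisymm
  · refine indicatorOf_le_add ?_ ?_
    · filter_upwards [h0] with r hr using hr.2
    · intro ε hε
      filter_upwards [h ε hε] with r hr hf
      have := (abs_le.1 (hr hf)).2
      linarith
  · have h1 : indicatorOf ρ f θ' ≤ indicatorOf ρ F θ + ((-β : ℝ) : EReal) := by
      refine indicatorOf_le_add ?_ ?_
      · filter_upwards [h0] with r hr using hr.1
      · intro ε hε
        filter_upwards [h ε hε, h0] with r hr h0r hF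
        have := (abs_le.1 (hr (fun hf => hF (h0r.2 hf)))).1
        linarith
    have h2 : indicatorOf ρ f θ' + (β : EReal) ≤
        indicatorOf ρ F θ + ((-β : ℝ) : EReal) + (β : EReal) := by
      gcongr
    refine h2.trans (le_of_eq ?_)
    rw [add_assoc, ← EReal.coe_add, neg_add_cancel, EReal.coe_zero, add_zero]

end Helper25.Ind
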