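import Pool.Agent.Helper25.Ind.Defs
import Pool.Agent.Helper25.Ind.HalfK
import Pool.Agent.Helper25.Ind.Had
import Pool.Agent.Helper25.Ind.IndApi
import Pool.Agent.Helper25.Ind.KerA

open Complex Filter Topology MeasureTheory Set

namespace Helper25.Ind

lemma halfd_ker (z : ℂ) (t : ℝ) : ker 0 z t = Real.log ‖1 + z / t‖ := by
  simp [ker, primary, neg_div, sub_neg_eq_add]

lemma halfd_int {s : ℝ} (hs : 0 < s) (hs2 : s < 1 / 2) :
    IntegrableOn (fun v : ℝ => Real.log |1 - v| * v ^ (-1 - s)) (Ioi 0) := by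
  obtain ⟨c, hc, h⟩ := half_kernel hs hs2
  have h2 := (h 2 (by norm_num)).1
  have h3 : IntegrableOn (fun v : ℝ => Real.log |1 - v| * v ^ (-1 - s)) (Ioi (1 / 2)) := by
    have h4 : IntegrableOn (fun x : ℝ => (fun v : ℝ => Real.log |1 - v| * v ^ (-1 - s))
        ((1 / 2) * x)) (Ioi 1) := by
      have h5 := h2.const_mul ((1 / 2 : ℝ) ^ (-1 - s))
      refine IntegrableOn.congr_fun h5 (fun y hy => ?_) measurableSet_Ioi
      have hy0 : (0 : ℝ) ≤ y := le_of_lt (lt_trans one_pos hy)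
      simp only
      rw [Real.mul_rpow (by norm_num) hy0, show (1 : ℝ) / 2 * y = y / 2 by ring]
      ring
    have h6 := (integrableOn_Ioi_comp_mul_left_iff
      (fun v : ℝ => Real.log |1 - v| * v ^ (-1 - s)) 1 (by norm_num : (0 : ℝ) < 1 / 2)).1 h4
    simpa using h6
  have h5 : IntegrableOn (fun v : ℝ => Real.log |1 - v| * v ^ (-1 - s)) (Ioc 0 (1 / 2)) := by
    have h6 : IntegrableOn (fun v : ℝ => 2 * v ^ (-s)) (Ioc 0 (1 / 2)) := by
      have h7 := (intervalIntegral.intervalIntegrable_rpow' (a := 0) (b := 1 / 2) (r := -s)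
        (by linarith)).1
      exact h7.const_mul 2
    refine Integrable.mono' h6 ?_ ?_
    · exact (Measurable.aestronglyMeasurable (by fun_prop))
    · refine (ae_restrict_iff' measurableSet_Ioc).2 (Eventually.of_forall fun v hv => ?_)
      have hv0 : 0 < v := hv.1
      have hv1 : v ≤ 1 / 2 := hv.2
      have e1 : |1 - v| = 1 - v := abs_of_pos (by linarith)
      have e2 : Real.log (1 - v) ≤ 0 := Real.log_nonpos (by linarith) (by linarith)
      have e3 : 1 - (1 - v)⁻¹ ≤ Real.log (1 - v) :=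
        Real.one_sub_inv_le_log_of_pos (by linarith)
      have e4 : (1 - v)⁻¹ ≤ 1 + 2 * v := by
        rw [inv_le_iff_one_le_mul₀ (by linarith)]
        nlinarith
      have e5 : v ^ (-s) = v * v ^ (-1 - s) := by
        rw [show (-s : ℝ) = 1 + (-1 - s) by ring, Real.rpow_add hv0, Real.rpow_one]
      have e6 : 0 ≤ v ^ (-1 - s) := Real.rpow_nonneg hv0.le _
      rw [norm_mul, Real.norm_of_nonneg e6, Real.norm_eq_abs, e1, abs_of_nonpos e2, e5]
      nlinarith
  have h6 := h5.union h3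
  rwa [Ioc_union_Ioi_eq_Ioi (by norm_num)] at h6

lemma halfd_scale {s : ℝ} (hs : 0 < s) (hs2 : s < 1 / 2) {t : ℝ} (ht : 0 < t) :
    ∫ y in Ioi (1 : ℝ), ‖Real.log |1 - y / t| * y ^ (-1 - s)‖ ≤
      t ^ (-s) * ∫ v in Ioi (0 : ℝ), ‖Real.log |1 - v| * v ^ (-1 - s)‖ := by
  have hI := (halfd_int hs hs2).norm
  set g : ℝ → ℝ := fun v => ‖Real.log |1 - v| * v ^ (-1 - s)‖ with hg
  have hti : 0 < t⁻¹ := inv_pos.2 ht
  have e1 : ∀ y ∈ Ioi (0 : ℝ), ‖Real.log |1 - y / t| * y ^ (-1 - s)‖ =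
      t ^ (-1 - s) * g (t⁻¹ * y) := by
    intro y hy
    have hy0 : (0 : ℝ) < y := hy
    have e2 : y ^ (-1 - s) = t ^ (-1 - s) * (t⁻¹ * y) ^ (-1 - s) := by
      rw [← Real.mul_rpow ht.le (by positivity)]
      congr 1
      field_simp
    simp only [hg]
    rw [e2, show t⁻¹ * y = y / t by ring, norm_mul, norm_mul, norm_mul,
      Real.norm_of_nonneg (Real.rpow_nonneg ht.le _)]
    ring
  have i1 : IntegrableOn (fun y => g (t⁻¹ * y)) (Ioi 0) := by
    have h1 := (integrableOn_Ioi_comp_mul_left_iff g 0 hti)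
    rw [mul_zero] at h1
    exact h1.2 hI
  have i2 : IntegrableOn (fun y : ℝ => ‖Real.log |1 - y / t| * y ^ (-1 - s)‖) (Ioi 0) :=
    IntegrableOn.congr_fun (i1.const_mul (t ^ (-1 - s))) (fun y hy => (e1 y hy).symm)
      measurableSet_Ioi
  calc ∫ y in Ioi (1 : ℝ), ‖Real.log |1 - y / t| * y ^ (-1 - s)‖
      ≤ ∫ y in Ioi (0 : ℝ), ‖Real.log |1 - y / t| * y ^ (-1 - s)‖ :=
        setIntegral_mono_set i2 (Eventually.of_forall fun _ => norm_nonneg _)
          (LE.le.eventuallyLE (Ioi_subset_Ioi zero_le_one))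
    _ = ∫ y in Ioi (0 : ℝ), t ^ (-1 - s) * g (t⁻¹ * y) :=
        setIntegral_congr_fun measurableSet_Ioi e1
    _ = t ^ (-1 - s) * (t * ∫ v in Ioi (0 : ℝ), g v) := by
        rw [integral_const_mul, integral_comp_mul_left_Ioi g 0 hti]
        simp
    _ = t ^ (-s) * ∫ v in Ioi (0 : ℝ), g v := by
        rw [← mul_assoc, ← Real.rpow_add_one ht.ne']
        ring_nf

lemma halfd_fac {ρ : ℝ} (hρ : 0 < ρ) (hρ2 : ρ < 1 / 2) {f : ℂ → ℂ} (hf : IsN ρ f) :
    ∃ (ι : Type) (_ : Countable ι) (a : ι → ℝ) (b : ℝ),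
      (∀ i, 0 < a i) ∧ (∀ σ, ρ < σ → Summable fun i => a i ^ (-σ)) ∧
      (∀ z, f z = 0 ↔ ∃ i, z = -(a i : ℂ)) ∧
      ∀ z, f z ≠ 0 → (Summable fun i => Real.log ‖1 + z / (a i : ℂ)‖) ∧
        Real.log ‖f z‖ = b + ∑' i, Real.log ‖1 + z / (a i : ℂ)‖ := by
  obtain ⟨ι, hι, a, Q, h1, h2, h3, h4, h5⟩ :=
    hadamard hf.differentiable hf.zeros hf.upper hρ (p := 0) (by push_cast; linarith)
  refine ⟨ι, hι, a, (Q.coeff 0).re, h1, h3, h4, fun z hz => ?_⟩
  obtain ⟨h6, h7⟩ := h5 z hz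
  have hQ : Q.eval z = Q.coeff 0 := by
    rw [Polynomial.eq_C_of_natDegree_le_zero h2]
    simp
  rw [hQ] at h7
  simp only [halfd_ker] at h6 h7
  exact ⟨h6, h7⟩

lemma halfd_cmp {ρ : ℝ} (hρ : 0 < ρ) (hρ2 : ρ < 1 / 2) {f : ℂ → ℂ} (hf : IsN ρ f) {w z : ℂ}
    (h : ∀ a : ℝ, 0 < a → ‖1 + w / (a : ℂ)‖ ≤ ‖1 + z / (a : ℂ)‖) : ‖f w‖ ≤ ‖f z‖ := by
  obtain ⟨ι, hι, a, b, h1, h3, h4, h5⟩ := halfd_fac hρ hρ2 hf
  by_cases hw : f w = 0
  · rw [hw, norm_zero]
    exact norm_nonneg _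
  have hw' : ∀ i, 0 < ‖1 + w / (a i : ℂ)‖ := by
    intro i
    rw [norm_pos_iff]
    intro h0
    refine hw ((h4 w).2 ⟨i, ?_⟩)
    have hai : (a i : ℂ) ≠ 0 := by exact_mod_cast (h1 i).ne'
    have h6 : w / (a i : ℂ) = -1 := by linear_combination h0
    rw [div_eq_iff hai] at h6
    rw [h6]
    ring
  have hz : f z ≠ 0 := by
    intro h0
    obtain ⟨i, hi⟩ := (h4 z).1 h0
    have h6 := h (a i) (h1 i)
    have hai : (a i : ℂ) ≠ 0 := by exact_mod_cast (h1 i).ne'
    rw [hi, neg_div, div_self hai, add_neg_cancel, norm_zero] at h6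
    linarith [hw' i]
  obtain ⟨s1, e1⟩ := h5 w hw
  obtain ⟨s2, e2⟩ := h5 z hz
  have h6 : Real.log ‖f w‖ ≤ Real.log ‖f z‖ := by
    rw [e1, e2]
    have := s1.tsum_le_tsum (fun i => Real.log_le_log (hw' i) (h (a i) (h1 i))) s2
    linarith
  exact (Real.log_le_log_iff (norm_pos_iff.2 hw) (norm_pos_iff.2 hz)).1 h6

lemma halfd_le {ρ : ℝ} (hρ : 0 < ρ) (hρ2 : ρ < 1 / 2) {f : ℂ → ℂ} (hf : IsN ρ f) {r : ℝ}
    (hr : 0 < r) (θ : ℝ) :
    ‖f (-(r : ℂ))‖ ≤ ‖f (r * Complex.exp (θ * Complex.I))‖ ∧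
      ‖f (r * Complex.exp (θ * Complex.I))‖ ≤ ‖f r‖ := by
  have hn : ∀ a : ℝ, 0 < a → ‖(r : ℂ) * Complex.exp (θ * Complex.I) / (a : ℂ)‖ = r / a := by
    intro a ha
    rw [norm_div, norm_mul, Complex.norm_exp_ofReal_mul_I, Complex.norm_real, Complex.norm_real,
      Real.norm_of_nonneg hr.le, Real.norm_of_nonneg ha.le, mul_one]
  constructor
  · refine halfd_cmp hρ hρ2 hf (fun a ha => ?_)
    have e1 : ‖1 + -(r : ℂ) / (a : ℂ)‖ = |1 - r / a| := by
      rw [show (1 : ℂ) + -(r : ℂ) / (a : ℂ) = ((1 - r / a : ℝ) : ℂ) by push_cast; ring,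
        Complex.norm_real, Real.norm_eq_abs]
    rw [e1, ← hn a ha]
    have h1 := abs_norm_sub_norm_le (1 : ℂ) (-((r : ℂ) * Complex.exp (θ * Complex.I) / (a : ℂ)))
    rwa [norm_neg, norm_one, sub_neg_eq_add] at h1
  · refine halfd_cmp hρ hρ2 hf (fun a ha => ?_)
    have e1 : ‖1 + (r : ℂ) / (a : ℂ)‖ = 1 + r / a := by
      rw [show (1 : ℂ) + (r : ℂ) / (a : ℂ) = ((1 + r / a : ℝ) : ℂ) by push_cast; ring,
        Complex.norm_real, Real.norm_of_nonneg (by positivity)]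
    rw [e1, ← hn a ha]
    refine (norm_add_le _ _).trans ?_
    rw [norm_one]

lemma halfd_main {ρ : ℝ} (hρ : 0 < ρ) (hρ2 : ρ < 1 / 2) {f : ℂ → ℂ} (hf : IsN ρ f) :
    ∃ c b s : ℝ, 0 < c ∧ ρ < s ∧ ∀ B r : ℝ, 0 < r →
      (∀ y, r ≤ y → ‖f (-(y : ℂ))‖ ≤ Real.exp (B * y ^ ρ)) →
      0 ≤ c * (Real.log ‖f r‖ - b) ∧
        c * (Real.log ‖f r‖ - b) ≤ B * r ^ ρ / (s - ρ) - b / s := by
  obtain ⟨ι, hι, a, b, h1, h3, h4, h5⟩ := halfd_fac hρ hρ2 hf
  set s : ℝ := (ρ + 1 / 2) / 2 with hs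
  have hs0 : 0 < s := by linarith
  have hs1 : s < 1 / 2 := by linarith
  have hρs : ρ < s := by linarith
  obtain ⟨c, hc, hk⟩ := half_kernel hs0 hs1
  refine ⟨c, b, s, hc, hρs, fun B r hr hB => ?_⟩
  have hfr : f r ≠ 0 := by
    intro h0
    obtain ⟨i, hi⟩ := (h4 r).1 h0
    have h6 : r = -a i := by exact_mod_cast hi
    linarith [h1 i]
  obtain ⟨s1, e1⟩ := h5 r hfr
  have hlog : ∀ i, Real.log ‖1 + (r : ℂ) / (a i : ℂ)‖ = Real.log (1 + r / a i) := by
    intro i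
    have := h1 i
    rw [show (1 : ℂ) + (r : ℂ) / (a i : ℂ) = ((1 + r / a i : ℝ) : ℂ) by push_cast; ring,
      Complex.norm_real, Real.norm_of_nonneg (by positivity)]
  simp only [hlog] at s1 e1
  have hpos : ∀ i, 0 < Real.log (1 + r / a i) := by
    intro i
    have := h1 i
    exact Real.log_pos (by linarith [div_pos hr this])
  have e2 : c * (Real.log ‖f r‖ - b) = ∑' i, c * Real.log (1 + r / a i) := by
    rw [tsum_mul_left, e1]
    ring
  -- the functions
  set F : ι → ℝ → ℝ := fun i y => Real.log |1 - y / (a i / r)| * y ^ (-1 - s) with hF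
  have hair : ∀ i, 0 < a i / r := fun i => div_pos (h1 i) hr
  have hFint : ∀ i, Integrable (F i) (volume.restrict (Ioi (1 : ℝ))) :=
    fun i => (hk _ (hair i)).1
  set K : ℝ := ∫ v in Ioi (0 : ℝ), ‖Real.log |1 - v| * v ^ (-1 - s)‖ with hK
  have hFsum : Summable fun i => ∫ y in Ioi (1 : ℝ), ‖F i y‖ := by
    have h6 : Summable fun i => (a i) ^ (-s) * (r⁻¹ ^ (-s) * K) := (h3 s hρs).mul_right _
    refine Summable.of_nonneg_of_le (fun i => integral_nonneg fun _ => norm_nonneg _)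
      (fun i => ?_) h6
    have h7 := halfd_scale hs0 hs1 (hair i)
    refine h7.trans (le_of_eq ?_)
    rw [div_eq_mul_inv, Real.mul_rpow (h1 i).le (inv_nonneg.2 hr.le)]
    ring
  have hS := hasSum_integral_of_summable_integral_norm hFint hFsum
  have hcle : ∀ i, c * Real.log (1 + r / a i) ≤ ∫ y in Ioi (1 : ℝ), F i y := by
    intro i
    have h6 := (hk _ (hair i)).2
    rwa [one_div_div] at h6
  have hle : c * (Real.log ‖f r‖ - b) ≤ ∫ y in Ioi (1 : ℝ), ∑' i, F i y := by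
    rw [e2, ← hS.tsum_eq]
    exact (s1.mul_left c).tsum_le_tsum hcle hS.summable
  have hnn : 0 ≤ c * (Real.log ‖f r‖ - b) := by
    rw [e2]
    exact tsum_nonneg fun i => (mul_pos hc (hpos i)).le
  refine ⟨hnn, hle.trans ?_⟩
  -- integrability
  have hint : Integrable (fun y => ∑' i, F i y) (volume.restrict (Ioi (1 : ℝ))) := by
    by_contra hni
    rw [integral_undef hni, e2] at hle
    rcases isEmpty_or_nonempty ι with he | ⟨⟨i⟩⟩
    · apply hni
      have : (fun y => ∑' i, F i y) = fun _ => (0 : ℝ) := by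
        funext y
        exact tsum_empty
      rw [this]
      exact integrable_zero _ _ _
    · have h6 := (s1.mul_left c).le_tsum i (fun j _ => (mul_pos hc (hpos j)).le)
      linarith [mul_pos hc (hpos i)]
  have hG1 : IntegrableOn (fun y : ℝ => y ^ (ρ - 1 - s)) (Ioi 1) :=
    integrableOn_Ioi_rpow_of_lt (by linarith) one_pos
  have hG2 : IntegrableOn (fun y : ℝ => y ^ (-1 - s)) (Ioi 1) :=
    integrableOn_Ioi_rpow_of_lt (by linarith) one_pos
  have hGe : ∫ y in Ioi (1 : ℝ), (B * r ^ ρ * y ^ (ρ - 1 - s) - b * y ^ (-1 - s)) =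
      B * r ^ ρ / (s - ρ) - b / s := by
    rw [integral_sub (hG1.const_mul _) (hG2.const_mul _), integral_const_mul, integral_const_mul,
      integral_Ioi_rpow_of_lt (by linarith) one_pos, integral_Ioi_rpow_of_lt (by linarith) one_pos,
      Real.one_rpow, Real.one_rpow]
    have e3 : ρ - 1 - s + 1 = -(s - ρ) := by ring
    have e4 : -1 - s + 1 = -s := by ring
    rw [e3, e4, neg_div_neg_eq, neg_div_neg_eq]
    ring
  rw [← hGe]
  refine integral_mono_ae hint ((hG1.const_mul _).sub (hG2.const_mul _)) ?_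
  -- almost every y
  have hcount : (Set.range fun i => a i / r).Countable := Set.countable_range _
  have hae : ∀ᵐ y ∂(volume.restrict (Ioi (1 : ℝ))), y ∉ Set.range fun i => a i / r :=
    ae_restrict_of_ae (hcount.ae_notMem volume)
  filter_upwards [hae, ae_restrict_mem measurableSet_Ioi] with y hy hy1
  have hy1' : (1 : ℝ) < y := hy1
  have hy0 : 0 < y := lt_trans one_pos hy1'
  have hry : 0 < r * y := mul_pos hr hy0
  have hne : f (-((r * y : ℝ) : ℂ)) ≠ 0 := by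
    intro h0
    obtain ⟨i, hi⟩ := (h4 _).1 h0
    apply hy
    refine ⟨i, ?_⟩
    have h6 : ((r * y : ℝ) : ℂ) = ((a i : ℝ) : ℂ) := neg_injective hi
    have h7 : r * y = a i := by exact_mod_cast h6
    simp only
    rw [← h7]
    field_simp
  obtain ⟨s2, e3⟩ := h5 _ hne
  have hterm : ∀ i, Real.log ‖1 + -((r * y : ℝ) : ℂ) / (a i : ℂ)‖ =
      Real.log |1 - y / (a i / r)| := by
    intro i
    have hai := (h1 i).ne'
    rw [show (1 : ℂ) + -((r * y : ℝ) : ℂ) / (a i : ℂ) = ((1 - y / (a i / r) : ℝ) : ℂ) by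
      have : (a i : ℂ) ≠ 0 := by exact_mod_cast hai
      have hr' : (r : ℂ) ≠ 0 := by exact_mod_cast hr.ne'
      push_cast
      field_simp
      ring,
      Complex.norm_real, Real.norm_eq_abs]
  simp only [hterm] at s2 e3
  have hsum : ∑' i, F i y = (Real.log ‖f (-((r * y : ℝ) : ℂ))‖ - b) * y ^ (-1 - s) := by
    simp only [hF]
    rw [tsum_mul_right, e3]
    ring
  have hup : Real.log ‖f (-((r * y : ℝ) : ℂ))‖ ≤ B * (r * y) ^ ρ := by
    have h6 := hB (r * y) (by nlinarith)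
    have h7 := Real.log_le_log (norm_pos_iff.2 hne) h6
    rwa [Real.log_exp] at h7
  have hyp : 0 ≤ y ^ (-1 - s) := Real.rpow_nonneg hy0.le _
  have hpow : y ^ (ρ - 1 - s) = y ^ ρ * y ^ (-1 - s) := by
    rw [← Real.rpow_add hy0]
    ring_nf
  rw [hsum, hpow]
  rw [Real.mul_rpow hr.le hy0.le] at hup
  nlinarith [mul_le_mul_of_nonneg_right hup hyp]

lemma halfd_ratio_mono {ρ : ℝ} {f : ℂ → ℂ} {θ θ' r : ℝ} (hr : 0 < r)
    (h : ‖f (r * Complex.exp (θ * Complex.I))‖ ≤ ‖f (r * Complex.exp (θ' * Complex.I))‖) :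
    ratio ρ f θ r ≤ ratio ρ f θ' r := by
  unfold ratio
  split_ifs with h1 h2
  · exact le_refl _
  · exact bot_le
  · exfalso
    rename_i h2
    rw [h2, norm_zero] at h
    exact h1 (norm_le_zero_iff.1 h)
  · rw [EReal.coe_le_coe_iff]
    have h3 := Real.log_le_log (norm_pos_iff.2 h1) h
    have h4 : 0 < r ^ ρ := Real.rpow_pos_of_pos hr ρ
    gcongr

theorem half_dichotomy {ρ : ℝ} (hρ : 0 < ρ) (hρ2 : ρ < 1 / 2) {f : ℂ → ℂ} (hf : IsN ρ f) :
    (∀ θ, indicatorOf ρ f θ = ⊤) ∨ ∃ g : ℝ → ℝ, ∀ θ, indicatorOf ρ f θ = (g θ : EReal) := by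
  have e0 : ∀ r : ℝ, (r : ℂ) * Complex.exp ((0 : ℝ) * Complex.I) = r := by
    intro r
    simp
  have epi : ∀ r : ℝ, (r : ℂ) * Complex.exp (Real.pi * Complex.I) = -(r : ℂ) := by
    intro r
    rw [Complex.exp_pi_mul_I]
    ring
  have m1 : ∀ θ, indicatorOf ρ f Real.pi ≤ indicatorOf ρ f θ := by
    intro θ
    unfold indicatorOf
    refine limsup_le_limsup ?_
    filter_upwards [eventually_gt_atTop 0] with r hr
    refine halfd_ratio_mono hr ?_
    rw [epi]
    exact (halfd_le hρ hρ2 hf hr θ).1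
  have m2 : ∀ θ, indicatorOf ρ f θ ≤ indicatorOf ρ f 0 := by
    intro θ
    unfold indicatorOf
    refine limsup_le_limsup ?_
    filter_upwards [eventually_gt_atTop 0] with r hr
    refine halfd_ratio_mono hr ?_
    rw [e0]
    exact (halfd_le hρ hρ2 hf hr θ).2
  obtain ⟨c, b, s, hc, hρs, hmain⟩ := halfd_main hρ hρ2 hf
  have hsρ : 0 < s - ρ := by linarith
  by_cases htop : indicatorOf ρ f Real.pi = ⊤
  · left
    intro θ
    exact top_le_iff.1 (htop ▸ m1 θ)
  right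
  have hrpow : Tendsto (fun r : ℝ => r ^ ρ) atTop atTop := tendsto_rpow_atTop hρ
  -- upper bound at zero
  have hup : indicatorOf ρ f 0 < ⊤ := by
    obtain ⟨B, hB1, -⟩ := EReal.lt_iff_exists_real_btwn.1 (lt_top_iff_ne_top.2 htop)
    have h1 := eventually_le_of_indicatorOf_lt hB1
    obtain ⟨r0, hr0⟩ := eventually_atTop.1 h1
    refine lt_of_le_of_lt (b := ((B / (c * (s - ρ)) : ℝ) : EReal)) ?_ (EReal.coe_lt_top _)
    refine indicatorOf_le_of_eventually (fun ε hε => ?_)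
    have h2 : ∀ᶠ r : ℝ in atTop, (|b| + |b| / (c * s)) ≤ ε * r ^ ρ :=
      (hrpow.const_mul_atTop hε).eventually_ge_atTop _
    filter_upwards [h2, eventually_ge_atTop (max r0 1)] with r h3 h4
    have hr : 0 < r := lt_of_lt_of_le one_pos ((le_max_right _ _).trans h4)
    have hr' : r0 ≤ r := (le_max_left _ _).trans h4
    have h5 := (hmain B r hr (fun y hy => by
      have h6 := hr0 y (hr'.trans hy)
      rwa [epi] at h6)).2
    rw [e0]
    have hs : 0 < s := by linarith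
    have h6 : Real.log ‖f r‖ ≤ (B / (c * (s - ρ)) + ε) * r ^ ρ := by
      have h7 : c * Real.log ‖f r‖ ≤ c * ((B / (c * (s - ρ)) + ε) * r ^ ρ) := by
        have e7 : c * ((B / (c * (s - ρ)) + ε) * r ^ ρ) = B * r ^ ρ / (s - ρ) + c * (ε * r ^ ρ) := by
          field_simp
        have e8 : c * (|b| + |b| / (c * s)) = c * |b| + |b| / s := by
          field_simp
        have e9 : -b / s ≤ |b| / s := by
          gcongr
          exact neg_le_abs b
        have e10 : c * b ≤ c * |b| := by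
          gcongr
          exact le_abs_self b
        have e11 := mul_le_mul_of_nonneg_left h3 hc.le
        rw [e8] at e11
        rw [e7]
        have e12 : -(b / s) = -b / s := by ring
        linarith
      exact le_of_mul_le_mul_left h7 hc
    by_cases hfr : f r = 0
    · rw [hfr, norm_zero]
      exact (Real.exp_pos _).le
    · exact (Real.log_le_iff_le_exp (norm_pos_iff.2 hfr)).1 h6
  -- lower bound at pi
  have hlow : (⊥ : EReal) < indicatorOf ρ f Real.pi := by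
    by_contra hcon
    have hbot : indicatorOf ρ f Real.pi = ⊥ := not_bot_lt_iff.1 hcon
    have h1 := eventually_le_of_indicatorOf_lt (A := -1) (by rw [hbot]; exact EReal.bot_lt_coe _)
    obtain ⟨r0, hr0⟩ := eventually_atTop.1 h1
    have h2 : ∀ᶠ r : ℝ in atTop, (s - ρ) * (|b| / s + 1) ≤ r ^ ρ :=
      hrpow.eventually_ge_atTop _
    obtain ⟨r, h3, h4⟩ := (h2.and (eventually_ge_atTop (max r0 1))).exists
    have hr : 0 < r := lt_of_lt_of_le one_pos ((le_max_right _ _).trans h4)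
    have hr' : r0 ≤ r := (le_max_left _ _).trans h4
    obtain ⟨h5, h6⟩ := hmain (-1) r hr (fun y hy => by
      have h6 := hr0 y (hr'.trans hy)
      rwa [epi] at h6)
    have hs : 0 < s := by linarith
    have h7 : |b| / s + 1 ≤ r ^ ρ / (s - ρ) := by
      rw [le_div_iff₀ hsρ]
      linarith
    have e9 : -b / s ≤ |b| / s := by
      gcongr
      exact neg_le_abs b
    have e10 : (-1 : ℝ) * r ^ ρ / (s - ρ) = -(r ^ ρ / (s - ρ)) := by ring
    have e12 : -(b / s) = -b / s := by ring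
    rw [e10] at h6
    linarith
  refine ⟨fun θ => (indicatorOf ρ f θ).toReal, fun θ => ?_⟩
  refine (EReal.coe_toReal ?_ ?_).symm
  · exact (lt_of_le_of_lt (m2 θ) hup).ne
  · exact (lt_of_lt_of_le hlow (m1 θ)).ne'

end Helper25.Ind
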