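import Pool.Agent.Helper25.Ind.Defs
import Pool.Agent.Helper25.Ind.HalfD
import Pool.Agent.Helper25.Ind.Canon

/-!
# Order below one half: existence of the indicator `+∞`
-/

open Complex Filter Topology MeasureTheory Set

namespace Helper25.Ind

lemma halft_ker (z : ℂ) (t : ℝ) : ker 0 z t = Real.log ‖1 + z / t‖ := by
  unfold ker primary
  simp [neg_div]

lemma halft_ker_le (z : ℂ) {t σ : ℝ} (ht : 0 < t) (hσ : 0 < σ) (hσ1 : σ ≤ 1) :
    ker 0 z t ≤ 1 / σ * (‖z‖ ^ σ * t ^ (-σ)) := by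
  rw [halft_ker z t]
  have h0 : 0 ≤ ‖z‖ / t := by positivity
  have hn : ‖1 + z / t‖ ≤ 1 + ‖z‖ / t := by
    refine (norm_add_le _ _).trans ?_
    rw [norm_one, norm_div, Complex.norm_real, Real.norm_of_nonneg ht.le]
  have h1 : Real.log ‖1 + z / t‖ ≤ Real.log (1 + ‖z‖ / t) := by
    rcases eq_or_lt_of_le (norm_nonneg (1 + z / (t : ℂ))) with h | h
    · rw [← h, Real.log_zero]
      exact Real.log_nonneg (by linarith)
    · exact Real.log_le_log h hn
  refine h1.trans ?_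
  have h2 : Real.log (1 + ‖z‖ / t) = 1 / σ * Real.log ((1 + ‖z‖ / t) ^ σ) := by
    rw [Real.log_rpow (by linarith)]
    field_simp
  have h3 : (1 + ‖z‖ / t) ^ σ ≤ 1 + (‖z‖ / t) ^ σ := by
    have h4 := Real.rpow_add_le_add_rpow (a := 1) (b := ‖z‖ / t) zero_le_one h0 hσ.le hσ1
    simpa using h4
  have h5 : Real.log ((1 + ‖z‖ / t) ^ σ) ≤ (‖z‖ / t) ^ σ := by
    have h6 : 0 < (1 + ‖z‖ / t) ^ σ := Real.rpow_pos_of_pos (by linarith) _
    have h7 := Real.log_le_sub_one_of_pos h6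
    linarith
  rw [h2]
  have h8 : (‖z‖ / t) ^ σ = ‖z‖ ^ σ * t ^ (-σ) := by
    rw [Real.div_rpow (norm_nonneg _) ht.le, Real.rpow_neg ht.le, div_eq_mul_inv]
  rw [← h8]
  exact mul_le_mul_of_nonneg_left h5 (by positivity)

/-- The sequence. -/
noncomputable def halftSeq (ρ : ℝ) (k : ℕ) : ℝ :=
  (((k : ℝ) + 3) / Real.log ((k : ℝ) + 3)) ^ (1 / ρ)

lemma halft_log_pos (k : ℕ) : 1 < Real.log ((k : ℝ) + 3) := by
  rw [Real.lt_log_iff_exp_lt (by positivity)]
  have := Real.exp_one_lt_d9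
  have h : (0 : ℝ) ≤ k := Nat.cast_nonneg k
  linarith

lemma halft_base_pos (k : ℕ) : 0 < ((k : ℝ) + 3) / Real.log ((k : ℝ) + 3) :=
  div_pos (by positivity) (by linarith [halft_log_pos k])

lemma halft_seq_pos (ρ : ℝ) (k : ℕ) : 0 < halftSeq ρ k :=
  Real.rpow_pos_of_pos (halft_base_pos k) _

lemma halft_summable {ρ σ : ℝ} (hρ : 0 < ρ) (hσ : ρ < σ) :
    Summable fun k => halftSeq ρ k ^ (-σ) := by
  -- compare with (k+3)^(-s), s = (1 + σ/ρ)/2 > 1
  set s := σ / ρ with hs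
  have hs1 : 1 < s := by rw [hs, lt_div_iff₀ hρ]; linarith
  have h1 : ∀ k : ℕ, halftSeq ρ k ^ (-σ) = (Real.log ((k : ℝ) + 3) / ((k : ℝ) + 3)) ^ s := by
    intro k
    unfold halftSeq
    rw [← Real.rpow_mul (halft_base_pos k).le]
    have h2 : 1 / ρ * -σ = -s := by rw [hs]; field_simp
    rw [h2, Real.rpow_neg (halft_base_pos k).le, ← Real.inv_rpow (halft_base_pos k).le, inv_div]
  have h2 : ∃ C : ℝ, ∀ k : ℕ, halftSeq ρ k ^ (-σ) ≤ C * ((k : ℝ) + 3) ^ (-((1 + s) / 2)) := by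
    -- log x ≤ x^ε/ε, ε s = (s-1)/2
    set ε := (s - 1) / (2 * s) with hε
    have hε0 : 0 < ε := div_pos (by linarith) (by linarith)
    refine ⟨(1 / ε) ^ s, fun k => ?_⟩
    rw [h1]
    have hk : (0 : ℝ) < (k : ℝ) + 3 := by positivity
    have h3 : Real.log ((k : ℝ) + 3) ≤ ((k : ℝ) + 3) ^ ε / ε :=
      Real.log_le_rpow_div hk.le hε0
    have h4 : 0 ≤ Real.log ((k : ℝ) + 3) / ((k : ℝ) + 3) :=
      div_nonneg (by linarith [halft_log_pos k]) hk.le
    have h5 : Real.log ((k : ℝ) + 3) / ((k : ℝ) + 3) ≤ 1 / ε * ((k : ℝ) + 3) ^ (ε - 1) := by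
      rw [Real.rpow_sub_one hk.ne', div_le_iff₀ hk]
      have : 1 / ε * (((k : ℝ) + 3) ^ ε / ((k : ℝ) + 3)) * ((k : ℝ) + 3) =
          ((k : ℝ) + 3) ^ ε / ε := by field_simp
      rw [this]
      exact h3
    refine (Real.rpow_le_rpow h4 h5 (by linarith)).trans (le_of_eq ?_)
    rw [Real.mul_rpow (by positivity) (by positivity), ← Real.rpow_mul hk.le]
    congr 2
    rw [hε]
    field_simp
    ring
  obtain ⟨C, hC⟩ := h2
  refine Summable.of_nonneg_of_le (fun k => Real.rpow_nonneg (halft_seq_pos ρ k).le _) hC ?_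
  refine Summable.mul_left _ ?_
  have h3 : Summable fun k : ℕ => ((k : ℝ)) ^ (-((1 + s) / 2)) :=
    Real.summable_nat_rpow.mpr (by linarith)
  have h4 := (summable_nat_add_iff 3).mpr h3
  refine h4.congr fun k => ?_
  push_cast
  rfl

/-- Many small terms. -/
lemma halft_many {ρ : ℝ} (hρ : 0 < ρ) {M : ℝ} (hM : 0 < M) :
    ∀ᶠ r : ℝ in atTop, ∀ k : ℕ, (k : ℝ) < M * r ^ ρ → halftSeq ρ k ≤ r := by
  have hlog : Tendsto (fun k : ℕ => Real.log ((k : ℝ) + 3)) atTop atTop :=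
    Real.tendsto_log_atTop.comp (tendsto_atTop_add_const_right _ _ tendsto_natCast_atTop_atTop)
  obtain ⟨K, hK⟩ := (hlog.eventually_ge_atTop (2 * M)).exists_forall_of_atTop
  have hr : Tendsto (fun r : ℝ => r ^ ρ) atTop atTop := tendsto_rpow_atTop hρ
  filter_upwards [hr.eventually_ge_atTop ((K : ℝ) + 3), hr.eventually_ge_atTop (3 / M),
    eventually_gt_atTop 0] with r h1 h2 h0 k hk
  have hbase : ((k : ℝ) + 3) / Real.log ((k : ℝ) + 3) ≤ r ^ ρ := by
    have hl := halft_log_pos k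
    rw [div_le_iff₀ (by linarith)]
    have h3 : 3 ≤ M * r ^ ρ := by
      rw [div_le_iff₀ hM] at h2
      linarith
    rcases le_total K k with h | h
    · have h4 := hK k h
      have hr0 : 0 ≤ r ^ ρ := Real.rpow_nonneg h0.le _
      calc (k : ℝ) + 3 ≤ r ^ ρ * (2 * M) := by linarith
        _ ≤ r ^ ρ * Real.log ((k : ℝ) + 3) := mul_le_mul_of_nonneg_left h4 hr0
    · have h4 : (k : ℝ) ≤ K := by exact_mod_cast h
      have hr0 : 0 ≤ r ^ ρ := Real.rpow_nonneg h0.le _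
      calc (k : ℝ) + 3 ≤ r ^ ρ * 1 := by linarith
        _ ≤ r ^ ρ * Real.log ((k : ℝ) + 3) := mul_le_mul_of_nonneg_left hl.le hr0
  calc halftSeq ρ k ≤ (r ^ ρ) ^ (1 / ρ) :=
        Real.rpow_le_rpow (halft_base_pos k).le hbase (by positivity)
    _ = r := by
        rw [← Real.rpow_mul h0.le, mul_one_div_cancel hρ.ne', Real.rpow_one]

lemma halft_growth {ρ : ℝ} (hρ : 0 < ρ) {f : ℂ → ℂ}
    (hf : ∀ z, f z ≠ 0 → (Summable fun k => ker 0 z (halftSeq ρ k)) ∧
      Real.log ‖f z‖ = ∑' k, ker 0 z (halftSeq ρ k))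
    (hpos : ∀ r : ℝ, 0 < r → f r ≠ 0) {M : ℝ} (hM : 0 < M) :
    ∀ᶠ r : ℝ in atTop, M * r ^ ρ ≤ Real.log ‖f r‖ := by
  have hl2 : 0 < Real.log 2 := Real.log_pos one_lt_two
  filter_upwards [halft_many hρ (M := M / Real.log 2) (by positivity), eventually_gt_atTop 0]
    with r hr h0
  obtain ⟨h1, h2⟩ := hf r (hpos r h0)
  rw [h2]
  have hker : ∀ k, 0 ≤ ker 0 (r : ℂ) (halftSeq ρ k) := by
    intro k
    have hk := halft_seq_pos ρ k
    rw [halft_ker]
    have : (1 : ℂ) + r / (halftSeq ρ k : ℂ) = ((1 + r / halftSeq ρ k : ℝ) : ℂ) := by push_cast; rfl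
    rw [this, Complex.norm_real]
    apply Real.log_nonneg
    rw [Real.norm_of_nonneg (by positivity)]
    have : 0 ≤ r / halftSeq ρ k := by positivity
    linarith
  set n := ⌈M / Real.log 2 * r ^ ρ⌉₊ with hn
  have h3 : ∑ k ∈ Finset.range n, ker 0 (r : ℂ) (halftSeq ρ k) ≤
      ∑' k, ker 0 (r : ℂ) (halftSeq ρ k) := h1.sum_le_tsum _ (fun k _ => hker k)
  refine le_trans ?_ h3
  have h4 : ∀ k ∈ Finset.range n, Real.log 2 ≤ ker 0 (r : ℂ) (halftSeq ρ k) := by
    intro k hk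
    rw [Finset.mem_range, hn, Nat.lt_ceil] at hk
    have h5 := hr k hk
    have hk' := halft_seq_pos ρ k
    rw [halft_ker]
    have : (1 : ℂ) + r / (halftSeq ρ k : ℂ) = ((1 + r / halftSeq ρ k : ℝ) : ℂ) := by push_cast; rfl
    rw [this, Complex.norm_real, Real.norm_of_nonneg (by positivity)]
    apply Real.log_le_log (by norm_num)
    have : 1 ≤ r / halftSeq ρ k := by rwa [le_div_iff₀ hk', one_mul]
    linarith
  have h5 := Finset.sum_le_sum h4
  rw [Finset.sum_const, Finset.card_range, nsmul_eq_mul] at h5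
  refine le_trans ?_ h5
  have h6 : M / Real.log 2 * r ^ ρ ≤ n := Nat.le_ceil _
  calc M * r ^ ρ = M / Real.log 2 * r ^ ρ * Real.log 2 := by field_simp
    _ ≤ n * Real.log 2 := mul_le_mul_of_nonneg_right h6 hl2.le

theorem half_exists_top {ρ : ℝ} (hρ : 0 < ρ) (hρ2 : ρ < 1 / 2) :
    ∃ f, IsN ρ f ∧ ∀ θ, indicatorOf ρ f θ = ⊤ := by
  have hs1 : Summable fun k => (halftSeq ρ k)⁻¹ ^ (0 + 1) := by
    refine (halft_summable hρ (σ := 1) (by linarith)).congr fun k => ?_
    rw [Real.rpow_neg_one, zero_add, pow_one]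
  obtain ⟨f, hd, -, hz, hf⟩ := exists_canonical (p := 0) (halftSeq ρ) (halft_seq_pos ρ) hs1
  have hpos : ∀ r : ℝ, 0 < r → f r ≠ 0 := by
    intro r hr h0
    obtain ⟨i, hi⟩ := (hz r).mp h0
    have h1 := congrArg Complex.re hi
    simp only [Complex.ofReal_re, Complex.neg_re] at h1
    have := halft_seq_pos ρ i
    linarith
  have hN : IsN ρ f := by
    refine ⟨hd, ?_, ?_, ?_⟩
    · intro z h0
      obtain ⟨i, rfl⟩ := (hz z).mp h0
      have := halft_seq_pos ρ i
      simp [this]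
    · intro σ hσ
      -- choose σ' between ρ and min σ 1
      set σ' := (ρ + min σ 1) / 2 with hσ'
      have hm : ρ < min σ 1 := lt_min hσ (by linarith)
      have h1 : ρ < σ' := by rw [hσ']; linarith
      have h2 : σ' < σ := by
        have := min_le_left σ 1
        rw [hσ']; linarith
      have h3 : σ' ≤ 1 := by
        have := min_le_right σ 1
        rw [hσ']; linarith
      set S := ∑' k, halftSeq ρ k ^ (-σ') with hS
      have hsum := halft_summable hρ h1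
      have hev : ∀ᶠ r : ℝ in atTop, 1 / σ' * S ≤ r ^ (σ - σ') :=
        (tendsto_rpow_atTop (by linarith)).eventually_ge_atTop _
      obtain ⟨R, hR⟩ := (hev.and (eventually_gt_atTop 0)).exists_forall_of_atTop
      refine ⟨R, fun z hz1 => ?_⟩
      by_cases h0 : f z = 0
      · rw [h0, norm_zero]
        exact (Real.exp_pos _).le
      · obtain ⟨h4, h5⟩ := hf z h0
        have h6 : 0 < ‖f z‖ := norm_pos_iff.mpr h0
        rw [← Real.log_le_iff_le_exp h6, h5]
        obtain ⟨h7, h8⟩ := hR ‖z‖ hz1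
        have hle : ∀ k, ker 0 z (halftSeq ρ k) ≤
            1 / σ' * (‖z‖ ^ σ' * halftSeq ρ k ^ (-σ')) := fun k =>
          halft_ker_le z (halft_seq_pos ρ k) (by linarith) h3
        have h9 : ∑' k, ker 0 z (halftSeq ρ k) ≤
            ∑' k, 1 / σ' * (‖z‖ ^ σ' * halftSeq ρ k ^ (-σ')) :=
          Summable.tsum_le_tsum hle h4 ((hsum.mul_left _).mul_left _)
        refine h9.trans ?_
        rw [tsum_mul_left, tsum_mul_left]
        calc 1 / σ' * (‖z‖ ^ σ' * S) = ‖z‖ ^ σ' * (1 / σ' * S) := by ring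
          _ ≤ ‖z‖ ^ σ' * ‖z‖ ^ (σ - σ') :=
            mul_le_mul_of_nonneg_left h7 (Real.rpow_nonneg (norm_nonneg _) _)
          _ = ‖z‖ ^ σ := by rw [← Real.rpow_add h8]; congr 1; ring
    · intro σ hσ R
      have h1 := halft_growth hρ hf hpos one_pos
      obtain ⟨r, h2, h3, h4, h5⟩ := (h1.and ((eventually_ge_atTop R).and
        ((eventually_ge_atTop 1).and (eventually_gt_atTop 0)))).exists
      have hn : ‖(r : ℂ)‖ = r := by rw [Complex.norm_real, Real.norm_of_nonneg h5.le]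
      refine ⟨r, by rw [hn]; exact h3, ?_⟩
      have h6 : 0 < ‖f r‖ := norm_pos_iff.mpr (hpos r h5)
      rw [hn, ← Real.le_log_iff_exp_le h6]
      refine le_trans ?_ h2
      rw [one_mul]
      exact Real.rpow_le_rpow_of_exponent_le h4 hσ.le
  refine ⟨f, hN, ?_⟩
  rcases half_dichotomy hρ hρ2 hN with h | ⟨g, hg⟩
  · exact h
  · exfalso
    have h0 : indicatorOf ρ f 0 = ⊤ := by
      rw [EReal.eq_top_iff_forall_lt]
      intro y
      have h1 := halft_growth hρ hf hpos (M := |y| + 1) (by positivity)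
      have h2 : ((|y| + 1 : ℝ) : EReal) ≤ indicatorOf ρ f 0 := by
        refine le_limsup_of_frequently_le' ?_
        refine Eventually.frequently ?_
        filter_upwards [h1, eventually_gt_atTop 0] with r hr hr0
        unfold ratio
        have h3 : (r : ℂ) * Complex.exp ((0 : ℝ) * Complex.I) = r := by simp
        rw [h3, if_neg (hpos r hr0)]
        rw [EReal.coe_le_coe_iff, le_div_iff₀ (Real.rpow_pos_of_pos hr0 _)]
        exact hr
      refine lt_of_lt_of_le ?_ h2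
      rw [EReal.coe_lt_coe_iff]
      have := le_abs_self y
      linarith
    rw [hg 0] at h0
    exact EReal.coe_ne_top _ h0

end Helper25.Ind
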