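import Pool.Agent.Helper25.Ind.Main1
import Pool.Agent.Helper25.Ind.HalfT

/-!
Complete description of the indicators of functions in `N_ρ` for `0 < ρ < 1/2`.
-/

open Complex Filter Topology MeasureTheory Set

namespace Helper25.Ind

theorem order_below_half (ρ : ℝ) (hρ : 0 < ρ) (hρ2 : ρ < 1 / 2) (h : ℝ → EReal) :
    (∃ f, IsN ρ f ∧ ∀ θ, indicatorOf ρ f θ = h θ) ↔
      (∀ θ, h θ = ⊤) ∨
      ∃ g : ℝ → ℝ, (∀ θ, h θ = (g θ : EReal)) ∧ Continuous g ∧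
        (∀ θ, g (θ + 2 * Real.pi) = g θ) ∧ MajIneq ρ g := by
  have hint : ¬ ∃ n : ℕ, ρ = n := by
    rintro ⟨n, hn⟩
    rcases Nat.eq_zero_or_pos n with h0 | h0
    · rw [h0] at hn
      simp at hn
      linarith
    · have : (1 : ℝ) ≤ n := by exact_mod_cast h0
      linarith
  constructor
  · rintro ⟨f, hf, hh⟩
    rcases half_dichotomy hρ hρ2 hf with h1 | ⟨g, hg⟩
    · left
      intro θ
      rw [← hh, h1]
    · right
      rcases (finite_valued ρ hρ g).1 ⟨f, hf, hg⟩ with h2 | ⟨-, h2, h3, h4⟩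
      · exact absurd h2.1 hint
      · exact ⟨g, fun θ => by rw [← hh, hg], h2, h3, h4⟩
  · rintro (h1 | ⟨g, hg, h2, h3, h4⟩)
    · obtain ⟨f, hf, hf2⟩ := half_exists_top hρ hρ2
      exact ⟨f, hf, fun θ => by rw [hf2, h1]⟩
    · obtain ⟨f, hf, hf2⟩ := (finite_valued ρ hρ g).2 (Or.inr ⟨hint, h2, h3, h4⟩)
      exact ⟨f, hf, fun θ => by rw [hf2, hg]⟩

end Helper25.Ind
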