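import Pool.Agent.Helper25.Ind.Defs
import Pool.Agent.Helper25.Ind.KerA

open Complex Filter Topology MeasureTheory Set

namespace Helper25.Ind

lemma s0_pos (p : ℕ) : 0 < s0 p := by
  unfold s0
  have hp : (0 : ℝ) ≤ p := Nat.cast_nonneg p
  apply Real.sin_pos_of_pos_of_lt_pi
  · exact div_pos Real.pi_pos (by linarith)
  · rw [div_lt_iff₀ (by linarith)]
    nlinarith [Real.pi_pos]

lemma kerb_psi_pos (p : ℕ) : 0 < Real.pi / (2 * p + 1) := by
  have hp : (0 : ℝ) ≤ p := Nat.cast_nonneg p
  exact div_pos Real.pi_pos (by linarith)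

lemma kerb_psi_le (p : ℕ) : Real.pi / (2 * p + 1) ≤ Real.pi := by
  have hp : (0 : ℝ) ≤ p := Nat.cast_nonneg p
  exact div_le_self Real.pi_pos.le (by linarith)

lemma star_nonneg (p : ℕ) : 0 ≤ star p := by
  unfold star
  linarith [kerb_psi_le p]

lemma star_lt_pi (p : ℕ) : star p < Real.pi := by
  unfold star
  linarith [kerb_psi_pos p]

lemma kerb_exp (p : ℕ) : Complex.exp (star p * Complex.I) =
    -Complex.exp (-(Real.pi / (2 * p + 1) : ℝ) * Complex.I) := by
  unfold star
  rw [show ((Real.pi - Real.pi / (2 * p + 1) : ℝ) : ℂ) * Complex.I =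
    -(Real.pi / (2 * p + 1) : ℝ) * Complex.I + Real.pi * Complex.I by push_cast; ring]
  rw [Complex.exp_add, Complex.exp_pi_mul_I]
  ring

lemma kerb_slit (p : ℕ) : Complex.exp (star p * Complex.I) ∈ slitPlane := by
  rw [Complex.mem_slitPlane_iff_arg]
  refine ⟨?_, Complex.exp_ne_zero _⟩
  rw [Complex.arg_exp_mul_I, toIocMod_eq_self Real.two_pi_pos |>.2]
  · exact (star_lt_pi p).ne
  · constructor
    · linarith [star_nonneg p, Real.pi_pos]
    · linarith [star_lt_pi p]

lemma kerb_cos (p : ℕ) : Real.cos (p * (Real.pi / (2 * p + 1))) = s0 p ∧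
    Real.cos ((p + 1) * (Real.pi / (2 * p + 1))) = -s0 p := by
  have hp : (0 : ℝ) ≤ p := Nat.cast_nonneg p
  have h1 : (2 * (p : ℝ) + 1) ≠ 0 := by positivity
  have h2 : (4 * (p : ℝ) + 2) ≠ 0 := by positivity
  constructor
  · unfold s0
    rw [← Real.cos_pi_div_two_sub]
    congr 1
    field_simp
    ring
  · unfold s0
    rw [← Real.cos_add_pi_div_two]
    congr 1
    field_simp
    ring

lemma kerb_alg1 (c s x : ℝ) :
    Complex.normSq (1 + -((c : ℂ) - s * Complex.I) * x) = (1 - x * c) ^ 2 + (x * s) ^ 2 := by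
  rw [Complex.normSq_apply]
  simp
  ring

lemma kerb_alg2 (a b c s y x : ℝ) :
    (((a : ℂ) - b * Complex.I) * (y : ℂ) / (1 + -((c : ℂ) - s * Complex.I) * x)).re =
      y * (a - x * (a * c + b * s)) / ((1 - x * c) ^ 2 + (x * s) ^ 2) := by
  rw [Complex.div_re, kerb_alg1, ← add_div]
  congr 1
  simp
  ring

lemma kerb_re (p : ℕ) {x : ℝ} (hx : 0 < x) :
    s0 p * (x ^ p / (1 + x)) ≤
      -(((-Complex.exp (star p * Complex.I) * x) ^ (p + 1) /
        (1 + Complex.exp (star p * Complex.I) * x)).re / x) := by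
  set ψ : ℝ := Real.pi / (2 * p + 1) with hψ
  obtain ⟨hc1, hc2⟩ := kerb_cos p
  rw [← hψ] at hc1 hc2
  have hs := s0_pos p
  have e1 : -Complex.exp (star p * Complex.I) = Complex.exp (-(ψ : ℂ) * Complex.I) := by
    rw [kerb_exp, neg_neg, hψ]
  have e2 : Complex.exp (star p * Complex.I) = -Complex.exp (-(ψ : ℂ) * Complex.I) := by
    rw [← e1, neg_neg]
  have e3 : (Complex.exp (-(ψ : ℂ) * Complex.I)) ^ (p + 1) =
      Complex.exp (((-((p + 1) * ψ) : ℝ) : ℂ) * Complex.I) := by
    rw [← Complex.exp_nat_mul]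
    congr 1
    push_cast
    ring
  rw [e1, mul_pow, e3, e2]
  have e4 : Complex.exp (-(ψ : ℂ) * Complex.I) = (Real.cos ψ : ℂ) - Real.sin ψ * Complex.I := by
    rw [show (-(ψ : ℂ)) = ((-ψ : ℝ) : ℂ) by push_cast; rfl, Complex.exp_mul_I,
      ← Complex.ofReal_cos, ← Complex.ofReal_sin, Real.cos_neg, Real.sin_neg]
    push_cast
    ring
  have e5 : Complex.exp (((-((p + 1) * ψ) : ℝ) : ℂ) * Complex.I) =
      (Real.cos ((p + 1) * ψ) : ℂ) - Real.sin ((p + 1) * ψ) * Complex.I := by
    rw [Complex.exp_mul_I, ← Complex.ofReal_cos, ← Complex.ofReal_sin, Real.cos_neg, Real.sin_neg]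
    push_cast
    ring
  rw [e4, e5]
  set N : ℝ := (1 - x * Real.cos ψ) ^ 2 + (x * Real.sin ψ) ^ 2 with hN
  have hcs := Real.sin_sq_add_cos_sq ψ
  have hNle : N ≤ (1 + x) ^ 2 := by
    have : N = 1 - 2 * x * Real.cos ψ + x ^ 2 * (Real.sin ψ ^ 2 + Real.cos ψ ^ 2) := by
      rw [hN]; ring
    rw [this, hcs]
    nlinarith [Real.neg_one_le_cos ψ]
  have hNpos : 0 < N := by
    have hne : (1 : ℂ) + Complex.exp (star p * Complex.I) * x ≠ 0 := by
      intro h
      have h1 : Complex.exp (star p * Complex.I) * x ∈ slitPlane := by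
        have := kerb_slit p
        rw [Complex.mem_slitPlane_iff] at this ⊢
        simp only [Complex.mul_re, Complex.mul_im, Complex.ofReal_re, Complex.ofReal_im, mul_zero,
          sub_zero, zero_add]
        rcases this with h | h
        · exact Or.inl (mul_pos h hx)
        · exact Or.inr (by simpa [hx.ne'] using h)
      have h2 : Complex.exp (star p * Complex.I) * x = -1 := by
        linear_combination h
      rw [h2, Complex.mem_slitPlane_iff] at h1
      norm_num at h1
    have h3 := Complex.normSq_pos.2 hne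
    have h4 : Complex.normSq (1 + Complex.exp (star p * Complex.I) * x) = N := by
      rw [e2, e4, hN, kerb_alg1]
    rw [h4] at h3
    exact h3
  have key : (((Real.cos ((p + 1) * ψ) : ℂ) - Real.sin ((p + 1) * ψ) * Complex.I) *
      (x : ℂ) ^ (p + 1) / (1 + -((Real.cos ψ : ℂ) - Real.sin ψ * Complex.I) * x)).re =
      -(s0 p * (1 + x) * x ^ (p + 1) / N) := by
    have hx1 : ((x : ℂ) ^ (p + 1)) = ((x ^ (p + 1) : ℝ) : ℂ) := by push_cast; rfl
    have hcc : Real.cos ((p + 1) * ψ) * Real.cos ψ + Real.sin ((p + 1) * ψ) * Real.sin ψ =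
        Real.cos (p * ψ) := by
      rw [← Real.cos_sub]
      congr 1
      ring
    rw [hx1, kerb_alg2, ← hN, hcc, hc1, hc2]
    ring
  rw [key]
  have h1x : 0 < 1 + x := by linarith
  have : -(-(s0 p * (1 + x) * x ^ (p + 1) / N) / x) = s0 p * (x ^ p * (1 + x) / N) := by
    rw [pow_succ]
    field_simp
  rw [this]
  refine mul_le_mul_of_nonneg_left ?_ hs.le
  rw [div_le_div_iff₀ h1x hNpos]
  have hxp : 0 ≤ x ^ p := by positivity
  nlinarith [mul_le_mul_of_nonneg_left hNle hxp]

lemma kerb_phi_deriv (p : ℕ) {x : ℝ} (hx : 0 < x) :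
    HasDerivAt (Phi p) (x ^ p / (1 + x)) x := by
  unfold Phi
  have hc : ContinuousOn (fun y : ℝ => y ^ p / (1 + y)) (Ioi (-1)) := by
    refine ContinuousOn.div (by fun_prop) (by fun_prop) ?_
    intro y hy
    have : -1 < y := hy
    linarith
  have hsub : uIcc 0 x ⊆ Ioi (-1 : ℝ) := by
    rw [uIcc_of_le hx.le]
    intro y hy
    have := hy.1
    show -1 < y
    linarith
  refine intervalIntegral.integral_hasDerivAt_right ?_ ?_ ?_
  · exact (hc.mono hsub).intervalIntegrable
  · exact hc.stronglyMeasurableAtFilter isOpen_Ioi x (by show -1 < x; linarith)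
  · exact hc.continuousAt (isOpen_Ioi.mem_nhds (by show -1 < x; linarith))

lemma kerb_main (p : ℕ) {x : ℝ} (hx : 0 < x) :
    s0 p * Phi p x ≤ Real.log ‖primary p (-Complex.exp (star p * Complex.I) * x)‖ := by
  set z := Complex.exp (star p * Complex.I) with hz
  have hzs : z ∈ slitPlane := kerb_slit p
  set G : ℝ → ℝ := fun x => Real.log ‖primary p (-z * x)‖ - s0 p * Phi p x with hG
  have hG0 : G 0 = 0 := by
    simp [hG, primary, Phi]
  have hcp : Continuous (primary p) := by
    unfold primary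
    fun_prop
  have hne : ∀ y : ℝ, 0 ≤ y → primary p (-z * y) ≠ 0 := by
    intro y hy
    unfold primary
    refine mul_ne_zero ?_ (Complex.exp_ne_zero _)
    rcases hy.eq_or_lt with rfl | hy
    · simp
    intro h
    have h1 : z * y ∈ slitPlane := by
      have := hzs
      rw [Complex.mem_slitPlane_iff] at this ⊢
      simp only [Complex.mul_re, Complex.mul_im, Complex.ofReal_re, Complex.ofReal_im, mul_zero,
        sub_zero, zero_add]
      rcases this with h | h
      · exact Or.inl (mul_pos h hy)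
      · exact Or.inr (by simpa [hy.ne'] using h)
    have h2 : z * y = -1 := by linear_combination h
    rw [h2, Complex.mem_slitPlane_iff] at h1
    norm_num at h1
  have hcont : ContinuousOn G (Ici 0) := by
    refine ContinuousOn.sub ?_ ((continuousOn_Phi p).const_smul (s0 p))
    refine ContinuousOn.log ?_ ?_
    · exact (Continuous.norm (hcp.comp (by fun_prop))).continuousOn
    · intro y hy
      exact norm_ne_zero_iff.2 (hne y hy)
  have hder : ∀ y : ℝ, 0 < y → HasDerivAt G
      (-(((-z * y) ^ (p + 1) / (1 + z * y)).re / y) - s0 p * (y ^ p / (1 + y))) y := by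
    intro y hy
    refine HasDerivAt.sub ?_ ((kerb_phi_deriv p hy).const_mul (s0 p))
    have h1 := hasDerivAt_ker p hzs (inv_pos.2 hy)
    have h2 := h1.comp y (hasDerivAt_inv hy.ne')
    have h3 : (fun x : ℝ => Real.log ‖primary p (-z * x)‖) = ker p z ∘ Inv.inv := by
      funext x
      simp only [ker, Function.comp]
      congr 3
      push_cast
      rw [div_inv_eq_mul]
    rw [h3]
    have e : -(((-z * y) ^ (p + 1) / (1 + z * y)).re / y) =
        ((-z / ((y⁻¹ : ℝ) : ℂ)) ^ (p + 1) / (1 + z / ((y⁻¹ : ℝ) : ℂ))).re / y⁻¹ * -(y ^ 2)⁻¹ := by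
      rw [Complex.ofReal_inv, div_inv_eq_mul, div_inv_eq_mul, div_inv_eq_mul]
      field_simp
    rw [e]
    exact h2
  have hmono : MonotoneOn G (Ici 0) := by
    refine monotoneOn_of_deriv_nonneg (convex_Ici 0) hcont ?_ ?_
    · intro y hy
      rw [interior_Ici] at hy
      exact (hder y hy).differentiableAt.differentiableWithinAt
    · intro y hy
      rw [interior_Ici] at hy
      rw [(hder y hy).deriv]
      have := kerb_re p (x := y) hy
      rw [← hz] at this
      linarith
  have := hmono (show (0 : ℝ) ∈ Ici 0 from le_refl (0 : ℝ)) (show x ∈ Ici 0 from hx.le) hx.le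
  rw [hG0] at this
  simp only [hG] at this
  linarith

lemma ker_star_ge (p : ℕ) {r t : ℝ} (hr : 0 < r) (ht : 0 < t) :
    s0 p * Phi p (r / t) ≤ ker p (r * Complex.exp (star p * Complex.I)) t := by
  have h := kerb_main p (div_pos hr ht)
  refine h.trans (le_of_eq ?_)
  unfold ker
  congr 3
  push_cast
  ring

end Helper25.Ind
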