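import Pool.Agent.Helper25.Ind.Defs
import Pool.Agent.Helper25.Ind.Phi

open Complex Filter Topology MeasureTheory Set

namespace Helper25.Ind

private lemma sumphi_bound {p : ℕ} {ρ : ℝ} (h1 : (p : ℝ) < ρ)
    (h2 : ρ ≤ p + 1) {a r : ℝ} (ha : 0 < a) (hr : 0 ≤ r) :
    Phi p (r / a) ≤ r ^ ρ / ρ * a ^ (-ρ) := by
  have hx : 0 ≤ r / a := by positivity
  have := Phi_le_rpow p (κ := ρ - p) (x := r / a) (by linarith) (by linarith) hx
  have e : (p : ℝ) + (ρ - p) = ρ := by ring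
  rw [e, Real.div_rpow hr ha.le] at this
  rw [Real.rpow_neg ha.le]
  calc _ ≤ _ := this
    _ = _ := by ring

theorem summable_Phi {ι : Type} [Countable ι] {p : ℕ} {ρ : ℝ} (h1 : (p : ℝ) < ρ)
    (h2 : ρ ≤ p + 1) (a : ι → ℝ) (ha : ∀ i, 0 < a i) (hs : Summable fun i => a i ^ (-ρ)) {r : ℝ}
    (hr : 0 ≤ r) : Summable fun i => Phi p (r / a i) := by
  refine Summable.of_nonneg_of_le (fun i => Phi_nonneg p (div_nonneg hr (ha i).le))
    (fun i => sumphi_bound h1 h2 (ha i) hr) (hs.mul_left _)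

private lemma sumphi_tendsto {p : ℕ} {ρ : ℝ} (h1 : (p : ℝ) < ρ)
    (h2 : ρ ≤ p + 1) {a : ℝ} (ha : 0 < a) :
    Tendsto (fun r : ℝ => Phi p (r / a) / r ^ ρ) atTop (𝓝 0) := by
  set κ : ℝ := (ρ - p) / 2 with hκ
  have k0 : 0 < κ := by rw [hκ]; linarith
  have k1 : κ ≤ 1 := by rw [hκ]; linarith
  have hlim : Tendsto (fun r : ℝ => (a ^ (-((p : ℝ) + κ)) / (p + κ)) * r ^ (-(ρ - (p + κ)))) atTop
      (𝓝 ((a ^ (-((p : ℝ) + κ)) / (p + κ)) * 0)) := by
    refine Tendsto.const_mul _ (tendsto_rpow_neg_atTop ?_)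
    rw [hκ]; linarith
  rw [mul_zero] at hlim
  refine squeeze_zero' ?_ ?_ hlim
  · filter_upwards [eventually_gt_atTop 0] with r hr
    exact div_nonneg (Phi_nonneg p (by positivity)) (by positivity)
  · filter_upwards [eventually_gt_atTop 0] with r hr
    have := Phi_le_rpow p (κ := κ) (x := r / a) k0 k1 (by positivity)
    rw [div_le_iff₀ (by positivity)]
    calc _ ≤ _ := this
      _ = a ^ (-((p : ℝ) + κ)) / (p + κ) * r ^ ((p : ℝ) + κ) := by
          rw [Real.div_rpow hr.le ha.le, Real.rpow_neg ha.le]; ring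
      _ = _ := by
          rw [mul_assoc, ← Real.rpow_add hr]; congr 2; ring

theorem tendsto_sum_Phi {ι : Type} [Countable ι] {p : ℕ} {ρ : ℝ} (h1 : (p : ℝ) < ρ)
    (h2 : ρ ≤ p + 1) (a : ι → ℝ) (ha : ∀ i, 0 < a i) (hs : Summable fun i => a i ^ (-ρ)) :
    Tendsto (fun r : ℝ => (∑' i, Phi p (r / a i)) / r ^ ρ) atTop (𝓝 0) := by
  have hρ : 0 < ρ := lt_of_le_of_lt (Nat.cast_nonneg p) h1
  have key : Tendsto (fun r : ℝ => ∑' i, Phi p (r / a i) / r ^ ρ) atTop (𝓝 (∑' _ : ι, (0 : ℝ))) := by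
    refine tendsto_tsum_of_dominated_convergence (bound := fun i => 1 / ρ * a i ^ (-ρ))
      (hs.mul_left _) (fun i => sumphi_tendsto h1 h2 (ha i)) ?_
    filter_upwards [eventually_gt_atTop 0] with r hr i
    have hp : 0 < r ^ ρ := Real.rpow_pos_of_pos hr ρ
    rw [Real.norm_of_nonneg (div_nonneg (Phi_nonneg p (div_nonneg hr.le (ha i).le)) hp.le),
      div_le_iff₀ hp]
    calc _ ≤ _ := sumphi_bound h1 h2 (ha i) hr.le
      _ = _ := by ring
  rw [tsum_zero] at key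
  refine key.congr fun r => ?_
  rw [tsum_div_const]

end Helper25.Ind
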