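import Pool.Agent.Helper25.Ind.Defs

open Complex Filter Topology MeasureTheory Set

namespace Helper25.Ind

/-- The real part of `(α - i β) exp (ρ w)` at `w = x + i θ`. -/
theorem pl_re (α β ρ x θ : ℝ) :
    (((α : ℂ) - β * Complex.I) * Complex.exp (ρ * (x + θ * Complex.I))).re =
      (α * Real.cos (ρ * θ) + β * Real.sin (ρ * θ)) * Real.exp (ρ * x) := by
  have h : (ρ : ℂ) * (x + θ * Complex.I) = ((ρ * x : ℝ) : ℂ) + ((ρ * θ : ℝ) : ℂ) * Complex.I := by
    push_cast; ring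
  rw [h, Complex.exp_add, Complex.exp_mul_I, ← Complex.ofReal_exp, ← Complex.ofReal_cos,
    ← Complex.ofReal_sin]
  simp only [Complex.mul_re, Complex.mul_im, Complex.sub_re, Complex.sub_im, Complex.add_re,
    Complex.add_im, Complex.ofReal_re, Complex.ofReal_im, Complex.I_re, Complex.I_im]
  ring

theorem pl_trig {ρ θ₁ θ₂ A₁ A₂ S : ℝ} (hS0 : S ≠ 0) (θ : ℝ) :
    (A₁ * Real.sin (ρ * θ₂) - A₂ * Real.sin (ρ * θ₁)) / S * Real.cos (ρ * θ) +
      (-A₁ * Real.cos (ρ * θ₂) + A₂ * Real.cos (ρ * θ₁)) / S * Real.sin (ρ * θ) =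
    (A₁ * Real.sin (ρ * (θ₂ - θ)) + A₂ * Real.sin (ρ * (θ - θ₁))) / S := by
  rw [mul_sub, mul_sub, Real.sin_sub, Real.sin_sub]
  field_simp
  ring

theorem phragmen_lindelof {f : ℂ → ℂ} (hf : Differentiable ℂ f) {ρ σ θ₁ θ₂ A₁ A₂ : ℝ}
    (hρ : 0 < ρ) (hσ : 0 < σ) (h12 : θ₁ < θ₂) (hρ2 : ρ * (θ₂ - θ₁) < Real.pi)
    (hσ2 : σ * (θ₂ - θ₁) < Real.pi)
    (hgr : ∃ R, ∀ z, R ≤ ‖z‖ → ‖f z‖ ≤ Real.exp (‖z‖ ^ σ))
    (h1 : ∀ᶠ r : ℝ in atTop,
      ‖f (r * Complex.exp (θ₁ * Complex.I))‖ ≤ Real.exp (A₁ * r ^ ρ))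
    (h2 : ∀ᶠ r : ℝ in atTop,
      ‖f (r * Complex.exp (θ₂ * Complex.I))‖ ≤ Real.exp (A₂ * r ^ ρ)) :
    ∃ C > 0, ∀ r : ℝ, 0 < r → ∀ θ ∈ Icc θ₁ θ₂,
      ‖f (r * Complex.exp (θ * Complex.I))‖ ≤ C * Real.exp ((A₁ * Real.sin (ρ * (θ₂ - θ)) +
        A₂ * Real.sin (ρ * (θ - θ₁))) / Real.sin (ρ * (θ₂ - θ₁)) * r ^ ρ) := by
  have hd : 0 < θ₂ - θ₁ := sub_pos.mpr h12
  set S : ℝ := Real.sin (ρ * (θ₂ - θ₁)) with hSdef
  have hS : 0 < S := Real.sin_pos_of_pos_of_lt_pi (by positivity) hρ2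
  set α : ℝ := (A₁ * Real.sin (ρ * θ₂) - A₂ * Real.sin (ρ * θ₁)) / S with hα
  set β : ℝ := (-A₁ * Real.cos (ρ * θ₂) + A₂ * Real.cos (ρ * θ₁)) / S with hβ
  set gg : ℝ → ℝ := fun θ => α * Real.cos (ρ * θ) + β * Real.sin (ρ * θ) with hgg
  have hg : ∀ θ, gg θ = (A₁ * Real.sin (ρ * (θ₂ - θ)) + A₂ * Real.sin (ρ * (θ - θ₁))) / S :=
    fun θ => pl_trig hS.ne' θ
  have hg1 : gg θ₁ = A₁ := by
    rw [hg]; simp [← hSdef, hS.ne']
  have hg2 : gg θ₂ = A₂ := by
    rw [hg]; simp [← hSdef, hS.ne']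
  set K : ℝ := |α| + |β| with hK
  have hK0 : 0 ≤ K := by positivity
  have hgK : ∀ θ, |gg θ| ≤ K := by
    intro θ
    calc |gg θ| ≤ |α * Real.cos (ρ * θ)| + |β * Real.sin (ρ * θ)| := abs_add_le _ _
      _ ≤ K := by
        rw [abs_mul, abs_mul, hK]
        gcongr
        · exact mul_le_of_le_one_right (abs_nonneg _) (Real.abs_cos_le_one _)
        · exact mul_le_of_le_one_right (abs_nonneg _) (Real.abs_sin_le_one _)
  -- the function on the strip
  let G : ℂ → ℂ := fun w =>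
    f (Complex.exp w) * Complex.exp (-(((α : ℂ) - β * Complex.I) * Complex.exp (ρ * w)))
  have hGd : Differentiable ℂ G := by
    have h3 : Differentiable ℂ fun w : ℂ => f (Complex.exp w) := hf.comp Complex.differentiable_exp
    have h4 : Differentiable ℂ fun w : ℂ =>
        Complex.exp (-(((α : ℂ) - β * Complex.I) * Complex.exp (ρ * w))) := by fun_prop
    exact h3.mul h4
  have hGn : ∀ w : ℂ, ‖G w‖ =
      ‖f (Real.exp w.re * Complex.exp (w.im * Complex.I))‖ *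
        Real.exp (-(gg w.im * Real.exp (ρ * w.re))) := by
    intro w
    have hw : Complex.exp w = Real.exp w.re * Complex.exp (w.im * Complex.I) := by
      conv_lhs => rw [← Complex.re_add_im w, Complex.exp_add]
      rw [Complex.ofReal_exp]
    have hr : ((((α : ℂ) - β * Complex.I)) * Complex.exp (ρ * w)).re =
        gg w.im * Real.exp (ρ * w.re) := by
      have := pl_re α β ρ w.re w.im
      rw [Complex.re_add_im] at this
      rw [this]
    simp only [G, norm_mul, Complex.norm_exp, Complex.neg_re, hr, hw]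
  -- bounded on discs
  obtain ⟨R, hR⟩ := hgr
  obtain ⟨r₁, hr₁⟩ := eventually_atTop.mp h1
  obtain ⟨r₂, hr₂⟩ := eventually_atTop.mp h2
  set R₀ : ℝ := max 1 (max R (max r₁ r₂)) with hR₀
  have hR₀1 : 1 ≤ R₀ := le_max_left _ _
  have hR₀R : R ≤ R₀ := (le_max_left _ _).trans (le_max_right _ _)
  have hR₀r₁ : r₁ ≤ R₀ := ((le_max_left _ _).trans (le_max_right _ _)).trans (le_max_right _ _)
  have hR₀r₂ : r₂ ≤ R₀ := ((le_max_right _ _).trans (le_max_right _ _)).trans (le_max_right _ _)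
  obtain ⟨M, hM⟩ := (isCompact_closedBall (0 : ℂ) R₀).exists_bound_of_continuousOn
    hf.continuous.continuousOn
  have hM' : ∀ z : ℂ, ‖z‖ ≤ R₀ → ‖f z‖ ≤ M := fun z hz => hM z (mem_closedBall_zero_iff.mpr hz)
  have hM0 : 0 ≤ M := (norm_nonneg _).trans (hM' 0 (by simpa using zero_le_one.trans hR₀1))
  have hnorm : ∀ x θ : ℝ, ‖(Real.exp x : ℂ) * Complex.exp (θ * Complex.I)‖ = Real.exp x := by
    intro x θ
    rw [norm_mul, Complex.norm_exp_ofReal_mul_I, mul_one, Complex.norm_real,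
      Real.norm_of_nonneg (Real.exp_pos x).le]
  have hsmall : ∀ w : ℂ, Real.exp w.re ≤ R₀ → ‖G w‖ ≤ M * Real.exp (K * R₀ ^ ρ) := by
    intro w hw
    rw [hGn w]
    have h3 : Real.exp (ρ * w.re) ≤ R₀ ^ ρ := by
      have h4 : Real.exp (ρ * w.re) = (Real.exp w.re) ^ ρ := by
        rw [← Real.exp_mul]; ring_nf
      rw [h4]
      exact Real.rpow_le_rpow (Real.exp_pos _).le hw hρ.le
    have h5 : -(gg w.im * Real.exp (ρ * w.re)) ≤ K * R₀ ^ ρ := by
      have h6 := (abs_le.mp (hgK w.im)).1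
      calc -(gg w.im * Real.exp (ρ * w.re)) = (-gg w.im) * Real.exp (ρ * w.re) := by ring
        _ ≤ K * Real.exp (ρ * w.re) :=
          mul_le_mul_of_nonneg_right (by linarith) (Real.exp_pos _).le
        _ ≤ K * R₀ ^ ρ := mul_le_mul_of_nonneg_left h3 hK0
    exact mul_le_mul (hM' _ (by rw [hnorm]; exact hw)) (Real.exp_le_exp.mpr h5)
      (Real.exp_pos _).le hM0
  set C₀ : ℝ := max 1 (M * Real.exp (K * R₀ ^ ρ)) with hC₀
  have hexp : ∀ x : ℝ, (Real.exp x) ^ ρ = Real.exp (ρ * x) := fun x => by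
    rw [← Real.exp_mul]; ring_nf
  have hline : ∀ (θ' A' : ℝ), gg θ' = A' →
      (∀ r, R₀ ≤ r → ‖f (r * Complex.exp (θ' * Complex.I))‖ ≤ Real.exp (A' * r ^ ρ)) →
      ∀ z : ℂ, z.im = θ' → ‖G z‖ ≤ C₀ := by
    intro θ' A' hA hb z hz
    rcases le_total (Real.exp z.re) R₀ with h3 | h3
    · exact (hsmall z h3).trans (le_max_right _ _)
    · rw [hGn z, hz, hA]
      have h4 := hb _ h3
      rw [hexp] at h4
      have h5 : ‖f ((Real.exp z.re : ℂ) * Complex.exp (θ' * Complex.I))‖ *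
          Real.exp (-(A' * Real.exp (ρ * z.re))) ≤ 1 := by
        calc _ ≤ Real.exp (A' * Real.exp (ρ * z.re)) * Real.exp (-(A' * Real.exp (ρ * z.re))) :=
              mul_le_mul_of_nonneg_right h4 (Real.exp_pos _).le
          _ = 1 := by rw [← Real.exp_add, add_neg_cancel, Real.exp_zero]
      exact h5.trans (le_max_left _ _)
  have key : ∀ z : ℂ, θ₁ ≤ z.im → z.im ≤ θ₂ → ‖G z‖ ≤ C₀ := by
    intro z hz1 hz2
    refine PhragmenLindelof.horizontal_strip (a := θ₁) (b := θ₂) hGd.diffContOnCl ?_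
      (hline θ₁ A₁ hg1 fun r hr => hr₁ r (hR₀r₁.trans hr))
      (hline θ₂ A₂ hg2 fun r hr => hr₂ r (hR₀r₂.trans hr)) hz1 hz2
    refine ⟨max σ ρ, ?_, M + 1 + K, ?_⟩
    · rw [lt_div_iff₀ hd]
      rcases max_cases σ ρ with ⟨h, -⟩ | ⟨h, -⟩ <;> rw [h] <;> assumption
    · refine Asymptotics.IsBigO.of_bound 1 (Eventually.of_forall fun w => ?_)
      rw [one_mul, Real.norm_of_nonneg (Real.exp_pos _).le, hGn w]
      have hc0 : 0 < max σ ρ := lt_max_of_lt_left hσ
      have he1 : Real.exp (ρ * w.re) ≤ Real.exp (max σ ρ * |w.re|) := by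
        apply Real.exp_le_exp.mpr
        calc ρ * w.re ≤ ρ * |w.re| := mul_le_mul_of_nonneg_left (le_abs_self _) hρ.le
          _ ≤ max σ ρ * |w.re| := mul_le_mul_of_nonneg_right (le_max_right _ _) (abs_nonneg _)
      have he2 : Real.exp (σ * w.re) ≤ Real.exp (max σ ρ * |w.re|) := by
        apply Real.exp_le_exp.mpr
        calc σ * w.re ≤ σ * |w.re| := mul_le_mul_of_nonneg_left (le_abs_self _) hσ.le
          _ ≤ max σ ρ * |w.re| := mul_le_mul_of_nonneg_right (le_max_left _ _) (abs_nonneg _)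
      have he3 : 1 ≤ Real.exp (max σ ρ * |w.re|) := Real.one_le_exp (by positivity)
      have hfb : ‖f ((Real.exp w.re : ℂ) * Complex.exp (w.im * Complex.I))‖ ≤
          Real.exp (M + Real.exp (σ * w.re)) := by
        rcases le_total (Real.exp w.re) R₀ with h3 | h3
        · have h4 := hM' ((Real.exp w.re : ℂ) * Complex.exp (w.im * Complex.I)) (by rw [hnorm]; exact h3)
          refine h4.trans ?_
          calc M ≤ Real.exp M := by linarith [Real.add_one_le_exp M]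
            _ ≤ Real.exp (M + Real.exp (σ * w.re)) :=
              Real.exp_le_exp.mpr (by linarith [Real.exp_pos (σ * w.re)])
        · have h4 := hR ((Real.exp w.re : ℂ) * Complex.exp (w.im * Complex.I))
            (by rw [hnorm]; exact hR₀R.trans h3)
          rw [hnorm] at h4
          refine h4.trans (Real.exp_le_exp.mpr ?_)
          have h5 : (Real.exp w.re) ^ σ = Real.exp (σ * w.re) := by
            rw [← Real.exp_mul]; ring_nf
          rw [h5]
          linarith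
      have hgb : Real.exp (-(gg w.im * Real.exp (ρ * w.re))) ≤
          Real.exp (K * Real.exp (ρ * w.re)) := by
        apply Real.exp_le_exp.mpr
        have h6 := (abs_le.mp (hgK w.im)).1
        calc -(gg w.im * Real.exp (ρ * w.re)) = (-gg w.im) * Real.exp (ρ * w.re) := by ring
          _ ≤ K * Real.exp (ρ * w.re) :=
            mul_le_mul_of_nonneg_right (by linarith) (Real.exp_pos _).le
      calc _ ≤ Real.exp (M + Real.exp (σ * w.re)) * Real.exp (K * Real.exp (ρ * w.re)) :=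
            mul_le_mul hfb hgb (Real.exp_pos _).le (Real.exp_pos _).le
        _ = Real.exp (M + Real.exp (σ * w.re) + K * Real.exp (ρ * w.re)) := by
            rw [← Real.exp_add]
        _ ≤ Real.exp ((M + 1 + K) * Real.exp (max σ ρ * |w.re|)) := by
            apply Real.exp_le_exp.mpr
            nlinarith [mul_le_mul_of_nonneg_left he1 hK0, mul_le_mul_of_nonneg_left he3 hM0]
  refine ⟨C₀, lt_max_of_lt_left one_pos, fun r hr θ hθ => ?_⟩
  have h3 := key (Real.log r + θ * Complex.I) (by simpa using hθ.1) (by simpa using hθ.2)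
  rw [hGn] at h3
  have hre : ((Real.log r : ℂ) + θ * Complex.I).re = Real.log r := by simp
  have him : ((Real.log r : ℂ) + θ * Complex.I).im = θ := by simp
  rw [hre, him, Real.exp_log hr, ← hexp, Real.exp_log hr, hg θ] at h3
  have hpos := Real.exp_pos ((A₁ * Real.sin (ρ * (θ₂ - θ)) + A₂ * Real.sin (ρ * (θ - θ₁))) / S *
    r ^ ρ)
  rw [Real.exp_neg] at h3
  rwa [← div_eq_mul_inv, div_le_iff₀ hpos] at h3

end Helper25.Ind
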