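import Pool.Agent.Helper25.Ind.Defs
import Pool.Agent.Helper25.Ind.PL
import Pool.Agent.Helper25.Ind.IndApi

open Complex Filter Topology MeasureTheory Set

namespace Helper25.Ind

/-- finite order, as used in the Phragmén-Lindelöf argument -/
def OrderLE (ρ : ℝ) (f : ℂ → ℂ) : Prop :=
  Differentiable ℂ f ∧ ∀ σ, ρ < σ → ∃ R, ∀ z, R ≤ ‖z‖ → ‖f z‖ ≤ Real.exp (‖z‖ ^ σ)

theorem indicatorOf_le_trig {ρ : ℝ} {f : ℂ → ℂ} (hρ : 0 < ρ) (hf : OrderLE ρ f)
    {θ₁ θ θ₂ A₁ A₂ : ℝ} (h1 : θ₁ < θ) (h2 : θ < θ₂) (h12 : ρ * (θ₂ - θ₁) < Real.pi)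
    (hA₁ : indicatorOf ρ f θ₁ ≤ (A₁ : EReal)) (hA₂ : indicatorOf ρ f θ₂ ≤ (A₂ : EReal)) :
    indicatorOf ρ f θ ≤ (((A₁ * Real.sin (ρ * (θ₂ - θ)) + A₂ * Real.sin (ρ * (θ - θ₁))) /
      Real.sin (ρ * (θ₂ - θ₁)) : ℝ) : EReal) := by
  have hlt : θ₁ < θ₂ := h1.trans h2
  have hd : 0 < θ₂ - θ₁ := sub_pos.2 hlt
  have hS : 0 < Real.sin (ρ * (θ₂ - θ₁)) := Real.sin_pos_of_pos_of_lt_pi (by positivity) h12
  -- choose σ > ρ
  obtain ⟨σ, hσ1, hσ2⟩ : ∃ σ, ρ < σ ∧ σ < Real.pi / (θ₂ - θ₁) :=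
    exists_between ((lt_div_iff₀ hd).2 h12)
  have hσ3 : σ * (θ₂ - θ₁) < Real.pi := (lt_div_iff₀ hd).1 hσ2
  have hσ0 : 0 < σ := hρ.trans hσ1
  apply indicatorOf_le_of_eventually
  intro ε hε
  set K : ℝ := (Real.sin (ρ * (θ₂ - θ)) + Real.sin (ρ * (θ - θ₁))) / Real.sin (ρ * (θ₂ - θ₁))
    with hK
  have hKpos : 0 ≤ K := by
    apply div_nonneg _ hS.le
    apply add_nonneg
    · apply Real.sin_nonneg_of_nonneg_of_le_pi
      · have := sub_pos.2 h2; positivity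
      · refine le_trans ?_ h12.le
        apply mul_le_mul_of_nonneg_left _ hρ.le; linarith
    · apply Real.sin_nonneg_of_nonneg_of_le_pi
      · have := sub_pos.2 h1; positivity
      · refine le_trans ?_ h12.le
        apply mul_le_mul_of_nonneg_left _ hρ.le; linarith
  obtain ⟨η, hη, hηK⟩ : ∃ η > 0, η * K ≤ ε / 2 := by
    refine ⟨ε / 2 / (K + 1), by positivity, ?_⟩
    rw [div_mul_eq_mul_div, div_le_iff₀ (by positivity)]
    nlinarith
  have e1 := eventually_le_of_indicatorOf_lt (ρ := ρ) (θ := θ₁) (f := f) (A := A₁ + η)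
    (lt_of_le_of_lt hA₁ (by exact_mod_cast (lt_add_of_pos_right A₁ hη)))
  have e2 := eventually_le_of_indicatorOf_lt (ρ := ρ) (θ := θ₂) (f := f) (A := A₂ + η)
    (lt_of_le_of_lt hA₂ (by exact_mod_cast (lt_add_of_pos_right A₂ hη)))
  obtain ⟨C, hC, hCb⟩ := phragmen_lindelof hf.1 hρ hσ0 hlt h12 hσ3 (hf.2 σ hσ1) e1 e2
  have hlim : Tendsto (fun r : ℝ => ε / 2 * r ^ ρ) atTop atTop :=
    (tendsto_rpow_atTop hρ).const_mul_atTop (by positivity)
  filter_upwards [eventually_gt_atTop (0 : ℝ), hlim.eventually_ge_atTop (Real.log C)] with r hr hrC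
  refine (hCb r hr θ ⟨h1.le, h2.le⟩).trans ?_
  have hCe : C ≤ Real.exp (ε / 2 * r ^ ρ) := by
    rw [← Real.log_le_iff_le_exp hC]; exact hrC
  have hrρ : 0 < r ^ ρ := Real.rpow_pos_of_pos hr ρ
  calc C * Real.exp (((A₁ + η) * Real.sin (ρ * (θ₂ - θ)) + (A₂ + η) * Real.sin (ρ * (θ - θ₁))) /
        Real.sin (ρ * (θ₂ - θ₁)) * r ^ ρ)
      ≤ Real.exp (ε / 2 * r ^ ρ) * Real.exp (((A₁ + η) * Real.sin (ρ * (θ₂ - θ)) +
          (A₂ + η) * Real.sin (ρ * (θ - θ₁))) / Real.sin (ρ * (θ₂ - θ₁)) * r ^ ρ) := by gcongr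
    _ = Real.exp ((ε / 2 + ((A₁ * Real.sin (ρ * (θ₂ - θ)) + A₂ * Real.sin (ρ * (θ - θ₁))) /
          Real.sin (ρ * (θ₂ - θ₁)) + η * K)) * r ^ ρ) := by
        rw [← Real.exp_add]
        congr 1
        rw [hK]
        field_simp
        ring
    _ ≤ _ := by
        apply Real.exp_le_exp.2
        apply mul_le_mul_of_nonneg_right _ hrρ.le
        linarith

lemma trig_exists_real_ge {x : EReal} (hx : x ≠ ⊤) : ∃ A : ℝ, x ≤ (A : EReal) := by
  induction x with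
  | bot => exact ⟨0, bot_le⟩
  | top => exact absurd rfl hx
  | coe a => exact ⟨a, le_rfl⟩

lemma trig_eq_bot {x : EReal} (hx : ∀ A : ℝ, x ≤ (A : EReal)) : x = ⊥ := by
  induction x with
  | bot => rfl
  | top =>
    have := hx 0
    simp at this
  | coe a =>
    have := hx (a - 1)
    rw [EReal.coe_le_coe_iff] at this
    linarith

theorem indicatorOf_eq_bot_left {ρ : ℝ} {f : ℂ → ℂ} (hρ : 0 < ρ) (hf : OrderLE ρ f)
    {θ₁ θ θ₂ : ℝ} (h1 : θ₁ < θ) (h2 : θ < θ₂) (h12 : ρ * (θ₂ - θ₁) < Real.pi)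
    (hA₁ : indicatorOf ρ f θ₁ = ⊥) (hA₂ : indicatorOf ρ f θ₂ ≠ ⊤) :
    indicatorOf ρ f θ = ⊥ := by
  obtain ⟨A₂, hA2⟩ := trig_exists_real_ge hA₂
  have hlt : θ₁ < θ₂ := h1.trans h2
  have hd : 0 < θ₂ - θ₁ := sub_pos.2 hlt
  have hS : 0 < Real.sin (ρ * (θ₂ - θ₁)) := Real.sin_pos_of_pos_of_lt_pi (by positivity) h12
  have hS1 : 0 < Real.sin (ρ * (θ₂ - θ)) := by
    apply Real.sin_pos_of_pos_of_lt_pi
    · have := sub_pos.2 h2; positivity
    · refine lt_of_le_of_lt ?_ h12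
      apply mul_le_mul_of_nonneg_left _ hρ.le; linarith
  apply trig_eq_bot
  intro B
  have := indicatorOf_le_trig hρ hf h1 h2 h12
    (A₁ := (B * Real.sin (ρ * (θ₂ - θ₁)) - A₂ * Real.sin (ρ * (θ - θ₁))) /
      Real.sin (ρ * (θ₂ - θ))) (A₂ := A₂) (by rw [hA₁]; exact bot_le) hA2
  refine this.trans (le_of_eq ?_)
  congr 1
  field_simp
  ring

theorem indicatorOf_eq_bot_right {ρ : ℝ} {f : ℂ → ℂ} (hρ : 0 < ρ) (hf : OrderLE ρ f)
    {θ₁ θ θ₂ : ℝ} (h1 : θ₁ < θ) (h2 : θ < θ₂) (h12 : ρ * (θ₂ - θ₁) < Real.pi)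
    (hA₁ : indicatorOf ρ f θ₁ ≠ ⊤) (hA₂ : indicatorOf ρ f θ₂ = ⊥) :
    indicatorOf ρ f θ = ⊥ := by
  obtain ⟨A₁, hA1⟩ := trig_exists_real_ge hA₁
  have hlt : θ₁ < θ₂ := h1.trans h2
  have hd : 0 < θ₂ - θ₁ := sub_pos.2 hlt
  have hS : 0 < Real.sin (ρ * (θ₂ - θ₁)) := Real.sin_pos_of_pos_of_lt_pi (by positivity) h12
  have hS1 : 0 < Real.sin (ρ * (θ - θ₁)) := by
    apply Real.sin_pos_of_pos_of_lt_pi
    · have := sub_pos.2 h1; positivity
    · refine lt_of_le_of_lt ?_ h12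
      apply mul_le_mul_of_nonneg_left _ hρ.le; linarith
  apply trig_eq_bot
  intro B
  have := indicatorOf_le_trig hρ hf h1 h2 h12
    (A₂ := (B * Real.sin (ρ * (θ₂ - θ₁)) - A₁ * Real.sin (ρ * (θ₂ - θ))) /
      Real.sin (ρ * (θ - θ₁))) (A₁ := A₁) hA1 (by rw [hA₂]; exact bot_le)
  refine this.trans (le_of_eq ?_)
  congr 1
  field_simp
  ring

/-- trigonometric convexity for real valued indicators -/
lemma trig_convex {ρ : ℝ} {f : ℂ → ℂ} (hρ : 0 < ρ) (hf : OrderLE ρ f)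
    {θ₁ θ θ₂ x₁ x x₂ : ℝ} (h1 : θ₁ < θ) (h2 : θ < θ₂) (h12 : ρ * (θ₂ - θ₁) < Real.pi)
    (hx₁ : indicatorOf ρ f θ₁ ≤ (x₁ : EReal)) (hx : indicatorOf ρ f θ = (x : EReal))
    (hx₂ : indicatorOf ρ f θ₂ ≤ (x₂ : EReal)) :
    x * Real.sin (ρ * (θ₂ - θ₁)) ≤
      x₁ * Real.sin (ρ * (θ₂ - θ)) + x₂ * Real.sin (ρ * (θ - θ₁)) := by
  have hd : 0 < θ₂ - θ₁ := by linarith
  have hS : 0 < Real.sin (ρ * (θ₂ - θ₁)) := Real.sin_pos_of_pos_of_lt_pi (by positivity) h12
  have := indicatorOf_le_trig hρ hf h1 h2 h12 hx₁ hx₂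
  rw [hx, EReal.coe_le_coe_iff, le_div_iff₀ hS] at this
  exact this

theorem continuous_of_indicatorOf {ρ : ℝ} {f : ℂ → ℂ} (hρ : 0 < ρ) (hf : OrderLE ρ f)
    {h : ℝ → ℝ} (hh : ∀ θ, indicatorOf ρ f θ = (h θ : EReal)) : Continuous h := by
  have key : ∀ {θ₁ θ θ₂ : ℝ}, θ₁ < θ → θ < θ₂ → ρ * (θ₂ - θ₁) < Real.pi →
      h θ * Real.sin (ρ * (θ₂ - θ₁)) ≤
      h θ₁ * Real.sin (ρ * (θ₂ - θ)) + h θ₂ * Real.sin (ρ * (θ - θ₁)) := by
    intro θ₁ θ θ₂ h1 h2 h12
    exact trig_convex hρ hf h1 h2 h12 (hh θ₁).le (hh θ) (hh θ₂).le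
  rw [continuous_iff_continuousAt]
  intro θ₀
  obtain ⟨η, hη, hη2⟩ : ∃ η > 0, ρ * (2 * η) < Real.pi := by
    refine ⟨Real.pi / (4 * ρ), by have := Real.pi_pos; positivity, ?_⟩
    have : ρ * (2 * (Real.pi / (4 * ρ))) = Real.pi / 2 := by field_simp; norm_num
    rw [this]; have := Real.pi_pos; linarith
  have hsη : 0 < Real.sin (ρ * η) := by
    apply Real.sin_pos_of_pos_of_lt_pi (by positivity)
    nlinarith [mul_pos hρ hη]
  rw [continuousAt_iff_continuous_left'_right']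
  constructor
  · -- left
    have hU : Tendsto (fun θ => (h (θ₀ - η) * Real.sin (ρ * (θ₀ - θ)) +
        h θ₀ * Real.sin (ρ * (θ - (θ₀ - η)))) / Real.sin (ρ * η)) (𝓝[<] θ₀) (𝓝 (h θ₀)) := by
      apply tendsto_nhdsWithin_of_tendsto_nhds
      have : ContinuousAt (fun θ => (h (θ₀ - η) * Real.sin (ρ * (θ₀ - θ)) +
        h θ₀ * Real.sin (ρ * (θ - (θ₀ - η)))) / Real.sin (ρ * η)) θ₀ := by fun_prop
      have h2 := this.tendsto
      have e : (h (θ₀ - η) * Real.sin (ρ * (θ₀ - θ₀)) +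
        h θ₀ * Real.sin (ρ * (θ₀ - (θ₀ - η)))) / Real.sin (ρ * η) = h θ₀ := by
        rw [sub_self, mul_zero, Real.sin_zero, mul_zero, zero_add, sub_sub_cancel]
        field_simp
      rwa [e] at h2
    have hL : Tendsto (fun θ => (h θ₀ * Real.sin (ρ * (θ₀ + η - θ)) -
        h (θ₀ + η) * Real.sin (ρ * (θ₀ - θ))) / Real.sin (ρ * η)) (𝓝[<] θ₀) (𝓝 (h θ₀)) := by
      apply tendsto_nhdsWithin_of_tendsto_nhds
      have : ContinuousAt (fun θ => (h θ₀ * Real.sin (ρ * (θ₀ + η - θ)) -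
        h (θ₀ + η) * Real.sin (ρ * (θ₀ - θ))) / Real.sin (ρ * η)) θ₀ := by fun_prop
      have h2 := this.tendsto
      have e : (h θ₀ * Real.sin (ρ * (θ₀ + η - θ₀)) -
        h (θ₀ + η) * Real.sin (ρ * (θ₀ - θ₀))) / Real.sin (ρ * η) = h θ₀ := by
        rw [sub_self, mul_zero, Real.sin_zero, mul_zero, sub_zero, add_sub_cancel_left]
        field_simp
      rwa [e] at h2
    apply tendsto_of_tendsto_of_tendsto_of_le_of_le' hL hU
    · filter_upwards [Ioo_mem_nhdsLT (sub_lt_self θ₀ hη)] with θ hθ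
      have := key hθ.2 (lt_add_of_pos_right θ₀ hη) (by
        refine lt_of_le_of_lt ?_ hη2
        apply mul_le_mul_of_nonneg_left _ hρ.le; linarith [hθ.1])
      rw [div_le_iff₀ hsη]
      have e : θ₀ + η - θ₀ = η := by ring
      rw [e] at this
      linarith
    · filter_upwards [Ioo_mem_nhdsLT (sub_lt_self θ₀ hη)] with θ hθ
      have := key hθ.1 hθ.2 (by
        refine lt_of_le_of_lt ?_ hη2
        apply mul_le_mul_of_nonneg_left _ hρ.le; linarith)
      rw [le_div_iff₀ hsη]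
      have e : θ₀ - (θ₀ - η) = η := by ring
      rw [e] at this
      linarith
  · -- right
    have hU : Tendsto (fun θ => (h θ₀ * Real.sin (ρ * (θ₀ + η - θ)) +
        h (θ₀ + η) * Real.sin (ρ * (θ - θ₀))) / Real.sin (ρ * η)) (𝓝[>] θ₀) (𝓝 (h θ₀)) := by
      apply tendsto_nhdsWithin_of_tendsto_nhds
      have : ContinuousAt (fun θ => (h θ₀ * Real.sin (ρ * (θ₀ + η - θ)) +
        h (θ₀ + η) * Real.sin (ρ * (θ - θ₀))) / Real.sin (ρ * η)) θ₀ := by fun_prop
      have h2 := this.tendsto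
      have e : (h θ₀ * Real.sin (ρ * (θ₀ + η - θ₀)) +
        h (θ₀ + η) * Real.sin (ρ * (θ₀ - θ₀))) / Real.sin (ρ * η) = h θ₀ := by
        rw [sub_self, mul_zero, Real.sin_zero, mul_zero, add_zero, add_sub_cancel_left]
        field_simp
      rwa [e] at h2
    have hL : Tendsto (fun θ => (h θ₀ * Real.sin (ρ * (θ - (θ₀ - η))) -
        h (θ₀ - η) * Real.sin (ρ * (θ - θ₀))) / Real.sin (ρ * η)) (𝓝[>] θ₀) (𝓝 (h θ₀)) := by
      apply tendsto_nhdsWithin_of_tendsto_nhds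
      have : ContinuousAt (fun θ => (h θ₀ * Real.sin (ρ * (θ - (θ₀ - η))) -
        h (θ₀ - η) * Real.sin (ρ * (θ - θ₀))) / Real.sin (ρ * η)) θ₀ := by fun_prop
      have h2 := this.tendsto
      have e : (h θ₀ * Real.sin (ρ * (θ₀ - (θ₀ - η))) -
        h (θ₀ - η) * Real.sin (ρ * (θ₀ - θ₀))) / Real.sin (ρ * η) = h θ₀ := by
        rw [sub_self, mul_zero, Real.sin_zero, mul_zero, sub_zero, sub_sub_cancel]
        field_simp
      rwa [e] at h2
    apply tendsto_of_tendsto_of_tendsto_of_le_of_le' hL hU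
    · filter_upwards [Ioo_mem_nhdsGT (lt_add_of_pos_right θ₀ hη)] with θ hθ
      have := key (sub_lt_self θ₀ hη) hθ.1 (by
        refine lt_of_le_of_lt ?_ hη2
        apply mul_le_mul_of_nonneg_left _ hρ.le; linarith [hθ.2])
      rw [div_le_iff₀ hsη]
      have e : θ₀ - (θ₀ - η) = η := by ring
      rw [e] at this
      linarith
    · filter_upwards [Ioo_mem_nhdsGT (lt_add_of_pos_right θ₀ hη)] with θ hθ
      have := key hθ.1 hθ.2 (by
        refine lt_of_le_of_lt ?_ hη2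
        apply mul_le_mul_of_nonneg_left _ hρ.le; linarith)
      rw [le_div_iff₀ hsη]
      have e : θ₀ + η - θ₀ = η := by ring
      rw [e] at this
      linarith

theorem indicatorOf_pi_eq {ρ : ℝ} {f : ℂ → ℂ} (hρ : 0 < ρ) (hf : OrderLE ρ f)
    {g : ℝ → ℝ} (hg : ContinuousAt g Real.pi) {η : ℝ} (hη : 0 < η)
    (hh : ∀ θ, |θ - Real.pi| < η → θ ≠ Real.pi → indicatorOf ρ f θ = (g θ : EReal))
    (hpi : indicatorOf ρ f Real.pi ≠ ⊤) :
    indicatorOf ρ f Real.pi = (g Real.pi : EReal) := by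
  have hπ := Real.pi_pos
  -- small e
  have hsmall : ∀ᶠ e : ℝ in 𝓝[>] 0, 0 < e ∧ 2 * e < η ∧ ρ * (2 * e) < Real.pi := by
    have h1 : ∀ᶠ e : ℝ in 𝓝[>] (0 : ℝ), 0 < e := eventually_mem_nhdsWithin
    have h2 : ∀ᶠ e : ℝ in 𝓝[>] (0 : ℝ), e < min (η / 2) (Real.pi / (2 * ρ)) :=
      eventually_nhdsWithin_of_eventually_nhds
        (eventually_lt_nhds (by positivity))
    filter_upwards [h1, h2] with e he1 he2
    have h3 : e < η / 2 := lt_of_lt_of_le he2 (min_le_left _ _)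
    have h4 : e < Real.pi / (2 * ρ) := lt_of_lt_of_le he2 (min_le_right _ _)
    rw [lt_div_iff₀ (by positivity)] at h4
    exact ⟨he1, by linarith, by linarith⟩
  have hgt : ∀ c : ℝ, Tendsto (fun e : ℝ => g (Real.pi + c * e)) (𝓝[>] 0) (𝓝 (g Real.pi)) := by
    intro c
    apply tendsto_nhdsWithin_of_tendsto_nhds
    have h1 : Tendsto (fun e : ℝ => Real.pi + c * e) (𝓝 0) (𝓝 Real.pi) := by
      have : Tendsto (fun e : ℝ => Real.pi + c * e) (𝓝 0) (𝓝 (Real.pi + c * 0)) := by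
        apply Continuous.tendsto; fun_prop
      simpa using this
    exact hg.tendsto.comp h1
  have hcos : Tendsto (fun e : ℝ => Real.cos (ρ * e)) (𝓝[>] 0) (𝓝 1) := by
    apply tendsto_nhdsWithin_of_tendsto_nhds
    have : Tendsto (fun e : ℝ => Real.cos (ρ * e)) (𝓝 0) (𝓝 (Real.cos (ρ * 0))) := by
      apply Continuous.tendsto; fun_prop
    simpa using this
  apply le_antisymm
  · -- upper bound
    have key : ∀ᶠ e : ℝ in 𝓝[>] 0, indicatorOf ρ f Real.pi ≤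
        (((g (Real.pi + (-1) * e) + g (Real.pi + 1 * e)) / (2 * Real.cos (ρ * e)) : ℝ) : EReal) := by
      filter_upwards [hsmall] with e he
      obtain ⟨he0, he1, he2⟩ := he
      have hρe : 0 < ρ * e := by positivity
      have hc : 0 < Real.cos (ρ * e) := by
        apply Real.cos_pos_of_mem_Ioo; constructor <;> linarith
      have hs : 0 < Real.sin (ρ * e) := by
        apply Real.sin_pos_of_pos_of_lt_pi <;> linarith
      have ha := hh (Real.pi - e) (by rw [abs_lt]; constructor <;> linarith) (by linarith)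
      have hb := hh (Real.pi + e) (by rw [abs_lt]; constructor <;> linarith) (by linarith)
      have := indicatorOf_le_trig hρ hf (θ₁ := Real.pi - e) (θ := Real.pi) (θ₂ := Real.pi + e)
        (by linarith) (by linarith) (by
          have : ρ * (Real.pi + e - (Real.pi - e)) = ρ * (2 * e) := by ring
          rw [this]; exact he2) ha.le hb.le
      refine this.trans (le_of_eq ?_)
      congr 1
      have e1 : ρ * (Real.pi + e - (Real.pi - e)) = 2 * (ρ * e) := by ring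
      have e2 : Real.pi + e - Real.pi = e := by ring
      have e3 : Real.pi - (Real.pi - e) = e := by ring
      have e4 : Real.pi + (-1) * e = Real.pi - e := by ring
      have e5 : Real.pi + 1 * e = Real.pi + e := by ring
      rw [e1, e2, e3, e4, e5, Real.sin_two_mul, div_eq_div_iff (by positivity) (by positivity)]
      ring
    have hlim : Tendsto (fun e : ℝ => (((g (Real.pi + (-1) * e) + g (Real.pi + 1 * e)) /
        (2 * Real.cos (ρ * e)) : ℝ) : EReal)) (𝓝[>] 0) (𝓝 ((g Real.pi : ℝ) : EReal)) := by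
      apply (EReal.tendsto_coe).2
      have := ((hgt (-1)).add (hgt 1)).div (hcos.const_mul 2) (by norm_num)
      have e : (g Real.pi + g Real.pi) / (2 * 1) = g Real.pi := by ring
      rw [e] at this
      exact this
    exact ge_of_tendsto hlim key
  · -- lower bound
    by_contra hcon
    rw [not_le] at hcon
    obtain ⟨A, hA1, hA2⟩ := EReal.exists_between_coe_real hcon
    have hA2' : A < g Real.pi := by exact_mod_cast hA2
    have key : ∀ᶠ e : ℝ in 𝓝[>] 0, 2 * Real.cos (ρ * e) * g (Real.pi + (-1) * e) -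
        g (Real.pi + (-2) * e) ≤ A := by
      filter_upwards [hsmall] with e he
      obtain ⟨he0, he1, he2⟩ := he
      have hρe : 0 < ρ * e := by positivity
      have hs : 0 < Real.sin (ρ * e) := by
        apply Real.sin_pos_of_pos_of_lt_pi <;> linarith
      have ha := hh (Real.pi - e) (by rw [abs_lt]; constructor <;> linarith) (by linarith)
      have hb := hh (Real.pi - 2 * e) (by rw [abs_lt]; constructor <;> linarith) (by linarith)
      have := trig_convex hρ hf (θ₁ := Real.pi - 2 * e) (θ := Real.pi - e) (θ₂ := Real.pi)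
        (by linarith) (by linarith) (by
          have : ρ * (Real.pi - (Real.pi - 2 * e)) = ρ * (2 * e) := by ring
          rw [this]; exact he2) hb.le ha hA1.le
      have e1 : ρ * (Real.pi - (Real.pi - 2 * e)) = 2 * (ρ * e) := by ring
      have e2 : Real.pi - (Real.pi - e) = e := by ring
      have e3 : Real.pi - e - (Real.pi - 2 * e) = e := by ring
      have e4 : Real.pi + (-1) * e = Real.pi - e := by ring
      have e5 : Real.pi + (-2) * e = Real.pi - 2 * e := by ring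
      rw [e1, e2, e3, Real.sin_two_mul] at this
      rw [e4, e5]
      have h3 : (2 * Real.cos (ρ * e) * g (Real.pi - e)) * Real.sin (ρ * e) ≤
          (g (Real.pi - 2 * e) + A) * Real.sin (ρ * e) := by nlinarith
      have := le_of_mul_le_mul_right h3 hs
      linarith
    have hlim : Tendsto (fun e : ℝ => 2 * Real.cos (ρ * e) * g (Real.pi + (-1) * e) -
        g (Real.pi + (-2) * e)) (𝓝[>] 0) (𝓝 (g Real.pi)) := by
      have := ((hcos.const_mul 2).mul (hgt (-1))).sub (hgt (-2))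
      have e : 2 * 1 * g Real.pi - g Real.pi = g Real.pi := by ring
      rw [e] at this
      exact this
    have := le_of_tendsto hlim key
    linarith

end Helper25.Ind
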