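import Pool.Agent.Helper25.Ind.Defs
import Pool.Agent.Helper25.Ind.Trig
import Pool.Agent.Helper25.Ind.SumPhi
import Pool.Agent.Helper25.Ind.KerB
import Pool.Agent.Helper25.Ind.KerC

/-!
# Integer order: Lindelöf's balance condition and trigonometric indicators
-/

open Complex Filter Topology MeasureTheory Set

namespace Helper25.Ind

/-! ### Auxiliary facts -/

private theorem intn_norm {r : ℝ} (hr : 0 ≤ r) (θ : ℝ) :
    ‖(r * Complex.exp (θ * Complex.I) : ℂ)‖ = r := by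
  rw [norm_mul, Complex.norm_exp_ofReal_mul_I, mul_one, Complex.norm_real, Real.norm_of_nonneg hr]

private theorem intn_arg {r : ℝ} (hr : 0 < r) {θ : ℝ} (h1 : -Real.pi < θ) (h2 : θ ≤ Real.pi) :
    (r * Complex.exp (θ * Complex.I) : ℂ).arg = θ := by
  rw [Complex.exp_mul_I]
  exact Complex.arg_mul_cos_add_sin_mul_I hr ⟨h1, h2⟩

private theorem intn_slit {r : ℝ} (hr : 0 < r) {θ : ℝ} (h1 : -Real.pi < θ) (h2 : θ < Real.pi) :
    (r * Complex.exp (θ * Complex.I) : ℂ) ∈ slitPlane := by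
  rw [Complex.mem_slitPlane_iff_arg, intn_arg hr h1 h2.le]
  exact ⟨h2.ne, mul_ne_zero (by exact_mod_cast hr.ne') (Complex.exp_ne_zero _)⟩

private theorem intn_pow (q : ℕ) (r θ : ℝ) (c : ℂ) :
    (c * (r * Complex.exp (θ * Complex.I)) ^ q).re =
      r ^ q * (c.re * Real.cos (q * θ) + -c.im * Real.sin (q * θ)) := by
  have h1 : (r * Complex.exp (θ * Complex.I) : ℂ) ^ q =
      ((r ^ q * Real.cos (q * θ) : ℝ) : ℂ) + ((r ^ q * Real.sin (q * θ) : ℝ) : ℂ) * Complex.I := by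
    rw [mul_pow, ← Complex.exp_nat_mul, show (q : ℂ) * (θ * Complex.I) =
      ((q * θ : ℝ) : ℂ) * Complex.I by push_cast; ring, Complex.exp_mul_I]
    push_cast
    ring
  rw [h1]
  simp only [Complex.mul_re, Complex.add_re, Complex.add_im, Complex.ofReal_re, Complex.ofReal_im,
    Complex.mul_im, Complex.I_re, Complex.I_im]
  ring

private theorem intn_ne_zero {f : ℂ → ℂ} {ι : Type} {a : ι → ℝ} (ha : ∀ i, 0 < a i)
    (hfz : ∀ z, f z = 0 ↔ ∃ i, z = -(a i : ℂ)) {z : ℂ} (hz : z ∈ slitPlane) : f z ≠ 0 := by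
  intro h
  obtain ⟨i, rfl⟩ := (hfz z).1 h
  rw [Complex.mem_slitPlane_iff] at hz
  rcases hz with hz | hz
  · simp only [Complex.neg_re, Complex.ofReal_re] at hz
    linarith [ha i]
  · simp at hz

/-- the sum of the lower terms of `Q` -/
private theorem intn_poly {q : ℕ} {Q : Polynomial ℂ} (hQ : Q.natDegree ≤ q) (z : ℂ) :
    Q.eval z = Q.coeff q * z ^ q + ∑ k ∈ Finset.range q, Q.coeff k * z ^ k := by
  rw [Polynomial.eval_eq_sum_range' (Nat.lt_succ_of_le hQ), Finset.sum_range_succ, add_comm]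

private theorem intn_low {p : ℕ} (Q : Polynomial ℂ) {z : ℂ} (hz : 1 ≤ ‖z‖) :
    |(∑ k ∈ Finset.range (p + 1), Q.coeff k * z ^ k).re| ≤
      (∑ k ∈ Finset.range (p + 1), ‖Q.coeff k‖) * ‖z‖ ^ p := by
  refine (Complex.abs_re_le_norm _).trans ?_
  refine (norm_sum_le _ _).trans ?_
  rw [Finset.sum_mul]
  refine Finset.sum_le_sum fun k hk => ?_
  rw [norm_mul, norm_pow]
  have hk' : k ≤ p := Nat.lt_succ_iff.1 (Finset.mem_range.1 hk)
  exact mul_le_mul_of_nonneg_left (pow_le_pow_right₀ hz hk') (norm_nonneg _)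

private theorem intn_ker_succ (p : ℕ) {z : ℂ} {t : ℝ} (ht : 0 < t) (hz : z ≠ -(t : ℂ)) :
    ker (p + 1) z t = ker p z t + (z ^ (p + 1)).re * ((-1 : ℝ) ^ (p + 1) / (p + 1) *
      t ^ (-((p + 1 : ℕ) : ℝ))) := by
  have ht' : (t : ℂ) ≠ 0 := by exact_mod_cast ht.ne'
  have hu : -z / t ≠ 1 := by
    intro h
    rw [div_eq_iff ht', one_mul] at h
    exact hz (by rw [← h, neg_neg])
  have h1 : primary (p + 1) (-z / t) =
      primary p (-z / t) * Complex.exp ((-z / t) ^ (p + 1) / ((p : ℂ) + 1)) := by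
    unfold primary
    rw [Finset.sum_range_succ, Complex.exp_add, mul_assoc]
  have h2 : primary p (-z / t) ≠ 0 := fun h => hu ((primary_eq_zero_iff p _).1 h)
  unfold ker
  rw [h1, norm_mul, Real.log_mul (norm_ne_zero_iff.2 h2) (norm_ne_zero_iff.2 (Complex.exp_ne_zero _)),
    Complex.norm_exp, Real.log_exp]
  congr 1
  have h3 : (-z / t) ^ (p + 1) / ((p : ℂ) + 1) =
      (((-1 : ℝ) ^ (p + 1) / (p + 1) * t ^ (-((p + 1 : ℕ) : ℝ)) : ℝ) : ℂ) * z ^ (p + 1) := by
    rw [Real.rpow_neg ht.le, Real.rpow_natCast]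
    push_cast
    rw [div_pow, neg_pow]
    field_simp
  rw [h3, Complex.re_ofReal_mul]
  ring

/-- The decomposition of `log |f|`. -/
private theorem intn_main {p : ℕ} {f : ℂ → ℂ}
    {ι : Type} {a : ι → ℝ} (ha : ∀ i, 0 < a i) {Q : Polynomial ℂ}
    (hQ : Q.natDegree ≤ p + 1) (hs : Summable fun i => a i ^ (-((p + 1 : ℕ) : ℝ)))
    (hfz : ∀ z, f z = 0 ↔ ∃ i, z = -(a i : ℂ))
    (hlog : ∀ z, f z ≠ 0 → (Summable fun i => ker (p + 1) z (a i)) ∧
      Real.log ‖f z‖ = (Q.eval z).re + ∑' i, ker (p + 1) z (a i)) {z : ℂ} (hz : f z ≠ 0) :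
    (Summable fun i => ker p z (a i)) ∧ Real.log ‖f z‖ =
      ((Q.coeff (p + 1) + (((-1 : ℝ) ^ (p + 1) / (p + 1) *
        ∑' i, a i ^ (-((p + 1 : ℕ) : ℝ)) : ℝ) : ℂ)) * z ^ (p + 1)).re +
      (∑ k ∈ Finset.range (p + 1), Q.coeff k * z ^ k).re + ∑' i, ker p z (a i) := by
  obtain ⟨h1, h2⟩ := hlog z hz
  have hne : ∀ i, z ≠ -(a i : ℂ) := fun i h => hz ((hfz z).2 ⟨i, h⟩)
  have h3 : ∀ i, ker p z (a i) = ker (p + 1) z (a i) -
      (z ^ (p + 1)).re * ((-1 : ℝ) ^ (p + 1) / (p + 1)) * a i ^ (-((p + 1 : ℕ) : ℝ)) := by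
    intro i
    rw [intn_ker_succ p (ha i) (hne i)]
    ring
  have h4 : Summable fun i => (z ^ (p + 1)).re * ((-1 : ℝ) ^ (p + 1) / (p + 1)) *
      a i ^ (-((p + 1 : ℕ) : ℝ)) := hs.mul_left _
  have h5 : (Summable fun i => ker p z (a i)) := by
    simp only [h3]
    exact h1.sub h4
  refine ⟨h5, ?_⟩
  have h6 : ∑' i, ker p z (a i) = ∑' i, ker (p + 1) z (a i) -
      (z ^ (p + 1)).re * ((-1 : ℝ) ^ (p + 1) / (p + 1)) * ∑' i, a i ^ (-((p + 1 : ℕ) : ℝ)) := by
    simp only [h3]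
    rw [h1.tsum_sub h4, tsum_mul_left]
  rw [h2, h6, intn_poly hQ z, add_mul, Complex.add_re, Complex.add_re, Complex.re_ofReal_mul]
  ring

private theorem intn_small {p : ℕ} {ι : Type} [Countable ι] {a : ι → ℝ} (ha : ∀ i, 0 < a i)
    (hs : Summable fun i => a i ^ (-((p + 1 : ℕ) : ℝ))) (K C : ℝ) {ε : ℝ} (hε : 0 < ε) :
    ∀ᶠ r : ℝ in atTop, K * r ^ p + C * ∑' i, Phi p (r / a i) ≤ ε * r ^ (p + 1) := by
  have h1 : Tendsto (fun r : ℝ => (∑' i, Phi p (r / a i)) / r ^ ((p + 1 : ℕ) : ℝ)) atTop (𝓝 0) := by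
    refine tendsto_sum_Phi ?_ ?_ a ha hs
    · push_cast
      linarith
    · push_cast
      exact le_refl _
  have h2 : Tendsto (fun r : ℝ => K * r⁻¹ + C * ((∑' i, Phi p (r / a i)) /
      r ^ ((p + 1 : ℕ) : ℝ))) atTop (𝓝 (K * 0 + C * 0)) :=
    (tendsto_inv_atTop_zero.const_mul K).add (h1.const_mul C)
  rw [mul_zero, mul_zero, add_zero] at h2
  filter_upwards [h2.eventually (gt_mem_nhds hε), eventually_gt_atTop (0 : ℝ)] with r hr hr0
  rw [Real.rpow_natCast] at hr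
  have h3 : 0 < r ^ (p + 1) := pow_pos hr0 _
  have h4 : K * r ^ p + C * ∑' i, Phi p (r / a i) =
      (K * r⁻¹ + C * ((∑' i, Phi p (r / a i)) / r ^ (p + 1))) * r ^ (p + 1) := by
    rw [add_mul, mul_assoc C, div_mul_cancel₀ _ h3.ne', pow_succ]
    field_simp
  rw [h4]
  exact mul_le_mul_of_nonneg_right hr.le h3.le

/-! ### The theorems -/

/-- integer order, convergent balance -/
theorem indicator_of_summable {q : ℕ} (hq : 1 ≤ q) {f : ℂ → ℂ} (hf : OrderLE q f)
    {ι : Type} [Countable ι] {a : ι → ℝ} (ha : ∀ i, 0 < a i) {Q : Polynomial ℂ}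
    (hQ : Q.natDegree ≤ q) (hs : Summable fun i => a i ^ (-(q : ℝ)))
    (hfz : ∀ z, f z = 0 ↔ ∃ i, z = -(a i : ℂ))
    (hlog : ∀ z, f z ≠ 0 → (Summable fun i => ker q z (a i)) ∧
      Real.log ‖f z‖ = (Q.eval z).re + ∑' i, ker q z (a i)) :
    ∃ A B : ℝ, ∀ θ, indicatorOf q f θ =
      ((A * Real.cos (q * θ) + B * Real.sin (q * θ) : ℝ) : EReal) := by
  obtain ⟨p, rfl⟩ : ∃ p, q = p + 1 := ⟨q - 1, by omega⟩
  set c : ℂ := Q.coeff (p + 1) + (((-1 : ℝ) ^ (p + 1) / (p + 1) *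
        ∑' i, a i ^ (-((p + 1 : ℕ) : ℝ)) : ℝ) : ℂ) with hc
  set K : ℝ := ∑ k ∈ Finset.range (p + 1), ‖Q.coeff k‖ with hK
  have hdec := fun z hz => intn_main (p := p) ha hQ hs hfz hlog (z := z) hz
  have hPhi : ∀ r : ℝ, 0 ≤ r → Summable fun i => Phi p (r / a i) := fun r hr =>
    summable_Phi (p := p) (ρ := ((p + 1 : ℕ) : ℝ)) (by push_cast; linarith) (by push_cast; exact le_refl _)
      a ha hs hr
  have hPhi0 : ∀ r : ℝ, 0 ≤ r → ∀ i, 0 ≤ Phi p (r / a i) := fun r hr i =>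
    Phi_nonneg p (div_nonneg hr (ha i).le)
  obtain ⟨C, hC0, hC⟩ := norm_primary_le p
  set g : ℝ → ℝ := fun θ => c.re * Real.cos (((p + 1 : ℕ) : ℝ) * θ) +
    -c.im * Real.sin (((p + 1 : ℕ) : ℝ) * θ) with hg
  -- upper bound
  have hup : ∀ θ, indicatorOf ((p + 1 : ℕ) : ℝ) f θ ≤ (g θ : EReal) := by
    intro θ
    refine indicatorOf_le_of_eventually fun ε hε => ?_
    filter_upwards [intn_small (p := p) ha hs K C hε, eventually_ge_atTop (1 : ℝ)] with r hr hr1
    have hr0 : 0 ≤ r := by linarith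
    by_cases hz : f (r * Complex.exp (θ * Complex.I)) = 0
    · rw [hz, norm_zero]
      exact (Real.exp_pos _).le
    obtain ⟨h1, h2⟩ := hdec _ hz
    have hn := intn_norm hr0 θ
    have h3 : ∑' i, ker p (r * Complex.exp (θ * Complex.I)) (a i) ≤
        C * ∑' i, Phi p (r / a i) := by
      rw [← tsum_mul_left]
      refine h1.tsum_le_tsum (fun i => ?_) ((hPhi r hr0).mul_left C)
      have h4 := hC (-(r * Complex.exp (θ * Complex.I)) / (a i : ℂ))
      have h5 : ‖-(r * Complex.exp (θ * Complex.I)) / (a i : ℂ)‖ = r / a i := by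
        rw [norm_div, norm_neg, hn, Complex.norm_real, Real.norm_of_nonneg (ha i).le]
      rw [h5] at h4
      unfold ker
      by_cases h6 : primary p (-(r * Complex.exp (θ * Complex.I)) / (a i : ℂ)) = 0
      · rw [h6, norm_zero, Real.log_zero]
        exact mul_nonneg hC0.le (hPhi0 r hr0 i)
      · rw [← Real.log_exp (C * Phi p (r / a i))]
        exact Real.log_le_log (norm_pos_iff.2 h6) h4
    have h7 := intn_low (p := p) Q (z := r * Complex.exp (θ * Complex.I)) (by rw [hn]; exact hr1)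
    rw [hn] at h7
    have h8 := (abs_le.1 h7).2
    rw [← Real.exp_log (norm_pos_iff.2 hz)]
    refine Real.exp_le_exp.2 ?_
    rw [h2, intn_pow, Real.rpow_natCast]
    have h9 : r ^ (p + 1) * (c.re * Real.cos (((p + 1 : ℕ) : ℝ) * θ) +
        -c.im * Real.sin (((p + 1 : ℕ) : ℝ) * θ)) = g θ * r ^ (p + 1) := by
      rw [hg]
      ring
    rw [h9]
    linarith
  -- lower bound inside
  have hlow : ∀ θ, -Real.pi < θ → θ < Real.pi → (g θ : EReal) ≤ indicatorOf ((p + 1 : ℕ) : ℝ) f θ := by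
    intro θ hθ1 hθ2
    set δ : ℝ := Real.pi - |θ| with hδ
    have habs : |θ| < Real.pi := abs_lt.2 ⟨hθ1, hθ2⟩
    have hδ0 : 0 < δ := by rw [hδ]; linarith
    have hδπ : δ ≤ Real.pi := by rw [hδ]; linarith [abs_nonneg θ]
    have hsin : 0 < Real.sin (δ / 2) :=
      Real.sin_pos_of_pos_of_lt_pi (by linarith) (by linarith [Real.pi_pos])
    refine le_indicatorOf_of_frequently fun ε hε => Eventually.frequently ?_
    filter_upwards [intn_small (p := p) ha hs K (1 / Real.sin (δ / 2)) hε,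
      eventually_ge_atTop (1 : ℝ)] with r hr hr1
    have hr0 : 0 < r := by linarith
    have hsl := intn_slit hr0 hθ1 hθ2
    have hz := intn_ne_zero ha hfz hsl
    obtain ⟨h1, h2⟩ := hdec _ hz
    have hn := intn_norm hr0.le θ
    have h3 : -(1 / Real.sin (δ / 2) * ∑' i, Phi p (r / a i)) ≤
        ∑' i, ker p (r * Complex.exp (θ * Complex.I)) (a i) := by
      rw [← tsum_mul_left, ← tsum_neg]
      refine Summable.tsum_le_tsum (fun i => ?_) ((hPhi r hr0.le).mul_left _).neg h1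
      have h4 := abs_ker_le p hsl hδ0 hδπ (by
        rw [intn_arg hr0 hθ1 hθ2.le, hδ]
        linarith) (ha i)
      rw [hn] at h4
      have h5 := (abs_le.1 h4).1
      calc -(1 / Real.sin (δ / 2) * Phi p (r / a i)) = -(Phi p (r / a i) / Real.sin (δ / 2)) := by
            ring
        _ ≤ _ := h5
    have h7 := intn_low (p := p) Q (z := r * Complex.exp (θ * Complex.I)) (by rw [hn]; exact hr1)
    rw [hn] at h7
    have h8 := (abs_le.1 h7).1
    rw [← Real.exp_log (norm_pos_iff.2 hz)]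
    refine Real.exp_le_exp.2 ?_
    rw [h2, intn_pow, Real.rpow_natCast]
    have h9 : r ^ (p + 1) * (c.re * Real.cos (((p + 1 : ℕ) : ℝ) * θ) +
        -c.im * Real.sin (((p + 1 : ℕ) : ℝ) * θ)) = g θ * r ^ (p + 1) := by
      rw [hg]
      ring
    rw [h9]
    linarith
  have hin : ∀ θ, -Real.pi < θ → θ < Real.pi →
      indicatorOf ((p + 1 : ℕ) : ℝ) f θ = (g θ : EReal) := fun θ h1 h2 =>
    le_antisymm (hup θ) (hlow θ h1 h2)
  have hgper : ∀ θ, g (θ + 2 * Real.pi) = g θ := by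
    intro θ
    have e1 : ((p + 1 : ℕ) : ℝ) * (θ + 2 * Real.pi) =
        ((p + 1 : ℕ) : ℝ) * θ + ((p + 1 : ℕ) : ℝ) * (2 * Real.pi) := by ring
    simp only [hg]
    rw [e1, Real.cos_add_nat_mul_two_pi, Real.sin_add_nat_mul_two_pi]
  have hgc : Continuous g := by
    simp only [hg]
    fun_prop
  have hpi : indicatorOf ((p + 1 : ℕ) : ℝ) f Real.pi = (g Real.pi : EReal) := by
    refine indicatorOf_pi_eq (by positivity) hf hgc.continuousAt Real.pi_pos (fun θ h1 h2 => ?_) ?_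
    · rw [abs_lt] at h1
      rcases lt_or_gt_of_ne h2 with h3 | h3
      · exact hin θ (by linarith [Real.pi_pos]) h3
      · have h4 := hin (θ - 2 * Real.pi) (by linarith) (by linarith)
        rw [← indicatorOf_add_two_pi, ← hgper, sub_add_cancel] at h4
        exact h4
    · intro htop
      have := hup Real.pi
      rw [htop] at this
      exact absurd this (not_le.2 (EReal.coe_lt_top _))
  refine ⟨c.re, -c.im, ?_⟩
  have hall : ∀ θ, indicatorOf ((p + 1 : ℕ) : ℝ) f θ = (g θ : EReal) := by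
    intro θ
    have hF : Function.Periodic (fun θ => (indicatorOf ((p + 1 : ℕ) : ℝ) f θ, g θ))
        (2 * Real.pi) := fun θ => Prod.ext (indicatorOf_add_two_pi _ θ f) (hgper θ)
    obtain ⟨y, hy, hxy⟩ := hF.exists_mem_Ioc Real.two_pi_pos θ (-Real.pi)
    have e1 : indicatorOf ((p + 1 : ℕ) : ℝ) f θ = indicatorOf ((p + 1 : ℕ) : ℝ) f y :=
      congrArg Prod.fst hxy
    have e2 : g θ = g y := congrArg Prod.snd hxy
    rw [e1, e2]
    have hy2 : y ≤ Real.pi := by linarith [hy.2]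
    rcases eq_or_lt_of_le hy2 with rfl | hy3
    · exact hpi
    · exact hin y hy.1 hy3
  intro θ
  exact hall θ

/-- integer order, finite type: Lindelöf's balance condition -/
theorem summable_of_indicator_ne_top {q : ℕ} (hq : 1 ≤ q) {f : ℂ → ℂ}
    {ι : Type} [Countable ι] {a : ι → ℝ} (ha : ∀ i, 0 < a i) {Q : Polynomial ℂ}
    (hQ : Q.natDegree ≤ q)
    (hlog : ∀ z, f z ≠ 0 → (Summable fun i => ker q z (a i)) ∧
      Real.log ‖f z‖ = (Q.eval z).re + ∑' i, ker q z (a i))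
    (hfz : ∀ z, f z = 0 ↔ ∃ i, z = -(a i : ℂ))
    (htop : indicatorOf q f (star q) ≠ ⊤) : Summable fun i => a i ^ (-(q : ℝ)) := by
  obtain ⟨A, hA, _⟩ := EReal.lt_iff_exists_real_btwn.1 (lt_top_iff_ne_top.2 htop)
  have hev := eventually_le_of_indicatorOf_lt hA
  set K : ℝ := ∑ k ∈ Finset.range (q + 1), ‖Q.coeff k‖ with hK
  have hs0 := s0_pos q
  have hst0 := star_nonneg q
  have hst1 := star_lt_pi q
  -- the bound for the sum of `Phi`
  have hb : ∀ F : Finset ι, ∀ᶠ r : ℝ in atTop,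
      s0 q * ∑ i ∈ F, Phi q (r / a i) ≤ (A + K) * r ^ q := by
    intro F
    filter_upwards [hev, eventually_ge_atTop (1 : ℝ)] with r hr hr1
    have hr0 : 0 < r := by linarith
    have hsl := intn_slit hr0 (θ := star q) (by linarith [Real.pi_pos]) hst1
    have hz := intn_ne_zero ha hfz hsl
    obtain ⟨h1, h2⟩ := hlog _ hz
    have hn := intn_norm hr0.le (star q)
    have h3 : Real.log ‖f (r * Complex.exp (star q * Complex.I))‖ ≤ A * r ^ (q : ℝ) := by
      rw [Real.log_le_iff_le_exp (norm_pos_iff.2 hz)]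
      exact hr
    have h4 : s0 q * ∑ i ∈ F, Phi q (r / a i) ≤
        ∑' i, ker q (r * Complex.exp (star q * Complex.I)) (a i) := by
      rw [Finset.mul_sum]
      refine (Finset.sum_le_sum fun i _ => ker_star_ge q hr0 (ha i)).trans ?_
      refine h1.sum_le_tsum F fun i _ => ?_
      exact (mul_nonneg hs0.le (Phi_nonneg q (div_nonneg hr0.le (ha i).le))).trans
        (ker_star_ge q hr0 (ha i))
    have h5 : |(Q.eval (r * Complex.exp (star q * Complex.I))).re| ≤ K * r ^ q := by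
      rw [Polynomial.eval_eq_sum_range' (Nat.lt_succ_of_le hQ)]
      have := intn_low (p := q) Q (z := r * Complex.exp (star q * Complex.I))
        (by rw [hn]; exact hr1)
      rw [hn] at this
      exact this
    have h6 := (abs_le.1 h5).1
    rw [Real.rpow_natCast] at h3
    rw [add_mul]
    linarith
  refine summable_of_sum_le (c := 2 * (q + 1) * ((A + K) / s0 q)) (fun i =>
    Real.rpow_nonneg (ha i).le _) fun F => ?_
  have hmax : ∀ᶠ r : ℝ in atTop, ∀ i ∈ F, a i ≤ r :=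
    (Finset.eventually_all F).2 fun i _ => eventually_ge_atTop (a i)
  obtain ⟨r, h1, h2, hr1⟩ := ((hb F).and (hmax.and (eventually_ge_atTop (1 : ℝ)))).exists
  have hr0 : 0 < r := by linarith
  have hrq : 0 < r ^ q := pow_pos hr0 _
  have h3 : ∀ i ∈ F, r ^ q * a i ^ (-(q : ℝ)) ≤ 2 * (q + 1) * Phi q (r / a i) := by
    intro i hi
    have hx : 1 ≤ r / a i := (one_le_div (ha i)).2 (h2 i hi)
    have hx0 : 0 ≤ r / a i := by linarith
    have h4 := Phi_ge q hx0
    have h5 : r ^ q * a i ^ (-(q : ℝ)) = (r / a i) ^ q := by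
      rw [Real.rpow_neg (ha i).le, Real.rpow_natCast, div_pow, div_eq_mul_inv]
    rw [h5]
    have hq0 : (0 : ℝ) < q + 1 := by positivity
    have h6 : (r / a i) ^ q ≤ 2 * (q + 1) * ((r / a i) ^ (q + 1) / ((q + 1) * (1 + r / a i))) := by
      have h7 : 2 * ((q : ℝ) + 1) * ((r / a i) ^ (q + 1) / ((q + 1) * (1 + r / a i))) =
          (r / a i) ^ q * (2 * (r / a i) / (1 + r / a i)) := by
        have : (1 + r / a i) ≠ 0 := by positivity
        rw [pow_succ]
        field_simp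
      rw [h7]
      refine le_mul_of_one_le_right (by positivity) ?_
      rw [one_le_div (by linarith)]
      linarith
    exact h6.trans (mul_le_mul_of_nonneg_left h4 (by positivity))
  have h8 : r ^ q * ∑ i ∈ F, a i ^ (-(q : ℝ)) ≤ 2 * (q + 1) * ((A + K) / s0 q) * r ^ q := by
    rw [Finset.mul_sum]
    refine (Finset.sum_le_sum h3).trans ?_
    rw [← Finset.mul_sum]
    have h9 : ∑ i ∈ F, Phi q (r / a i) ≤ (A + K) / s0 q * r ^ q := by
      rw [div_mul_eq_mul_div, le_div_iff₀ hs0]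
      linarith
    calc 2 * ((q : ℝ) + 1) * ∑ i ∈ F, Phi q (r / a i)
        ≤ 2 * ((q : ℝ) + 1) * ((A + K) / s0 q * r ^ q) :=
          mul_le_mul_of_nonneg_left h9 (by positivity)
      _ = 2 * ((q : ℝ) + 1) * ((A + K) / s0 q) * r ^ q := by ring
  rw [mul_comm (r ^ q)] at h8
  exact le_of_mul_le_mul_right h8 hrq

end Helper25.Ind
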