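import Pool.Agent.Helper25.Ind.Defs

open Complex Filter Topology MeasureTheory Set

namespace Helper25.Ind

private noncomputable def minseqU (k : ℕ) : ℝ := 1 / Real.log (k + 3)

private noncomputable def minseqD (k : ℕ) : ℝ := minseqU k - minseqU (k + 1)

private lemma minseq_log {x : ℝ} (hx : 3 ≤ x) : 1 < Real.log x := by
  have h3 : Real.exp 1 < 3 := Real.exp_one_lt_d9.trans (by norm_num)
  rw [Real.lt_log_iff_exp_lt (by linarith)]
  linarith

private lemma minseqU_pos (k : ℕ) : 0 < minseqU k := by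
  have := minseq_log (x := (k : ℝ) + 3) (by linarith [k.cast_nonneg (α := ℝ)])
  unfold minseqU; positivity

private lemma minseqU_lt (k : ℕ) : minseqU k < 1 := by
  have := minseq_log (x := (k : ℝ) + 3) (by linarith [k.cast_nonneg (α := ℝ)])
  unfold minseqU; rw [div_lt_one (by linarith)]; exact this

private lemma minseqD_ge (k : ℕ) : 1 / (((k : ℝ) + 4) * Real.log (k + 4) ^ 2) ≤ minseqD k := by
  have hk : (0 : ℝ) ≤ k := k.cast_nonneg
  have h1 := minseq_log (x := (k : ℝ) + 3) (by linarith)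
  have h2 := minseq_log (x := (k : ℝ) + 4) (by linarith)
  have e : minseqD k = (Real.log (k + 4) - Real.log (k + 3)) / (Real.log (k + 3) * Real.log (k + 4)) := by
    unfold minseqD minseqU
    push_cast
    have : (k : ℝ) + 1 + 3 = k + 4 := by ring
    rw [this]
    field_simp
  have h3 : Real.log (k + 3) ≤ Real.log (k + 4) := Real.log_le_log (by linarith) (by linarith)
  have h4 : 1 / ((k : ℝ) + 4) ≤ Real.log (k + 4) - Real.log (k + 3) := by
    have := Real.one_sub_inv_le_log_of_pos (x := ((k : ℝ) + 4) / (k + 3)) (by positivity)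
    rw [Real.log_div (by linarith) (by linarith)] at this
    refine le_trans (le_of_eq ?_) this
    field_simp
    ring
  rw [e, le_div_iff₀ (by positivity)]
  calc _ = (1 / ((k : ℝ) + 4)) * (Real.log (k + 3) / Real.log (k + 4)) := by field_simp
    _ ≤ (1 / ((k : ℝ) + 4)) * 1 := by
        gcongr
        rw [div_le_one (by linarith)]; exact h3
    _ ≤ _ := by linarith

private lemma minseqD_pos (k : ℕ) : 0 < minseqD k := by
  refine lt_of_lt_of_le ?_ (minseqD_ge k)
  have h2 := minseq_log (x := (k : ℝ) + 4) (by linarith [k.cast_nonneg (α := ℝ)])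
  positivity

private lemma minseqD_lt (k : ℕ) : minseqD k < 1 := by
  unfold minseqD
  linarith [minseqU_lt k, minseqU_pos (k + 1)]

private lemma minseqD_summable : Summable minseqD := by
  refine summable_of_sum_range_le (c := 1) (fun n => (minseqD_pos n).le) fun n => ?_
  have : ∑ i ∈ Finset.range n, minseqD i = minseqU 0 - minseqU n := by
    unfold minseqD; exact Finset.sum_range_sub' _ n
  rw [this]
  linarith [minseqU_lt 0, minseqU_pos n]

theorem exists_minimal_seq {ρ : ℝ} (hρ : 0 < ρ) :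
    ∃ b : ℕ → ℝ, (∀ k, 1 < b k) ∧ (Summable fun k => b k ^ (-ρ)) ∧
      ∀ σ < ρ, ∀ c > 0, ∀ᶠ r : ℝ in atTop, ∃ n : ℕ, r ^ σ ≤ c * n ∧ ∀ k < n, b k ≤ r := by
  refine ⟨fun k => minseqD k ^ (-(1 / ρ)), fun k => ?_, ?_, ?_⟩
  · exact Real.one_lt_rpow_of_pos_of_lt_one_of_neg (minseqD_pos k) (minseqD_lt k)
      (by simp [hρ])
  · refine minseqD_summable.congr fun k => ?_
    rw [← Real.rpow_mul (minseqD_pos k).le]
    have : -(1 / ρ) * -ρ = 1 := by field_simp
    rw [this, Real.rpow_one]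
  · intro σ hσ c hc
    obtain ⟨τ, hτ1, hτ2⟩ := exists_between (max_lt hσ hρ)
    have hτσ : σ < τ := lt_of_le_of_lt (le_max_left _ _) hτ1
    have hτ0 : 0 < τ := lt_of_le_of_lt (le_max_right _ _) hτ1
    set ε : ℝ := (ρ - τ) / (4 * τ) with hε
    have ε0 : 0 < ε := by rw [hε]; exact div_pos (by linarith) (by linarith)
    have hexp : τ * (1 + 2 * ε) = (ρ + τ) / 2 := by rw [hε]; field_simp; ring
    have l1 : Tendsto (fun r : ℝ => r ^ (-(τ - σ))) atTop (𝓝 0) :=
      tendsto_rpow_neg_atTop (by linarith)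
    have l2 : Tendsto (fun r : ℝ => r ^ (-τ)) atTop (𝓝 0) := tendsto_rpow_neg_atTop hτ0
    have l3 : Tendsto (fun r : ℝ => (4 : ℝ) ^ (1 + 2 * ε) / ε ^ 2 * r ^ (-((ρ - τ) / 2))) atTop
        (𝓝 ((4 : ℝ) ^ (1 + 2 * ε) / ε ^ 2 * 0)) :=
      (tendsto_rpow_neg_atTop (by linarith)).const_mul _
    rw [mul_zero] at l3
    have e1 := l1.eventually_le_const (show (0 : ℝ) < c / 2 by linarith)
    have e2 := l2.eventually_le_const (show (0 : ℝ) < 1 / 2 by norm_num)
    have e3 := l3.eventually_le_const (show (0 : ℝ) < 1 by norm_num)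
    filter_upwards [e1, e2, e3, eventually_ge_atTop 1] with r h1 h2 h3 hr
    have r0 : 0 < r := by linarith
    have rτ : 1 ≤ r ^ τ := Real.one_le_rpow hr hτ0.le
    refine ⟨⌊r ^ τ⌋₊, ?_, fun k hk => ?_⟩
    · have hfl : r ^ τ - 1 < (⌊r ^ τ⌋₊ : ℝ) := by
        have := Nat.lt_floor_add_one (r ^ τ); linarith
      have a1 : r ^ σ ≤ c / 2 * r ^ τ := by
        calc r ^ σ = r ^ (-(τ - σ)) * r ^ τ := by rw [← Real.rpow_add r0]; congr 1; ring
          _ ≤ _ := by gcongr
      have a2 : 1 ≤ 1 / 2 * r ^ τ := by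
        calc (1 : ℝ) = r ^ (-τ) * r ^ τ := by rw [← Real.rpow_add r0]; simp
          _ ≤ _ := by gcongr
      calc r ^ σ ≤ c / 2 * r ^ τ := a1
        _ = c * (r ^ τ - 1 / 2 * r ^ τ) := by ring
        _ ≤ c * (r ^ τ - 1) := by gcongr
        _ ≤ _ := by gcongr
    · have hk' : (k : ℝ) + 1 ≤ r ^ τ := by
        have h' : ((k + 1 : ℕ) : ℝ) ≤ (⌊r ^ τ⌋₊ : ℝ) := by exact_mod_cast hk
        push_cast at h'
        exact h'.trans (Nat.floor_le (by positivity))
      have hk0 : (0 : ℝ) ≤ k := k.cast_nonneg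
      have hk4 : (k : ℝ) + 4 ≤ 4 * r ^ τ := by linarith
      have hlog : Real.log (k + 4) ≤ ((k : ℝ) + 4) ^ ε / ε :=
        Real.log_le_rpow_div (by linarith) ε0
      have hlog0 := minseq_log (x := (k : ℝ) + 4) (by linarith)
      have b1 : ((k : ℝ) + 4) * Real.log (k + 4) ^ 2 ≤ r ^ ρ := by
        calc ((k : ℝ) + 4) * Real.log (k + 4) ^ 2
            ≤ ((k : ℝ) + 4) * (((k : ℝ) + 4) ^ ε / ε) ^ 2 := by gcongr
          _ = ((k : ℝ) + 4) ^ (1 + 2 * ε) / ε ^ 2 := by
              rw [div_pow, ← Real.rpow_natCast (((k : ℝ) + 4) ^ ε) 2, ← Real.rpow_mul (by linarith),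
                Real.rpow_add (by linarith), Real.rpow_one]
              push_cast
              rw [mul_comm ε 2]
              ring
          _ ≤ (4 * r ^ τ) ^ (1 + 2 * ε) / ε ^ 2 := by gcongr
          _ = (4 : ℝ) ^ (1 + 2 * ε) / ε ^ 2 * r ^ ((ρ + τ) / 2) := by
              rw [Real.mul_rpow (by norm_num) (by positivity), ← Real.rpow_mul r0.le, hexp]; ring
          _ = ((4 : ℝ) ^ (1 + 2 * ε) / ε ^ 2 * r ^ (-((ρ - τ) / 2))) * r ^ ρ := by
              rw [mul_assoc, ← Real.rpow_add r0]; congr 2; ring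
          _ ≤ 1 * r ^ ρ := by gcongr
          _ = _ := one_mul _
      have b2 : r ^ (-ρ) ≤ minseqD k := by
        refine le_trans ?_ (minseqD_ge k)
        rw [Real.rpow_neg r0.le, ← one_div]
        exact one_div_le_one_div_of_le (by positivity) b1
      show minseqD k ^ (-(1 / ρ)) ≤ r
      calc minseqD k ^ (-(1 / ρ)) ≤ (r ^ (-ρ)) ^ (-(1 / ρ)) :=
            Real.rpow_le_rpow_of_nonpos (by positivity) b2 (by simp [hρ.le])
        _ = r := by
            rw [← Real.rpow_mul r0.le]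
            have : -ρ * -(1 / ρ) = 1 := by field_simp
            rw [this, Real.rpow_one]

end Helper25.Ind
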