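import Pool.Agent.Helper25.Ind.Defs
import Pool.Agent.Helper25.Ind.Canon
import Pool.Agent.Helper25.Ind.SumPhi
import Pool.Agent.Helper25.Ind.MinSeq
import Pool.Agent.Helper25.Ind.Trig
import Pool.Agent.Helper25.Ind.KerB

open Complex Filter Topology MeasureTheory Set

namespace Helper25.Ind

lemma min_norm_polar {r : ℝ} (hr : 0 ≤ r) (θ : ℝ) :
    ‖(r : ℂ) * Complex.exp (θ * Complex.I)‖ = r := by
  rw [norm_mul, Complex.norm_exp_ofReal_mul_I, mul_one, Complex.norm_real, Real.norm_of_nonneg hr]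

lemma min_arg_polar {r : ℝ} (hr : 0 < r) {θ : ℝ} (h : |θ| < Real.pi) :
    ((r : ℂ) * Complex.exp (θ * Complex.I)).arg = θ := by
  rw [Complex.arg_real_mul _ hr, Complex.arg_exp_mul_I, toIocMod_eq_self]
  constructor
  · linarith [(abs_lt.mp h).1]
  · linarith [(abs_lt.mp h).2]

lemma min_exists_nat {ρ : ℝ} (hρ : 0 < ρ) : ∃ p : ℕ, (p : ℝ) < ρ ∧ ρ ≤ p + 1 := by
  have h0 : 0 < ⌈ρ⌉₊ := Nat.ceil_pos.mpr hρ
  obtain ⟨p, hp⟩ : ∃ p, ⌈ρ⌉₊ = p + 1 := ⟨⌈ρ⌉₊ - 1, by omega⟩
  refine ⟨p, ?_, ?_⟩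
  · have := Nat.ceil_lt_add_one hρ.le
    rw [hp] at this
    push_cast at this
    linarith
  · have := Nat.le_ceil ρ
    rw [hp] at this
    push_cast at this
    linarith

lemma min_ker_le_of {p : ℕ} {C : ℝ}
    (hC : ∀ u : ℂ, ‖primary p u‖ ≤ Real.exp (C * Phi p ‖u‖)) (hC0 : 0 < C) (z : ℂ) {t : ℝ}
    (ht : 0 < t) : ker p z t ≤ C * Phi p (‖z‖ / t) := by
  have hn : ‖-z / (t : ℂ)‖ = ‖z‖ / t := by
    rw [norm_div, norm_neg, Complex.norm_real, Real.norm_of_nonneg ht.le]
  have hpos : 0 ≤ C * Phi p (‖z‖ / t) :=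
    mul_nonneg hC0.le (Phi_nonneg p (by positivity))
  unfold ker
  by_cases h0 : ‖primary p (-z / t)‖ = 0
  · rw [h0, Real.log_zero]
    exact hpos
  · have h1 : 0 < ‖primary p (-z / t)‖ := lt_of_le_of_ne (norm_nonneg _) (Ne.symm h0)
    rw [Real.log_le_iff_le_exp h1]
    have := hC (-z / t)
    rwa [hn] at this

/-- The value `0` of the indicator, from two-sided bounds on the logarithm. -/
lemma min_indicator_zero {ρ θ : ℝ} {f : ℂ → ℂ}
    (hne : ∀ᶠ r : ℝ in atTop, f (r * Complex.exp (θ * Complex.I)) ≠ 0)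
    (h : ∀ ε : ℝ, 0 < ε → ∀ᶠ r : ℝ in atTop,
      |Real.log ‖f (r * Complex.exp (θ * Complex.I))‖| ≤ ε * r ^ ρ) :
    indicatorOf ρ f θ = 0 := by
  apply le_antisymm
  · have : indicatorOf ρ f θ ≤ ((0 : ℝ) : EReal) := by
      apply indicatorOf_le_of_eventually
      intro ε hε
      filter_upwards [hne, h ε hε] with r h1 h2
      have h3 : 0 < ‖f (r * Complex.exp (θ * Complex.I))‖ := norm_pos_iff.mpr h1
      rw [zero_add, ← Real.log_le_iff_le_exp h3]
      exact (abs_le.mp h2).2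
    simpa using this
  · have : ((0 : ℝ) : EReal) ≤ indicatorOf ρ f θ := by
      apply le_indicatorOf_of_frequently
      intro ε hε
      apply Eventually.frequently
      filter_upwards [hne, h ε hε] with r h1 h2
      have h3 : 0 < ‖f (r * Complex.exp (θ * Complex.I))‖ := norm_pos_iff.mpr h1
      rw [← Real.le_log_iff_exp_le h3]
      have := (abs_le.mp h2).1
      linarith
    simpa using this

theorem exists_minimal {ρ : ℝ} (hρ : 0 < ρ) :
    ∃ f, IsN ρ f ∧ (∀ θ, indicatorOf ρ f θ = 0) ∧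
      (∀ z, |z.arg| < Real.pi → f z ≠ 0) ∧
      ∀ δ : ℝ, 0 < δ → ∀ ε : ℝ, 0 < ε → ∃ R : ℝ, ∀ z : ℂ, |z.arg| ≤ Real.pi - δ → R ≤ ‖z‖ →
        |Real.log ‖f z‖| ≤ ε * ‖z‖ ^ ρ := by
  obtain ⟨p, hp1, hp2⟩ := min_exists_nat hρ
  obtain ⟨b, hb1, hbs, hbg⟩ := exists_minimal_seq hρ
  have hb0 : ∀ k, 0 < b k := fun k => lt_trans one_pos (hb1 k)
  have hbs' : Summable fun i => (b i)⁻¹ ^ (p + 1) := by
    refine Summable.of_nonneg_of_le (fun i => by have := hb0 i; positivity) (fun i => ?_) hbs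
    rw [inv_pow, Real.rpow_neg (hb0 i).le]
    have h1 : b i ^ ρ ≤ b i ^ (p + 1) := by
      have := Real.rpow_le_rpow_of_exponent_le (hb1 i).le hp2
      have h2 : b i ^ ((p : ℝ) + 1) = b i ^ (p + 1) := by
        rw [← Real.rpow_natCast]; push_cast; rfl
      rwa [h2] at this
    exact inv_anti₀ (Real.rpow_pos_of_pos (hb0 i) _) h1
  obtain ⟨f, hfd, hf0, hfz, hfl⟩ := exists_canonical (p := p) b hb0 hbs'
  obtain ⟨C, hC0, hC⟩ := norm_primary_le p
  -- nonvanishing
  have hnv : ∀ z : ℂ, |z.arg| < Real.pi → f z ≠ 0 := by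
    intro z hz h
    obtain ⟨i, hi⟩ := (hfz z).mp h
    have h1 : z.arg = Real.pi := by
      rw [hi, ← Complex.ofReal_neg]
      exact Complex.arg_ofReal_of_neg (by linarith [hb0 i])
    rw [h1, abs_of_pos Real.pi_pos] at hz
    exact lt_irrefl _ hz
  have hsP : ∀ r : ℝ, 0 ≤ r → Summable fun i => Phi p (r / b i) := fun r hr =>
    summable_Phi hp1 hp2 b hb0 hbs hr
  have htP := tendsto_sum_Phi hp1 hp2 b hb0 hbs
  -- eventual smallness of the sum
  have hsmall : ∀ ε : ℝ, 0 < ε → ∃ R : ℝ, 1 ≤ R ∧ ∀ r : ℝ, R ≤ r →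
      (∑' i, Phi p (r / b i)) ≤ ε * r ^ ρ := by
    intro ε hε
    have h1 := htP.eventually (gt_mem_nhds hε)
    obtain ⟨R, hR⟩ := (h1.and (eventually_ge_atTop 1)).exists_forall_of_atTop
    refine ⟨max R 1, le_max_right _ _, fun r hr => ?_⟩
    obtain ⟨h2, h3⟩ := hR r (le_trans (le_max_left _ _) hr)
    have h4 : 0 < r ^ ρ := Real.rpow_pos_of_pos (by linarith) _
    have := (div_lt_iff₀ h4).mp h2
    exact this.le
  -- upper bound
  have hup : ∀ z : ℂ, ‖f z‖ ≤ Real.exp (C * ∑' i, Phi p (‖z‖ / b i)) := by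
    intro z
    by_cases h0 : f z = 0
    · rw [h0, norm_zero]; exact (Real.exp_pos _).le
    · obtain ⟨h1, h2⟩ := hfl z h0
      have h3 : 0 < ‖f z‖ := norm_pos_iff.mpr h0
      rw [← Real.log_le_iff_le_exp h3, h2, ← tsum_mul_left]
      exact h1.tsum_le_tsum (fun i => min_ker_le_of hC hC0 z (hb0 i))
        ((hsP _ (norm_nonneg z)).mul_left C)
  have hup' : ∀ ε : ℝ, 0 < ε → ∃ R : ℝ, 1 ≤ R ∧ ∀ z : ℂ, R ≤ ‖z‖ →
      ‖f z‖ ≤ Real.exp (ε * ‖z‖ ^ ρ) := by
    intro ε hε
    obtain ⟨R, hR1, hR⟩ := hsmall (ε / C) (by positivity)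
    refine ⟨R, hR1, fun z hz => (hup z).trans ?_⟩
    apply Real.exp_le_exp.mpr
    have := mul_le_mul_of_nonneg_left (hR _ hz) hC0.le
    calc C * ∑' i, Phi p (‖z‖ / b i) ≤ C * (ε / C * ‖z‖ ^ ρ) := this
      _ = ε * ‖z‖ ^ ρ := by field_simp
  have hN : IsN ρ f := by
    refine ⟨hfd, ?_, ?_, ?_⟩
    · intro z hz
      obtain ⟨i, hi⟩ := (hfz z).mp hz
      rw [hi]
      constructor
      · simp
      · simpa using hb0 i
    · intro σ hσ
      obtain ⟨R, hR1, hR⟩ := hup' 1 one_pos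
      refine ⟨R, fun z hz => (hR z hz).trans ?_⟩
      rw [one_mul]
      exact Real.exp_le_exp.mpr (Real.rpow_le_rpow_of_exponent_le (hR1.trans hz) hσ.le)
    · intro σ hσ R
      have hc : 0 < s0 p * Phi p 1 := mul_pos (s0_pos p) (Phi_pos p one_pos)
      obtain ⟨r, ⟨n, hn1, hn2⟩, hr⟩ :=
        ((hbg σ hσ _ hc).and (eventually_ge_atTop (max R 1))).exists
      have hr1 : 1 ≤ r := le_trans (le_max_right _ _) hr
      have hr0 : 0 < r := by linarith
      have hst : |star p| < Real.pi := by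
        rw [abs_of_nonneg (star_nonneg p)]; exact star_lt_pi p
      set z : ℂ := (r : ℂ) * Complex.exp (star p * Complex.I) with hz
      have hzn : ‖z‖ = r := min_norm_polar hr0.le _
      have hza : z.arg = star p := min_arg_polar hr0 hst
      have hfz0 : f z ≠ 0 := hnv z (by rw [hza]; exact hst)
      refine ⟨z, by rw [hzn]; exact le_trans (le_max_left _ _) hr, ?_⟩
      obtain ⟨h1, h2⟩ := hfl z hfz0
      have h3 : 0 < ‖f z‖ := norm_pos_iff.mpr hfz0
      rw [← Real.le_log_iff_exp_le h3, h2, hzn]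
      refine hn1.trans ?_
      have hk : ∀ i, s0 p * Phi p (r / b i) ≤ ker p z (b i) := fun i =>
        ker_star_ge p hr0 (hb0 i)
      have hk0 : ∀ i, 0 ≤ ker p z (b i) := fun i =>
        le_trans (mul_nonneg (s0_pos p).le (Phi_nonneg p (by have := hb0 i; positivity))) (hk i)
      calc s0 p * Phi p 1 * (n : ℝ) = ∑ i ∈ Finset.range n, s0 p * Phi p 1 := by
            rw [Finset.sum_const, Finset.card_range, nsmul_eq_mul]; ring
        _ ≤ ∑ i ∈ Finset.range n, ker p z (b i) := by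
            apply Finset.sum_le_sum
            intro i hi
            refine le_trans (mul_le_mul_of_nonneg_left ?_ (s0_pos p).le) (hk i)
            apply Phi_mono p zero_le_one
            rw [le_div_iff₀ (hb0 i), one_mul]
            exact hn2 i (Finset.mem_range.mp hi)
        _ ≤ ∑' i, ker p z (b i) := h1.sum_le_tsum _ (fun i _ => hk0 i)
  have hlast : ∀ δ : ℝ, 0 < δ → ∀ ε : ℝ, 0 < ε → ∃ R : ℝ, ∀ z : ℂ,
      |z.arg| ≤ Real.pi - δ → R ≤ ‖z‖ → |Real.log ‖f z‖| ≤ ε * ‖z‖ ^ ρ := by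
    intro δ hδ ε hε
    by_cases hδ' : δ ≤ Real.pi
    · have hs : 0 < Real.sin (δ / 2) :=
        Real.sin_pos_of_pos_of_lt_pi (by linarith) (by linarith [Real.pi_pos])
      obtain ⟨R, hR1, hR⟩ := hsmall (ε * Real.sin (δ / 2)) (by positivity)
      refine ⟨R, fun z hz hzR => ?_⟩
      have hz0 : z ≠ 0 := by
        intro h; rw [h, norm_zero] at hzR; linarith
      have harg : |z.arg| < Real.pi := by linarith
      have hsl : z ∈ slitPlane := by
        rw [Complex.mem_slitPlane_iff_arg]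
        refine ⟨fun h => ?_, hz0⟩
        rw [h, abs_of_pos Real.pi_pos] at harg
        exact lt_irrefl _ harg
      obtain ⟨h1, h2⟩ := hfl z (hnv z harg)
      rw [h2]
      have h3 : ∀ i, |ker p z (b i)| ≤ Phi p (‖z‖ / b i) / Real.sin (δ / 2) := fun i =>
        abs_ker_le p hsl hδ hδ' hz (hb0 i)
      have h4 : Summable fun i => Phi p (‖z‖ / b i) / Real.sin (δ / 2) :=
        (hsP _ (norm_nonneg z)).div_const _
      have h5 : Summable fun i => |ker p z (b i)| :=
        Summable.of_nonneg_of_le (fun i => abs_nonneg _) h3 h4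
      have h6 : |∑' i, ker p z (b i)| ≤ ∑' i, |ker p z (b i)| := by
        have := norm_tsum_le_tsum_norm (f := fun i => ker p z (b i)) (by simpa using h5)
        simpa using this
      refine h6.trans ((h5.tsum_le_tsum h3 h4).trans ?_)
      rw [tsum_div_const, div_le_iff₀ hs]
      have := hR _ hzR
      calc ∑' i, Phi p (‖z‖ / b i) ≤ ε * Real.sin (δ / 2) * ‖z‖ ^ ρ := this
        _ = ε * ‖z‖ ^ ρ * Real.sin (δ / 2) := by ring
    · refine ⟨0, fun z hz => ?_⟩
      exfalso
      have := abs_nonneg z.arg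
      linarith
  -- indicator
  have hind1 : ∀ θ : ℝ, |θ| < Real.pi → indicatorOf ρ f θ = 0 := by
    intro θ hθ
    apply min_indicator_zero
    · filter_upwards [eventually_gt_atTop 0] with r hr
      apply hnv
      rw [min_arg_polar hr hθ]
      exact hθ
    · intro ε hε
      obtain ⟨R, hR⟩ := hlast (Real.pi - |θ|) (by linarith) ε hε
      filter_upwards [eventually_gt_atTop 0, eventually_ge_atTop R] with r hr hrR
      have := hR (r * Complex.exp (θ * Complex.I)) (by rw [min_arg_polar hr hθ]; linarith)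
        (by rw [min_norm_polar hr.le]; exact hrR)
      rwa [min_norm_polar hr.le] at this
  have hindpi : indicatorOf ρ f Real.pi = 0 := by
    have hO : OrderLE ρ f := ⟨hN.differentiable, hN.upper⟩
    have := indicatorOf_pi_eq (g := fun _ => (0 : ℝ)) hρ hO continuousAt_const Real.pi_pos
      (fun θ hθ hne => ?_) ?_
    · simpa using this
    · show indicatorOf ρ f θ = ((0 : ℝ) : EReal)
      rw [EReal.coe_zero]
      rw [abs_lt] at hθ
      rcases lt_or_gt_of_ne hne with h | h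
      · apply hind1
        rw [abs_lt]
        constructor <;> linarith [Real.pi_pos]
      · have h1 : indicatorOf ρ f θ = indicatorOf ρ f (θ - 2 * Real.pi) := by
          have := indicatorOf_add_two_pi ρ (θ - 2 * Real.pi) f
          rw [sub_add_cancel] at this
          exact this
        rw [h1]
        apply hind1
        rw [abs_lt]
        constructor <;> linarith [Real.pi_pos]
    · have h1 : indicatorOf ρ f Real.pi ≤ ((0 : ℝ) : EReal) := by
        apply indicatorOf_le_of_eventually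
        intro ε hε
        obtain ⟨R, hR1, hR⟩ := hup' ε hε
        filter_upwards [eventually_ge_atTop R] with r hr
        have hr0 : 0 ≤ r := by linarith
        have := hR (r * Complex.exp (Real.pi * Complex.I)) (by rw [min_norm_polar hr0]; exact hr)
        rw [min_norm_polar hr0] at this
        rw [zero_add]
        exact this
      intro h2
      rw [h2] at h1
      exact absurd h1 (not_le.mpr (EReal.coe_lt_top 0))
  refine ⟨f, hN, ?_, hnv, hlast⟩
  intro θ
  have hper : Function.Periodic (indicatorOf ρ f) (2 * Real.pi) := fun x =>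
    indicatorOf_add_two_pi ρ x f
  obtain ⟨y, hy, hxy⟩ := hper.exists_mem_Ioc Real.two_pi_pos θ (-Real.pi)
  rw [hxy]
  rcases eq_or_lt_of_le hy.2 with h | h
  · have : y = Real.pi := by linarith
    rw [this]; exact hindpi
  · apply hind1
    rw [abs_lt]
    constructor
    · exact hy.1
    · linarith

end Helper25.Ind
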