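import Pool.Agent.Helper25.Ind.Defs
import Pool.Agent.Helper25.Ind.Min

open Complex Filter Topology MeasureTheory Set

namespace Helper25.Ind

/-- The real part of the exponent on a ray. -/
lemma ints_re (q : ℕ) (A B r θ : ℝ) :
    (((A : ℂ) - B * Complex.I) * ((r : ℂ) * Complex.exp (θ * Complex.I)) ^ q).re =
      (A * Real.cos (q * θ) + B * Real.sin (q * θ)) * r ^ q := by
  have h1 : ((r : ℂ) * Complex.exp (θ * Complex.I)) ^ q =
      ((r ^ q : ℝ) : ℂ) * (((Real.cos (q * θ) : ℝ) : ℂ) + ((Real.sin (q * θ) : ℝ) : ℂ) * Complex.I) := by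
    rw [mul_pow, ← Complex.exp_nat_mul, ← Complex.ofReal_pow]
    congr 1
    have : (q : ℂ) * (θ * Complex.I) = ((q * θ : ℝ) : ℂ) * Complex.I := by push_cast; ring
    rw [this, Complex.exp_mul_I, Complex.ofReal_cos, Complex.ofReal_sin]
  rw [h1]
  simp only [Complex.mul_re, Complex.sub_re, Complex.sub_im, Complex.add_re, Complex.add_im,
    Complex.mul_im, Complex.ofReal_re, Complex.ofReal_im, Complex.I_re, Complex.I_im]
  ring

lemma ints_abs_re (q : ℕ) (A B : ℝ) (z : ℂ) :
    (((A : ℂ) - B * Complex.I) * z ^ q).re ≤ (|A| + |B|) * ‖z‖ ^ q := by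
  refine (Complex.re_le_norm _).trans ?_
  rw [norm_mul, norm_pow]
  refine mul_le_mul_of_nonneg_right ?_ (by positivity)
  refine (norm_sub_le _ _).trans ?_
  rw [norm_mul, Complex.norm_I, mul_one, Complex.norm_real, Complex.norm_real, Real.norm_eq_abs,
    Real.norm_eq_abs]

lemma ints_exists_pos {q : ℕ} (hq : 1 ≤ q) {A B : ℝ} (h : ¬ (A = 0 ∧ B = 0)) :
    ∃ θ : ℝ, |θ| < Real.pi ∧ 0 < A * Real.cos (q * θ) + B * Real.sin (q * θ) := by
  have hq1 : (1 : ℝ) ≤ q := by exact_mod_cast hq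
  have hq0 : (0 : ℝ) < q := by linarith
  have hpi := Real.pi_pos
  rcases lt_trichotomy B 0 with hB | hB | hB
  · refine ⟨-(Real.pi / (2 * q)), ?_, ?_⟩
    · rw [abs_neg, abs_of_pos (by positivity), div_lt_iff₀ (by positivity)]
      nlinarith
    · have : (q : ℝ) * -(Real.pi / (2 * q)) = -(Real.pi / 2) := by field_simp
      rw [this, Real.cos_neg, Real.sin_neg, Real.cos_pi_div_two, Real.sin_pi_div_two]
      linarith
  · rcases lt_trichotomy A 0 with hA | hA | hA
    · refine ⟨3 * Real.pi / (4 * q), ?_, ?_⟩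
      · rw [abs_of_pos (by positivity), div_lt_iff₀ (by positivity)]
        nlinarith
      · have : (q : ℝ) * (3 * Real.pi / (4 * q)) = Real.pi - Real.pi / 4 := by field_simp; ring
        rw [this, Real.cos_pi_sub, Real.cos_pi_div_four, hB, zero_mul, add_zero]
        have h2 : 0 < Real.sqrt 2 := Real.sqrt_pos.mpr (by norm_num)
        nlinarith
    · exact absurd ⟨hA, hB⟩ h
    · refine ⟨0, by rw [abs_zero]; exact hpi, ?_⟩
      rw [mul_zero, Real.cos_zero, Real.sin_zero, hB]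
      linarith
  · refine ⟨Real.pi / (2 * q), ?_, ?_⟩
    · rw [abs_of_pos (by positivity), div_lt_iff₀ (by positivity)]
      nlinarith
    · have : (q : ℝ) * (Real.pi / (2 * q)) = Real.pi / 2 := by field_simp
      rw [this, Real.cos_pi_div_two, Real.sin_pi_div_two]
      linarith

theorem exists_of_trig {q : ℕ} (hq : 1 ≤ q) (A B : ℝ) :
    ∃ f, IsN q f ∧ ∀ θ, indicatorOf q f θ =
      ((A * Real.cos (q * θ) + B * Real.sin (q * θ) : ℝ) : EReal) := by
  have hq1 : (1 : ℝ) ≤ q := by exact_mod_cast hq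
  have hq0 : (0 : ℝ) < q := by linarith
  obtain ⟨f, hN, hind, hnv, hsm⟩ := exists_minimal hq0
  set c : ℂ := (A : ℂ) - B * Complex.I with hc
  set F : ℂ → ℂ := fun z => Complex.exp (c * z ^ q) * f z with hF
  have hF0 : ∀ z, F z = 0 ↔ f z = 0 := by
    intro z
    simp only [hF, mul_eq_zero, Complex.exp_ne_zero, false_or]
  have hFn : ∀ z, ‖F z‖ = Real.exp ((c * z ^ q).re) * ‖f z‖ := by
    intro z
    rw [hF, norm_mul, Complex.norm_exp]
  have hFl : ∀ z, f z ≠ 0 → Real.log ‖F z‖ = (c * z ^ q).re + Real.log ‖f z‖ := by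
    intro z hz
    rw [hFn, Real.log_mul (Real.exp_pos _).ne' (norm_ne_zero_iff.mpr hz), Real.log_exp]
  refine ⟨F, ⟨?_, ?_, ?_, ?_⟩, ?_⟩
  · exact (((differentiable_const c).mul (differentiable_id.pow q)).cexp).mul hN.differentiable
  · intro z hz
    exact hN.zeros z ((hF0 z).mp hz)
  · intro σ hσ
    set σ' : ℝ := (q + σ) / 2 with hσ'
    have h1 : (q : ℝ) < σ' := by rw [hσ']; linarith
    have h2 : σ' < σ := by rw [hσ']; linarith
    obtain ⟨R, hR⟩ := hN.upper σ' h1
    have h3 : ∀ᶠ r : ℝ in atTop, (|A| + |B| + 1) ≤ r ^ (σ - σ') :=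
      (tendsto_rpow_atTop (by linarith)).eventually_ge_atTop _
    obtain ⟨R', hR'⟩ := (h3.and (eventually_ge_atTop 1)).exists_forall_of_atTop
    refine ⟨max R R', fun z hz => ?_⟩
    obtain ⟨h4, h5⟩ := hR' ‖z‖ (le_trans (le_max_right _ _) hz)
    have h6 := hR z (le_trans (le_max_left _ _) hz)
    have hz0 : 0 < ‖z‖ := by linarith
    rw [hFn]
    calc Real.exp ((c * z ^ q).re) * ‖f z‖
        ≤ Real.exp ((|A| + |B|) * ‖z‖ ^ q) * Real.exp (‖z‖ ^ σ') := by
          refine mul_le_mul (Real.exp_le_exp.mpr (ints_abs_re q A B z)) h6 (norm_nonneg _)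
            (Real.exp_pos _).le
      _ = Real.exp ((|A| + |B|) * ‖z‖ ^ q + ‖z‖ ^ σ') := by rw [Real.exp_add]
      _ ≤ Real.exp (‖z‖ ^ σ) := by
          apply Real.exp_le_exp.mpr
          have h7 : ‖z‖ ^ q ≤ ‖z‖ ^ σ' := by
            rw [← Real.rpow_natCast]
            exact Real.rpow_le_rpow_of_exponent_le h5 h1.le
          have h8 : ‖z‖ ^ σ = ‖z‖ ^ (σ - σ') * ‖z‖ ^ σ' := by
            rw [← Real.rpow_add hz0]; congr 1; ring
          have h9 : 0 < ‖z‖ ^ σ' := Real.rpow_pos_of_pos hz0 _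
          have h10 : 0 ≤ |A| + |B| := by positivity
          rw [h8]
          calc (|A| + |B|) * ‖z‖ ^ q + ‖z‖ ^ σ' ≤ (|A| + |B|) * ‖z‖ ^ σ' + ‖z‖ ^ σ' := by
                linarith [mul_le_mul_of_nonneg_left h7 h10]
            _ = (|A| + |B| + 1) * ‖z‖ ^ σ' := by ring
            _ ≤ ‖z‖ ^ (σ - σ') * ‖z‖ ^ σ' := mul_le_mul_of_nonneg_right h4 h9.le
  · intro σ hσ R
    by_cases hAB : A = 0 ∧ B = 0
    · obtain ⟨z, h1, h2⟩ := hN.lower σ hσ R
      refine ⟨z, h1, ?_⟩
      have : F z = f z := by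
        simp only [hF, hc, hAB.1, hAB.2, Complex.ofReal_zero, zero_mul, sub_zero, Complex.exp_zero,
          one_mul]
      rw [this]; exact h2
    · obtain ⟨θ, hθ, hg⟩ := ints_exists_pos hq hAB
      set g : ℝ := A * Real.cos (q * θ) + B * Real.sin (q * θ) with hgdef
      obtain ⟨R1, hR1⟩ := hsm (Real.pi - |θ|) (by linarith) (g / 2) (by linarith)
      have h3 : ∀ᶠ r : ℝ in atTop, 2 / g ≤ r ^ ((q : ℝ) - σ) :=
        (tendsto_rpow_atTop (by linarith)).eventually_ge_atTop _
      obtain ⟨r, hr3, hr1, hrR⟩ := (h3.and ((eventually_ge_atTop (1 : ℝ)).and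
        (eventually_ge_atTop (max R R1)))).exists
      have hr0 : 0 < r := by linarith
      set z : ℂ := (r : ℂ) * Complex.exp (θ * Complex.I) with hz
      have hzn : ‖z‖ = r := min_norm_polar hr0.le _
      have hza : z.arg = θ := min_arg_polar hr0 hθ
      have hfz0 : f z ≠ 0 := hnv z (by rw [hza]; exact hθ)
      refine ⟨z, by rw [hzn]; exact le_trans (le_max_left _ _) hrR, ?_⟩
      have hb := hR1 z (by rw [hza]; linarith) (by rw [hzn]; exact le_trans (le_max_right _ _) hrR)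
      have hFz0 : F z ≠ 0 := fun h => hfz0 ((hF0 z).mp h)
      rw [← Real.le_log_iff_exp_le (norm_pos_iff.mpr hFz0), hFl z hfz0, hz, ints_re, ← hz,
        ← hgdef, hzn]
      rw [hzn] at hb
      have hb1 := (abs_le.mp hb).1
      have hrq : r ^ q = r ^ (q : ℝ) := (Real.rpow_natCast r q).symm
      rw [hrq]
      have h8 : r ^ (q : ℝ) = r ^ ((q : ℝ) - σ) * r ^ σ := by
        rw [← Real.rpow_add hr0]; congr 1; ring
      have h9 : 0 < r ^ σ := Real.rpow_pos_of_pos hr0 _
      have h10 : 1 ≤ g / 2 * r ^ ((q : ℝ) - σ) := by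
        have := mul_le_mul_of_nonneg_left hr3 (by linarith : (0 : ℝ) ≤ g / 2)
        have h11 : g / 2 * (2 / g) = 1 := by field_simp
        rw [h11] at this
        exact this
      have h12 : r ^ σ ≤ g / 2 * r ^ (q : ℝ) := by
        rw [h8, ← mul_assoc]
        exact le_mul_of_one_le_left h9.le h10
      linarith
  · intro θ
    have := indicatorOf_eq_add (ρ := (q : ℝ)) (θ := θ) (θ' := θ)
      (β := A * Real.cos (q * θ) + B * Real.sin (q * θ)) (F := F) (f := f) ?_ ?_
    · rw [this, hind θ, zero_add]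
    · exact Eventually.of_forall fun r => hF0 _
    · intro ε hε
      filter_upwards [eventually_gt_atTop 0] with r hr hne
      have h1 := hFl _ hne
      rw [ints_re] at h1
      rw [h1, Real.rpow_natCast]
      have h2 : (A * Real.cos (q * θ) + B * Real.sin (q * θ)) * r ^ q +
          Real.log ‖f (r * Complex.exp (θ * Complex.I))‖ -
          Real.log ‖f (r * Complex.exp (θ * Complex.I))‖ -
          (A * Real.cos (q * θ) + B * Real.sin (q * θ)) * r ^ q = 0 := by ring
      rw [h2, abs_zero]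
      positivity

end Helper25.Ind
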