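import Pool.Agent.Helper25.Ind.SuffC

/-!
Sufficiency of the majorisation inequalities.
-/

open Complex Filter Topology MeasureTheory Set

namespace Helper25.Ind

/-- the two estimates for the function built from the glued measure -/
theorem suff_function {ρ : ℝ} (hρ : 0 < ρ) (hint : ¬ ∃ n : ℕ, ρ = n) {h : ℝ → ℝ}
    (hc : Continuous h) (hmaj : MajIneq ρ h) :
    ∃ f : ℂ → ℂ, IsN ρ f ∧ (∀ z ∈ slitPlane, f z ≠ 0) ∧
      (∃ C > 0, ∀ z : ℂ, z ≠ 0 → ‖f z‖ ≤ Real.exp (C * ‖z‖ ^ ρ)) ∧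
      (∀ θ : ℝ, |θ| < Real.pi → ∀ ε > 0, ∀ᶠ r : ℝ in atTop,
        Real.log ‖f (r * Complex.exp (θ * Complex.I))‖ ≤ (h θ + ε) * r ^ ρ) ∧
      ∀ q : ℚ, |(q : ℝ)| < Real.pi → ∀ ε > 0, ∃ᶠ r : ℝ in atTop,
        (h q - ε) * r ^ ρ ≤ Real.log ‖f (r * Complex.exp ((q : ℝ) * Complex.I))‖ := by
  obtain ⟨p, hp⟩ : ∃ p : ℕ, p = ⌊ρ⌋₊ := ⟨_, rfl⟩
  have h1 : (p : ℝ) < ρ := by
    rw [hp]
    refine lt_of_le_of_ne (Nat.floor_le hρ.le) fun h => hint ⟨_, h.symm⟩
  have h2 : ρ < p + 1 := by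
    rw [hp]
    exact Nat.lt_floor_add_one ρ
  obtain ⟨A, hA, hnet⟩ := net hρ hc hmaj
  rw [← hp] at hnet
  obtain ⟨A1, hA1, hwin⟩ := windows h1 h2 hA hnet
  obtain ⟨A2, ν, hA2, hν, hν0, hup, hlow⟩ := glue h1 h2 hc hA1 hwin
  obtain ⟨b, hb1, hbs, hbn⟩ := exists_minimal_seq hρ
  have hb : ∀ k, 0 < b k := fun k => lt_trans one_pos (hb1 k)
  have hgb := suff_growth_diracs hρ hb hbs
  have hB : 0 ≤ ∑' k, b k ^ (-ρ) := tsum_nonneg fun k => (Real.rpow_pos_of_pos (hb k) _).le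
  have htot := suff_growth_add hA2 hB hν hgb
  have htot0 : (ν + diracs b) (Iic 1) = 0 := by
    rw [Measure.add_apply, hν0, zero_add, suff_diracs_Iic, ENNReal.tsum_eq_zero]
    intro k
    rw [indicator_of_notMem]
    simp [hb1 k]
  have htotinf : (ν + diracs b) univ = ⊤ := by
    rw [Measure.add_apply, suff_diracs_univ]
    simp
  obtain ⟨f, hfd, hfz, hfC, hcomp⟩ := suff_core h1 h2 (add_nonneg hA2 hB) htot htot0 htotinf
  have hne : ∀ z ∈ slitPlane, f z ≠ 0 := by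
    intro z hz h0
    obtain ⟨h3, h4⟩ := hfz z h0
    rcases hz with h5 | h5
    · linarith
    · exact h5 h3
  have hsplit : ∀ z ∈ slitPlane, ∫ t, ker p z t ∂(ν + diracs b) =
      (∫ t, ker p z t ∂ν) + ∫ t, ker p z t ∂(diracs b) := fun z hz =>
    integral_add_measure (integrable_ker h1 h2 hA2 hν hz) (integrable_ker h1 h2 hB hgb hz)
  -- comparison with the potential of `ν`
  have hmain : ∀ δ : ℝ, 0 < δ → δ ≤ Real.pi → ∀ ε : ℝ, 0 < ε → ∃ R > 0, ∀ z ∈ slitPlane,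
      |z.arg| ≤ Real.pi - δ → R ≤ ‖z‖ →
        |Real.log ‖f z‖ - ∫ t, ker p z t ∂ν| ≤ ε * ‖z‖ ^ ρ := by
    intro δ hδ hδ' ε hε
    have hsin : 0 < Real.sin (δ / 2) := Real.sin_pos_of_pos_of_lt_pi (by linarith)
      (by linarith [Real.pi_pos])
    obtain ⟨R1, hR1, H1⟩ := suff_small h1 h2 hb hbs hδ hδ' (half_pos hε)
    obtain ⟨R2, hR2, H2⟩ := suff_Phi_small (p := p) h1
      (show 0 < ε / 2 * Real.sin (δ / 2) by positivity)
    refine ⟨max R1 R2, by positivity, fun z hz hz' hzR => ?_⟩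
    have h3 := H1 z hz hz' (le_trans (le_max_left _ _) hzR)
    have h4 := H2 ‖z‖ (le_trans (le_max_right _ _) hzR)
    have h5 := hcomp δ hδ hδ' z hz hz'
    rw [hsplit z hz] at h5
    have h6 : Phi p ‖z‖ / Real.sin (δ / 2) ≤ ε / 2 * ‖z‖ ^ ρ := by
      rw [div_le_iff₀ hsin]
      linarith
    rw [abs_le] at h3 h5 ⊢
    constructor <;> linarith [h3.1, h3.2, h5.1, h5.2]
  have hstar : |star p| < Real.pi := by
    rw [abs_of_nonneg (star_nonneg p)]
    exact star_lt_pi p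
  refine ⟨f, ⟨hfd, hfz, ?_, ?_⟩, hne, hfC, ?_, ?_⟩
  · -- order at most `ρ`
    intro σ hσ
    obtain ⟨C, hC, H⟩ := hfC
    have h3 : Tendsto (fun r : ℝ => r ^ (σ - ρ)) atTop atTop :=
      tendsto_rpow_atTop (by linarith)
    obtain ⟨R, hR⟩ := eventually_atTop.1 (h3.eventually_ge_atTop C)
    refine ⟨max R 1, fun z hz => ?_⟩
    have hr1 : 1 ≤ ‖z‖ := le_trans (le_max_right _ _) hz
    have hr0 : 0 < ‖z‖ := by linarith
    refine (H z (norm_pos_iff.1 hr0)).trans (Real.exp_le_exp.2 ?_)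
    have h4 := hR ‖z‖ (le_trans (le_max_left _ _) hz)
    have h5 : ‖z‖ ^ σ = ‖z‖ ^ (σ - ρ) * ‖z‖ ^ ρ := by
      rw [← Real.rpow_add hr0]
      ring_nf
    rw [h5]
    have h6 : 0 < ‖z‖ ^ ρ := Real.rpow_pos_of_pos hr0 _
    nlinarith
  · -- order at least `ρ`
    intro σ hσ R
    obtain ⟨τ, hτ1, hτ2, hτ3⟩ : ∃ τ : ℝ, σ ≤ τ ∧ (p : ℝ) < τ ∧ τ < ρ := by
      refine ⟨max σ ((p + ρ) / 2), le_max_left _ _, ?_, max_lt hσ (by linarith)⟩
      exact lt_of_lt_of_le (by linarith) (le_max_right _ _)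
    have hδ : 0 < Real.pi - star p := by linarith [star_lt_pi p]
    have hsin : 0 < Real.sin ((Real.pi - star p) / 2) :=
      Real.sin_pos_of_pos_of_lt_pi (by linarith) (by linarith [Real.pi_pos, star_nonneg p])
    have hs0 := s0_pos p
    have hP1 : 0 < Phi p 1 := Phi_pos p one_pos
    obtain ⟨R1, hR1, H1⟩ := suff_Phi_small (p := p) hτ2 hsin
    have h3 := hbn τ hτ3 (s0 p * Phi p 1 / 2) (by positivity)
    obtain ⟨R2, hR2⟩ := eventually_atTop.1 h3
    obtain ⟨r, hr⟩ : ∃ r : ℝ, r = max (max R1 R2) (max R 1) := ⟨_, rfl⟩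
    have hrR1 : R1 ≤ r := by rw [hr]; exact le_trans (le_max_left _ _) (le_max_left _ _)
    have hrR2 : R2 ≤ r := by rw [hr]; exact le_trans (le_max_right _ _) (le_max_left _ _)
    have hrR : R ≤ r := by rw [hr]; exact le_trans (le_max_left _ _) (le_max_right _ _)
    have hr1 : 1 ≤ r := by rw [hr]; exact le_trans (le_max_right _ _) (le_max_right _ _)
    have hr0 : 0 < r := by linarith
    have hz := suff_slit hr0 hstar
    refine ⟨r * Complex.exp (star p * Complex.I), ?_, ?_⟩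
    · rw [suff_norm hr0.le]
      exact hrR
    rw [suff_norm hr0.le]
    obtain ⟨n, hn1, hn2⟩ := hR2 r hrR2
    have h4 := suff_star_lower h1 h2 hb hbs hr0 hn2
    have h5 : 0 ≤ ∫ t, ker p (r * Complex.exp (star p * Complex.I)) t ∂ν := by
      refine integral_nonneg_of_ae ?_
      filter_upwards [suff_ae_pos hν] with t ht
      exact le_trans (mul_nonneg hs0.le (Phi_nonneg p (by positivity))) (ker_star_ge p hr0 ht)
    have h6 := hcomp (Real.pi - star p) hδ (by linarith [star_nonneg p]) _ hz (by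
      rw [suff_arg hr0 hstar, abs_of_nonneg (star_nonneg p)]
      linarith)
    rw [hsplit _ hz, suff_norm hr0.le] at h6
    have h7 : Phi p r / Real.sin ((Real.pi - star p) / 2) ≤ r ^ τ := by
      rw [div_le_iff₀ hsin]
      linarith [H1 r hrR1]
    have h8 : r ^ σ ≤ r ^ τ := Real.rpow_le_rpow_of_exponent_le hr1 hτ1
    have h9 : r ^ σ ≤ Real.log ‖f (r * Complex.exp (star p * Complex.I))‖ := by
      rw [abs_le] at h6
      linarith [h6.1]
    calc Real.exp (r ^ σ) ≤ Real.exp (Real.log ‖f (r * Complex.exp (star p * Complex.I))‖) :=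
          Real.exp_le_exp.2 h9
      _ = _ := Real.exp_log (norm_pos_iff.2 (hne _ hz))
  · -- upper estimate
    intro θ hθ ε hε
    have hδ : 0 < Real.pi - |θ| := by linarith
    obtain ⟨R1, hR1, H1⟩ := hmain (Real.pi - |θ|) hδ (by linarith [abs_nonneg θ]) (ε / 2)
      (half_pos hε)
    obtain ⟨R2, H2⟩ := hup (Real.pi - |θ|) hδ (ε / 2) (half_pos hε)
    filter_upwards [eventually_ge_atTop R1, eventually_ge_atTop R2, eventually_gt_atTop 0]
      with r hr1 hr2 hr0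
    have hz := suff_slit hr0 hθ
    have hn := suff_norm hr0.le θ
    have ha := suff_arg hr0 hθ
    have h3 := H1 _ hz (by rw [ha]; linarith) (by rw [hn]; exact hr1)
    have h4 := H2 _ hz (by rw [ha]; linarith) (by rw [hn]; exact hr2)
    rw [hn] at h3 h4
    rw [ha] at h4
    rw [abs_le] at h3
    linarith [h3.2]
  · -- lower estimate
    intro q hq ε hε
    have hδ : 0 < Real.pi - |(q : ℝ)| := by linarith
    obtain ⟨R1, hR1, H1⟩ := hmain (Real.pi - |(q : ℝ)|) hδ (by linarith [abs_nonneg (q : ℝ)])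
      (ε / 2) (half_pos hε)
    rw [frequently_atTop]
    intro R
    obtain ⟨r, hrR, hr⟩ := hlow q hq (ε / 2) (half_pos hε) (max R R1)
    have hr1 : R1 ≤ r := le_trans (le_max_right _ _) hrR
    have hr0 : 0 < r := by linarith
    refine ⟨r, le_trans (le_max_left _ _) hrR, ?_⟩
    have hz := suff_slit hr0 hq
    have hn := suff_norm hr0.le (q : ℝ)
    have ha := suff_arg hr0 hq
    have h3 := H1 _ hz (by rw [ha]; linarith) (by rw [hn]; exact hr1)
    rw [hn] at h3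
    rw [abs_le] at h3
    linarith [h3.1]

lemma suff_periodic (ρ : ℝ) (f : ℂ → ℂ) :
    Function.Periodic (indicatorOf ρ f) (2 * Real.pi) := fun θ => indicatorOf_add_two_pi ρ θ f

theorem exists_of_majIneq {ρ : ℝ} (hρ : 0 < ρ) (hint : ¬ ∃ n : ℕ, ρ = n) {h : ℝ → ℝ}
    (hc : Continuous h) (hper : ∀ θ, h (θ + 2 * Real.pi) = h θ)
    (hmaj : MajIneq ρ h) : ∃ f, IsN ρ f ∧ ∀ θ, indicatorOf ρ f θ = (h θ : EReal) := by
  obtain ⟨f, hf, hne, ⟨C, hC, hfC⟩, hup, hlow⟩ := suff_function hρ hint hc hmaj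
  refine ⟨f, hf, ?_⟩
  have hord : OrderLE ρ f := ⟨hf.differentiable, hf.upper⟩
  have hU : ∀ θ, |θ| < Real.pi → indicatorOf ρ f θ ≤ (h θ : EReal) := by
    intro θ hθ
    apply indicatorOf_le_of_eventually
    intro ε hε
    filter_upwards [hup θ hθ ε hε, eventually_gt_atTop 0] with r hr hr0
    rw [← Real.log_le_iff_le_exp (norm_pos_iff.2 (hne _ (suff_slit hr0 hθ)))]
    exact hr
  have hL : ∀ q : ℚ, |(q : ℝ)| < Real.pi → (h q : EReal) ≤ indicatorOf ρ f q := by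
    intro q hq
    apply le_indicatorOf_of_frequently
    intro ε hε
    refine ((hlow q hq ε hε).and_eventually (eventually_gt_atTop 0)).mono ?_
    rintro r ⟨hr, hr0⟩
    have h3 := norm_pos_iff.2 (hne _ (suff_slit hr0 hq))
    calc Real.exp ((h q - ε) * r ^ ρ) ≤
          Real.exp (Real.log ‖f (r * Complex.exp ((q : ℝ) * Complex.I))‖) :=
          Real.exp_le_exp.2 hr
      _ = _ := Real.exp_log h3
  have htop : ∀ θ, indicatorOf ρ f θ ≠ ⊤ := by
    intro θ
    have h3 : indicatorOf ρ f θ ≤ (C : EReal) := by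
      apply indicatorOf_le_of_eventually
      intro ε hε
      filter_upwards [eventually_gt_atTop 0] with r hr0
      have h4 : (r : ℂ) * Complex.exp (θ * Complex.I) ≠ 0 := by
        rw [← norm_pos_iff, suff_norm hr0.le]
        exact hr0
      refine (hfC _ h4).trans (Real.exp_le_exp.2 ?_)
      rw [suff_norm hr0.le]
      have := Real.rpow_pos_of_pos hr0 ρ
      nlinarith
    exact ne_top_of_le_ne_top (EReal.coe_ne_top _) h3
  have hbot : ∀ θ, indicatorOf ρ f θ ≠ ⊥ := by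
    intro θ hθ
    obtain ⟨y, hy, hy2⟩ := (suff_periodic ρ f).exists_mem_Ico (by positivity : 0 < 2 * Real.pi) θ
      (-Real.pi)
    rw [hy2] at hθ
    obtain ⟨η, hη0, hη⟩ : ∃ η : ℝ, 0 < η ∧ ρ * (2 * η) < Real.pi := by
      refine ⟨Real.pi / (4 * ρ), by positivity, ?_⟩
      have : ρ * (2 * (Real.pi / (4 * ρ))) = Real.pi / 2 := by
        field_simp
        ring
      rw [this]
      linarith [Real.pi_pos]
    have hy3 : y < Real.pi := by linarith [hy.2]
    obtain ⟨q, hq1, hq2⟩ := exists_rat_btwn (show y < min (y + η) Real.pi from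
      lt_min (by linarith) hy3)
    have hq3 : (q : ℝ) < y + η := lt_of_lt_of_le hq2 (min_le_left _ _)
    have hq4 : (q : ℝ) < Real.pi := lt_of_lt_of_le hq2 (min_le_right _ _)
    have hq5 : |(q : ℝ)| < Real.pi := abs_lt.2 ⟨by linarith [hy.1], hq4⟩
    have h4 := indicatorOf_eq_bot_left hρ hord hq1 (show (q : ℝ) < y + 2 * η by linarith)
      (by ring_nf at hη ⊢; exact hη) hθ (htop _)
    have h5 := hL q hq5
    rw [h4] at h5
    exact absurd h5 (by simp)
  -- the indicator as a real function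
  obtain ⟨g, hg⟩ : ∃ g : ℝ → ℝ, ∀ θ, indicatorOf ρ f θ = (g θ : EReal) :=
    ⟨fun θ => (indicatorOf ρ f θ).toReal, fun θ => (EReal.coe_toReal (htop θ) (hbot θ)).symm⟩
  have hgc := continuous_of_indicatorOf hρ hord hg
  have hgq : EqOn g h (Ioo (-Real.pi) Real.pi ∩ range ((↑) : ℚ → ℝ)) := by
    rintro _ ⟨hx, q, rfl⟩
    have hx' : |(q : ℝ)| < Real.pi := abs_lt.2 hx
    have h3 := hU q hx'
    have h4 := hL q hx'
    rw [hg] at h3 h4
    exact le_antisymm (EReal.coe_le_coe_iff.1 h3) (EReal.coe_le_coe_iff.1 h4)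
  have hg2 : EqOn g h (closure (Ioo (-Real.pi) Real.pi ∩ range ((↑) : ℚ → ℝ))) :=
    hgq.closure hgc hc
  have hd : Dense (range ((↑) : ℚ → ℝ)) := Rat.denseRange_cast
  have hsub : Icc (-Real.pi) Real.pi ⊆ closure (Ioo (-Real.pi) Real.pi ∩ range ((↑) : ℚ → ℝ)) := by
    rw [← closure_Ioo (by linarith [Real.pi_pos] : -Real.pi ≠ Real.pi)]
    exact closure_minimal (hd.open_subset_closure_inter isOpen_Ioo) isClosed_closure
  intro θ
  obtain ⟨y, hy, hy2⟩ := (suff_periodic ρ f).exists_mem_Ico (by positivity : 0 < 2 * Real.pi) θ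
    (-Real.pi)
  obtain ⟨y', hy', hy2'⟩ := (show Function.Periodic (fun θ => (indicatorOf ρ f θ, h θ))
    (2 * Real.pi) from fun θ => by simp [indicatorOf_add_two_pi, hper]).exists_mem_Ico
    (by positivity : 0 < 2 * Real.pi) θ (-Real.pi)
  simp only [Prod.mk.injEq] at hy2'
  rw [hy2'.1, hy2'.2, hg y', hg2 (hsub ⟨hy'.1, by linarith [hy'.2]⟩)]

end Helper25.Ind
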