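import Pool.Agent.Helper25.Ind.Nec
import Pool.Agent.Helper25.Ind.Suff
import Pool.Agent.Helper25.Ind.IntN
import Pool.Agent.Helper25.Ind.IntS

/-!
Description of the finite-valued indicators of functions in `N_ρ`.
-/

open Complex Filter Topology MeasureTheory Set

namespace Helper25.Ind

theorem finite_valued (ρ : ℝ) (hρ : 0 < ρ) (h : ℝ → ℝ) :
    (∃ f, IsN ρ f ∧ ∀ θ, indicatorOf ρ f θ = (h θ : EReal)) ↔
      ((∃ n : ℕ, ρ = n) ∧ ∃ A B : ℝ, ∀ θ, h θ = A * Real.cos (ρ * θ) + B * Real.sin (ρ * θ)) ∨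
      ((¬ ∃ n : ℕ, ρ = n) ∧ Continuous h ∧ (∀ θ, h (θ + 2 * Real.pi) = h θ) ∧ MajIneq ρ h) := by
  constructor
  · rintro ⟨f, hf, hh⟩
    have hord : OrderLE ρ f := ⟨hf.differentiable, hf.upper⟩
    by_cases hint : ∃ n : ℕ, ρ = n
    · left
      refine ⟨hint, ?_⟩
      obtain ⟨q, rfl⟩ := hint
      have hq : 1 ≤ q := by
        have : (0 : ℝ) < q := hρ
        exact_mod_cast this
      obtain ⟨ι, _, a, Q, ha, hQ, -, hfz, hlog⟩ := hadamard (p := q) hf.differentiable hf.zeros
        hf.upper hρ (by linarith)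
      have hs := summable_of_indicator_ne_top hq ha hQ hlog hfz (by
        rw [hh]
        exact EReal.coe_ne_top _)
      obtain ⟨A, B, hAB⟩ := indicator_of_summable hq hord ha hQ hs hfz hlog
      refine ⟨A, B, fun θ => ?_⟩
      have := (hh θ).symm.trans (hAB θ)
      exact_mod_cast this
    · right
      refine ⟨hint, continuous_of_indicatorOf hρ hord hh, fun θ => ?_,
        majIneq_of_indicator hρ hint hf hh⟩
      have := (hh (θ + 2 * Real.pi)).symm.trans
        ((indicatorOf_add_two_pi ρ θ f).trans (hh θ))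
      exact_mod_cast this
  · rintro (⟨⟨q, rfl⟩, A, B, hAB⟩ | ⟨hint, hc, hper, hmaj⟩)
    · have hq : 1 ≤ q := by
        have : (0 : ℝ) < q := hρ
        exact_mod_cast this
      obtain ⟨f, hf, hh⟩ := exists_of_trig hq A B
      refine ⟨f, hf, fun θ => ?_⟩
      rw [hh, hAB]
    · exact exists_of_majIneq hρ hint hc hper hmaj

end Helper25.Ind
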