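import Pool.Agent.Helper25.Ind.Defs
import Pool.Agent.Helper25.Ind.Had
import Pool.Agent.Helper25.Ind.IndApi
import Pool.Agent.Helper25.Ind.KerA

open Complex Filter Topology MeasureTheory Set

namespace Helper25.Ind

/-- polynomial bound along a ray -/
lemma nec_poly_ray (Q : Polynomial ℂ) {p : ℕ} (hQ : Q.natDegree ≤ p) (z : ℂ) :
    ∃ C : ℝ, 0 ≤ C ∧ ∀ r : ℝ, 1 ≤ r → ‖Q.eval ((r : ℂ) * z)‖ ≤ C * r ^ p := by
  refine ⟨∑ i ∈ Finset.range (p + 1), ‖Q.coeff i‖ * ‖z‖ ^ i, ?_, ?_⟩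
  · exact Finset.sum_nonneg fun i _ => by positivity
  · intro r hr
    rw [Polynomial.eval_eq_sum_range' (Nat.lt_succ_of_le hQ), Finset.sum_mul]
    refine (norm_sum_le _ _).trans (Finset.sum_le_sum ?_)
    intro i hi
    have hi' : i ≤ p := Nat.lt_succ_iff.mp (Finset.mem_range.mp hi)
    rw [norm_mul, norm_pow, norm_mul, mul_pow, Complex.norm_real, Real.norm_eq_abs,
      abs_of_nonneg (by linarith : (0 : ℝ) ≤ r)]
    have h1 : r ^ i ≤ r ^ p := pow_le_pow_right₀ hr hi'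
    calc ‖Q.coeff i‖ * (r ^ i * ‖z‖ ^ i) = ‖Q.coeff i‖ * ‖z‖ ^ i * r ^ i := by ring
      _ ≤ ‖Q.coeff i‖ * ‖z‖ ^ i * r ^ p := mul_le_mul_of_nonneg_left h1 (by positivity)

/-- `C r^p ≤ ε r^ρ` eventually when `p < ρ` -/
lemma nec_pow_le {p : ℕ} {ρ : ℝ} (hp : (p : ℝ) < ρ) (C : ℝ) {ε : ℝ} (hε : 0 < ε) :
    ∀ᶠ r : ℝ in atTop, C * r ^ p ≤ ε * r ^ ρ := by
  have h1 : Tendsto (fun r : ℝ => r ^ (ρ - p)) atTop atTop :=
    tendsto_rpow_atTop (by linarith)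
  filter_upwards [h1.eventually_ge_atTop (C / ε), eventually_gt_atTop (0 : ℝ)] with r h2 h3
  have h4 : r ^ ρ = r ^ (ρ - p) * r ^ p := by
    rw [← Real.rpow_natCast r p, ← Real.rpow_add h3]
    congr 1
    ring
  rw [h4]
  have h5 : C ≤ ε * r ^ (ρ - p) := by
    rw [div_le_iff₀ hε] at h2
    linarith
  have h6 : (0 : ℝ) ≤ r ^ p := by positivity
  nlinarith

lemma nec_floor {ρ : ℝ} (hρ : 0 < ρ) (hint : ¬ ∃ n : ℕ, ρ = n) :
    ((⌊ρ⌋₊ : ℕ) : ℝ) < ρ ∧ ρ < (⌊ρ⌋₊ : ℕ) + 1 := by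
  refine ⟨?_, Nat.lt_floor_add_one ρ⟩
  rcases lt_or_eq_of_le (Nat.floor_le hρ.le) with h | h
  · exact h
  · exact absurd ⟨_, h.symm⟩ hint

lemma nec_ne_zero {ρ : ℝ} {f : ℂ → ℂ} (hf : IsN ρ f) {z : ℂ} (hz : z ∈ slitPlane) : f z ≠ 0 := by
  intro h0
  obtain ⟨h1, h2⟩ := hf.zeros z h0
  rcases Complex.mem_slitPlane_iff.mp hz with h | h
  · linarith
  · exact h h1

lemma nec_mul_mem {z : ℂ} (hz : z ∈ slitPlane) {r : ℝ} (hr : 0 < r) : (r : ℂ) * z ∈ slitPlane := by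
  rw [Complex.mem_slitPlane_iff] at hz ⊢
  rw [Complex.re_ofReal_mul, Complex.im_ofReal_mul]
  rcases hz with h | h
  · exact Or.inl (mul_pos hr h)
  · exact Or.inr (mul_ne_zero hr.ne' h)

lemma nec_polar {z : ℂ} (r : ℝ) :
    (r : ℂ) * z = ((r * ‖z‖ : ℝ) : ℂ) * Complex.exp (z.arg * Complex.I) := by
  conv_lhs => rw [← Complex.norm_mul_exp_arg_mul_I z]
  push_cast
  ring

/-- upper bound along the ray through `z` -/
lemma nec_upper {ρ : ℝ} {f : ℂ → ℂ} {h : ℝ → ℝ}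
    (hf : IsN ρ f) (hh : ∀ θ, indicatorOf ρ f θ = (h θ : EReal)) {z : ℂ} (hz : z ∈ slitPlane)
    {ε : ℝ} (hε : 0 < ε) :
    ∀ᶠ r : ℝ in atTop, Real.log ‖f ((r : ℂ) * z)‖ ≤ (homog ρ h z + ε) * r ^ ρ := by
  have hz0 : 0 < ‖z‖ := norm_pos_iff.mpr (slitPlane_ne_zero hz)
  have hzρ : 0 < ‖z‖ ^ ρ := Real.rpow_pos_of_pos hz0 ρ
  have h1 : indicatorOf ρ f z.arg < ((h z.arg + ε / ‖z‖ ^ ρ : ℝ) : EReal) := by
    rw [hh]
    exact_mod_cast lt_add_of_pos_right _ (div_pos hε hzρ)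
  have h2 := eventually_le_of_indicatorOf_lt h1
  have h3 : Tendsto (fun r : ℝ => r * ‖z‖) atTop atTop := tendsto_id.atTop_mul_const hz0
  filter_upwards [h3.eventually h2, eventually_gt_atTop (0 : ℝ)] with r h4 h5
  rw [nec_polar r]
  have h6 : f (((r * ‖z‖ : ℝ) : ℂ) * Complex.exp (z.arg * Complex.I)) ≠ 0 := by
    rw [← nec_polar r]
    exact nec_ne_zero hf (nec_mul_mem hz h5)
  have h7 : 0 < ‖f (((r * ‖z‖ : ℝ) : ℂ) * Complex.exp (z.arg * Complex.I))‖ := norm_pos_iff.mpr h6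
  have h8 := Real.log_le_log h7 h4
  rw [Real.log_exp] at h8
  refine h8.trans (le_of_eq ?_)
  rw [Real.mul_rpow h5.le hz0.le, homog]
  field_simp

/-- lower bound along the ray through `z` -/
lemma nec_lower {ρ : ℝ} {f : ℂ → ℂ} {h : ℝ → ℝ}
    (hh : ∀ θ, indicatorOf ρ f θ = (h θ : EReal)) {z : ℂ} (hz : z ∈ slitPlane)
    {ε : ℝ} (hε : 0 < ε) :
    ∃ᶠ r : ℝ in atTop, (homog ρ h z - ε) * r ^ ρ ≤ Real.log ‖f ((r : ℂ) * z)‖ := by
  have hz0 : 0 < ‖z‖ := norm_pos_iff.mpr (slitPlane_ne_zero hz)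
  have hzρ : 0 < ‖z‖ ^ ρ := Real.rpow_pos_of_pos hz0 ρ
  have h1 : ((h z.arg - ε / ‖z‖ ^ ρ : ℝ) : EReal) < indicatorOf ρ f z.arg := by
    rw [hh]
    exact_mod_cast sub_lt_self _ (div_pos hε hzρ)
  have h2 := frequently_le_of_lt_indicatorOf h1
  rw [Filter.frequently_atTop] at h2 ⊢
  intro R
  obtain ⟨s, hs, hs2⟩ := h2 (max 1 (R * ‖z‖))
  have hs1 : (1 : ℝ) ≤ s := (le_max_left _ _).trans hs
  have hsR : R * ‖z‖ ≤ s := (le_max_right _ _).trans hs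
  refine ⟨s / ‖z‖, by rw [le_div_iff₀ hz0]; exact hsR, ?_⟩
  have hs0 : 0 < s := by linarith
  rw [nec_polar (s / ‖z‖), div_mul_cancel₀ _ hz0.ne']
  have h8 := Real.log_le_log (Real.exp_pos _) hs2
  rw [Real.log_exp] at h8
  refine le_trans (le_of_eq ?_) h8
  rw [Real.div_rpow hs0.le hz0.le, homog]
  field_simp

theorem majIneq_of_indicator {ρ : ℝ} (hρ : 0 < ρ) (hint : ¬ ∃ n : ℕ, ρ = n) {f : ℂ → ℂ}
    (hf : IsN ρ f) {h : ℝ → ℝ} (hh : ∀ θ, indicatorOf ρ f θ = (h θ : EReal)) : MajIneq ρ h := by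
  obtain ⟨hp1, hp2⟩ := nec_floor hρ hint
  obtain ⟨ι, _, a, Q, ha, hQ, -, -, hrep⟩ :=
    hadamard hf.differentiable hf.zeros hf.upper hρ hp2
  intro n z m z₀ hz hz₀ hm hmaj
  -- pointwise inequality
  have key : ∀ r : ℝ, 0 < r → Real.log ‖f ((r : ℂ) * z₀)‖ ≤
      (Q.eval ((r : ℂ) * z₀)).re + ∑ j, m j * (Real.log ‖f ((r : ℂ) * z j)‖ -
        (Q.eval ((r : ℂ) * z j)).re) := by
    intro r hr
    obtain ⟨hs0, he0⟩ := hrep _ (nec_ne_zero hf (nec_mul_mem hz₀ hr))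
    have hj : ∀ j, (Summable fun i => ker ⌊ρ⌋₊ ((r : ℂ) * z j) (a i)) ∧
        Real.log ‖f ((r : ℂ) * z j)‖ = (Q.eval ((r : ℂ) * z j)).re +
          ∑' i, ker ⌊ρ⌋₊ ((r : ℂ) * z j) (a i) := fun j =>
      hrep _ (nec_ne_zero hf (nec_mul_mem (hz j) hr))
    have h1 : ∑' i, ker ⌊ρ⌋₊ ((r : ℂ) * z₀) (a i) ≤
        ∑ j, m j * ∑' i, ker ⌊ρ⌋₊ ((r : ℂ) * z j) (a i) := by
      have h2 : ∑ j, m j * ∑' i, ker ⌊ρ⌋₊ ((r : ℂ) * z j) (a i) =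
          ∑' i, ∑ j, m j * ker ⌊ρ⌋₊ ((r : ℂ) * z j) (a i) := by
        rw [Summable.tsum_finsetSum (fun j _ => ((hj j).1.mul_left (m j)))]
        exact Finset.sum_congr rfl fun j _ => tsum_mul_left.symm
      rw [h2]
      refine Summable.tsum_le_tsum ?_ hs0 (summable_sum fun j _ => (hj j).1.mul_left (m j))
      intro i
      rw [ker_scale _ _ hr (ha i)]
      have h3 := hmaj (a i / r) (div_pos (ha i) hr)
      refine le_trans h3 (le_of_eq (Finset.sum_congr rfl fun j _ => ?_))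
      rw [ker_scale _ _ hr (ha i)]
      rfl
    rw [he0]
    have h4 : ∑ j, m j * (Real.log ‖f ((r : ℂ) * z j)‖ - (Q.eval ((r : ℂ) * z j)).re) =
        ∑ j, m j * ∑' i, ker ⌊ρ⌋₊ ((r : ℂ) * z j) (a i) :=
      Finset.sum_congr rfl fun j _ => by rw [(hj j).2]; ring
    rw [h4]
    linarith
  by_contra hcon
  push Not at hcon
  set S : ℝ := ∑ j, m j with hS
  have hS0 : 0 ≤ S := Finset.sum_nonneg fun j _ => hm j
  set gap : ℝ := homog ρ h z₀ - ∑ j, m j * homog ρ h (z j) with hgap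
  have hgap0 : 0 < gap := by rw [hgap]; linarith
  set ε : ℝ := gap / (2 * (3 + S)) with hε
  have hε0 : 0 < ε := by positivity
  obtain ⟨C₀, hC₀, hb₀⟩ := nec_poly_ray Q hQ z₀
  have hbj : ∀ j, ∃ C : ℝ, 0 ≤ C ∧ ∀ r : ℝ, 1 ≤ r → ‖Q.eval ((r : ℂ) * z j)‖ ≤ C * r ^ ⌊ρ⌋₊ :=
    fun j => nec_poly_ray Q hQ (z j)
  choose C hC hb using hbj
  have hup : ∀ᶠ r : ℝ in atTop, ∀ j, Real.log ‖f ((r : ℂ) * z j)‖ ≤
      (homog ρ h (z j) + ε) * r ^ ρ := by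
    rw [Filter.eventually_all]
    exact fun j => nec_upper hf hh (hz j) hε0
  have hlow := nec_lower hh hz₀ hε0
  have hpow := nec_pow_le hp1 (C₀ + ∑ j, m j * C j) hε0
  obtain ⟨r, ⟨h1, h2, h3, h4⟩⟩ :=
    (hlow.and_eventually (hup.and (hpow.and (eventually_ge_atTop (1 : ℝ))))).exists
  have hr0 : 0 < r := by linarith
  have hrρ : 0 < r ^ ρ := Real.rpow_pos_of_pos hr0 ρ
  have h5 := key r hr0
  have h6 : (Q.eval ((r : ℂ) * z₀)).re ≤ C₀ * r ^ ⌊ρ⌋₊ :=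
    (Complex.re_le_norm _).trans (hb₀ r h4)
  have h7 : ∑ j, m j * (Real.log ‖f ((r : ℂ) * z j)‖ - (Q.eval ((r : ℂ) * z j)).re) ≤
      ∑ j, (m j * homog ρ h (z j) * r ^ ρ + m j * ε * r ^ ρ + m j * C j * r ^ ⌊ρ⌋₊) := by
    refine Finset.sum_le_sum fun j _ => ?_
    have h8 : -(Q.eval ((r : ℂ) * z j)).re ≤ C j * r ^ ⌊ρ⌋₊ :=
      (neg_le_abs _).trans ((Complex.abs_re_le_norm _).trans (hb j r h4))
    have h9 := h2 j
    calc m j * (Real.log ‖f ((r : ℂ) * z j)‖ - (Q.eval ((r : ℂ) * z j)).re)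
        ≤ m j * ((homog ρ h (z j) + ε) * r ^ ρ + C j * r ^ ⌊ρ⌋₊) :=
          mul_le_mul_of_nonneg_left (by linarith) (hm j)
      _ = _ := by ring
  have h10 : ∑ j, (m j * homog ρ h (z j) * r ^ ρ + m j * ε * r ^ ρ + m j * C j * r ^ ⌊ρ⌋₊) =
      (∑ j, m j * homog ρ h (z j)) * r ^ ρ + S * ε * r ^ ρ + (∑ j, m j * C j) * r ^ ⌊ρ⌋₊ := by
    simp only [hS, Finset.sum_add_distrib, Finset.sum_mul]
  rw [h10] at h7
  have h11 : (homog ρ h z₀ - ε) * r ^ ρ ≤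
      ((∑ j, m j * homog ρ h (z j)) + S * ε + ε) * r ^ ρ := by
    have : (C₀ + ∑ j, m j * C j) * r ^ ⌊ρ⌋₊ ≤ ε * r ^ ρ := h3
    nlinarith
  have h12 := le_of_mul_le_mul_right h11 hrρ
  have h13 : gap ≤ ε * (2 + S) := by rw [hgap]; nlinarith
  have h14 : ε * (2 * (3 + S)) = gap := by
    rw [hε]
    field_simp
  nlinarith

theorem even_of_indicator {ρ : ℝ} (hρ : 0 < ρ) (hint : ¬ ∃ n : ℕ, ρ = n) {f : ℂ → ℂ}
    (hf : IsN ρ f) (θ : ℝ) : indicatorOf ρ f (-θ) = indicatorOf ρ f θ := by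
  obtain ⟨hp1, hp2⟩ := nec_floor hρ hint
  obtain ⟨ι, _, a, Q, ha, hQ, -, -, hrep⟩ :=
    hadamard hf.differentiable hf.zeros hf.upper hρ hp2
  have hconj : ∀ r : ℝ, (r : ℂ) * Complex.exp (((-θ : ℝ) : ℂ) * Complex.I) =
      starRingEnd ℂ ((r : ℂ) * Complex.exp ((θ : ℂ) * Complex.I)) := by
    intro r
    rw [map_mul, ← Complex.exp_conj, map_mul, Complex.conj_I, Complex.conj_ofReal,
      Complex.conj_ofReal]
    push_cast
    ring_nf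
  have hzero : ∀ w : ℂ, f (starRingEnd ℂ w) = 0 ↔ f w = 0 := by
    have h1 : ∀ w : ℂ, f w = 0 → f (starRingEnd ℂ w) = 0 := by
      intro w hw
      have h2 : w.im = 0 := (hf.zeros w hw).1
      rw [Complex.conj_eq_iff_im.mpr h2]
      exact hw
    intro w
    refine ⟨fun h2 => ?_, h1 w⟩
    have := h1 _ h2
    rwa [Complex.conj_conj] at this
  have hmain : indicatorOf ρ f (-θ) = indicatorOf ρ f θ + ((0 : ℝ) : EReal) := by
    refine indicatorOf_eq_add ?_ ?_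
    · refine Filter.Eventually.of_forall fun r => ?_
      rw [hconj r]
      exact hzero _
    · intro ε hε
      obtain ⟨C₁, hC₁, hb₁⟩ := nec_poly_ray Q hQ (Complex.exp (((-θ : ℝ) : ℂ) * Complex.I))
      obtain ⟨C₂, hC₂, hb₂⟩ := nec_poly_ray Q hQ (Complex.exp ((θ : ℂ) * Complex.I))
      filter_upwards [nec_pow_le hp1 (C₁ + C₂) hε, eventually_ge_atTop (1 : ℝ)] with r h1 h2 h3
      have h4 : f ((r : ℂ) * Complex.exp (((-θ : ℝ) : ℂ) * Complex.I)) ≠ 0 := by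
        rw [hconj r]
        exact fun h5 => h3 ((hzero _).mp h5)
      obtain ⟨-, e1⟩ := hrep _ h4
      obtain ⟨-, e2⟩ := hrep _ h3
      have e3 : (fun i => ker ⌊ρ⌋₊ ((r : ℂ) * Complex.exp (((-θ : ℝ) : ℂ) * Complex.I)) (a i)) =
          fun i => ker ⌊ρ⌋₊ ((r : ℂ) * Complex.exp ((θ : ℂ) * Complex.I)) (a i) := by
        funext i
        rw [hconj r, ker_conj]
      rw [e3] at e1
      rw [e1, e2]
      have h6 : |(Q.eval ((r : ℂ) * Complex.exp (((-θ : ℝ) : ℂ) * Complex.I))).re| ≤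
          C₁ * r ^ ⌊ρ⌋₊ := (Complex.abs_re_le_norm _).trans (hb₁ r h2)
      have h7 : |(Q.eval ((r : ℂ) * Complex.exp ((θ : ℂ) * Complex.I))).re| ≤
          C₂ * r ^ ⌊ρ⌋₊ := (Complex.abs_re_le_norm _).trans (hb₂ r h2)
      rw [abs_le] at h6 h7 ⊢
      constructor <;> nlinarith [h6.1, h6.2, h7.1, h7.2]
  rw [hmain]
  simp

end Helper25.Ind
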