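import Pool.Agent.Helper25.Ind.Defs
import Pool.Agent.Helper25.Ind.Dual
import Pool.Agent.Helper25.Ind.KerB

open Complex Filter Topology MeasureTheory Set

namespace Helper25.Ind

/-- truncation towards zero on the lattice `η ℤ` -/
lemma net_trunc {η : ℝ} (hη : 0 < η) (x : ℝ) :
    ∃ n : ℤ, |(n : ℝ) * η| ≤ |x| ∧ |x - n * η| ≤ η := by
  have key : ∀ x : ℝ, 0 ≤ x → ∃ n : ℤ, |(n : ℝ) * η| ≤ |x| ∧ |x - n * η| ≤ η := by
    intro x hx
    refine ⟨⌊x / η⌋, ?_, ?_⟩
    · have h1 : (0 : ℝ) ≤ (⌊x / η⌋ : ℝ) := by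
        exact_mod_cast Int.floor_nonneg.mpr (div_nonneg hx hη.le)
      have h2 : (⌊x / η⌋ : ℝ) * η ≤ x := by
        have := Int.floor_le (x / η)
        calc (⌊x / η⌋ : ℝ) * η ≤ x / η * η := mul_le_mul_of_nonneg_right this hη.le
          _ = x := div_mul_cancel₀ _ hη.ne'
      rw [abs_of_nonneg (mul_nonneg h1 hη.le), abs_of_nonneg hx]
      exact h2
    · have h2 : (⌊x / η⌋ : ℝ) * η ≤ x := by
        have := Int.floor_le (x / η)
        calc (⌊x / η⌋ : ℝ) * η ≤ x / η * η := mul_le_mul_of_nonneg_right this hη.le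
          _ = x := div_mul_cancel₀ _ hη.ne'
      have h3 : x ≤ ((⌊x / η⌋ : ℝ) + 1) * η := by
        have := (Int.lt_floor_add_one (x / η)).le
        calc x = x / η * η := (div_mul_cancel₀ _ hη.ne').symm
          _ ≤ ((⌊x / η⌋ : ℝ) + 1) * η := mul_le_mul_of_nonneg_right this hη.le
      rw [abs_of_nonneg (by linarith)]
      nlinarith
  rcases le_total 0 x with hx | hx
  · exact key x hx
  · obtain ⟨n, h1, h2⟩ := key (-x) (by linarith)
    refine ⟨-n, ?_, ?_⟩
    · push_cast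
      rw [neg_mul, abs_neg]
      rwa [abs_neg] at h1
    · push_cast
      have : x - -(n : ℝ) * η = -(-x - n * η) := by ring
      rw [this, abs_neg]
      exact h2

lemma net_arg {r θ : ℝ} (hr : 0 < r) (hθ : |θ| < Real.pi) :
    ((r : ℂ) * Complex.exp (θ * Complex.I)).arg = θ := by
  rw [Complex.exp_mul_I]
  exact Complex.arg_mul_cos_add_sin_mul_I hr ⟨(abs_lt.mp hθ).1, (abs_lt.mp hθ).2.le⟩

lemma net_norm {r θ : ℝ} (hr : 0 < r) : ‖(r : ℂ) * Complex.exp (θ * Complex.I)‖ = r := by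
  rw [norm_mul, Complex.norm_exp_ofReal_mul_I, mul_one, Complex.norm_real, Real.norm_eq_abs,
    abs_of_pos hr]

lemma net_slit {r θ : ℝ} (hr : 0 < r) (hθ : |θ| < Real.pi) :
    (r : ℂ) * Complex.exp (θ * Complex.I) ∈ slitPlane := by
  rw [Complex.mem_slitPlane_iff_arg]
  refine ⟨?_, ?_⟩
  · rw [net_arg hr hθ]
    exact ne_of_lt (abs_lt.mp hθ).2
  · intro h
    have := net_norm (θ := θ) hr
    rw [h, norm_zero] at this
    exact hr.ne this

lemma net_homog {ρ : ℝ} {h : ℝ → ℝ} {r θ : ℝ} (hr : 0 < r) (hθ : |θ| < Real.pi) :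
    homog ρ h ((r : ℂ) * Complex.exp (θ * Complex.I)) = r ^ ρ * h θ := by
  rw [homog, net_norm hr, net_arg hr hθ]

lemma net_star_abs (p : ℕ) : |star p| < Real.pi := by
  rw [abs_of_nonneg (star_nonneg p)]
  exact star_lt_pi p

lemma net_star_nonneg {ρ : ℝ} {h : ℝ → ℝ} (hmaj : MajIneq ρ h) : 0 ≤ h (star ⌊ρ⌋₊) := by
  set p := ⌊ρ⌋₊ with hp
  set z : ℂ := ((1 : ℝ) : ℂ) * Complex.exp (star p * Complex.I) with hz
  have hzs : z ∈ slitPlane := net_slit one_pos (net_star_abs p)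
  have h1 := hmaj 1 (fun _ => z) (fun _ => 2) z (fun _ => hzs) hzs (fun _ => by norm_num) (by
    intro t ht
    have hk : s0 p * Phi p (1 / t) ≤ ker p z t := ker_star_ge p one_pos ht
    have h0 : 0 ≤ s0 p * Phi p (1 / t) :=
      mul_nonneg (s0_pos p).le (Phi_nonneg p (by positivity))
    have hk' : 0 ≤ Real.log ‖primary p (-z / t)‖ := h0.trans hk
    simp only [Finset.univ_unique, Finset.sum_const, Finset.card_singleton, one_smul]
    linarith)
  simp only [Finset.univ_unique, Finset.sum_const, Finset.card_singleton, one_smul] at h1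
  have h2 : homog ρ h z = 1 ^ ρ * h (star p) := net_homog one_pos (net_star_abs p)
  rw [Real.one_rpow, one_mul] at h2
  rw [h2] at h1
  linarith

/-- choice of the mesh -/
lemma net_eta {h : ℝ → ℝ} (hc : Continuous h) {ρ : ℝ} (K : ℝ) (hK : 0 ≤ K) {ε B : ℝ} (hε : 0 < ε)
    (hB : 0 ≤ B) : ∃ η : ℝ, 0 < η ∧ η ≤ 1 ∧ K * η ≤ ε / 8 ∧
      Real.exp (ρ * η) - 1 ≤ (ε / 4) / (B + ε) ∧
      ∀ x ∈ Icc (-Real.pi) Real.pi, ∀ y ∈ Icc (-Real.pi) Real.pi, |x - y| ≤ η →
        |h x - h y| ≤ ε / 4 := by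
  have hu := (isCompact_Icc (a := -Real.pi) (b := Real.pi)).uniformContinuousOn_of_continuous
    hc.continuousOn
  rw [Metric.uniformContinuousOn_iff] at hu
  obtain ⟨d, hd, hd'⟩ := hu (ε / 4) (by linarith)
  have hcts : Tendsto (fun η : ℝ => Real.exp (ρ * η) - 1) (𝓝 0) (𝓝 0) := by
    have : Continuous fun η : ℝ => Real.exp (ρ * η) - 1 := by fun_prop
    have h0 := this.tendsto 0
    simpa using h0
  have hpos : 0 < (ε / 4) / (B + ε) := by positivity
  obtain ⟨d2, hd2, hd2'⟩ := Metric.eventually_nhds_iff.mp (hcts.eventually_lt_const hpos)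
  set η := min 1 (min (d / 2) (min (d2 / 2) (ε / 8 / (K + 1)))) with hη
  have e1 : η ≤ 1 := min_le_left _ _
  have e2 : η ≤ d / 2 := (min_le_right _ _).trans (min_le_left _ _)
  have e3 : η ≤ d2 / 2 :=
    (min_le_right _ _).trans ((min_le_right _ _).trans (min_le_left _ _))
  have e4 : η ≤ ε / 8 / (K + 1) :=
    (min_le_right _ _).trans ((min_le_right _ _).trans (min_le_right _ _))
  have hη0 : 0 < η := by
    refine lt_min one_pos (lt_min (by linarith) (lt_min (by linarith) (by positivity)))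
  refine ⟨η, hη0, e1, ?_, ?_, ?_⟩
  · calc K * η ≤ (K + 1) * (ε / 8 / (K + 1)) := by gcongr; linarith
      _ = ε / 8 := by field_simp
  · refine (hd2' (y := η) ?_).le
    rw [Real.dist_eq, sub_zero, abs_of_pos hη0]
    linarith
  · intro x hx y hy hxy
    have := hd' x hx y hy (by rw [Real.dist_eq]; linarith)
    rw [Real.dist_eq] at this
    exact this.le

lemma net_final {a e v q K' B ε : ℝ} (hε : 0 < ε) (hB : |a| ≤ B)
    (hv : v ≤ a + e) (he : e ≤ 5 * ε / 8) (he0 : 0 ≤ e) (hq0 : 0 < q)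
    (hq : |q - 1| ≤ K') (hK' : K' ≤ (ε / 4) / (B + ε)) : v * q ≤ a + ε := by
  have hB0 : 0 ≤ B := (abs_nonneg _).trans hB
  have h1 : v * q ≤ (a + e) * q := mul_le_mul_of_nonneg_right hv hq0.le
  have h2 : (a + e) * q = a + e + (a + e) * (q - 1) := by ring
  have h3 : (a + e) * (q - 1) ≤ (B + ε) * ((ε / 4) / (B + ε)) := by
    calc (a + e) * (q - 1) ≤ |(a + e) * (q - 1)| := le_abs_self _
      _ = |a + e| * |q - 1| := abs_mul _ _
      _ ≤ (B + ε) * ((ε / 4) / (B + ε)) := by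
        refine mul_le_mul ?_ (hq.trans hK') (abs_nonneg _) (by linarith)
        calc |a + e| ≤ |a| + |e| := abs_add_le _ _
          _ ≤ B + ε := by rw [abs_of_nonneg he0]; linarith
  have h4 : (B + ε) * ((ε / 4) / (B + ε)) = ε / 4 := by
    have : B + ε ≠ 0 := by positivity
    field_simp
  rw [h4] at h3
  linarith

lemma net_abs_exp {x y : ℝ} (hxy : |x| ≤ y) : |Real.exp x - 1| ≤ Real.exp y - 1 := by
  have h1 := abs_le.mp hxy
  rw [abs_le]
  constructor
  · have h2 : Real.exp (-y) ≤ Real.exp x := Real.exp_le_exp.mpr h1.1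
    have h3 : 1 - Real.exp (-y) ≤ Real.exp y - 1 := by
      have h5 : Real.exp y * Real.exp (-y) = 1 := by rw [← Real.exp_add]; simp
      nlinarith [Real.exp_pos y, Real.exp_pos (-y), sq_nonneg (Real.exp y - 1)]
    linarith
  · have := Real.exp_le_exp.mpr h1.2
    linarith

theorem net {ρ : ℝ} (hρ : 0 < ρ) {h : ℝ → ℝ} (hc : Continuous h) (hmaj : MajIneq ρ h) :
    ∃ A, 0 ≤ A ∧ ∀ ε > 0, ∀ δ > 0, ∀ M > 0, ∀ θ₀ : ℝ, |θ₀| < Real.pi →
      ∃ (T : Finset ℝ) (w : ℝ → ℝ), (∀ t ∈ T, 0 < t) ∧ (∀ t ∈ T, 0 ≤ w t) ∧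
        (∀ z ∈ slitPlane, |z.arg| ≤ Real.pi - δ → Real.exp (-M) ≤ ‖z‖ → ‖z‖ ≤ Real.exp M →
          ∑ t ∈ T, w t * ker ⌊ρ⌋₊ z t ≤ (h z.arg + ε) * ‖z‖ ^ ρ) ∧
        h θ₀ - ε ≤ ∑ t ∈ T, w t * ker ⌊ρ⌋₊ (Complex.exp (θ₀ * Complex.I)) t ∧
        ∀ r : ℝ, Real.exp (-M) ≤ r → r ≤ Real.exp M →
          ∑ t ∈ T, w t * Phi ⌊ρ⌋₊ (r / t) ≤ A * r ^ ρ := by
  set p := ⌊ρ⌋₊ with hp
  have hst := net_star_nonneg hmaj
  rw [← hp] at hst
  have hs0 := s0_pos p
  set A : ℝ := (h (star p) + 1) * Real.exp ρ / s0 p with hA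
  have hA0 : 0 ≤ A := by positivity
  refine ⟨A, hA0, ?_⟩
  intro ε hε δ' hδ' M hM θ₀ hθ₀
  -- reduce to δ ≤ π
  set δ := min δ' Real.pi with hδdef
  have hδ : 0 < δ := lt_min hδ' Real.pi_pos
  have hδπ : δ ≤ Real.pi := min_le_right _ _
  have hδδ' : δ ≤ δ' := min_le_left _ _
  have hsin : 0 < Real.sin (δ / 2) :=
    Real.sin_pos_of_pos_of_lt_pi (by linarith) (by linarith [Real.pi_pos])
  obtain ⟨B, hB⟩ := (isCompact_Icc (a := -Real.pi) (b := Real.pi)).exists_bound_of_continuousOn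
    hc.continuousOn
  have hB0 : 0 ≤ B := (norm_nonneg _).trans (hB 0 ⟨by linarith [Real.pi_pos], Real.pi_pos.le⟩)
  set K : ℝ := ((p : ℝ) + 1) * Real.exp (p + 1) * 2 * A / Real.sin (δ / 2) with hKdef
  have hK0 : 0 ≤ K := by positivity
  obtain ⟨η, hη0, hη1, hKη, hexpη, hmod⟩ := net_eta hc (ρ := ρ) K hK0 hε hB0
  set ε₁ : ℝ := min (ε / 4) 1 with hε₁
  have hε₁0 : 0 < ε₁ := lt_min (by linarith) one_pos
  have hε₁a : ε₁ ≤ ε / 4 := min_le_left _ _
  have hε₁b : ε₁ ≤ 1 := min_le_right _ _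
  -- the net
  obtain ⟨N, hN⟩ := exists_nat_ge ((M + Real.pi) / η + 2)
  set I : Finset ℤ := Finset.Icc (-(N : ℤ)) N with hI
  have memI : ∀ n : ℤ, |(n : ℝ) * η| ≤ M + Real.pi + η → n ∈ I := by
    intro n hn
    have h1 : |(n : ℝ)| ≤ N := by
      rw [abs_mul, abs_of_pos hη0] at hn
      have h2 : |(n : ℝ)| ≤ (M + Real.pi + η) / η := by rwa [le_div_iff₀ hη0]
      have h3 : (M + Real.pi + η) / η = (M + Real.pi) / η + 1 := by field_simp
      linarith
    rw [hI, Finset.mem_Icc]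
    have h4 := abs_le.mp h1
    constructor
    · have : (-(N : ℝ)) ≤ n := h4.1
      exact_mod_cast this
    · exact_mod_cast h4.2
  let P : ℤ → ℝ → ℂ := fun i θ => ((Real.exp (i * η) : ℝ) : ℂ) * Complex.exp (θ * Complex.I)
  let Z1 : Finset ℂ := ((I ×ˢ I).filter fun ij => |(ij.2 : ℝ) * η| ≤ Real.pi - δ).image
    fun ij => P ij.1 (ij.2 * η)
  let Z2 : Finset ℂ := I.image fun i => P i (star p)
  have hZ : ∀ z ∈ Z1 ∪ Z2, z ∈ slitPlane := by
    intro z hz
    rcases Finset.mem_union.mp hz with hz | hz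
    · obtain ⟨ij, hij, rfl⟩ := Finset.mem_image.mp hz
      have h1 := (Finset.mem_filter.mp hij).2
      exact net_slit (Real.exp_pos _) (by linarith)
    · obtain ⟨i, hi, rfl⟩ := Finset.mem_image.mp hz
      exact net_slit (Real.exp_pos _) (net_star_abs p)
  set z₀ : ℂ := ((1 : ℝ) : ℂ) * Complex.exp (θ₀ * Complex.I) with hz₀
  have hz₀s : z₀ ∈ slitPlane := net_slit one_pos hθ₀
  obtain ⟨T, w, hT, hw, hle, hge⟩ := dual hmaj (Z1 ∪ Z2) hZ hz₀s hε₁0
  rw [← hp] at hle hge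
  refine ⟨T, w, hT, hw, ?_⟩
  -- bound for the majorant
  have hPhi : ∀ r : ℝ, Real.exp (-M) ≤ r → r ≤ Real.exp M →
      ∑ t ∈ T, w t * Phi p (r / t) ≤ A * r ^ ρ := by
    intro r hr1 hr2
    have hr0 : 0 < r := (Real.exp_pos _).trans_le hr1
    have hl1 : -M ≤ Real.log r := by rwa [Real.le_log_iff_exp_le hr0]
    have hl2 : Real.log r ≤ M := by rwa [Real.log_le_iff_le_exp hr0]
    set i : ℤ := ⌈Real.log r / η⌉ with hi
    have hi1 : Real.log r ≤ i * η := by
      have := Int.le_ceil (Real.log r / η)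
      calc Real.log r = Real.log r / η * η := (div_mul_cancel₀ _ hη0.ne').symm
        _ ≤ i * η := mul_le_mul_of_nonneg_right this hη0.le
    have hi2 : (i : ℝ) * η ≤ Real.log r + η := by
      have := (Int.ceil_lt_add_one (Real.log r / η)).le
      calc (i : ℝ) * η ≤ (Real.log r / η + 1) * η := mul_le_mul_of_nonneg_right this hη0.le
        _ = Real.log r + η := by field_simp
    have hiI : i ∈ I := by
      apply memI
      rw [abs_le]
      constructor <;> linarith [Real.pi_pos]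
    have hmem : P i (star p) ∈ Z1 ∪ Z2 :=
      Finset.mem_union_right _ (Finset.mem_image_of_mem _ hiI)
    have h1 := hle _ hmem
    have h2 : homog ρ h (P i (star p)) = Real.exp (i * η) ^ ρ * h (star p) :=
      net_homog (Real.exp_pos _) (net_star_abs p)
    have h3 : ‖P i (star p)‖ = Real.exp (i * η) := net_norm (Real.exp_pos _)
    rw [h2, h3] at h1
    have hr_le : r ≤ Real.exp (i * η) := by
      calc r = Real.exp (Real.log r) := (Real.exp_log hr0).symm
        _ ≤ Real.exp (i * η) := Real.exp_le_exp.mpr hi1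
    have hpow : Real.exp (i * η) ^ ρ ≤ Real.exp ρ * r ^ ρ := by
      calc Real.exp (i * η) ^ ρ ≤ (Real.exp (Real.log r + 1)) ^ ρ := by
            apply Real.rpow_le_rpow (Real.exp_pos _).le _ hρ.le
            exact Real.exp_le_exp.mpr (by linarith)
        _ = Real.exp ρ * r ^ ρ := by
            rw [Real.exp_add, Real.exp_log hr0, Real.mul_rpow hr0.le (Real.exp_pos _).le,
              ← Real.exp_mul, one_mul, mul_comm]
    have hsum : s0 p * ∑ t ∈ T, w t * Phi p (r / t) ≤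
        ∑ t ∈ T, w t * ker p (P i (star p)) t := by
      rw [Finset.mul_sum]
      refine Finset.sum_le_sum fun t ht => ?_
      have ht0 := hT t ht
      have hk : s0 p * Phi p (Real.exp (i * η) / t) ≤ ker p (P i (star p)) t :=
        ker_star_ge p (Real.exp_pos _) ht0
      have hm : Phi p (r / t) ≤ Phi p (Real.exp (i * η) / t) :=
        Phi_mono p (by positivity) (by gcongr)
      calc s0 p * (w t * Phi p (r / t)) = w t * (s0 p * Phi p (r / t)) := by ring
        _ ≤ w t * ker p (P i (star p)) t := by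
          refine mul_le_mul_of_nonneg_left ?_ (hw t ht)
          exact (mul_le_mul_of_nonneg_left hm hs0.le).trans hk
    have hfin : s0 p * ∑ t ∈ T, w t * Phi p (r / t) ≤
        (h (star p) + 1) * (Real.exp ρ * r ^ ρ) := by
      refine hsum.trans (h1.trans ?_)
      have hE : 0 ≤ Real.exp (i * η) ^ ρ := by positivity
      calc Real.exp (i * η) ^ ρ * h (star p) + ε₁ * Real.exp (i * η) ^ ρ
          = (h (star p) + ε₁) * Real.exp (i * η) ^ ρ := by ring
        _ ≤ (h (star p) + 1) * Real.exp (i * η) ^ ρ := by gcongr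
        _ ≤ (h (star p) + 1) * (Real.exp ρ * r ^ ρ) := by gcongr
    rw [hA]
    calc ∑ t ∈ T, w t * Phi p (r / t) = (s0 p * ∑ t ∈ T, w t * Phi p (r / t)) / s0 p := by
          field_simp
      _ ≤ ((h (star p) + 1) * (Real.exp ρ * r ^ ρ)) / s0 p := by gcongr
      _ = (h (star p) + 1) * Real.exp ρ / s0 p * r ^ ρ := by ring
  refine ⟨?_, ?_, hPhi⟩
  · intro z hz harg hz1 hz2
    have hzn : 0 < ‖z‖ := (Real.exp_pos _).trans_le hz1
    have harg' : |z.arg| ≤ Real.pi - δ := by linarith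
    have hl1 : -M ≤ Real.log ‖z‖ := by rwa [Real.le_log_iff_exp_le hzn]
    have hl2 : Real.log ‖z‖ ≤ M := by rwa [Real.log_le_iff_le_exp hzn]
    obtain ⟨i, hi1, hi2⟩ := net_trunc hη0 (Real.log ‖z‖)
    obtain ⟨j, hj1, hj2⟩ := net_trunc hη0 z.arg
    have hlabs : |Real.log ‖z‖| ≤ M := abs_le.mpr ⟨hl1, hl2⟩
    have hiI : i ∈ I := memI i (by linarith [Real.pi_pos])
    have hjI : j ∈ I := memI j (by linarith [Real.pi_pos])
    have hj3 : |(j : ℝ) * η| ≤ Real.pi - δ := hj1.trans harg'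
    set z' : ℂ := P i (j * η) with hz'
    have hjπ : |(j : ℝ) * η| < Real.pi := by linarith
    have hz's : z' ∈ slitPlane := net_slit (Real.exp_pos _) hjπ
    have hz'n : ‖z'‖ = Real.exp (i * η) := net_norm (Real.exp_pos _)
    have hz'a : z'.arg = j * η := by
      have := net_arg (r := Real.exp (i * η)) (Real.exp_pos _) hjπ
      rw [hz']
      simpa [P] using this
    have hmem : z' ∈ Z1 ∪ Z2 := by
      refine Finset.mem_union_left _ (Finset.mem_image.mpr ⟨(i, j), ?_, rfl⟩)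
      exact Finset.mem_filter.mpr ⟨Finset.mem_product.mpr ⟨hiI, hjI⟩, hj3⟩
    have h1 := hle _ hmem
    have h2 : homog ρ h z' = ‖z'‖ ^ ρ * h (j * η) := by rw [homog, hz'a]
    rw [h2] at h1
    have hlog : |Real.log ‖z‖ - Real.log ‖z'‖| ≤ η := by
      rw [hz'n, Real.log_exp]
      exact hi2
    have hargd : |z.arg - z'.arg| ≤ η := by rw [hz'a]; exact hj2
    have hz'1 : Real.exp (-M) ≤ ‖z'‖ := by
      rw [hz'n]
      apply Real.exp_le_exp.mpr
      have := (abs_le.mp (hi1.trans hlabs)).1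
      linarith
    have hz'2 : ‖z'‖ ≤ Real.exp M := by
      rw [hz'n]
      apply Real.exp_le_exp.mpr
      exact (abs_le.mp (hi1.trans hlabs)).2
    have hPz' := hPhi ‖z'‖ hz'1 hz'2
    have hdiff : ∑ t ∈ T, w t * ker p z t ≤ ∑ t ∈ T, w t * ker p z' t +
        (((p : ℝ) + 1) * Real.exp (p + 1) * (2 * η) / Real.sin (δ / 2)) *
          ∑ t ∈ T, w t * Phi p (‖z'‖ / t) := by
      rw [Finset.mul_sum, ← Finset.sum_add_distrib]
      refine Finset.sum_le_sum fun t ht => ?_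
      have ht0 := hT t ht
      have hwt := hw t ht
      have hk := abs_ker_sub_le p hz hz's hδ hδπ harg' (by rw [hz'a]; exact hj3)
        (hlog.trans hη1) ht0
      have hPn : 0 ≤ Phi p (‖z'‖ / t) := Phi_nonneg p (by positivity)
      have hk2 : ker p z t - ker p z' t ≤
          (((p : ℝ) + 1) * Real.exp (p + 1) * (2 * η) / Real.sin (δ / 2)) *
            Phi p (‖z'‖ / t) := by
        refine (le_abs_self _).trans (hk.trans ?_)
        calc ((p : ℝ) + 1) * Real.exp (p + 1) *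
              (|Real.log ‖z‖ - Real.log ‖z'‖| + |z.arg - z'.arg|) * Phi p (‖z'‖ / t) /
                Real.sin (δ / 2)
            ≤ ((p : ℝ) + 1) * Real.exp (p + 1) * (2 * η) * Phi p (‖z'‖ / t) /
                Real.sin (δ / 2) := by
              gcongr
              linarith
          _ = _ := by ring
      calc w t * ker p z t = w t * ker p z' t + w t * (ker p z t - ker p z' t) := by ring
        _ ≤ w t * ker p z' t + w t * ((((p : ℝ) + 1) * Real.exp (p + 1) * (2 * η) /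
            Real.sin (δ / 2)) * Phi p (‖z'‖ / t)) := by
          have := mul_le_mul_of_nonneg_left hk2 hwt
          linarith
        _ = _ := by ring
    have hcoef : (((p : ℝ) + 1) * Real.exp (p + 1) * (2 * η) / Real.sin (δ / 2)) *
        ∑ t ∈ T, w t * Phi p (‖z'‖ / t) ≤ (K * η) * ‖z'‖ ^ ρ := by
      calc (((p : ℝ) + 1) * Real.exp (p + 1) * (2 * η) / Real.sin (δ / 2)) *
            ∑ t ∈ T, w t * Phi p (‖z'‖ / t)
          ≤ (((p : ℝ) + 1) * Real.exp (p + 1) * (2 * η) / Real.sin (δ / 2)) *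
            (A * ‖z'‖ ^ ρ) := by gcongr
        _ = (K * η) * ‖z'‖ ^ ρ := by rw [hKdef]; ring
    have hz'ρ : 0 ≤ ‖z'‖ ^ ρ := by positivity
    have hV : ∑ t ∈ T, w t * ker p z t ≤ (h (j * η) + ε₁ + K * η) * ‖z'‖ ^ ρ := by
      calc ∑ t ∈ T, w t * ker p z t ≤ _ := hdiff
        _ ≤ (‖z'‖ ^ ρ * h (j * η) + ε₁ * ‖z'‖ ^ ρ) + (K * η) * ‖z'‖ ^ ρ := add_le_add h1 hcoef
        _ = _ := by ring
    -- compare the radii
    set x : ℝ := Real.log ‖z'‖ - Real.log ‖z‖ with hx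
    have hxη : |ρ * x| ≤ ρ * η := by
      rw [abs_mul, abs_of_pos hρ]
      refine mul_le_mul_of_nonneg_left ?_ hρ.le
      rw [hx, abs_sub_comm]
      exact hlog
    have hz'pos : 0 < ‖z'‖ := (Real.exp_pos _).trans_le hz'1
    have hq : ‖z'‖ ^ ρ = Real.exp (ρ * x) * ‖z‖ ^ ρ := by
      rw [Real.rpow_def_of_pos hz'pos, Real.rpow_def_of_pos hzn, ← Real.exp_add, hx]
      congr 1
      ring
    have hargz : z.arg ∈ Icc (-Real.pi) Real.pi := ⟨(Complex.neg_pi_lt_arg z).le, Complex.arg_le_pi z⟩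
    have hargz' : (j : ℝ) * η ∈ Icc (-Real.pi) Real.pi :=
      ⟨(abs_lt.mp hjπ).1.le, (abs_lt.mp hjπ).2.le⟩
    have hhd := hmod _ hargz _ hargz' hj2
    have hhB : |h z.arg| ≤ B := by
      have := hB _ hargz
      rwa [Real.norm_eq_abs] at this
    have hfin := net_final (a := h z.arg) (e := ε / 4 + ε₁ + K * η)
      (v := h (j * η) + ε₁ + K * η) (q := Real.exp (ρ * x)) (K' := Real.exp (ρ * η) - 1)
      (B := B) hε hhB
      (by have := (abs_le.mp hhd).1; linarith) (by linarith) (by positivity) (Real.exp_pos _)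
      (net_abs_exp hxη) hexpη
    calc ∑ t ∈ T, w t * ker p z t ≤ (h (j * η) + ε₁ + K * η) * ‖z'‖ ^ ρ := hV
      _ = ((h (j * η) + ε₁ + K * η) * Real.exp (ρ * x)) * ‖z‖ ^ ρ := by rw [hq]; ring
      _ ≤ (h z.arg + ε) * ‖z‖ ^ ρ := by gcongr
  · have h2 : homog ρ h z₀ = 1 ^ ρ * h θ₀ := net_homog one_pos hθ₀
    have h3 : ‖z₀‖ = 1 := net_norm one_pos
    rw [h2, h3, Real.one_rpow, one_mul, mul_one] at hge
    have h4 : z₀ = Complex.exp (θ₀ * Complex.I) := by rw [hz₀]; simp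
    rw [h4] at hge
    linarith

end Helper25.Ind
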