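import Pool.Agent.Helper25.Ind.OneC
import Pool.Agent.Helper25.Ind.IntN
import Pool.Agent.Helper25.Ind.IntS
import Pool.Agent.Helper25.Ind.Had

/-!
Complete description of the indicators of functions in `N_1`.
-/

open Complex Filter Topology MeasureTheory Set

namespace Helper25.Ind

lemma one_norm {r : ℝ} (hr : 0 ≤ r) (θ : ℝ) :
    ‖(r : ℂ) * Complex.exp (θ * Complex.I)‖ = r := by
  rw [norm_mul, Complex.norm_exp_ofReal_mul_I, mul_one, Complex.norm_real,
    Real.norm_of_nonneg hr]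

lemma one_im (r θ : ℝ) : ((r : ℂ) * Complex.exp (θ * Complex.I)).im = r * Real.sin θ := by
  rw [Complex.exp_mul_I]
  simp [Complex.cos_ofReal_re, Complex.sin_ofReal_re, Complex.cos_ofReal_im, Complex.sin_ofReal_im]

/-- multiplication by `exp (-i b z)` -/
noncomputable def oneTwist (b : ℝ) (f : ℂ → ℂ) (z : ℂ) : ℂ := f z * Complex.exp (-(b * I) * z)

lemma oneTwist_norm (b : ℝ) (f : ℂ → ℂ) (z : ℂ) :
    ‖oneTwist b f z‖ = ‖f z‖ * Real.exp (b * z.im) := by
  unfold oneTwist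
  rw [norm_mul, Complex.norm_exp]
  congr 2
  simp

lemma oneTwist_eq_zero (b : ℝ) (f : ℂ → ℂ) (z : ℂ) : oneTwist b f z = 0 ↔ f z = 0 := by
  unfold oneTwist
  simp [Complex.exp_ne_zero]

lemma oneTwist_isN {f : ℂ → ℂ} (hf : IsN 1 f) (hs : ∀ z, ‖f (starRingEnd ℂ z)‖ = ‖f z‖) (b : ℝ) :
    IsN 1 (oneTwist b f) := by
  refine ⟨?_, ?_, ?_, ?_⟩
  · unfold oneTwist
    exact hf.differentiable.mul (by fun_prop)
  · intro z hz
    exact hf.zeros z ((oneTwist_eq_zero b f z).1 hz)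
  · intro σ hσ
    obtain ⟨τ, hτ1, hτ2⟩ := exists_between hσ
    obtain ⟨R, hR⟩ := hf.upper τ hτ1
    have h1 : Tendsto (fun r : ℝ => r ^ (σ - τ)) atTop atTop := tendsto_rpow_atTop (by linarith)
    obtain ⟨R2, hR2⟩ := eventually_atTop.1 (h1.eventually_ge_atTop (1 + |b|))
    refine ⟨max (max R R2) 1, fun z hz => ?_⟩
    have hz1 : 1 ≤ ‖z‖ := le_trans (le_max_right _ _) hz
    have hz2 : R ≤ ‖z‖ := le_trans (le_trans (le_max_left _ _) (le_max_left _ _)) hz
    have hz3 : R2 ≤ ‖z‖ := le_trans (le_trans (le_max_right _ _) (le_max_left _ _)) hz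
    have hz0 : 0 < ‖z‖ := by linarith
    rw [oneTwist_norm]
    have h2 := hR z hz2
    have h3 : b * z.im ≤ |b| * ‖z‖ := by
      calc b * z.im ≤ |b * z.im| := le_abs_self _
        _ = |b| * |z.im| := abs_mul _ _
        _ ≤ |b| * ‖z‖ := by
          gcongr
          exact Complex.abs_im_le_norm z
    have h4 : ‖z‖ ≤ ‖z‖ ^ τ := by
      calc ‖z‖ = ‖z‖ ^ (1 : ℝ) := (Real.rpow_one _).symm
        _ ≤ ‖z‖ ^ τ := Real.rpow_le_rpow_of_exponent_le hz1 hτ1.le
    have h5 : ‖z‖ ^ σ = ‖z‖ ^ (σ - τ) * ‖z‖ ^ τ := by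
      rw [← Real.rpow_add hz0]
      ring_nf
    calc ‖f z‖ * Real.exp (b * z.im) ≤ Real.exp (‖z‖ ^ τ) * Real.exp (|b| * ‖z‖) := by gcongr
      _ = Real.exp (‖z‖ ^ τ + |b| * ‖z‖) := (Real.exp_add _ _).symm
      _ ≤ Real.exp (‖z‖ ^ σ) := by
        apply Real.exp_le_exp.2
        rw [h5]
        have h6 := hR2 ‖z‖ hz3
        have h7 : 0 ≤ ‖z‖ ^ τ := by positivity
        have h8 : |b| * ‖z‖ ≤ |b| * ‖z‖ ^ τ := by gcongr
        nlinarith
  · intro σ hσ R
    obtain ⟨z, hz1, hz2⟩ := hf.lower σ hσ R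
    by_cases hb : 0 ≤ b * z.im
    · refine ⟨z, hz1, hz2.trans ?_⟩
      rw [oneTwist_norm]
      have := Real.one_le_exp hb
      nlinarith [norm_nonneg (f z)]
    · refine ⟨starRingEnd ℂ z, by rwa [RCLike.norm_conj], ?_⟩
      rw [RCLike.norm_conj, oneTwist_norm, hs]
      refine hz2.trans ?_
      have h3 : 0 ≤ b * (starRingEnd ℂ z).im := by
        rw [Complex.conj_im]
        push Not at hb
        linarith
      have := Real.one_le_exp h3
      nlinarith [norm_nonneg (f z)]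

lemma oneTwist_indicator (f : ℂ → ℂ) (b θ : ℝ) :
    indicatorOf 1 (oneTwist b f) θ = indicatorOf 1 f θ + ((b * Real.sin θ : ℝ) : EReal) := by
  refine indicatorOf_eq_add (Eventually.of_forall fun r => oneTwist_eq_zero b f _) ?_
  intro ε hε
  filter_upwards [eventually_gt_atTop 0] with r hr h0
  rw [oneTwist_norm, Real.log_mul (norm_ne_zero_iff.2 h0) (Real.exp_ne_zero _), Real.log_exp,
    one_im, Real.rpow_one]
  have : Real.log ‖f (r * Complex.exp (θ * Complex.I))‖ + b * (r * Real.sin θ) -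
      Real.log ‖f (r * Complex.exp (θ * Complex.I))‖ - b * Real.sin θ * r = 0 := by ring
  rw [this, abs_zero]
  positivity

lemma one_indicator_neg {f : ℂ → ℂ} (hs : ∀ z, ‖f (starRingEnd ℂ z)‖ = ‖f z‖) (θ : ℝ) :
    indicatorOf 1 f (-θ) = indicatorOf 1 f θ := by
  have h1 : ∀ r : ℝ, (r : ℂ) * Complex.exp ((-θ : ℝ) * Complex.I) =
      starRingEnd ℂ ((r : ℂ) * Complex.exp (θ * Complex.I)) := by
    intro r
    rw [map_mul, Complex.conj_ofReal, ← Complex.exp_conj]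
    congr 2
    simp
  have h2 : ratio 1 f (-θ) = ratio 1 f θ := by
    funext r
    unfold ratio
    rw [h1 r, hs]
    have h3 : f (starRingEnd ℂ ((r : ℂ) * Complex.exp (θ * Complex.I))) = 0 ↔
        f ((r : ℂ) * Complex.exp (θ * Complex.I)) = 0 := by
      rw [← norm_eq_zero, hs, norm_eq_zero]
    simp only [h3]
  unfold indicatorOf
  rw [h2]

theorem order_one (h : ℝ → EReal) :
    (∃ f, IsN 1 f ∧ ∀ θ, indicatorOf 1 f θ = h θ) ↔
      (∃ A B : ℝ, ∀ θ, h θ = ((A * Real.cos θ + B * Real.sin θ : ℝ) : EReal)) ∨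
      ∃ (τ : ℝ) (c : EReal) (B : ℝ), Real.pi / 4 ≤ τ ∧ τ ≤ Real.pi / 2 ∧
        (τ = Real.pi / 4 → c = ⊥) ∧ (τ = Real.pi / 2 → 0 ≤ c) ∧
        (∀ θ, h (θ + 2 * Real.pi) = h θ) ∧
        (∀ θ, |θ| < τ → h θ = ⊥) ∧ (∀ θ, τ < |θ| → |θ| ≤ Real.pi → h θ = ⊤) ∧
        h τ = c + B ∧ h (-τ) = c - B := by
  constructor
  · rintro ⟨f, hf, hh⟩
    have hord : OrderLE 1 f := ⟨hf.differentiable, hf.upper⟩
    obtain ⟨ι, _, a, Q, ha, hQ, -, hfz, hlog⟩ := hadamard (p := 1) hf.differentiable hf.zeros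
      hf.upper one_pos (by norm_num)
    by_cases hs : Summable fun i => (a i)⁻¹
    · left
      obtain ⟨A, B, hAB⟩ := indicator_of_summable (q := 1) le_rfl (f := f)
        (by rwa [Nat.cast_one]) ha hQ (by
          refine hs.congr fun i => ?_
          rw [Nat.cast_one, Real.rpow_neg_one]) hfz hlog
      refine ⟨A, B, fun θ => ?_⟩
      have := hAB θ
      simp only [Nat.cast_one, one_mul] at this
      rw [← hh, this]
    · right
      obtain ⟨τ, c, B, h1, h2, h3, h4, h5, h6, h7, h8⟩ := one_threshold hf ha hQ hs hfz hlog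
      refine ⟨τ, c, B, h1, h2, h3, h4, fun θ => ?_, fun θ hθ => ?_, fun θ hθ hθ2 => ?_, ?_, ?_⟩
      · rw [← hh, ← hh, indicatorOf_add_two_pi]
      · rw [← hh, h5 θ hθ]
      · rw [← hh, h6 θ hθ hθ2]
      · rw [← hh, h7]
      · rw [← hh, h8]
  · rintro (⟨A, B, hAB⟩ | ⟨τ, c, B, h1, h2, h3, h4, hper, h5, h6, h7, h8⟩)
    · obtain ⟨f, hf, hh⟩ := exists_of_trig (q := 1) le_rfl A B
      simp only [Nat.cast_one, one_mul] at hh hf
      exact ⟨f, hf, fun θ => by rw [hh, hAB]⟩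
    · obtain ⟨f, hf, hs, g1, g2, g3⟩ := one_construct h1 h2 h3 h4
      have hsin : 0 < Real.sin τ := Real.sin_pos_of_pos_of_lt_pi
        (by linarith [Real.pi_pos]) (by linarith [Real.pi_pos])
      refine ⟨oneTwist (B / Real.sin τ) f, oneTwist_isN hf hs _, ?_⟩
      have hIcc : ∀ θ : ℝ, |θ| ≤ Real.pi →
          indicatorOf 1 (oneTwist (B / Real.sin τ) f) θ = h θ := by
        intro θ hθ
        rw [oneTwist_indicator]
        rcases lt_trichotomy |θ| τ with h9 | h9 | h9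
        · rw [g1 θ h9, h5 θ h9]
          exact EReal.bot_add _
        · rcases abs_eq (by linarith [Real.pi_pos] : 0 ≤ τ) |>.1 h9 with h10 | h10
          · rw [h10, g3, h7, div_mul_cancel₀ _ hsin.ne']
          · rw [h10, one_indicator_neg hs, g3, h8, Real.sin_neg, mul_neg,
              div_mul_cancel₀ _ hsin.ne', EReal.coe_neg, sub_eq_add_neg]
        · rw [g2 θ h9 hθ, h6 θ h9 hθ]
          exact EReal.top_add_coe _
      intro θ
      obtain ⟨y, hy, hy2⟩ := (show Function.Periodic (fun θ =>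
        (indicatorOf 1 (oneTwist (B / Real.sin τ) f) θ, h θ)) (2 * Real.pi) from
        fun θ => by simp [indicatorOf_add_two_pi, hper]).exists_mem_Ico
        (by positivity : 0 < 2 * Real.pi) θ (-Real.pi)
      simp only [Prod.mk.injEq] at hy2
      rw [hy2.1, hy2.2, hIcc y (abs_le.2 ⟨hy.1, by linarith [hy.2]⟩)]

end Helper25.Ind
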