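import Pool.Agent.Helper25.Ind.Defs

open Complex Filter Topology MeasureTheory Set

namespace Helper25.Ind

private lemma onek_eq {s θ : ℝ} (hs : 0 ≤ s) (hc : 0 ≤ Real.cos θ) :
    ker 1 (s * Complex.exp (θ * Complex.I)) 1 =
      1 / 2 * Real.log (1 + 2 * (s * Real.cos θ) + s ^ 2) - s * Real.cos θ := by
  set z : ℂ := s * Complex.exp (θ * Complex.I) with hz
  have hre : z.re = s * Real.cos θ := by
    rw [hz, Complex.re_ofReal_mul, Complex.exp_ofReal_mul_I_re]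
  have him : z.im = s * Real.sin θ := by
    rw [hz, Complex.im_ofReal_mul, Complex.exp_ofReal_mul_I_im]
  have hn : ‖1 + z‖ ^ 2 = 1 + 2 * (s * Real.cos θ) + s ^ 2 := by
    rw [← Complex.normSq_eq_norm_sq, Complex.normSq_apply]
    simp only [add_re, one_re, add_im, one_im, hre, him]
    nlinarith [Real.sin_sq_add_cos_sq θ]
  have hpos : 0 < 1 + 2 * (s * Real.cos θ) + s ^ 2 := by positivity
  have hn0 : 0 < ‖1 + z‖ := by
    rcases (norm_nonneg (1 + z)).eq_or_lt with h | h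
    · rw [← h] at hn; norm_num at hn; linarith
    · exact h
  have hk : ker 1 z 1 = Real.log (‖1 + z‖ * Real.exp (-z.re)) := by
    unfold ker primary
    rw [norm_mul, Complex.norm_exp]
    simp
  rw [hk, Real.log_mul hn0.ne' (Real.exp_pos _).ne', Real.log_exp, hre, ← hn, Real.log_pow]
  push_cast
  ring

private lemma onek_cos_nonneg {θ : ℝ} (h0 : 0 ≤ θ) (h2 : θ ≤ Real.pi / 2) : 0 ≤ Real.cos θ :=
  Real.cos_nonneg_of_mem_Icc ⟨by linarith [Real.pi_pos], h2⟩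

lemma one_ker_mono {s θ θ' : ℝ} (hs : 0 ≤ s) (h0 : 0 ≤ θ) (h1 : θ ≤ θ') (h2 : θ' ≤ Real.pi / 2) :
    ker 1 (s * Complex.exp (θ * Complex.I)) 1 ≤ ker 1 (s * Complex.exp (θ' * Complex.I)) 1 := by
  have c0 := onek_cos_nonneg h0 (h1.trans h2)
  have c1 := onek_cos_nonneg (h0.trans h1) h2
  have c2 : Real.cos θ' ≤ Real.cos θ :=
    Real.cos_le_cos_of_nonneg_of_le_pi h0 (by linarith [Real.pi_pos]) h1
  rw [onek_eq hs c0, onek_eq hs c1]
  set c := Real.cos θ
  set c' := Real.cos θ'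
  have p1 : 0 < 1 + 2 * (s * c) + s ^ 2 := by positivity
  have p2 : 0 < 1 + 2 * (s * c') + s ^ 2 := by positivity
  have hl := Real.log_le_sub_one_of_pos (x := (1 + 2 * (s * c) + s ^ 2) / (1 + 2 * (s * c') + s ^ 2))
    (by positivity)
  rw [Real.log_div p1.ne' p2.ne'] at hl
  have e : (1 + 2 * (s * c) + s ^ 2) / (1 + 2 * (s * c') + s ^ 2) - 1 =
      2 * (s * (c - c')) / (1 + 2 * (s * c') + s ^ 2) := by field_simp; ring
  have e2 : 2 * (s * (c - c')) / (1 + 2 * (s * c') + s ^ 2) ≤ 2 * (s * (c - c')) := by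
    apply div_le_self
    · have := sub_nonneg.mpr c2; positivity
    · have : 0 ≤ s * c' := by positivity
      nlinarith [sq_nonneg s]
  rw [e] at hl
  nlinarith

private lemma onek_sqrt : Real.cos (Real.pi / 4) = Real.sqrt 2 / 2 := Real.cos_pi_div_four

lemma one_ker_quarter : (∀ s : ℝ, 0 ≤ s →
      ker 1 (s * Complex.exp ((Real.pi / 4 : ℝ) * Complex.I)) 1 ≤ 0) ∧
    ∃ c > 0, ∀ s : ℝ, 1 ≤ s →
      ker 1 (s * Complex.exp ((Real.pi / 4 : ℝ) * Complex.I)) 1 ≤ -c * s := by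
  have hsq : Real.sqrt 2 ^ 2 = 2 := Real.sq_sqrt (by norm_num)
  have hs0 : 0 ≤ Real.sqrt 2 := Real.sqrt_nonneg 2
  have hcos : 0 ≤ Real.cos (Real.pi / 4) := by rw [onek_sqrt]; positivity
  have key : ∀ s : ℝ, 0 ≤ s → ker 1 (s * Complex.exp ((Real.pi / 4 : ℝ) * Complex.I)) 1 =
      1 / 2 * Real.log (1 + Real.sqrt 2 * s + (Real.sqrt 2 * s) ^ 2 / 2) -
        Real.sqrt 2 * s / 2 := by
    intro s hs
    rw [onek_eq hs hcos, onek_sqrt]
    have : (Real.sqrt 2 * s) ^ 2 / 2 = s ^ 2 := by rw [mul_pow, hsq]; ring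
    rw [this]
    ring_nf
  refine ⟨fun s hs => ?_, 1 / 20, by norm_num, fun s hs => ?_⟩
  · rw [key s hs]
    set x := Real.sqrt 2 * s with hx
    have hx0 : 0 ≤ x := by positivity
    have h := Real.quadratic_le_exp_of_nonneg hx0
    have hl : Real.log (1 + x + x ^ 2 / 2) ≤ x := by
      rw [Real.log_le_iff_le_exp (by positivity)]
      exact h
    linarith
  · rw [key s (by linarith)]
    set x := Real.sqrt 2 * s with hx
    have h2 : (1.414 : ℝ) ≤ Real.sqrt 2 := by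
      apply Real.le_sqrt_of_sq_le; norm_num
    have hx1 : 1.414 ≤ x := by rw [hx]; nlinarith
    have hxs : s ≤ x := by rw [hx]; nlinarith
    have h := Real.sum_le_exp_of_nonneg (x := 9 / 10 * x) (by positivity) 4
    have e : ∑ i ∈ Finset.range 4, (9 / 10 * x) ^ i / (Nat.factorial i : ℝ) =
        1 + 9 / 10 * x + (9 / 10 * x) ^ 2 / 2 + (9 / 10 * x) ^ 3 / 6 := by
      simp [Finset.sum_range_succ, Nat.factorial]
    rw [e] at h
    have h3 : 1 + x + x ^ 2 / 2 ≤ 1 + 9 / 10 * x + (9 / 10 * x) ^ 2 / 2 + (9 / 10 * x) ^ 3 / 6 := by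
      have : 0 ≤ x * (-(1 / 10) - 0.095 * x + 0.1215 * x ^ 2) := by
        apply mul_nonneg (by linarith)
        nlinarith
      nlinarith
    have hl : Real.log (1 + x + x ^ 2 / 2) ≤ 9 / 10 * x := by
      rw [Real.log_le_iff_le_exp (by positivity)]
      linarith
    linarith

lemma one_ker_half {s : ℝ} (hs : 0 ≤ s) :
    0 ≤ ker 1 (s * Complex.exp ((Real.pi / 2 : ℝ) * Complex.I)) 1 := by
  rw [onek_eq hs (by rw [Real.cos_pi_div_two]), Real.cos_pi_div_two]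
  have : 0 ≤ Real.log (1 + 2 * (s * 0) + s ^ 2) := Real.log_nonneg (by nlinarith [sq_nonneg s])
  linarith

lemma one_ker_pos {θ : ℝ} (h1 : Real.pi / 4 < θ) (h2 : θ ≤ Real.pi / 2) :
    ∃ s : ℝ, 0 < s ∧ 0 < ker 1 (s * Complex.exp (θ * Complex.I)) 1 := by
  have c0 := onek_cos_nonneg (by linarith [Real.pi_pos]) h2
  have c1 : Real.cos θ < Real.cos (Real.pi / 4) :=
    Real.cos_lt_cos_of_nonneg_of_le_pi (by positivity) (by linarith [Real.pi_pos]) h1
  rw [onek_sqrt] at c1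
  set c := Real.cos θ with hc
  have hsq : Real.sqrt 2 ^ 2 = 2 := Real.sq_sqrt (by norm_num)
  have c2 : 2 * c ^ 2 < 1 := by
    have : c ^ 2 < (Real.sqrt 2 / 2) ^ 2 := by gcongr
    rw [div_pow, hsq] at this
    linarith
  have c3 : c ≤ 1 := Real.cos_le_one θ
  refine ⟨(1 - 2 * c ^ 2) / 2, by linarith, ?_⟩
  set s := (1 - 2 * c ^ 2) / 2 with hs
  have s0 : 0 < s := by rw [hs]; linarith
  rw [onek_eq s0.le c0, ← hc]
  have hl := Real.le_log_one_add_of_nonneg (x := 2 * (s * c) + s ^ 2) (by positivity)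
  have hu : 0 < 2 * (s * c) + s ^ 2 + 2 := by positivity
  have hsc : s * c ≤ s := by nlinarith
  have key : 0 < 1 / 2 * (2 * (2 * (s * c) + s ^ 2) / (2 * (s * c) + s ^ 2 + 2)) - s * c := by
    have e : 1 / 2 * (2 * (2 * (s * c) + s ^ 2) / (2 * (s * c) + s ^ 2 + 2)) - s * c =
        s ^ 2 * (1 - 2 * c ^ 2 - s * c) / (2 * (s * c) + s ^ 2 + 2) := by
      field_simp
      ring
    rw [e]
    have : 0 < 1 - 2 * c ^ 2 - s * c := by
      have : 1 - 2 * c ^ 2 = 2 * s := by rw [hs]; ring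
      rw [this]; linarith
    positivity
  have e3 : (1 : ℝ) + 2 * (s * c) + s ^ 2 = 1 + (2 * (s * c) + s ^ 2) := by ring
  rw [e3]
  linarith

end Helper25.Ind
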