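import Pool.Agent.Helper25.Ind.Defs
import Pool.Agent.Helper25.Ind.OneK
import Pool.Agent.Helper25.Ind.Trig
import Pool.Agent.Helper25.Ind.KerB
import Pool.Agent.Helper25.Ind.KerC

open Complex Filter Topology MeasureTheory Set

namespace Helper25.Ind

/-- the value of a polynomial of degree at most one -/
lemma oneT_eval {Q : Polynomial ℂ} (hQ : Q.natDegree ≤ 1) (z : ℂ) :
    Q.eval z = Q.coeff 0 + Q.coeff 1 * z := by
  rw [Polynomial.eval_eq_sum_range' (n := 2) (by omega)]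
  simp [Finset.sum_range_succ]

lemma oneT_conj (r θ : ℝ) : (starRingEnd ℂ) ((r : ℂ) * Complex.exp (θ * Complex.I)) =
    (r : ℂ) * Complex.exp ((-θ : ℝ) * Complex.I) := by
  rw [map_mul, Complex.conj_ofReal, ← Complex.exp_conj, map_mul, Complex.conj_ofReal,
    Complex.conj_I]
  push_cast
  ring_nf

lemma oneT_im (r θ : ℝ) : ((r : ℂ) * Complex.exp (θ * Complex.I)).im = r * Real.sin θ := by
  rw [Complex.exp_mul_I]
  simp [← Complex.ofReal_cos, ← Complex.ofReal_sin]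

lemma oneT_re (r θ : ℝ) : ((r : ℂ) * Complex.exp (θ * Complex.I)).re = r * Real.cos θ := by
  rw [Complex.exp_mul_I]
  simp [← Complex.ofReal_cos, ← Complex.ofReal_sin]

lemma oneT_norm {r : ℝ} (hr : 0 ≤ r) (θ : ℝ) :
    ‖(r : ℂ) * Complex.exp (θ * Complex.I)‖ = r := by
  rw [norm_mul, Complex.norm_exp_ofReal_mul_I, mul_one, Complex.norm_real, Real.norm_eq_abs,
    abs_of_nonneg hr]

/-- points in the closed right half plane are not zeros -/
lemma oneT_ne {ι : Type} {a : ι → ℝ} {f : ℂ → ℂ} (ha : ∀ i, 0 < a i)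
    (hfz : ∀ z, f z = 0 ↔ ∃ i, z = -(a i : ℂ)) {z : ℂ} (hz : 0 ≤ z.re) : f z ≠ 0 := by
  intro h
  obtain ⟨i, rfl⟩ := (hfz z).1 h
  simp at hz
  have := ha i
  linarith

lemma oneT_ker (r θ : ℝ) (hr : 0 < r) {a : ℝ} (ha : 0 < a) :
    ker 1 ((r : ℂ) * Complex.exp (θ * Complex.I)) a =
      ker 1 (((r / a : ℝ) : ℂ) * Complex.exp (θ * Complex.I)) 1 := by
  rw [ker_scale 1 _ hr ha, ker_scale 1 _ (div_pos hr ha) one_pos, one_div, inv_div]

lemma oneT_symm {f : ℂ → ℂ} {ι : Type} {a : ι → ℝ} {Q : Polynomial ℂ} (hQ : Q.natDegree ≤ 1)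
    (hfz : ∀ z, f z = 0 ↔ ∃ i, z = -(a i : ℂ))
    (hlog : ∀ z, f z ≠ 0 → (Summable fun i => ker 1 z (a i)) ∧
      Real.log ‖f z‖ = (Q.eval z).re + ∑' i, ker 1 z (a i)) (θ : ℝ) :
    indicatorOf 1 f θ =
      indicatorOf 1 f (-θ) + ((-2 * (Q.coeff 1).im * Real.sin θ : ℝ) : EReal) := by
  have hz : ∀ z, f z = 0 ↔ f (starRingEnd ℂ z) = 0 := by
    intro z
    rw [hfz, hfz]
    constructor
    · rintro ⟨i, rfl⟩
      exact ⟨i, by simp⟩
    · rintro ⟨i, hi⟩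
      refine ⟨i, ?_⟩
      have := congrArg (starRingEnd ℂ) hi
      simpa using this
  refine indicatorOf_eq_add (Eventually.of_forall fun r => ?_) fun ε hε => ?_
  · rw [← oneT_conj, ← hz]
  · filter_upwards [eventually_ge_atTop 0] with r hr hne
    have hne' : f ((r : ℂ) * Complex.exp (θ * Complex.I)) ≠ 0 := by
      rw [← oneT_conj] at hne
      exact fun h => hne ((hz _).1 h)
    rw [(hlog _ hne').2, (hlog _ hne).2, ← oneT_conj]
    simp only [ker_conj]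
    rw [oneT_eval hQ, oneT_eval hQ]
    have e1 : ((Q.coeff 0 + Q.coeff 1 * ((r : ℂ) * Complex.exp (θ * Complex.I))).re +
        ∑' i, ker 1 ((r : ℂ) * Complex.exp (θ * Complex.I)) (a i) -
        ((Q.coeff 0 + Q.coeff 1 * (starRingEnd ℂ) ((r : ℂ) * Complex.exp (θ * Complex.I))).re +
          ∑' i, ker 1 ((r : ℂ) * Complex.exp (θ * Complex.I)) (a i)) -
        -2 * (Q.coeff 1).im * Real.sin θ * r ^ (1 : ℝ)) = 0 := by
      rw [Real.rpow_one]
      simp only [Complex.add_re, Complex.mul_re, Complex.conj_re, Complex.conj_im]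
      rw [oneT_im]
      ring
    rw [e1, abs_zero, Real.rpow_one]
    positivity

lemma oneT_bot {f : ℂ → ℂ} {ι : Type} {a : ι → ℝ} (ha : ∀ i, 0 < a i) {Q : Polynomial ℂ}
    (hQ : Q.natDegree ≤ 1) (hs : ¬ Summable fun i => (a i)⁻¹)
    (hfz : ∀ z, f z = 0 ↔ ∃ i, z = -(a i : ℂ))
    (hlog : ∀ z, f z ≠ 0 → (Summable fun i => ker 1 z (a i)) ∧
      Real.log ‖f z‖ = (Q.eval z).re + ∑' i, ker 1 z (a i)) {θ : ℝ} (h0 : 0 ≤ θ)
    (h1 : θ ≤ Real.pi / 4) : indicatorOf 1 f θ = ⊥ := by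
  have hpi := Real.pi_pos
  obtain ⟨c, hc, hcs⟩ := one_ker_quarter.2
  have hker : ∀ r : ℝ, 0 < r → ∀ i,
      ker 1 ((r : ℂ) * Complex.exp (θ * Complex.I)) (a i) ≤ 0 := by
    intro r hr i
    rw [oneT_ker r θ hr (ha i)]
    have hra : 0 ≤ r / a i := (div_pos hr (ha i)).le
    exact (one_ker_mono hra h0 h1 (by linarith)).trans (one_ker_quarter.1 _ hra)
  have hker2 : ∀ r : ℝ, 0 < r → ∀ i, a i ≤ r →
      ker 1 ((r : ℂ) * Complex.exp (θ * Complex.I)) (a i) ≤ -c * (r * (a i)⁻¹) := by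
    intro r hr i hi
    rw [oneT_ker r θ hr (ha i)]
    have hra : 0 ≤ r / a i := (div_pos hr (ha i)).le
    refine (one_ker_mono hra h0 h1 (by linarith)).trans ?_
    rw [← div_eq_mul_inv]
    exact hcs _ ((one_le_div (ha i)).2 hi)
  rw [EReal.eq_bot_iff_forall_lt]
  intro y
  refine lt_of_le_of_lt (b := ((y - 1 : ℝ) : EReal)) ?_ (by
    rw [EReal.coe_lt_coe_iff]; linarith)
  refine indicatorOf_le_of_eventually fun ε hε => ?_
  -- a finite set with large reciprocal sum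
  obtain ⟨s, hsum⟩ : ∃ s : Finset ι,
      (|(Q.coeff 0).re| + ‖Q.coeff 1‖ + |y - 1|) / c < ∑ i ∈ s, (a i)⁻¹ := by
    by_contra hcon
    push Not at hcon
    exact hs (summable_of_sum_le (fun i => (inv_pos.2 (ha i)).le) hcon)
  have hev : ∀ᶠ r : ℝ in atTop, ∀ i ∈ s, a i ≤ r := by
    rw [Finset.eventually_all]
    intro i _
    exact eventually_ge_atTop (a i)
  filter_upwards [hev, eventually_ge_atTop (1 : ℝ)] with r hr hr1
  have hr0 : 0 < r := by linarith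
  have hne : f ((r : ℂ) * Complex.exp (θ * Complex.I)) ≠ 0 := by
    refine oneT_ne ha hfz ?_
    rw [oneT_re]
    exact mul_nonneg hr0.le (Real.cos_nonneg_of_mem_Icc ⟨by linarith, by linarith⟩)
  obtain ⟨hsm, hl⟩ := hlog _ hne
  have hA : ∑' i, ker 1 ((r : ℂ) * Complex.exp (θ * Complex.I)) (a i) ≤
      -(c * r * ∑ i ∈ s, (a i)⁻¹) := by
    have h2 := hsm.neg.sum_le_tsum s (fun i _ => by
      have := hker r hr0 i
      linarith)
    rw [tsum_neg] at h2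
    have h3 : c * r * ∑ i ∈ s, (a i)⁻¹ ≤
        ∑ i ∈ s, -ker 1 ((r : ℂ) * Complex.exp (θ * Complex.I)) (a i) := by
      rw [Finset.mul_sum]
      refine Finset.sum_le_sum fun i hi => ?_
      have := hker2 r hr0 i (hr i hi)
      nlinarith [this]
    linarith
  have hB : (Q.eval ((r : ℂ) * Complex.exp (θ * Complex.I))).re ≤
      (|(Q.coeff 0).re| + ‖Q.coeff 1‖) * r := by
    rw [oneT_eval hQ, Complex.add_re]
    have h2 : (Q.coeff 1 * ((r : ℂ) * Complex.exp (θ * Complex.I))).re ≤ ‖Q.coeff 1‖ * r := by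
      refine (Complex.re_le_norm _).trans ?_
      rw [norm_mul, oneT_norm hr0.le]
    have h3 : (Q.coeff 0).re ≤ |(Q.coeff 0).re| * r :=
      (le_abs_self _).trans (le_mul_of_one_le_right (abs_nonneg _) hr1)
    linarith
  have hC : (|(Q.coeff 0).re| + ‖Q.coeff 1‖ + |y - 1|) < c * ∑ i ∈ s, (a i)⁻¹ := by
    rwa [div_lt_iff₀ hc, mul_comm] at hsum
  have hD : Real.log ‖f ((r : ℂ) * Complex.exp (θ * Complex.I))‖ ≤ (y - 1 + ε) * r := by
    rw [hl]
    have h2 : (|(Q.coeff 0).re| + ‖Q.coeff 1‖ + |y - 1|) * r ≤ c * r * ∑ i ∈ s, (a i)⁻¹ := by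
      have := mul_le_mul_of_nonneg_right hC.le hr0.le
      linarith
    have h3 : -|y - 1| * r ≤ (y - 1) * r :=
      mul_le_mul_of_nonneg_right (neg_abs_le _) hr0.le
    have h4 : 0 ≤ ε * r := by positivity
    linarith
  rw [Real.rpow_one, ← Real.log_le_iff_le_exp (norm_pos_iff.2 hne)]
  exact hD

lemma oneT_half {f : ℂ → ℂ} {ι : Type} {a : ι → ℝ} (ha : ∀ i, 0 < a i) {Q : Polynomial ℂ}
    (hQ : Q.natDegree ≤ 1)
    (hfz : ∀ z, f z = 0 ↔ ∃ i, z = -(a i : ℂ))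
    (hlog : ∀ z, f z ≠ 0 → (Summable fun i => ker 1 z (a i)) ∧
      Real.log ‖f z‖ = (Q.eval z).re + ∑' i, ker 1 z (a i)) :
    ((-(Q.coeff 1).im : ℝ) : EReal) ≤ indicatorOf 1 f (Real.pi / 2) := by
  refine le_indicatorOf_of_frequently fun ε hε => Eventually.frequently ?_
  filter_upwards [eventually_ge_atTop (|(Q.coeff 0).re| / ε), eventually_gt_atTop (0 : ℝ)]
    with r hr hr0
  have hne : f ((r : ℂ) * Complex.exp ((Real.pi / 2 : ℝ) * Complex.I)) ≠ 0 := by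
    refine oneT_ne ha hfz ?_
    rw [oneT_re, Real.cos_pi_div_two, mul_zero]
  obtain ⟨hsm, hl⟩ := hlog _ hne
  have hnn : 0 ≤ ∑' i, ker 1 ((r : ℂ) * Complex.exp ((Real.pi / 2 : ℝ) * Complex.I)) (a i) := by
    refine tsum_nonneg fun i => ?_
    rw [oneT_ker r _ hr0 (ha i)]
    exact one_ker_half (div_pos hr0 (ha i)).le
  have hev : (Q.eval ((r : ℂ) * Complex.exp ((Real.pi / 2 : ℝ) * Complex.I))).re =
      (Q.coeff 0).re - (Q.coeff 1).im * r := by
    rw [oneT_eval hQ, Complex.add_re, Complex.mul_re, oneT_re, oneT_im, Real.cos_pi_div_two,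
      Real.sin_pi_div_two]
    ring
  rw [Real.rpow_one, ← Real.le_log_iff_exp_le (norm_pos_iff.2 hne), hl, hev]
  have h1 : |(Q.coeff 0).re| ≤ ε * r := by
    rwa [div_le_iff₀ hε, mul_comm] at hr
  have h2 := neg_abs_le (Q.coeff 0).re
  linarith

/-- non-summable case: the indicator jumps from `-∞` to `+∞` -/
theorem one_threshold {f : ℂ → ℂ} (hf : IsN 1 f) {ι : Type} [Countable ι] {a : ι → ℝ}
    (ha : ∀ i, 0 < a i) {Q : Polynomial ℂ} (hQ : Q.natDegree ≤ 1)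
    (hs : ¬ Summable fun i => (a i)⁻¹) (hfz : ∀ z, f z = 0 ↔ ∃ i, z = -(a i : ℂ))
    (hlog : ∀ z, f z ≠ 0 → (Summable fun i => ker 1 z (a i)) ∧
      Real.log ‖f z‖ = (Q.eval z).re + ∑' i, ker 1 z (a i)) :
    ∃ (τ : ℝ) (c : EReal) (B : ℝ), Real.pi / 4 ≤ τ ∧ τ ≤ Real.pi / 2 ∧
      (τ = Real.pi / 4 → c = ⊥) ∧ (τ = Real.pi / 2 → 0 ≤ c) ∧
      (∀ θ, |θ| < τ → indicatorOf 1 f θ = ⊥) ∧
      (∀ θ, τ < |θ| → |θ| ≤ Real.pi → indicatorOf 1 f θ = ⊤) ∧
      indicatorOf 1 f τ = c + B ∧ indicatorOf 1 f (-τ) = c - B := by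
  have hpi := Real.pi_pos
  have hord : OrderLE 1 f := ⟨hf.differentiable, hf.upper⟩
  have hsymm := oneT_symm hQ hfz hlog
  have hbot : ∀ θ : ℝ, 0 ≤ θ → θ ≤ Real.pi / 4 → indicatorOf 1 f θ = ⊥ :=
    fun θ h0 h1 => oneT_bot ha hQ hs hfz hlog h0 h1
  have hhalf := oneT_half ha hQ hfz hlog
  have hhalf' : indicatorOf 1 f (Real.pi / 2) ≠ ⊥ := by
    intro h
    rw [h] at hhalf
    exact absurd (le_bot_iff.1 hhalf) (EReal.coe_ne_bot _)
  -- once it is not `-∞` it is `+∞` later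
  have hjump : ∀ θ₁ θ₂ : ℝ, Real.pi / 4 < θ₁ → θ₁ < θ₂ → θ₂ ≤ Real.pi →
      indicatorOf 1 f θ₁ ≠ ⊥ → indicatorOf 1 f θ₂ = ⊤ := by
    intro θ₁ θ₂ h1 h2 h3 h4
    by_contra h5
    exact h4 (indicatorOf_eq_bot_left one_pos hord h1 h2 (by linarith)
      (hbot _ (by linarith) le_rfl) h5)
  have hneg : ∀ θ : ℝ, indicatorOf 1 f θ = ⊥ → indicatorOf 1 f (-θ) = ⊥ := by
    intro θ h
    rw [hsymm (-θ), neg_neg, h, EReal.bot_add]
  have hneg' : ∀ θ : ℝ, indicatorOf 1 f θ = ⊤ → indicatorOf 1 f (-θ) = ⊤ := by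
    intro θ h
    rw [hsymm (-θ), neg_neg, h, EReal.top_add_coe]
  set S : Set ℝ := {θ | 0 ≤ θ ∧ θ ≤ Real.pi / 2 ∧ indicatorOf 1 f θ = ⊥} with hS
  have hSbdd : BddAbove S := ⟨Real.pi / 2, fun θ hθ => hθ.2.1⟩
  have hS4 : Real.pi / 4 ∈ S := ⟨by linarith, by linarith, hbot _ (by linarith) le_rfl⟩
  have hSne : S.Nonempty := ⟨_, hS4⟩
  have hτ1 : Real.pi / 4 ≤ sSup S := le_csSup hSbdd hS4
  have hτ2 : sSup S ≤ Real.pi / 2 := csSup_le hSne fun θ hθ => hθ.2.1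
  set τ := sSup S with hτ
  have hlow : ∀ θ : ℝ, 0 ≤ θ → θ < τ → indicatorOf 1 f θ = ⊥ := by
    intro θ h0 h1
    by_cases h4 : θ ≤ Real.pi / 4
    · exact hbot θ h0 h4
    · push Not at h4
      obtain ⟨θ₂, h2, h3⟩ := exists_lt_of_lt_csSup hSne h1
      by_contra h5
      have := hjump θ θ₂ h4 h3 (by linarith [h2.2.1]) h5
      rw [h2.2.2] at this
      exact absurd this (by simp)
  have hup : ∀ θ : ℝ, τ < θ → θ ≤ Real.pi → indicatorOf 1 f θ = ⊤ := by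
    intro θ h1 h2
    by_cases h3 : θ ≤ Real.pi / 2
    · refine hjump ((τ + θ) / 2) θ (by linarith) (by linarith) h2 fun h => ?_
      have h4 : (τ + θ) / 2 ∈ S := ⟨by linarith, by linarith, h⟩
      have := le_csSup hSbdd h4
      linarith
    · push Not at h3
      exact hjump (Real.pi / 2) θ (by linarith) h3 h2 hhalf'
  refine ⟨τ, indicatorOf 1 f τ + (((Q.coeff 1).im * Real.sin τ : ℝ) : EReal),
    -((Q.coeff 1).im * Real.sin τ), hτ1, hτ2, ?_, ?_, ?_, ?_, ?_, ?_⟩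
  · intro h
    rw [h, hbot _ (by linarith) le_rfl, EReal.bot_add]
  · intro h
    rw [h, Real.sin_pi_div_two, mul_one]
    calc (0 : EReal) = ((-(Q.coeff 1).im : ℝ) : EReal) + (((Q.coeff 1).im : ℝ) : EReal) := by
          rw [← EReal.coe_add, neg_add_cancel, EReal.coe_zero]
      _ ≤ _ := by gcongr
  · intro θ h
    rcases le_total 0 θ with h0 | h0
    · rw [abs_of_nonneg h0] at h
      exact hlow θ h0 h
    · rw [abs_of_nonpos h0] at h
      have := hneg _ (hlow (-θ) (by linarith) h)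
      rwa [neg_neg] at this
  · intro θ h h'
    rcases le_total 0 θ with h0 | h0
    · rw [abs_of_nonneg h0] at h h'
      exact hup θ h h'
    · rw [abs_of_nonpos h0] at h h'
      have := hneg' _ (hup (-θ) h h')
      rwa [neg_neg] at this
  · rw [EReal.coe_neg, ← sub_eq_add_neg]
    rw [EReal.add_sub_cancel_right]
  · rw [hsymm (-τ), neg_neg, Real.sin_neg, sub_eq_add_neg, ← EReal.coe_neg, neg_neg, add_assoc,
      ← EReal.coe_add]
    congr 2
    ring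

end Helper25.Ind
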