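import Pool.Agent.Helper25.Ind.Defs
import Pool.Agent.Helper25.Ind.OneT
import Pool.Agent.Helper25.Ind.Canon
import Pool.Agent.Helper25.Ind.Had
import Pool.Agent.Helper25.Ind.SumPhi

open Complex Filter Topology MeasureTheory Set

namespace Helper25.Ind

lemma onec_log (N : ℝ) {δ : ℝ} (hδ : 0 < δ) : ∃ X : ℝ, 1 ≤ X ∧
    ∀ r, X ≤ r → N * Real.log (1 + r) ≤ δ * r := by
  have h1 : Tendsto (fun r : ℝ => 1 + r) atTop atTop := tendsto_atTop_add_const_left _ _ tendsto_id
  have h2 := (Real.isLittleO_log_id_atTop.comp_tendsto h1).def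
    (c := δ / (2 * (|N| + 1))) (by positivity)
  obtain ⟨X, hX⟩ := Filter.eventually_atTop.1 h2
  refine ⟨max X 1, le_max_right _ _, fun r hr => ?_⟩
  have hr1 : 1 ≤ r := (le_max_right _ _).trans hr
  have h3 := hX r ((le_max_left _ _).trans hr)
  simp only [Function.comp_apply, id, Real.norm_eq_abs] at h3
  have h4 : 0 ≤ Real.log (1 + r) := Real.log_nonneg (by linarith)
  rw [abs_of_nonneg h4, abs_of_pos (by linarith : (0 : ℝ) < 1 + r)] at h3
  have hN : 0 ≤ |N| := abs_nonneg N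
  calc N * Real.log (1 + r) ≤ (|N| + 1) * Real.log (1 + r) :=
        mul_le_mul_of_nonneg_right (by linarith [le_abs_self N]) h4
    _ ≤ (|N| + 1) * (δ / (2 * (|N| + 1)) * (1 + r)) := mul_le_mul_of_nonneg_left h3 (by linarith)
    _ = δ / 2 * (1 + r) := by field_simp
    _ ≤ δ * r := by nlinarith

/-- the sparse sequence -/
lemma onec_seq (q : ℕ → ℝ) (hq : ∀ j, 0 < q j) : ∃ n : ℕ → ℕ, (∀ j, 1 ≤ n j) ∧
    ∀ j, (4 : ℝ) ^ (j + 1) * (q j + 1) ^ 2 ≤ n j / q j ∧ (2 * (q j + 2)) ^ j ≤ n j / q j ∧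
      (∀ r, Real.sqrt (n j / q j) ≤ r →
        (∑ i ∈ Finset.range j, (n i : ℝ)) * Real.log (1 + r) ≤ (1 / 2) ^ j * r) ∧
      ((j + 1) * (n j / q j)) ^ 2 ≤ n (j + 1) / q (j + 1) := by
  choose X hX1 hX using fun (N : ℝ) (j : ℕ) => onec_log N (δ := (1 / 2) ^ j) (by positivity)
  set T : ℕ → ℕ × ℝ → ℝ := fun j s => (4 : ℝ) ^ (j + 1) * (q j + 1) ^ 2 + (2 * (q j + 2)) ^ j +
    (X s.1 j) ^ 2 + (j * s.2) ^ 2 with hT
  set nn : ℕ → ℕ × ℝ → ℕ := fun j s => ⌈q j * T j s⌉₊ + 1 with hnn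
  set st : ℕ → ℕ × ℝ := fun j => Nat.rec (0, 1) (fun j s => (s.1 + nn j s, nn j s / q j)) j with hst
  have hst0 : st 0 = (0, 1) := rfl
  have hst1 : ∀ j, st (j + 1) = ((st j).1 + nn j (st j), (nn j (st j) : ℝ) / q j) := fun j => rfl
  have hsum : ∀ j, ((st j).1 : ℝ) = ∑ i ∈ Finset.range j, (nn i (st i) : ℝ) := by
    intro j
    induction j with
    | zero => simp [hst0]
    | succ j ih => rw [hst1, Finset.sum_range_succ, ← ih]; push_cast; ring
  have hge : ∀ j, T j (st j) ≤ (nn j (st j) : ℝ) / q j := by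
    intro j
    rw [le_div_iff₀ (hq j)]
    have := Nat.le_ceil (q j * T j (st j))
    rw [hnn]
    push_cast
    linarith
  have hq' : ∀ j, 0 ≤ (4 : ℝ) ^ (j + 1) * (q j + 1) ^ 2 := fun j => by positivity
  have hq'' : ∀ j, 0 ≤ (2 * (q j + 2)) ^ j := fun j => by
    have := hq j
    positivity
  refine ⟨fun j => nn j (st j), fun j => by simp [hnn], fun j => ⟨?_, ?_, ?_, ?_⟩⟩
  · refine le_trans ?_ (hge j)
    have h2 := hq'' j
    simp only [hT]
    nlinarith [sq_nonneg (X (st j).1 j), sq_nonneg (j * (st j).2)]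
  · refine le_trans ?_ (hge j)
    have h2 := hq' j
    simp only [hT]
    nlinarith [sq_nonneg (X (st j).1 j), sq_nonneg (j * (st j).2)]
  · intro r hr
    have h1 : X (st j).1 j ≤ Real.sqrt (nn j (st j) / q j) := by
      apply Real.le_sqrt_of_sq_le
      refine le_trans ?_ (hge j)
      have h2 := hq'' j
      have h3 := hq' j
      simp only [hT]
      nlinarith [sq_nonneg (j * (st j).2)]
    have h2 := hX (st j).1 j r (h1.trans hr)
    rw [hsum] at h2
    exact h2
  · refine le_trans ?_ (hge (j + 1))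
    have h2 := hq'' (j + 1)
    have h3 := hq' (j + 1)
    have h4 : (st (j + 1)).2 = (nn j (st j) : ℝ) / q j := rfl
    have h5 := sq_nonneg (X (st (j + 1)).1 (j + 1))
    have h6 : ((j + 1) * ((nn j (st j) : ℝ) / q j)) ^ 2 =
        (((j + 1 : ℕ) : ℝ) * (st (j + 1)).2) ^ 2 := by rw [h4]; push_cast; ring
    rw [h6]
    simp only [hT]
    linarith

lemma onec_ker {s θ : ℝ} (hs : 0 < s) (h0 : 0 ≤ θ) (h1 : θ ≤ Real.pi / 2) :
    ker 1 (s * Complex.exp (θ * Complex.I)) 1 =
      Real.log ‖1 + s * Complex.exp (θ * Complex.I)‖ - s * Real.cos θ := by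
  have hre : (s * Complex.exp (θ * Complex.I)).re = s * Real.cos θ := by
    rw [Complex.exp_mul_I]
    simp [Complex.cos_ofReal_re]
  have hc : 0 ≤ Real.cos θ := Real.cos_nonneg_of_mem_Icc ⟨by linarith [Real.pi_pos], h1⟩
  have hne : (1 : ℂ) + s * Complex.exp (θ * Complex.I) ≠ 0 := by
    intro h
    have := congrArg Complex.re h
    rw [Complex.add_re, hre] at this
    simp at this
    nlinarith
  unfold ker primary
  rw [Finset.sum_range_one]
  have e1 : (1 : ℂ) - -(s * Complex.exp (θ * Complex.I)) / ((1 : ℝ) : ℂ) =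
      1 + s * Complex.exp (θ * Complex.I) := by push_cast; ring
  rw [e1, norm_mul, Complex.norm_exp, Real.log_mul (norm_ne_zero_iff.2 hne) (Real.exp_pos _).ne',
    Real.log_exp]
  have e2 : ((-(s * Complex.exp (θ * Complex.I)) / ((1 : ℝ) : ℂ)) ^ (0 + 1) /
      (((0 : ℕ) : ℂ) + 1)).re = -(s * Real.cos θ) := by
    rw [← hre, ← Complex.neg_re]
    congr 1
    push_cast
    ring
  rw [e2]
  ring

lemma onec_norm {s θ : ℝ} (hs : 0 < s) (h0 : 0 ≤ θ) (h1 : θ ≤ Real.pi / 2) :
    1 ≤ ‖1 + s * Complex.exp (θ * Complex.I)‖ ∧ ‖1 + s * Complex.exp (θ * Complex.I)‖ ≤ 1 + s := by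
  have hre : (s * Complex.exp (θ * Complex.I)).re = s * Real.cos θ := by
    rw [Complex.exp_mul_I]
    simp [Complex.cos_ofReal_re]
  have hc : 0 ≤ Real.cos θ := Real.cos_nonneg_of_mem_Icc ⟨by linarith [Real.pi_pos], h1⟩
  constructor
  · have h2 := Complex.re_le_norm (1 + s * Complex.exp (θ * Complex.I))
    rw [Complex.add_re, hre, Complex.one_re] at h2
    nlinarith
  · refine (norm_add_le _ _).trans ?_
    rw [norm_one, norm_mul, Complex.norm_exp_ofReal_mul_I, mul_one, Complex.norm_real,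
      Real.norm_eq_abs, abs_of_pos hs]

/-- the data of the sparse sequence -/
structure OneD (q : ℕ → ℝ) (n : ℕ → ℕ) (R : ℕ → ℝ) : Prop where
  q_pos : ∀ j, 0 < q j
  n_pos : ∀ j, 1 ≤ n j
  eq : ∀ j, (n j : ℝ) = q j * R j
  h1 : ∀ j, (4 : ℝ) ^ (j + 1) * (q j + 1) ^ 2 ≤ R j
  h2 : ∀ j, (2 * (q j + 2)) ^ j ≤ R j
  h3 : ∀ j r, Real.sqrt (R j) ≤ r →
    (∑ i ∈ Finset.range j, (n i : ℝ)) * Real.log (1 + r) ≤ (1 / 2) ^ j * r
  h4 : ∀ j : ℕ, ((j + 1) * R j) ^ 2 ≤ R (j + 1)

lemma onec_data (q : ℕ → ℝ) (hq : ∀ j, 0 < q j) : ∃ n R, OneD q n R := by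
  obtain ⟨n, h1, h2⟩ := onec_seq q hq
  refine ⟨n, fun j => n j / q j, hq, h1, fun j => ?_, fun j => (h2 j).1, fun j => (h2 j).2.1,
    fun j r hr => (h2 j).2.2.1 r hr, fun j => (h2 j).2.2.2⟩
  have := (hq j).ne'
  field_simp

namespace OneD

variable {q : ℕ → ℝ} {n : ℕ → ℕ} {R : ℕ → ℝ}

lemma four_le (h : OneD q n R) (j : ℕ) : 4 ≤ R j := by
  refine le_trans ?_ (h.h1 j)
  have h0 := h.q_pos j
  have e : (4 : ℝ) ≤ 4 ^ (j + 1) := by
    calc (4 : ℝ) = 4 ^ 1 := by norm_num
      _ ≤ 4 ^ (j + 1) := pow_le_pow_right₀ (by norm_num) (by omega)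
  nlinarith [sq_nonneg (q j)]

lemma R_pos (h : OneD q n R) (j : ℕ) : 0 < R j := by linarith [h.four_le j]

lemma mono_succ (h : OneD q n R) (j : ℕ) : R j ≤ R (j + 1) := by
  refine le_trans ?_ (h.h4 j)
  have h1 := h.four_le j
  have h2 : (1 : ℝ) ≤ (j : ℝ) + 1 := by
    have : (0 : ℝ) ≤ j := Nat.cast_nonneg j
    linarith
  nlinarith [mul_le_mul h2 h1 (by norm_num) (by linarith)]

lemma mono (h : OneD q n R) : Monotone R := monotone_nat_of_le_succ h.mono_succ

lemma sqrt_ge (h : OneD q n R) (j : ℕ) : 2 ^ (j + 1) * (q j + 1) ≤ Real.sqrt (R j) := by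
  apply Real.le_sqrt_of_sq_le
  refine le_trans (le_of_eq ?_) (h.h1 j)
  rw [mul_pow, ← pow_mul, mul_comm (j + 1) 2, pow_mul]
  norm_num

lemma q_div (h : OneD q n R) (j : ℕ) : q j / Real.sqrt (R j) ≤ (1 / 2) ^ (j + 1) := by
  have h1 := h.sqrt_ge j
  have h2 := h.q_pos j
  have h3 : 0 < Real.sqrt (R j) := Real.sqrt_pos.2 (h.R_pos j)
  rw [div_le_iff₀ h3]
  calc q j ≤ q j + 1 := by linarith
    _ = (1 / 2) ^ (j + 1) * (2 ^ (j + 1) * (q j + 1)) := by
        rw [← mul_assoc, ← mul_pow]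
        norm_num
    _ ≤ _ := mul_le_mul_of_nonneg_left h1 (by positivity)

lemma tendsto_R (h : OneD q n R) : Tendsto R atTop atTop := by
  refine tendsto_atTop_mono (fun j => ?_)
    (tendsto_pow_atTop_atTop_of_one_lt (by norm_num : (1 : ℝ) < 4))
  refine le_trans ?_ (h.h1 j)
  have h0 := h.q_pos j
  rw [pow_succ]
  have h4 : (0 : ℝ) < 4 ^ j := by positivity
  nlinarith [sq_nonneg (q j), mul_pos h4 h0, mul_nonneg h4.le (sq_nonneg (q j))]

lemma scale (h : OneD q n R) {r θ : ℝ} (hr : 0 < r) (j : ℕ) :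
    ker 1 (r * Complex.exp (θ * Complex.I)) (R j) =
      ker 1 ((r / R j : ℝ) * Complex.exp (θ * Complex.I)) 1 := by
  have hR := h.R_pos j
  rw [ker_scale 1 _ hr hR, ker_scale 1 _ (div_pos hr hR) one_pos]
  congr 1
  field_simp

/-- the main estimate -/
lemma est (h : OneD q n R) : ∃ C : ℝ, 0 < C ∧ ∀ (θ : ℝ), 0 ≤ θ → θ ≤ Real.pi / 2 → ∀ (j : ℕ) (r : ℝ),
    Real.sqrt (R j) ≤ r → r < Real.sqrt (R (j + 1)) →
    (Summable fun i => (n i : ℝ) * ker 1 (r * Complex.exp (θ * Complex.I)) (R i)) ∧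
    |(∑' i, (n i : ℝ) * ker 1 (r * Complex.exp (θ * Complex.I)) (R i)) / r -
      (q j * (ker 1 ((r / R j : ℝ) * Complex.exp (θ * Complex.I)) 1 / (r / R j)) -
        Real.cos θ * ∑ i ∈ Finset.range j, q i)| ≤ C * (1 / 2) ^ j := by
  obtain ⟨C, hC, hker⟩ := abs_log_primary_le 1
  refine ⟨1 + C, by positivity, fun θ h0 h1 j r hr1 hr2 => ?_⟩
  have hrp : 0 < r := lt_of_lt_of_le (Real.sqrt_pos.2 (h.R_pos j)) hr1
  set F : ℕ → ℝ := fun i => (n i : ℝ) * ker 1 (r * Complex.exp (θ * Complex.I)) (R i) with hF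
  -- the tail
  have htail : ∀ i, j + 1 ≤ i → |F i| ≤ C * r * (1 / 2) ^ (i + 1) := by
    intro i hi
    have hRi := h.R_pos i
    have hsq : 0 < Real.sqrt (R i) := Real.sqrt_pos.2 hRi
    have hle : r ≤ Real.sqrt (R i) := hr2.le.trans (Real.sqrt_le_sqrt (h.mono hi))
    have hnorm : ‖(-(r * Complex.exp (θ * Complex.I)) / (R i : ℂ))‖ = r / R i := by
      rw [norm_div, norm_neg, norm_mul, Complex.norm_exp_ofReal_mul_I, mul_one, Complex.norm_real,
        Complex.norm_real, Real.norm_eq_abs, Real.norm_eq_abs, abs_of_pos hrp, abs_of_pos hRi]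
    have hdiv : r / R i ≤ 1 / Real.sqrt (R i) := by
      rw [div_le_div_iff₀ hRi hsq, one_mul]
      calc r * Real.sqrt (R i) ≤ Real.sqrt (R i) * Real.sqrt (R i) :=
            mul_le_mul_of_nonneg_right hle hsq.le
        _ = R i := Real.mul_self_sqrt hRi.le
    have h2 : (2 : ℝ) ≤ Real.sqrt (R i) := by
      apply Real.le_sqrt_of_sq_le
      linarith [h.four_le i]
    have h12 : r / R i ≤ 1 / 2 := hdiv.trans (one_div_le_one_div_of_le (by norm_num) h2)
    have h3 := hker (-(r * Complex.exp (θ * Complex.I)) / (R i : ℂ)) (by rw [hnorm]; exact h12)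
    rw [hnorm] at h3
    have h4 : |F i| ≤ (n i : ℝ) * (C * (r / R i) ^ (1 + 1)) := by
      rw [hF]
      simp only
      rw [abs_mul, Nat.abs_cast]
      exact mul_le_mul_of_nonneg_left h3 (Nat.cast_nonneg _)
    refine h4.trans ?_
    rw [h.eq i]
    calc q i * R i * (C * (r / R i) ^ (1 + 1)) = C * r * (q i * (r / R i)) := by
          rw [div_pow]
          field_simp
      _ ≤ C * r * (q i * (1 / Real.sqrt (R i))) := by
          apply mul_le_mul_of_nonneg_left _ (by positivity)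
          exact mul_le_mul_of_nonneg_left hdiv (h.q_pos i).le
      _ = C * r * (q i / Real.sqrt (R i)) := by ring
      _ ≤ C * r * (1 / 2) ^ (i + 1) :=
          mul_le_mul_of_nonneg_left (h.q_div i) (by positivity)
  have hgeo : HasSum (fun i : ℕ => C * r * (1 / 2 : ℝ) ^ (i + (j + 1) + 1))
      (C * r * (1 / 2) ^ (j + 1)) := by
    have h5 := (hasSum_geometric_two).mul_left (C * r * (1 / 2 : ℝ) ^ (j + 2))
    have e : C * r * (1 / 2 : ℝ) ^ (j + 2) * 2 = C * r * (1 / 2) ^ (j + 1) := by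
      rw [pow_succ]
      ring
    rw [e] at h5
    have e' : (fun i : ℕ => C * r * (1 / 2 : ℝ) ^ (i + (j + 1) + 1)) =
        fun i : ℕ => C * r * (1 / 2 : ℝ) ^ (j + 2) * (1 / 2) ^ i := by
      funext i
      rw [show i + (j + 1) + 1 = (j + 2) + i by omega, pow_add]
      ring
    rw [e']
    exact h5
  have hsum' : Summable fun i => F (i + (j + 1)) := by
    refine Summable.of_norm_bounded hgeo.summable fun i => ?_
    rw [Real.norm_eq_abs]
    exact htail _ (by omega)
  have hsum : Summable F := (summable_nat_add_iff (j + 1)).1 hsum'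
  have htl : |∑' i, F (i + (j + 1))| ≤ C * r * (1 / 2) ^ (j + 1) := by
    rw [← Real.norm_eq_abs]
    exact tsum_of_norm_bounded hgeo fun i => by
      rw [Real.norm_eq_abs]
      exact htail _ (by omega)
  refine ⟨hsum, ?_⟩
  rw [← hsum.sum_add_tsum_nat_add (j + 1), Finset.sum_range_succ]
  -- the first terms
  have hhead : |(∑ i ∈ Finset.range j, F i) + r * Real.cos θ * ∑ i ∈ Finset.range j, q i| ≤
      (1 / 2) ^ j * r := by
    have e1 : (∑ i ∈ Finset.range j, F i) + r * Real.cos θ * ∑ i ∈ Finset.range j, q i =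
        ∑ i ∈ Finset.range j,
          (n i : ℝ) * Real.log ‖1 + (r / R i : ℝ) * Complex.exp (θ * Complex.I)‖ := by
      rw [Finset.mul_sum, ← Finset.sum_add_distrib]
      refine Finset.sum_congr rfl fun i _ => ?_
      have hRi := h.R_pos i
      rw [hF]
      simp only
      rw [h.scale hrp, onec_ker (div_pos hrp hRi) h0 h1, h.eq i]
      field_simp
      ring
    rw [e1]
    have h6 : ∀ i ∈ Finset.range j,
        0 ≤ (n i : ℝ) * Real.log ‖1 + (r / R i : ℝ) * Complex.exp (θ * Complex.I)‖ ∧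
        (n i : ℝ) * Real.log ‖1 + (r / R i : ℝ) * Complex.exp (θ * Complex.I)‖ ≤
          (n i : ℝ) * Real.log (1 + r) := by
      intro i _
      have hRi := h.R_pos i
      obtain ⟨h7, h8⟩ := onec_norm (div_pos hrp hRi) h0 h1
      refine ⟨mul_nonneg (Nat.cast_nonneg _) (Real.log_nonneg h7), ?_⟩
      refine mul_le_mul_of_nonneg_left ?_ (Nat.cast_nonneg _)
      apply Real.log_le_log (by linarith)
      refine h8.trans ?_
      have : r / R i ≤ r := div_le_self hrp.le (by linarith [h.four_le i])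
      linarith
    rw [abs_of_nonneg (Finset.sum_nonneg fun i hi => (h6 i hi).1)]
    refine (Finset.sum_le_sum fun i hi => (h6 i hi).2).trans ?_
    rw [← Finset.sum_mul]
    exact h.h3 j r hr1
  -- the middle term
  have hmid : F j = r * (q j * (ker 1 ((r / R j : ℝ) * Complex.exp (θ * Complex.I)) 1 /
      (r / R j))) := by
    have hRj := h.R_pos j
    rw [hF]
    simp only
    rw [h.scale hrp, h.eq j]
    field_simp
  rw [hmid]
  have e2 : (∑ i ∈ Finset.range j, F i +
      r * (q j * (ker 1 ((r / R j : ℝ) * Complex.exp (θ * Complex.I)) 1 / (r / R j))) +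
      ∑' i, F (i + (j + 1))) / r -
      (q j * (ker 1 ((r / R j : ℝ) * Complex.exp (θ * Complex.I)) 1 / (r / R j)) -
        Real.cos θ * ∑ i ∈ Finset.range j, q i) =
      (((∑ i ∈ Finset.range j, F i) + r * Real.cos θ * ∑ i ∈ Finset.range j, q i) +
        ∑' i, F (i + (j + 1))) / r := by
    field_simp
    ring
  rw [e2, abs_div, abs_of_pos hrp, div_le_iff₀ hrp]
  refine (abs_add_le _ _).trans ?_
  calc _ ≤ (1 / 2) ^ j * r + C * r * (1 / 2) ^ (j + 1) := add_le_add hhead htl
    _ ≤ (1 + C) * (1 / 2) ^ j * r := by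
        rw [pow_succ]
        have : (0 : ℝ) ≤ C * r * (1 / 2) ^ j := by positivity
        nlinarith


/-- the index of the window -/
lemma window (h : OneD q n R) (J : ℕ) {r : ℝ} (hr : Real.sqrt (R J) ≤ r) :
    ∃ j, J ≤ j ∧ Real.sqrt (R j) ≤ r ∧ r < Real.sqrt (R (j + 1)) := by
  have hex : ∃ m, r < Real.sqrt (R m) := by
    have h1 := (Real.tendsto_sqrt_atTop.comp h.tendsto_R).eventually (eventually_gt_atTop r)
    exact h1.exists
  classical
  have h1 := Nat.find_spec hex
  have h2 : ∀ m, m < Nat.find hex → Real.sqrt (R m) ≤ r := fun m hm =>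
    not_lt.1 (Nat.find_min hex hm)
  have h3 : J < Nat.find hex := by
    by_contra h4
    have h5 := Real.sqrt_le_sqrt (h.mono (not_lt.1 h4))
    linarith
  refine ⟨Nat.find hex - 1, by omega, h2 _ (by omega), ?_⟩
  rw [Nat.sub_add_cancel (by omega)]
  exact h1

lemma summable_pow (h : OneD q n R) {σ : ℝ} (hσ : 1 < σ) :
    Summable fun j => (n j : ℝ) * R j ^ (-σ) := by
  obtain ⟨κ, hκ, rfl⟩ : ∃ κ : ℝ, 0 < κ ∧ σ = 1 + κ := ⟨σ - 1, by linarith, by ring⟩
  have hx : (2 : ℝ) ^ (-κ) < 1 := Real.rpow_lt_one_of_one_lt_of_neg (by norm_num) (by linarith)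
  have hx0 : (0 : ℝ) ≤ 2 ^ (-κ) := by positivity
  have hgeo := summable_geometric_of_lt_one hx0 hx
  refine Summable.of_norm_bounded_eventually_nat hgeo ?_
  filter_upwards [eventually_ge_atTop ⌈1 / κ⌉₊] with j hj
  have hj' : 1 ≤ j * κ := by
    have h1 : 1 / κ ≤ j := (Nat.le_ceil _).trans (by exact_mod_cast hj)
    rwa [div_le_iff₀ hκ] at h1
  have hR := h.R_pos j
  have hqj := h.q_pos j
  rw [Real.norm_eq_abs, abs_of_nonneg (by positivity), h.eq j]
  have e1 : q j * R j * R j ^ (-(1 + κ)) = q j * R j ^ (-κ) := by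
    rw [show -(1 + κ) = -1 + -κ by ring, Real.rpow_add hR, Real.rpow_neg_one]
    field_simp
  rw [e1]
  have h2 : ((2 * (q j + 2)) ^ j) ^ κ ≤ R j ^ κ :=
    Real.rpow_le_rpow (by positivity) (h.h2 j) hκ.le
  have h3 : ((2 * (q j + 2)) ^ j : ℝ) ^ κ = (2 ^ κ) ^ j * (q j + 2) ^ (j * κ) := by
    rw [← Real.rpow_natCast, ← Real.rpow_mul (by positivity), Real.mul_rpow (by norm_num)
      (by positivity), ← Real.rpow_natCast (2 ^ κ), ← Real.rpow_mul (by norm_num), mul_comm κ]
  have h4 : q j + 2 ≤ (q j + 2) ^ (j * κ) := by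
    calc q j + 2 = (q j + 2) ^ (1 : ℝ) := (Real.rpow_one _).symm
      _ ≤ _ := Real.rpow_le_rpow_of_exponent_le (by linarith) hj'
  have h5 : (2 ^ κ : ℝ) ^ j * q j ≤ R j ^ κ := by
    calc (2 ^ κ : ℝ) ^ j * q j ≤ (2 ^ κ) ^ j * (q j + 2) ^ (j * κ) :=
          mul_le_mul_of_nonneg_left (by linarith) (by positivity)
      _ = _ := h3.symm
      _ ≤ _ := h2
  rw [Real.rpow_neg hR.le, Real.rpow_neg (by norm_num), inv_pow, ← div_eq_mul_inv,
    div_le_iff₀ (Real.rpow_pos_of_pos hR _), inv_mul_eq_div, le_div_iff₀ (by positivity)]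
  linarith

end OneD

lemma onec_ker_le : ∃ C > 0, ∀ (z : ℂ) (t : ℝ), 0 < t → ker 1 z t ≤ C * Phi 1 (‖z‖ / t) := by
  obtain ⟨C, hC, h⟩ := norm_primary_le 1
  refine ⟨C, hC, fun z t ht => ?_⟩
  have hn : ‖-z / (t : ℂ)‖ = ‖z‖ / t := by
    rw [norm_div, norm_neg, Complex.norm_real, Real.norm_eq_abs, abs_of_pos ht]
  unfold ker
  by_cases h0 : ‖primary 1 (-z / t)‖ = 0
  · rw [h0, Real.log_zero]
    exact mul_nonneg hC.le (Phi_nonneg 1 (by positivity))
  · have h1 := h (-z / t)
    rw [hn] at h1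
    have h2 := Real.log_le_log (lt_of_le_of_ne (norm_nonneg _) (Ne.symm h0)) h1
    rwa [Real.log_exp] at h2


lemma onec_re {r θ : ℝ} : ((r : ℂ) * Complex.exp (θ * Complex.I)).re = r * Real.cos θ := by
  rw [Complex.exp_mul_I]
  simp [Complex.cos_ofReal_re]

lemma onec_im {r θ : ℝ} : ((r : ℂ) * Complex.exp (θ * Complex.I)).im = r * Real.sin θ := by
  rw [Complex.exp_mul_I]
  simp [Complex.sin_ofReal_re]

lemma onec_nrm {r θ : ℝ} (hr : 0 < r) : ‖(r : ℂ) * Complex.exp (θ * Complex.I)‖ = r := by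
  rw [norm_mul, Complex.norm_exp_ofReal_mul_I, mul_one, Complex.norm_real, Real.norm_eq_abs,
    abs_of_pos hr]

theorem onec_fun {q : ℕ → ℝ} {n : ℕ → ℕ} {R : ℕ → ℝ} (h : OneD q n R) (hI : ¬ Summable q) :
    ∃ f : ℂ → ℂ, IsN 1 f ∧ (∀ z, ‖f (starRingEnd ℂ z)‖ = ‖f z‖) ∧
      (∃ (τ : ℝ) (c : EReal) (B : ℝ), Real.pi / 4 ≤ τ ∧ τ ≤ Real.pi / 2 ∧
      (τ = Real.pi / 4 → c = ⊥) ∧
      (∀ θ, |θ| < τ → indicatorOf 1 f θ = ⊥) ∧
      (∀ θ, τ < |θ| → |θ| ≤ Real.pi → indicatorOf 1 f θ = ⊤) ∧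
      indicatorOf 1 f τ = c + B) ∧
      (∀ z, f z = 0 → z.im = 0 ∧ z.re < 0) ∧
      ∀ z, f z ≠ 0 → Real.log ‖f z‖ = ∑' j, (n j : ℝ) * ker 1 z (R j) := by
  set ι : Type := Σ j : ℕ, Fin (n j) with hι
  set a : ι → ℝ := fun i => R i.1 with ha
  have hapos : ∀ i, 0 < a i := fun i => h.R_pos i.1
  have hsig : ∀ F : ℕ → ℝ, (∀ j, 0 ≤ F j) → (Summable (fun i : ι => F i.1) ↔
      Summable fun j => (n j : ℝ) * F j) := by
    intro F hF
    have h0 := summable_sigma_of_nonneg (f := fun i : ι => F i.1) (fun i => hF i.1)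
    rw [h0]
    have e : (fun j : ℕ => ∑' _ : Fin (n j), F j) = fun j => (n j : ℝ) * F j := by
      funext j
      rw [tsum_fintype, Finset.sum_const, Finset.card_univ, Fintype.card_fin, nsmul_eq_mul]
    constructor
    · intro h1
      have h2 := h1.2
      rwa [e] at h2
    · intro h1
      refine ⟨fun j => (hasSum_fintype _).summable, ?_⟩
      rw [e]
      exact h1
  have hpow : ∀ σ : ℝ, 1 < σ → Summable fun i : ι => a i ^ (-σ) := by
    intro σ hσ
    exact (hsig (fun j => R j ^ (-σ)) fun j => (Real.rpow_pos_of_pos (h.R_pos j) _).le).2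
      (h.summable_pow hσ)
  have hs2 : Summable fun i : ι => (a i)⁻¹ ^ (1 + 1) := by
    refine (hpow 2 (by norm_num)).congr fun i => ?_
    rw [Real.rpow_neg (hapos i).le, inv_pow]
    congr 1
    exact (Real.rpow_natCast (a i) 2).symm ▸ rfl
  obtain ⟨f, hf1, hf2, hf3, hf4⟩ := exists_canonical (p := 1) a hapos hs2
  have hzer : ∀ z, f z = 0 → z.im = 0 ∧ z.re < 0 := by
    intro z hz
    obtain ⟨i, rfl⟩ := (hf3 z).1 hz
    constructor
    · simp
    · rw [Complex.neg_re, Complex.ofReal_re]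
      linarith [hapos i]
  have hconj : ∀ z, f z = 0 → f (starRingEnd ℂ z) = 0 := by
    intro z hz
    obtain ⟨i, rfl⟩ := (hf3 z).1 hz
    rw [map_neg, Complex.conj_ofReal]
    exact hz
  have hsym : ∀ z, ‖f (starRingEnd ℂ z)‖ = ‖f z‖ := by
    intro z
    by_cases hz : f z = 0
    · rw [hz, hconj z hz]
    · have hz' : f (starRingEnd ℂ z) ≠ 0 := by
        intro h1
        have := hconj _ h1
        rw [Complex.conj_conj] at this
        exact hz this
      have h1 := (hf4 z hz).2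
      have h2 := (hf4 _ hz').2
      simp only [ker_conj] at h2
      rw [← h1] at h2
      exact Real.log_injOn_pos (Set.mem_Ioi.2 (norm_pos_iff.2 hz'))
        (Set.mem_Ioi.2 (norm_pos_iff.2 hz)) h2
  obtain ⟨C, hC, hker⟩ := onec_ker_le
  have hN : IsN 1 f := by
    refine ⟨hf1, hzer, ?_, ?_⟩
    · intro σ hσ
      have hσ' : 1 < min σ 2 := lt_min hσ (by norm_num)
      have h1 := tendsto_sum_Phi (p := 1) (ρ := min σ 2) (by exact_mod_cast hσ')
        (by push_cast; exact (min_le_right _ _).trans (by norm_num)) a hapos (hpow _ hσ')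
      have h2 : ∀ᶠ r : ℝ in atTop, (∑' i, Phi 1 (r / a i)) / r ^ (min σ 2) < 1 / C :=
        h1.eventually (gt_mem_nhds (by positivity))
      obtain ⟨R0, hR0⟩ := Filter.eventually_atTop.1 h2
      refine ⟨max R0 1, fun z hz => ?_⟩
      have hz1 : 1 ≤ ‖z‖ := (le_max_right _ _).trans hz
      have h3 := hR0 ‖z‖ ((le_max_left _ _).trans hz)
      by_cases hfz : f z = 0
      · rw [hfz, norm_zero]
        exact (Real.exp_pos _).le
      · obtain ⟨hs, hl⟩ := hf4 z hfz
        have hsP := summable_Phi (p := 1) (ρ := min σ 2) (by exact_mod_cast hσ')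
          (by push_cast; exact (min_le_right _ _).trans (by norm_num)) a hapos (hpow _ hσ')
          (norm_nonneg z)
        have h4 : Real.log ‖f z‖ ≤ C * ∑' i, Phi 1 (‖z‖ / a i) := by
          rw [hl, ← tsum_mul_left]
          exact hs.tsum_le_tsum (fun i => hker z (a i) (hapos i)) (hsP.mul_left C)
        have hrp : 0 < ‖z‖ ^ (min σ 2) := Real.rpow_pos_of_pos (by linarith) _
        rw [div_lt_iff₀ hrp] at h3
        have h5 : Real.log ‖f z‖ ≤ ‖z‖ ^ σ := by
          calc Real.log ‖f z‖ ≤ C * ∑' i, Phi 1 (‖z‖ / a i) := h4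
            _ ≤ C * (1 / C * ‖z‖ ^ (min σ 2)) := mul_le_mul_of_nonneg_left h3.le hC.le
            _ = ‖z‖ ^ (min σ 2) := by field_simp
            _ ≤ ‖z‖ ^ σ := Real.rpow_le_rpow_of_exponent_le hz1 (min_le_left _ _)
        rw [← Real.log_le_iff_le_exp (norm_pos_iff.2 hfz)]
        exact h5
    · intro σ hσ R0
      set c : ℝ := s0 1 / (4 * R 0) with hc
      have hR0 := h.R_pos 0
      have hs0 := s0_pos 1
      have hcp : 0 < c := by positivity
      have h1 : Tendsto (fun r : ℝ => r ^ (-(1 - σ))) atTop (𝓝 0) :=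
        tendsto_rpow_neg_atTop (by linarith)
      obtain ⟨r, hr1, hr2⟩ := ((h1.eventually (gt_mem_nhds hcp)).and
        (eventually_ge_atTop (max R0 (max (R 0) 1)))).exists
      have hrR0 : R0 ≤ r := (le_max_left _ _).trans hr2
      have hrR : R 0 ≤ r := (le_max_left _ _).trans ((le_max_right _ _).trans hr2)
      have hr01 : 1 ≤ r := (le_max_right _ _).trans ((le_max_right _ _).trans hr2)
      have hrp : 0 < r := by linarith
      have hst := star_lt_pi 1
      have hst0 := star_nonneg 1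
      set z : ℂ := r * Complex.exp (star 1 * Complex.I) with hz
      have hnz : ‖z‖ = r := onec_nrm hrp
      have hfz : f z ≠ 0 := by
        intro h2
        obtain ⟨h3, h4⟩ := hzer z h2
        rw [hz, onec_im] at h3
        rw [hz, onec_re] at h4
        have h5 : star 1 ≠ 0 := by
          intro h6
          rw [h6] at h4
          simp at h4
          linarith
        have h6 : 0 < Real.sin (star 1) :=
          Real.sin_pos_of_pos_of_lt_pi (lt_of_le_of_ne hst0 (Ne.symm h5)) hst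
        have := mul_pos hrp h6
        linarith
      refine ⟨z, by rw [hnz]; exact hrR0, ?_⟩
      obtain ⟨hs, hl⟩ := hf4 z hfz
      have hnn : ∀ i, 0 ≤ ker 1 z (a i) := fun i =>
        (mul_nonneg hs0.le (Phi_nonneg 1 (div_nonneg hrp.le (hapos i).le))).trans
          (ker_star_ge 1 hrp (hapos i))
      have hi0 : (0 : ℕ) < n 0 := h.n_pos 0
      have h7 : ker 1 z (a ⟨0, ⟨0, hi0⟩⟩) ≤ ∑' i, ker 1 z (a i) :=
        hs.le_tsum _ fun i _ => hnn i
      have h8 : s0 1 * Phi 1 (r / R 0) ≤ ker 1 z (a ⟨0, ⟨0, hi0⟩⟩) := ker_star_ge 1 hrp hR0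
      have hx : 1 ≤ r / R 0 := by rw [le_div_iff₀ hR0]; linarith
      have h9 := Phi_ge 1 (x := r / R 0) (by positivity)
      have h10 : (r / R 0) / 4 ≤ Phi 1 (r / R 0) := by
        refine le_trans ?_ h9
        rw [div_le_div_iff₀ (by norm_num) (by positivity)]
        push_cast
        nlinarith
      have h11 : c * r ≤ Real.log ‖f z‖ := by
        rw [hl]
        refine le_trans ?_ (h8.trans h7)
        calc c * r = s0 1 * ((r / R 0) / 4) := by rw [hc]; field_simp
          _ ≤ _ := mul_le_mul_of_nonneg_left h10 hs0.le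
      rw [hnz, ← Real.le_log_iff_exp_le (norm_pos_iff.2 hfz)]
      refine le_trans ?_ h11
      have e : r ^ σ = r ^ (-(1 - σ)) * r := by
        rw [show σ = -(1 - σ) + 1 by ring, Real.rpow_add hrp, Real.rpow_one]
        congr 2
        ring
      rw [e]
      exact mul_le_mul_of_nonneg_right hr1.le hrp.le
  have hns : ¬ Summable fun i : ι => (a i)⁻¹ := by
    intro h1
    have h2 := (hsig (fun j => (R j)⁻¹) fun j => (inv_pos.2 (h.R_pos j)).le).1 h1
    apply hI
    refine h2.congr fun j => ?_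
    rw [h.eq j]
    have := (h.R_pos j).ne'
    field_simp
  obtain ⟨τ, c, B, t1, t2, t3, -, t5, t6, t7, -⟩ := one_threshold hN hapos (Q := 0) (by simp) hns hf3
    (fun z hz => ⟨(hf4 z hz).1, by rw [(hf4 z hz).2]; simp⟩)
  refine ⟨f, hN, hsym, ⟨τ, c, B, t1, t2, t3, t5, t6, t7⟩, hzer, fun z hz => ?_⟩
  obtain ⟨hs, hl⟩ := hf4 z hz
  rw [hl]
  have h1 := Summable.tsum_sigma (γ := fun j => Fin (n j)) hs
  rw [h1]
  congr 1
  funext j
  rw [tsum_fintype]
  simp only [ha]
  rw [Finset.sum_const, Finset.card_univ, Fintype.card_fin, nsmul_eq_mul]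


lemma onec_ne {f : ℂ → ℂ} (hzer : ∀ z, f z = 0 → z.im = 0 ∧ z.re < 0) {r θ : ℝ} (hr : 0 < r)
    (h0 : 0 ≤ θ) (h1 : θ ≤ Real.pi / 2) : f (r * Complex.exp (θ * Complex.I)) ≠ 0 := by
  intro h2
  have h3 := (hzer _ h2).2
  rw [onec_re] at h3
  have hc : 0 ≤ Real.cos θ := Real.cos_nonneg_of_mem_Icc ⟨by linarith [Real.pi_pos], h1⟩
  have := mul_nonneg hr.le hc
  linarith

theorem onec_lower {q : ℕ → ℝ} {n : ℕ → ℕ} {R : ℕ → ℝ} (h : OneD q n R) {f : ℂ → ℂ}
    (hzer : ∀ z, f z = 0 → z.im = 0 ∧ z.re < 0)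
    (hlog : ∀ z, f z ≠ 0 → Real.log ‖f z‖ = ∑' j, (n j : ℝ) * ker 1 z (R j))
    {θ s A : ℝ} (h0 : 0 ≤ θ) (h1 : θ ≤ Real.pi / 2) (hs : 0 < s)
    (hA : ∀ᶠ j : ℕ in atTop, A ≤ q j * (ker 1 (s * Complex.exp (θ * Complex.I)) 1 / s) -
      Real.cos θ * ∑ i ∈ Finset.range j, q i) : (A : EReal) ≤ indicatorOf 1 f θ := by
  obtain ⟨C, hC, hest⟩ := h.est
  apply le_indicatorOf_of_frequently
  intro ε hε
  have ht : Tendsto (fun j => s * R j) atTop atTop := h.tendsto_R.const_mul_atTop hs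
  refine ht.frequently (Filter.Eventually.frequently ?_)
  have hpow : Tendsto (fun j : ℕ => C * (1 / 2 : ℝ) ^ j) atTop (𝓝 (C * 0)) :=
    (tendsto_pow_atTop_nhds_zero_of_lt_one (by norm_num) (by norm_num)).const_mul C
  rw [mul_zero] at hpow
  have hsq := Real.tendsto_sqrt_atTop.comp h.tendsto_R
  filter_upwards [hA, hpow.eventually (gt_mem_nhds hε), hsq.eventually (eventually_ge_atTop (1 / s)),
    eventually_gt_atTop ⌈s⌉₊] with j h2 h3 h4 h5
  have hR := h.R_pos j
  have hr : 0 < s * R j := mul_pos hs hR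
  have hsqp : 0 < Real.sqrt (R j) := Real.sqrt_pos.2 hR
  have h6 : Real.sqrt (R j) ≤ s * R j := by
    simp only [Function.comp_apply] at h4
    rw [div_le_iff₀ hs] at h4
    calc Real.sqrt (R j) = 1 * Real.sqrt (R j) := (one_mul _).symm
      _ ≤ Real.sqrt (R j) * s * Real.sqrt (R j) := mul_le_mul_of_nonneg_right h4 hsqp.le
      _ = s * (Real.sqrt (R j) * Real.sqrt (R j)) := by ring
      _ = s * R j := by rw [Real.mul_self_sqrt hR.le]
  have hsj : s < (j : ℝ) + 1 := by
    have h7 : s ≤ (⌈s⌉₊ : ℝ) := Nat.le_ceil s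
    have h8 : ((⌈s⌉₊ : ℕ) : ℝ) < j := by exact_mod_cast h5
    linarith
  have h7 : s * R j < Real.sqrt (R (j + 1)) := by
    have h8 : (j + 1) * R j ≤ Real.sqrt (R (j + 1)) := Real.le_sqrt_of_sq_le (h.h4 j)
    exact lt_of_lt_of_le (mul_lt_mul_of_pos_right hsj hR) h8
  have h8 := (hest θ h0 h1 j (s * R j) h6 h7).2
  have hne := onec_ne hzer hr h0 h1
  rw [← hlog _ hne, show s * R j / R j = s by field_simp] at h8
  have h9 := (abs_le.1 h8).1
  have h10 : A - ε ≤ Real.log ‖f ((s * R j : ℝ) * Complex.exp (θ * Complex.I))‖ / (s * R j) := by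
    linarith
  rw [le_div_iff₀ hr] at h10
  rw [Real.rpow_one, ← Real.le_log_iff_exp_le (norm_pos_iff.2 hne)]
  exact h10

theorem onec_upper {q : ℕ → ℝ} {n : ℕ → ℕ} {R : ℕ → ℝ} (h : OneD q n R) {f : ℂ → ℂ}
    (hzer : ∀ z, f z = 0 → z.im = 0 ∧ z.re < 0)
    (hlog : ∀ z, f z ≠ 0 → Real.log ‖f z‖ = ∑' j, (n j : ℝ) * ker 1 z (R j))
    {θ G A : ℝ} (h0 : 0 ≤ θ) (h1 : θ ≤ Real.pi / 2)
    (hG : ∀ s : ℝ, 0 < s → ker 1 (s * Complex.exp (θ * Complex.I)) 1 ≤ G * s)
    (hA : ∀ᶠ j : ℕ in atTop, q j * G - Real.cos θ * ∑ i ∈ Finset.range j, q i ≤ A) :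
    indicatorOf 1 f θ ≤ (A : EReal) := by
  obtain ⟨C, hC, hest⟩ := h.est
  apply indicatorOf_le_of_eventually
  intro ε hε
  have hpow : Tendsto (fun j : ℕ => C * (1 / 2 : ℝ) ^ j) atTop (𝓝 (C * 0)) :=
    (tendsto_pow_atTop_nhds_zero_of_lt_one (by norm_num) (by norm_num)).const_mul C
  rw [mul_zero] at hpow
  obtain ⟨J, hJ⟩ := Filter.eventually_atTop.1 (hA.and (hpow.eventually (gt_mem_nhds hε)))
  filter_upwards [eventually_ge_atTop (Real.sqrt (R J))] with r hr
  obtain ⟨j, hj, h2, h3⟩ := h.window J hr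
  obtain ⟨h4, h5⟩ := hJ j hj
  have hR := h.R_pos j
  have hrp : 0 < r := lt_of_lt_of_le (Real.sqrt_pos.2 hR) h2
  have h6 := (hest θ h0 h1 j r h2 h3).2
  have hne := onec_ne hzer hrp h0 h1
  rw [← hlog _ hne] at h6
  have h7 := (abs_le.1 h6).2
  have hs : 0 < r / R j := div_pos hrp hR
  have h8 : ker 1 ((r / R j : ℝ) * Complex.exp (θ * Complex.I)) 1 / (r / R j) ≤ G := by
    rw [div_le_iff₀ hs]
    exact hG _ hs
  have h9 := mul_le_mul_of_nonneg_left h8 (h.q_pos j).le
  have h10 : Real.log ‖f (r * Complex.exp (θ * Complex.I))‖ / r ≤ A + ε := by linarith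
  rw [div_le_iff₀ hrp] at h10
  rw [Real.rpow_one, ← Real.log_le_iff_le_exp (norm_pos_iff.2 hne)]
  exact h10

/-- the maximum of `ker 1 (s e^{iθ}) 1 / s` -/
lemma onec_max {θ : ℝ} (h1 : Real.pi / 4 < θ) (h2 : θ ≤ Real.pi / 2) :
    ∃ G s : ℝ, 0 < G ∧ 0 < s ∧ ker 1 (s * Complex.exp (θ * Complex.I)) 1 = G * s ∧
      ∀ x : ℝ, 0 < x → ker 1 (x * Complex.exp (θ * Complex.I)) 1 ≤ G * x := by
  have hpi := Real.pi_pos
  have h0 : 0 ≤ θ := by linarith
  obtain ⟨s1, hs1, hk1⟩ := one_ker_pos h1 h2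
  set K : ℝ → ℝ := fun x => ker 1 (x * Complex.exp (θ * Complex.I)) 1 with hK
  have hcos : 0 ≤ Real.cos θ := Real.cos_nonneg_of_mem_Icc ⟨by linarith, h2⟩
  set v : ℝ := K s1 / s1 with hv
  have hvp : 0 < v := div_pos hk1 hs1
  obtain ⟨C, hC, hker⟩ := abs_log_primary_le 1
  have hsmall : ∀ x : ℝ, 0 < x → x ≤ min (1 / 2) (v / C) → K x ≤ v * x := by
    intro x hx hx1
    have hn : ‖-(x * Complex.exp (θ * Complex.I)) / ((1 : ℝ) : ℂ)‖ = x := by
      rw [norm_div, norm_neg, onec_nrm hx]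
      simp
    have h3 := hker (-(x * Complex.exp (θ * Complex.I)) / ((1 : ℝ) : ℂ))
      (by rw [hn]; exact hx1.trans (min_le_left _ _))
    rw [hn] at h3
    have h4 := (le_abs_self _).trans h3
    have h5 : x ≤ v / C := hx1.trans (min_le_right _ _)
    rw [le_div_iff₀ hC] at h5
    calc K x ≤ C * x ^ (1 + 1) := h4
      _ = x * C * x := by ring
      _ ≤ v * x := mul_le_mul_of_nonneg_right h5 hx.le
  obtain ⟨X, hX1, hX⟩ := onec_log 1 hvp
  have hlarge : ∀ x : ℝ, X ≤ x → K x ≤ v * x := by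
    intro x hx
    have hxp : 0 < x := by linarith
    have h3 := (onec_norm hxp h0 h2)
    have h4 : K x = Real.log ‖1 + x * Complex.exp (θ * Complex.I)‖ - x * Real.cos θ :=
      onec_ker hxp h0 h2
    have h5 := Real.log_le_log (by linarith) h3.2
    have h6 := hX x hx
    rw [one_mul] at h6
    have h7 := mul_nonneg hxp.le hcos
    linarith
  set δ : ℝ := min (min (1 / 2) (v / C)) s1 with hδ
  have hδp : 0 < δ := by positivity
  set M : ℝ := max X s1 with hM
  have hcont : ContinuousOn (fun x => K x / x) (Set.Icc δ M) := by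
    have e : ∀ x ∈ Set.Icc δ M, K x / x =
        (Real.log ‖1 + x * Complex.exp (θ * Complex.I)‖ - x * Real.cos θ) / x := by
      intro x hx
      rw [show K x = _ from onec_ker (lt_of_lt_of_le hδp hx.1) h0 h2]
    refine ContinuousOn.congr ?_ e
    refine ContinuousOn.div ?_ continuousOn_id fun x hx => (lt_of_lt_of_le hδp hx.1).ne'
    refine ContinuousOn.sub ?_ (continuousOn_id.mul continuousOn_const)
    refine ContinuousOn.log ?_ fun x hx => ?_
    · apply ContinuousOn.norm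
      exact continuousOn_const.add (Complex.continuous_ofReal.continuousOn.mul continuousOn_const)
    · have := (onec_norm (lt_of_lt_of_le hδp hx.1) h0 h2).1
      linarith
  have hmem : s1 ∈ Set.Icc δ M := ⟨min_le_right _ _, le_max_right _ _⟩
  obtain ⟨s, hs, hmax⟩ := isCompact_Icc.exists_isMaxOn ⟨s1, hmem⟩ hcont
  have hsp : 0 < s := lt_of_lt_of_le hδp hs.1
  have hge : v ≤ K s / s := hmax hmem
  refine ⟨K s / s, s, lt_of_lt_of_le hvp hge, hsp, by
    change K s = K s / s * s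
    field_simp, fun x hx => ?_⟩
  by_cases h3 : x < δ
  · have h4 := hsmall x hx (h3.le.trans (min_le_left _ _))
    exact h4.trans (mul_le_mul_of_nonneg_right hge hx.le)
  · by_cases h4 : M < x
    · have h5 := hlarge x ((le_max_left _ _).trans h4.le)
      exact h5.trans (mul_le_mul_of_nonneg_right hge hx.le)
    · have h5 : K x / x ≤ K s / s := hmax ⟨not_lt.1 h3, not_lt.1 h4⟩
      rwa [div_le_iff₀ hx] at h5


/-- recursive choice of the sequence -/
lemma onec_q {X0 : ℝ} (hX : 0 < X0) (Ψ : ℕ → ℝ → ℝ) {b : ℝ} (hb : 0 < b)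
    (hΨ : ∀ k x, X0 ≤ x → b * x ≤ Ψ k x) :
    ∃ q : ℕ → ℝ, (∀ j, 0 < q j) ∧
      Tendsto (fun j => ∑ i ∈ Finset.range j, q i) atTop atTop ∧
      (∀ j, X0 ≤ ∑ i ∈ Finset.range (j + 1), q i) ∧
      ∀ j, q (j + 1) = Ψ j (∑ i ∈ Finset.range (j + 1), q i) := by
  set J : ℕ → ℝ := fun k => Nat.rec X0 (fun k x => x + Ψ k x) k with hJ
  have hJ0 : J 0 = X0 := rfl
  have hJ1 : ∀ k, J (k + 1) = J k + Ψ k (J k) := fun k => rfl
  have hge : ∀ k, X0 ≤ J k := by
    intro k
    induction k with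
    | zero => exact hJ0.ge
    | succ k ih =>
      rw [hJ1]
      have := hΨ k _ ih
      have h2 : 0 < b * J k := mul_pos hb (by linarith)
      linarith
  set q : ℕ → ℝ := fun j => Nat.casesOn j X0 fun k => Ψ k (J k) with hq
  have hq0 : q 0 = X0 := rfl
  have hq1 : ∀ k, q (k + 1) = Ψ k (J k) := fun k => rfl
  have hsum : ∀ k, ∑ i ∈ Finset.range (k + 1), q i = J k := by
    intro k
    induction k with
    | zero => simp [hq0, hJ0]
    | succ k ih => rw [Finset.sum_range_succ, ih, hq1, hJ1]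
  have hqpos : ∀ j, 0 < q j := by
    intro j
    cases j with
    | zero => exact hX
    | succ k =>
      rw [hq1]
      have := hΨ k _ (hge k)
      have h2 : 0 < b * J k := mul_pos hb (by linarith [hge k])
      linarith
  have hlin : ∀ k : ℕ, X0 * (1 + b * k) ≤ J k := by
    intro k
    induction k with
    | zero => simp [hJ0]
    | succ k ih =>
      rw [hJ1]
      have h3 := hΨ k _ (hge k)
      have h4 := mul_le_mul_of_nonneg_left (hge k) hb.le
      push_cast
      nlinarith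
  have ht : Tendsto J atTop atTop := by
    refine tendsto_atTop_mono hlin ?_
    apply Tendsto.const_mul_atTop hX
    apply tendsto_atTop_add_const_left
    exact tendsto_natCast_atTop_atTop.const_mul_atTop hb
  refine ⟨q, hqpos, ?_, fun j => by rw [hsum]; exact hge j, fun j => by rw [hsum, hq1]⟩
  rw [← tendsto_add_atTop_iff_nat 1]
  simp only [hsum]
  exact ht

lemma onec_not_summable {q : ℕ → ℝ} (hq : ∀ j, 0 < q j)
    (h : Tendsto (fun j => ∑ i ∈ Finset.range j, q i) atTop atTop) : ¬ Summable q := by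
  rw [not_summable_iff_tendsto_nat_atTop_of_nonneg fun j => (hq j).le]
  exact h

lemma onec_lin {a : ℝ} (ha : 0 < a) : ∀ᶠ x : ℝ in atTop, Real.sqrt x ≤ a * x := by
  filter_upwards [eventually_ge_atTop (1 / a ^ 2)] with x hx
  have hx0 : 0 < x := lt_of_lt_of_le (by positivity) hx
  rw [Real.sqrt_le_left (by positivity)]
  rw [div_le_iff₀ (by positivity)] at hx
  nlinarith

/-- the three kinds of sequences -/
lemma onec_choose {τ : ℝ} (h1 : Real.pi / 4 < τ) (h2 : τ ≤ Real.pi / 2) {c : EReal}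
    (hc2 : τ = Real.pi / 2 → 0 ≤ c) {G : ℝ} (hG : 0 < G) :
    ∃ q : ℕ → ℝ, (∀ j, 0 < q j) ∧ Tendsto (fun j => ∑ i ∈ Finset.range j, q i) atTop atTop ∧
      ((∃ c' : ℝ, c = c' ∧ Tendsto (fun j => q j * G - Real.cos τ * ∑ i ∈ Finset.range j, q i)
        atTop (𝓝 c')) ∨
      (c = ⊤ ∧ Tendsto (fun j => q j * G - Real.cos τ * ∑ i ∈ Finset.range j, q i) atTop atTop ∧
        ∀ θ, 0 ≤ θ → θ < τ → ∀ᶠ j in atTop,
          q j * G - Real.cos θ * ∑ i ∈ Finset.range j, q i ≤ 0) ∨
      (c = ⊥ ∧ Tendsto (fun j => q j * G - Real.cos τ * ∑ i ∈ Finset.range j, q i) atTop atBot ∧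
        ∀ θ, τ < θ → θ ≤ Real.pi / 2 → ∀ᶠ j in atTop,
          0 ≤ q j * G - Real.cos θ * ∑ i ∈ Finset.range j, q i)) := by
  have hpi := Real.pi_pos
  rcases eq_or_lt_of_le h2 with h3 | h3
  · -- the angle `π / 2`
    have hcos : Real.cos τ = 0 := by rw [h3]; exact Real.cos_pi_div_two
    have hc := hc2 h3
    induction c with
    | bot => exact absurd hc (by simp)
    | top =>
      refine ⟨fun j => ((j : ℝ) + 1) / G, fun j => by positivity, ?_, Or.inr (Or.inl ⟨rfl, ?_, ?_⟩)⟩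
      · refine tendsto_atTop_mono (fun j : ℕ => ?_)
          (tendsto_natCast_atTop_atTop.const_mul_atTop (show 0 < 1 / G by positivity))
        have h5 : ∑ i ∈ Finset.range j, (1 : ℝ) / G ≤ ∑ i ∈ Finset.range j, ((i : ℝ) + 1) / G :=
          Finset.sum_le_sum fun i _ => by
            apply div_le_div_of_nonneg_right _ hG.le
            have : (0 : ℝ) ≤ i := Nat.cast_nonneg i
            linarith
        rw [Finset.sum_const, Finset.card_range, nsmul_eq_mul] at h5
        linarith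
      · rw [hcos]
        have e : (fun j : ℕ => ((j : ℝ) + 1) / G * G -
            0 * ∑ i ∈ Finset.range j, ((i : ℝ) + 1) / G) = fun j : ℕ => (j : ℝ) + 1 := by
          funext j
          field_simp
          ring
        rw [e]
        exact tendsto_atTop_add_const_right _ _ tendsto_natCast_atTop_atTop
      · intro θ h0 h5
        have hcp : 0 < Real.cos θ := Real.cos_pos_of_mem_Ioo ⟨by linarith, by linarith⟩
        filter_upwards [eventually_ge_atTop ⌈4 * G / Real.cos θ⌉₊, eventually_ge_atTop 1] with j hj hj1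
        have h6 : 4 * G / Real.cos θ ≤ j := (Nat.le_ceil _).trans (by exact_mod_cast hj)
        rw [div_le_iff₀ hcp] at h6
        have h7 : ∑ i ∈ Finset.range j, ((i : ℝ) + 1) / G = (j : ℝ) * (j + 1) / 2 / G := by
          rw [← Finset.sum_div]
          congr 1
          clear hj hj1 h6
          induction j with
          | zero => simp
          | succ j ih => rw [Finset.sum_range_succ, ih]; push_cast; ring
        rw [h7]
        have hj' : (1 : ℝ) ≤ j := by exact_mod_cast hj1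
        have h8 : ((j : ℝ) + 1) / G * G = j + 1 := by field_simp
        rw [h8]
        have h9 : ((j : ℝ) + 1) ≤ Real.cos θ * ((j : ℝ) * (j + 1) / 2 / G) := by
          rw [div_div, mul_div_assoc', le_div_iff₀ (by positivity)]
          nlinarith
        linarith
    | coe c =>
      have hc0 : 0 ≤ c := by exact_mod_cast hc
      refine ⟨fun j => (c + 1 / ((j : ℝ) + 1)) / G, fun j => by positivity, ?_,
        Or.inl ⟨c, rfl, ?_⟩⟩
      · have h5 : Tendsto (fun j : ℕ => ∑ i ∈ Finset.range j, 1 / ((i : ℝ) + 1)) atTop atTop :=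
          Real.tendsto_sum_range_one_div_nat_succ_atTop
        refine tendsto_atTop_mono (fun j : ℕ => ?_) (h5.const_mul_atTop (show 0 < 1 / G by positivity))
        rw [Finset.mul_sum]
        refine Finset.sum_le_sum fun i _ => ?_
        rw [one_div_mul_eq_div]
        apply div_le_div_of_nonneg_right _ hG.le
        linarith
      · rw [hcos]
        have e : (fun j : ℕ => (c + 1 / ((j : ℝ) + 1)) / G * G -
            0 * ∑ i ∈ Finset.range j, (c + 1 / ((i : ℝ) + 1)) / G) =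
            fun j : ℕ => c + 1 / ((j : ℝ) + 1) := by
          funext j
          field_simp
          ring
        rw [e]
        have := (tendsto_one_div_add_atTop_nhds_zero_nat (𝕜 := ℝ)).const_add c
        rwa [add_zero] at this
  · -- smaller angles
    have hcp : 0 < Real.cos τ := Real.cos_pos_of_mem_Ioo ⟨by linarith, by linarith⟩
    have key : ∀ φ : ℝ → ℝ, (∀ᶠ x in atTop, |φ x| ≤ Real.cos τ / 2 * x) →
        ∃ q : ℕ → ℝ, (∀ j, 0 < q j) ∧
          Tendsto (fun j => ∑ i ∈ Finset.range j, q i) atTop atTop ∧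
          ∀ j, q (j + 1) * G - Real.cos τ * ∑ i ∈ Finset.range (j + 1), q i =
            φ (∑ i ∈ Finset.range (j + 1), q i) := by
      intro φ hφ
      obtain ⟨X, hX⟩ := Filter.eventually_atTop.1 hφ
      obtain ⟨q, q1, q2, q3, q4⟩ := onec_q (X0 := max X 1) (by positivity)
        (fun _ x => (Real.cos τ * x + φ x) / G) (b := Real.cos τ / 2 / G) (by positivity)
        (by
          intro k x hx
          have h5 := hX x ((le_max_left _ _).trans hx)
          have h6 := (abs_le.1 h5).1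
          rw [le_div_iff₀ hG]
          calc Real.cos τ / 2 / G * x * G = Real.cos τ / 2 * x := by field_simp
            _ ≤ _ := by linarith)
      refine ⟨q, q1, q2, fun j => ?_⟩
      rw [q4 j]
      field_simp
      ring
    have hcosmono : ∀ {θ θ' : ℝ}, 0 ≤ θ → θ < θ' → θ' ≤ Real.pi / 2 →
        Real.cos θ' < Real.cos θ := fun h4 h5 h6 =>
      Real.cos_lt_cos_of_nonneg_of_le_pi_div_two h4 h6 h5
    induction c with
    | bot =>
      obtain ⟨q, q1, q2, q3⟩ := key (fun x => -Real.sqrt x) (by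
        filter_upwards [onec_lin (show 0 < Real.cos τ / 2 by positivity)] with x hx
        rw [abs_neg, abs_of_nonneg (Real.sqrt_nonneg _)]
        exact hx)
      have q2' := (tendsto_add_atTop_iff_nat 1).2 q2
      refine ⟨q, q1, q2, Or.inr (Or.inr ⟨rfl, ?_, ?_⟩)⟩
      · rw [← tendsto_add_atTop_iff_nat 1]
        simp only [q3]
        exact tendsto_neg_atTop_atBot.comp (Real.tendsto_sqrt_atTop.comp q2')
      · intro θ h5 h6
        have h7 := hcosmono (by linarith) h5 h6
        rw [← Filter.map_add_atTop_eq_nat 1, Filter.eventually_map]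
        filter_upwards [q2'.eventually (onec_lin (sub_pos.2 h7))] with j hj
        have h8 := q3 j
        linarith
    | top =>
      obtain ⟨q, q1, q2, q3⟩ := key Real.sqrt (by
        filter_upwards [onec_lin (show 0 < Real.cos τ / 2 by positivity)] with x hx
        rw [abs_of_nonneg (Real.sqrt_nonneg _)]
        exact hx)
      have q2' := (tendsto_add_atTop_iff_nat 1).2 q2
      refine ⟨q, q1, q2, Or.inr (Or.inl ⟨rfl, ?_, ?_⟩)⟩
      · rw [← tendsto_add_atTop_iff_nat 1]
        simp only [q3]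
        exact Real.tendsto_sqrt_atTop.comp q2'
      · intro θ h5 h6
        have h7 := hcosmono h5 h6 h2
        rw [← Filter.map_add_atTop_eq_nat 1, Filter.eventually_map]
        filter_upwards [q2'.eventually (onec_lin (sub_pos.2 h7))] with j hj
        have h8 := q3 j
        linarith
    | coe c =>
      obtain ⟨q, q1, q2, q3⟩ := key (fun _ => c) (by
        filter_upwards [eventually_ge_atTop (|c| / (Real.cos τ / 2))] with x hx
        rwa [div_le_iff₀ (by positivity), mul_comm] at hx)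
      refine ⟨q, q1, q2, Or.inl ⟨c, rfl, ?_⟩⟩
      rw [← tendsto_add_atTop_iff_nat 1]
      simp only [q3]
      exact tendsto_const_nhds


lemma onec_mono {s θ θ' : ℝ} (hs : 0 < s) (h0 : 0 ≤ θ) (h1 : θ ≤ θ') (h2 : θ' ≤ Real.pi / 2) :
    ker 1 (s * Complex.exp (θ * Complex.I)) 1 ≤ ker 1 (s * Complex.exp (θ' * Complex.I)) 1 :=
  one_ker_mono hs.le h0 h1 h2

/-- construction, even case -/
theorem one_construct {τ : ℝ} (h1 : Real.pi / 4 ≤ τ) (h2 : τ ≤ Real.pi / 2) {c : EReal}
    (hc1 : τ = Real.pi / 4 → c = ⊥) (hc2 : τ = Real.pi / 2 → 0 ≤ c) :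
    ∃ f, IsN 1 f ∧ (∀ z, ‖f (starRingEnd ℂ z)‖ = ‖f z‖) ∧
      (∀ θ, |θ| < τ → indicatorOf 1 f θ = ⊥) ∧
      (∀ θ, τ < |θ| → |θ| ≤ Real.pi → indicatorOf 1 f θ = ⊤) ∧
      indicatorOf 1 f τ = c := by
  have hpi := Real.pi_pos
  rcases eq_or_lt_of_le h1 with h3 | h3
  · -- the angle `π / 4`
    have hc := hc1 h3.symm
    obtain ⟨q, q1, q2, q3, q4⟩ := onec_q (X0 := 1) one_pos (fun k x => ((k : ℝ) + 1) * x) (b := 1)
      one_pos (by
        intro k x hx
        have : (0 : ℝ) ≤ k := Nat.cast_nonneg k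
        nlinarith)
    obtain ⟨n, R, D⟩ := onec_data q q1
    obtain ⟨f, hN, hsym, ⟨τ', c', B, t1, t2, t3, t5, t6, t7⟩, hzer, hlog⟩ :=
      onec_fun D (onec_not_summable q1 q2)
    have ht : τ' = Real.pi / 4 := by
      refine le_antisymm (le_of_forall_gt_imp_ge_of_dense fun θ hθ => ?_) t1
      by_cases hθ2 : Real.pi / 2 < θ
      · linarith
      rw [not_lt] at hθ2
      obtain ⟨G, s, hG, hs, hGs, -⟩ := onec_max hθ hθ2
      have h4 : ((0 : ℝ) : EReal) ≤ indicatorOf 1 f θ := by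
        apply onec_lower D hzer hlog (by linarith) hθ2 hs
        rw [← Filter.map_add_atTop_eq_nat 1, Filter.eventually_map]
        filter_upwards [eventually_ge_atTop ⌈1 / G⌉₊] with j hj
        have h5 : 1 / G ≤ j := (Nat.le_ceil _).trans (by exact_mod_cast hj)
        rw [div_le_iff₀ hG] at h5
        rw [hGs, mul_div_assoc, div_self hs.ne', mul_one, q4 j]
        have h6 := q3 j
        have h7 := Real.cos_le_one θ
        nlinarith [mul_nonneg (show 0 ≤ (1 - Real.cos θ) by linarith)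
          (show (0 : ℝ) ≤ ∑ i ∈ Finset.range (j + 1), q i by linarith),
          mul_nonneg (show 0 ≤ (j : ℝ) * G - 1 by linarith)
          (show (0 : ℝ) ≤ ∑ i ∈ Finset.range (j + 1), q i by linarith),
          mul_nonneg hG.le (show (0 : ℝ) ≤ ∑ i ∈ Finset.range (j + 1), q i by linarith)]
      by_contra h5
      rw [not_le] at h5
      have h6 := t5 θ (by rw [abs_of_nonneg (by linarith)]; exact h5)
      rw [h6] at h4
      simp at h4
    rw [ht] at t5 t6 t7
    rw [t3 ht] at t7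
    refine ⟨f, hN, hsym, ?_, ?_, ?_⟩
    · rw [← h3]; exact t5
    · rw [← h3]; exact t6
    · rw [← h3, hc, t7]; simp
  · obtain ⟨G, s, hG, hs, hGs, hGx⟩ := onec_max h3 h2
    obtain ⟨q, q1, q2, hq⟩ := onec_choose h3 h2 hc2 hG
    obtain ⟨n, R, D⟩ := onec_data q q1
    obtain ⟨f, hN, hsym, ⟨τ', c', B, t1, t2, t3, t5, t6, t7⟩, hzer, hlog⟩ :=
      onec_fun D (onec_not_summable q1 q2)
    have hlow : ∀ A : ℝ, (∀ᶠ j in atTop,
        A ≤ q j * G - Real.cos τ * ∑ i ∈ Finset.range j, q i) → (A : EReal) ≤ indicatorOf 1 f τ := by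
      intro A hA
      apply onec_lower D hzer hlog (by linarith) h2 hs
      rw [hGs, mul_div_assoc, div_self hs.ne', mul_one]
      exact hA
    have hupp : ∀ A : ℝ, (∀ᶠ j in atTop,
        q j * G - Real.cos τ * ∑ i ∈ Finset.range j, q i ≤ A) → indicatorOf 1 f τ ≤ (A : EReal) :=
      fun A hA => onec_upper D hzer hlog (by linarith) h2 hGx hA
    have hval : indicatorOf 1 f τ = c ∧ τ' = τ := by
      rcases hq with ⟨c'', rfl, hlim⟩ | ⟨rfl, hlim, hq'⟩ | ⟨rfl, hlim, hq'⟩
      · have e : indicatorOf 1 f τ = (c'' : EReal) := by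
          apply le_antisymm
          · by_contra h5
            rw [not_le] at h5
            obtain ⟨r, hr1, hr2⟩ := EReal.lt_iff_exists_real_btwn.1 h5
            have hr1' : c'' < r := by exact_mod_cast hr1
            have h6 := hupp r ((hlim.eventually (gt_mem_nhds hr1')).mono fun j hj => hj.le)
            exact absurd hr2 (not_lt.2 h6)
          · by_contra h5
            rw [not_le] at h5
            obtain ⟨r, hr1, hr2⟩ := EReal.lt_iff_exists_real_btwn.1 h5
            have hr2' : r < c'' := by exact_mod_cast hr2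
            have h6 := hlow r ((hlim.eventually (lt_mem_nhds hr2')).mono fun j hj => hj.le)
            exact absurd hr1 (not_lt.2 h6)
        refine ⟨e, ?_⟩
        rcases lt_trichotomy τ τ' with h5 | h5 | h5
        · have h6 := t5 τ (by rw [abs_of_nonneg (by linarith)]; exact h5)
          rw [e] at h6
          exact absurd h6 (by simp)
        · exact h5.symm
        · have h6 := t6 τ (by rw [abs_of_nonneg (by linarith)]; exact h5)
            (by rw [abs_of_nonneg (by linarith)]; linarith)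
          rw [e] at h6
          exact absurd h6 (by simp)
      · have e : indicatorOf 1 f τ = ⊤ := by
          rw [EReal.eq_top_iff_forall_lt]
          intro A
          have h5 := hlow (A + 1) (hlim.eventually (eventually_ge_atTop _))
          refine lt_of_lt_of_le ?_ h5
          exact_mod_cast lt_add_one A
        refine ⟨e, le_antisymm ?_ ?_⟩
        · by_contra h5
          rw [not_le] at h5
          have h6 := t5 τ (by rw [abs_of_nonneg (by linarith)]; exact h5)
          rw [e] at h6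
          exact absurd h6 (by simp)
        · refine le_of_forall_lt_imp_le_of_dense fun θ hθ => ?_
          by_cases hθ0 : θ < 0
          · linarith
          rw [not_lt] at hθ0
          have h5 : indicatorOf 1 f θ ≤ ((0 : ℝ) : EReal) :=
            onec_upper D hzer hlog hθ0 (by linarith)
              (fun x hx => (onec_mono hx hθ0 hθ.le h2).trans (hGx x hx)) (hq' θ hθ0 hθ)
          by_contra h6
          rw [not_le] at h6
          have h7 := t6 θ (by rw [abs_of_nonneg hθ0]; exact h6)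
            (by rw [abs_of_nonneg hθ0]; linarith)
          rw [h7] at h5
          simp at h5
      · have e : indicatorOf 1 f τ = ⊥ := by
          rw [EReal.eq_bot_iff_forall_lt]
          intro A
          have h5 := hupp (A - 1) (hlim.eventually (eventually_le_atBot _))
          refine lt_of_le_of_lt h5 ?_
          exact_mod_cast sub_one_lt A
        refine ⟨e, le_antisymm ?_ ?_⟩
        · refine le_of_forall_gt_imp_ge_of_dense fun θ hθ => ?_
          by_cases hθ2 : Real.pi / 2 < θ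
          · linarith
          rw [not_lt] at hθ2
          have h4 : ((0 : ℝ) : EReal) ≤ indicatorOf 1 f θ := by
            apply onec_lower D hzer hlog (by linarith) hθ2 hs
            filter_upwards [hq' θ hθ hθ2] with j hj
            have h5 := onec_mono hs (by linarith) hθ.le hθ2
            rw [hGs] at h5
            have h6 : G ≤ ker 1 (s * Complex.exp (θ * Complex.I)) 1 / s := by
              rwa [le_div_iff₀ hs]
            have h7 := mul_le_mul_of_nonneg_left h6 (q1 j).le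
            linarith
          by_contra h5
          rw [not_le] at h5
          have h6 := t5 θ (by rw [abs_of_nonneg (by linarith)]; exact h5)
          rw [h6] at h4
          simp at h4
        · by_contra h5
          rw [not_le] at h5
          have h6 := t6 τ (by rw [abs_of_nonneg (by linarith)]; exact h5)
            (by rw [abs_of_nonneg (by linarith)]; linarith)
          rw [e] at h6
          exact absurd h6 (by simp)
    rw [hval.2] at t5 t6
    exact ⟨f, hN, hsym, t5, t6, hval.1⟩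

end Helper25.Ind
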