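import Pool.Agent.Helper25.Ind.Defs
import Pool.Agent.Helper25.Ind.KerA

open Complex Filter Topology MeasureTheory Set

namespace Helper25.Ind

lemma restr_aux_tail {ρ : ℝ} {p : ℕ} {A C κ N M : ℝ} (h2 : ρ < p + 1)
    (hκ : (p : ℝ) + κ < ρ) (hC : 0 < C)
    (hPhi : ∀ x y : ℝ, 1 ≤ x → 1 ≤ y → Phi p (x * y) ≤ C * x ^ ((p : ℝ) + κ) * Phi p y)
    (hMN : M ≤ N) (hN0 : 0 < N) (hA : 0 ≤ A)
    (T : Finset ℝ) (w : ℝ → ℝ) (hT : ∀ t ∈ T, 0 < t) (hw : ∀ t ∈ T, 0 ≤ w t)
    (hg : ∀ r : ℝ, Real.exp (-N) ≤ r → r ≤ Real.exp N →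
          ∑ t ∈ T, w t * Phi p (r / t) ≤ A * r ^ ρ) {r : ℝ}
    (hr1 : Real.exp (-M) ≤ r) (hr2 : r ≤ Real.exp M) :
    ∑ t ∈ T.filter (fun t => ¬ (Real.exp (-N) ≤ t ∧ t ≤ Real.exp N)), w t * Phi p (r / t) ≤
      A * (2 * Real.exp ((M - N) * (p + 1 - ρ)) + C * Real.exp ((M - N) * (ρ - p - κ))) *
        r ^ ρ := by
  obtain ⟨x, rfl⟩ : ∃ x, Real.exp x = r := ⟨Real.log r, Real.exp_log (by
    linarith [Real.exp_pos (-M)])⟩
  rw [Real.exp_le_exp] at hr1 hr2
  have hgN := hg (Real.exp N) (by rw [Real.exp_le_exp]; linarith) le_rfl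
  have hgN' := hg (Real.exp (-N)) le_rfl (by rw [Real.exp_le_exp]; linarith)
  set a : ℝ := 2 * (Real.exp x * Real.exp (-N)) ^ (p + 1) with ha
  set b : ℝ := C * (Real.exp x * Real.exp N) ^ ((p : ℝ) + κ) with hb
  have ha0 : 0 ≤ a := by positivity
  have hb0 : 0 ≤ b := by positivity
  have hstep : ∀ t ∈ T, ¬ (Real.exp (-N) ≤ t ∧ t ≤ Real.exp N) →
      w t * Phi p (Real.exp x / t) ≤
        w t * (a * Phi p (Real.exp N / t) + b * Phi p (Real.exp (-N) / t)) := by
    intro t ht hnt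
    have ht0 := hT t ht
    have hPN : 0 ≤ Phi p (Real.exp N / t) := Phi_nonneg p (by positivity)
    have hPN' : 0 ≤ Phi p (Real.exp (-N) / t) := Phi_nonneg p (by positivity)
    apply mul_le_mul_of_nonneg_left _ (hw t ht)
    by_cases hc : Real.exp (-N) ≤ t
    · have hc2 : Real.exp N < t := by
        by_contra hcon
        push Not at hcon
        exact hnt ⟨hc, hcon⟩
      have e1 : Real.exp x / t = (Real.exp x * Real.exp (-N)) * (Real.exp N / t) := by
        rw [Real.exp_neg]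
        field_simp
      have e2 : Phi p (Real.exp x / t) ≤ a * Phi p (Real.exp N / t) := by
        rw [e1, ha]
        refine Phi_mul_le_small p (by positivity) ?_ (by positivity) ?_
        · rw [← Real.exp_add]
          apply Real.exp_le_one_iff.mpr
          linarith
        · rw [div_le_one ht0]
          exact hc2.le
      have : 0 ≤ b * Phi p (Real.exp (-N) / t) := by positivity
      linarith
    · push Not at hc
      have e1 : Real.exp x / t = (Real.exp x * Real.exp N) * (Real.exp (-N) / t) := by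
        rw [Real.exp_neg]
        field_simp
      have e2 : Phi p (Real.exp x / t) ≤ b * Phi p (Real.exp (-N) / t) := by
        rw [e1, hb]
        refine hPhi _ _ ?_ ?_
        · rw [← Real.exp_add]
          apply Real.one_le_exp
          linarith
        · rw [le_div_iff₀ ht0, one_mul]
          exact hc.le
      have : 0 ≤ a * Phi p (Real.exp N / t) := by positivity
      linarith
  have hsum : ∑ t ∈ T.filter (fun t => ¬ (Real.exp (-N) ≤ t ∧ t ≤ Real.exp N)),
      w t * Phi p (Real.exp x / t) ≤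
      a * (A * Real.exp N ^ ρ) + b * (A * Real.exp (-N) ^ ρ) := by
    calc ∑ t ∈ T.filter (fun t => ¬ (Real.exp (-N) ≤ t ∧ t ≤ Real.exp N)),
          w t * Phi p (Real.exp x / t)
        ≤ ∑ t ∈ T.filter (fun t => ¬ (Real.exp (-N) ≤ t ∧ t ≤ Real.exp N)),
          w t * (a * Phi p (Real.exp N / t) + b * Phi p (Real.exp (-N) / t)) := by
          refine Finset.sum_le_sum fun t ht => ?_
          rw [Finset.mem_filter] at ht
          exact hstep t ht.1 ht.2
      _ ≤ ∑ t ∈ T, w t * (a * Phi p (Real.exp N / t) + b * Phi p (Real.exp (-N) / t)) := by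
          refine Finset.sum_le_sum_of_subset_of_nonneg (Finset.filter_subset _ _) ?_
          intro t ht _
          have ht0 := hT t ht
          have hPN : 0 ≤ Phi p (Real.exp N / t) := Phi_nonneg p (by positivity)
          have hPN' : 0 ≤ Phi p (Real.exp (-N) / t) := Phi_nonneg p (by positivity)
          have := hw t ht
          positivity
      _ = a * (∑ t ∈ T, w t * Phi p (Real.exp N / t)) +
          b * (∑ t ∈ T, w t * Phi p (Real.exp (-N) / t)) := by
          rw [Finset.mul_sum, Finset.mul_sum, ← Finset.sum_add_distrib]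
          refine Finset.sum_congr rfl fun t _ => ?_
          ring
      _ ≤ _ := by gcongr
  have ea : a * Real.exp N ^ ρ = 2 * Real.exp ((x - N) * (p + 1 - ρ)) * Real.exp x ^ ρ := by
    have e1 : (Real.exp x * Real.exp (-N)) ^ (p + 1) = Real.exp ((p + 1) * (x - N)) := by
      rw [← Real.exp_add, ← Real.exp_nat_mul]
      congr 1
      push_cast
      ring
    rw [ha, e1, ← Real.exp_mul, ← Real.exp_mul, mul_assoc, mul_assoc, ← Real.exp_add,
      ← Real.exp_add]
    congr 2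
    ring
  have eb : b * Real.exp (-N) ^ ρ =
      C * Real.exp ((-x - N) * (ρ - p - κ)) * Real.exp x ^ ρ := by
    have e1 : (Real.exp x * Real.exp N) ^ ((p : ℝ) + κ) = Real.exp ((x + N) * (p + κ)) := by
      rw [← Real.exp_add, ← Real.exp_mul]
    rw [hb, e1, ← Real.exp_mul, ← Real.exp_mul, mul_assoc, mul_assoc, ← Real.exp_add,
      ← Real.exp_add]
    congr 2
    ring
  have i1 : Real.exp ((x - N) * (p + 1 - ρ)) ≤ Real.exp ((M - N) * (p + 1 - ρ)) := by
    rw [Real.exp_le_exp]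
    apply mul_le_mul_of_nonneg_right _ (by linarith)
    linarith
  have i2 : Real.exp ((-x - N) * (ρ - p - κ)) ≤ Real.exp ((M - N) * (ρ - p - κ)) := by
    rw [Real.exp_le_exp]
    apply mul_le_mul_of_nonneg_right _ (by linarith)
    linarith
  calc ∑ t ∈ T.filter (fun t => ¬ (Real.exp (-N) ≤ t ∧ t ≤ Real.exp N)),
        w t * Phi p (Real.exp x / t)
      ≤ a * (A * Real.exp N ^ ρ) + b * (A * Real.exp (-N) ^ ρ) := hsum
    _ = A * (a * Real.exp N ^ ρ + b * Real.exp (-N) ^ ρ) := by ring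
    _ = A * (2 * Real.exp ((x - N) * (p + 1 - ρ)) +
          C * Real.exp ((-x - N) * (ρ - p - κ))) * Real.exp x ^ ρ := by
        rw [ea, eb]; ring
    _ ≤ _ := by gcongr

lemma restr_aux_integral {S : Finset ℝ} {w : ℝ → ℝ} (hw : ∀ t ∈ S, 0 ≤ w t) (f : ℝ → ℝ) :
    ∫ t, f t ∂(∑ t ∈ S, ENNReal.ofReal (w t) • Measure.dirac t) = ∑ t ∈ S, w t * f t := by
  rw [integral_finsetSum_measure]
  · refine Finset.sum_congr rfl fun t ht => ?_
    rw [integral_smul_measure, integral_dirac, ENNReal.toReal_ofReal (hw t ht), smul_eq_mul]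
  · intro t _
    refine Integrable.smul_measure ?_ ENNReal.ofReal_ne_top
    exact integrable_dirac (by simp)

lemma restr_aux_measure {S : Finset ℝ} {w : ℝ → ℝ} (hw : ∀ t ∈ S, 0 ≤ w t) (s : ℝ) :
    (∑ t ∈ S, ENNReal.ofReal (w t) • Measure.dirac t) (Iic s) =
      ENNReal.ofReal (∑ t ∈ S.filter (fun t => t ≤ s), w t) := by
  rw [Measure.finsetSum_apply, ENNReal.ofReal_sum_of_nonneg, Finset.sum_filter]
  · refine Finset.sum_congr rfl fun t _ => ?_
    rw [Measure.smul_apply, Measure.dirac_apply' _ measurableSet_Iic, smul_eq_mul]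
    by_cases h : t ≤ s
    · simp [h, indicator]
    · simp [h, indicator]
  · intro t ht
    exact hw t (Finset.mem_filter.mp ht).1

theorem windows {ρ : ℝ} {p : ℕ} (h1 : (p : ℝ) < ρ) (h2 : ρ < p + 1) {h : ℝ → ℝ}
    {A : ℝ} (hA : 0 ≤ A)
    (hnet : ∀ ε > 0, ∀ δ > 0, ∀ M > 0, ∀ θ₀ : ℝ, |θ₀| < Real.pi →
      ∃ (T : Finset ℝ) (w : ℝ → ℝ), (∀ t ∈ T, 0 < t) ∧ (∀ t ∈ T, 0 ≤ w t) ∧
        (∀ z ∈ slitPlane, |z.arg| ≤ Real.pi - δ → Real.exp (-M) ≤ ‖z‖ → ‖z‖ ≤ Real.exp M →
          ∑ t ∈ T, w t * ker p z t ≤ (h z.arg + ε) * ‖z‖ ^ ρ) ∧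
        h θ₀ - ε ≤ ∑ t ∈ T, w t * ker p (Complex.exp (θ₀ * Complex.I)) t ∧
        ∀ r : ℝ, Real.exp (-M) ≤ r → r ≤ Real.exp M →
          ∑ t ∈ T, w t * Phi p (r / t) ≤ A * r ^ ρ) :
    ∃ A', 0 ≤ A' ∧ ∀ ε > 0, ∀ δ > 0, ∀ M > 0, ∀ θ₀ : ℝ, |θ₀| < Real.pi →
      ∃ μ : Measure ℝ, Window p ρ h A' ε δ M θ₀ μ := by
  have hP1 : 0 < Phi p 1 := Phi_pos p zero_lt_one
  have hρ : 0 < ρ := lt_of_le_of_lt (Nat.cast_nonneg p) h1
  refine ⟨A / Phi p 1, by positivity, ?_⟩
  intro ε hε δ hδ M hM θ₀ hθ₀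
  -- constants
  set κ : ℝ := min 1 ((ρ - p) / 2) with hκdef
  have hκ : 0 < κ := lt_min zero_lt_one (by linarith)
  have hκ1 : κ ≤ 1 := min_le_left _ _
  have hκρ : (p : ℝ) + κ < ρ := by
    have : κ ≤ (ρ - p) / 2 := min_le_right _ _
    linarith
  obtain ⟨C, hC, hPhi⟩ := Phi_mul_le_large p hκ hκ1
  set δ₁ : ℝ := min δ (Real.pi - |θ₀|) with hδ₁def
  have hδ₁ : 0 < δ₁ := lt_min hδ (by linarith)
  have hδ₁δ : δ₁ ≤ δ := min_le_left _ _
  have hδ₁θ : δ₁ ≤ Real.pi - |θ₀| := min_le_right _ _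
  have hδ₁π : δ₁ ≤ Real.pi := by linarith [abs_nonneg θ₀]
  have hsin : 0 < Real.sin (δ₁ / 2) :=
    Real.sin_pos_of_pos_of_lt_pi (by linarith) (by linarith [Real.pi_pos])
  -- choice of N
  have htend : Tendsto (fun N : ℝ => A * (2 * Real.exp ((M - N) * (p + 1 - ρ)) +
      C * Real.exp ((M - N) * (ρ - p - κ))) / Real.sin (δ₁ / 2)) atTop (𝓝 0) := by
    have hlin : ∀ c : ℝ, 0 < c → Tendsto (fun N : ℝ => Real.exp ((M - N) * c)) atTop (𝓝 0) := by
      intro c hc
      refine Real.tendsto_exp_atBot.comp ?_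
      refine Tendsto.atBot_mul_const hc ?_
      have h3 : Tendsto (fun N : ℝ => M + -N) atTop atBot :=
        tendsto_atBot_add_const_left atTop M tendsto_neg_atTop_atBot
      exact h3
    have e1 := hlin (p + 1 - ρ) (by linarith)
    have e2 := hlin (ρ - p - κ) (by linarith)
    have := ((((e1.const_mul 2).add (e2.const_mul C)).const_mul A).div_const
      (Real.sin (δ₁ / 2)))
    simpa using this
  obtain ⟨N, hNM, hN0, hNε⟩ : ∃ N : ℝ, M ≤ N ∧ 0 < N ∧
      A * (2 * Real.exp ((M - N) * (p + 1 - ρ)) +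
      C * Real.exp ((M - N) * (ρ - p - κ))) / Real.sin (δ₁ / 2) < ε / 2 := by
    have e1 := htend.eventually_lt_const (show (0 : ℝ) < ε / 2 by linarith)
    have e2 := eventually_ge_atTop M
    obtain ⟨N, hN1, hN2⟩ := (e1.and e2).exists
    exact ⟨N, hN2, by linarith, hN1⟩
  obtain ⟨T, w, hT, hw, hup, hlow, hgr⟩ := hnet (ε / 2) (by linarith) δ₁ hδ₁ N hN0 θ₀ hθ₀
  set S : Finset ℝ := T.filter (fun t => Real.exp (-N) ≤ t ∧ t ≤ Real.exp N) with hSdef
  have hST : ∀ t ∈ S, t ∈ T := fun t ht => (Finset.mem_filter.mp ht).1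
  have hSw : ∀ t ∈ S, 0 ≤ w t := fun t ht => hw t (hST t ht)
  -- tail estimate
  have htail : ∀ z ∈ slitPlane, |z.arg| ≤ Real.pi - δ₁ → Real.exp (-M) ≤ ‖z‖ →
      ‖z‖ ≤ Real.exp M →
      |∑ t ∈ T, w t * ker p z t - ∑ t ∈ S, w t * ker p z t| ≤ ε / 2 * ‖z‖ ^ ρ := by
    intro z hz hza hz1 hz2
    have hsplit : ∑ t ∈ T, w t * ker p z t - ∑ t ∈ S, w t * ker p z t =
        ∑ t ∈ T.filter (fun t => ¬ (Real.exp (-N) ≤ t ∧ t ≤ Real.exp N)), w t * ker p z t := by
      rw [← Finset.sum_filter_add_sum_filter_not T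
        (fun t => Real.exp (-N) ≤ t ∧ t ≤ Real.exp N)]
      ring
    rw [hsplit]
    calc |∑ t ∈ T.filter (fun t => ¬ (Real.exp (-N) ≤ t ∧ t ≤ Real.exp N)), w t * ker p z t|
        ≤ ∑ t ∈ T.filter (fun t => ¬ (Real.exp (-N) ≤ t ∧ t ≤ Real.exp N)),
            |w t * ker p z t| := Finset.abs_sum_le_sum_abs _ _
      _ ≤ ∑ t ∈ T.filter (fun t => ¬ (Real.exp (-N) ≤ t ∧ t ≤ Real.exp N)),
            (w t * Phi p (‖z‖ / t)) / Real.sin (δ₁ / 2) := by
          refine Finset.sum_le_sum fun t ht => ?_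
          have htT := (Finset.mem_filter.mp ht).1
          rw [abs_mul, abs_of_nonneg (hw t htT), mul_div_assoc]
          exact mul_le_mul_of_nonneg_left
            (abs_ker_le p hz hδ₁ hδ₁π hza (hT t htT)) (hw t htT)
      _ = (∑ t ∈ T.filter (fun t => ¬ (Real.exp (-N) ≤ t ∧ t ≤ Real.exp N)),
            w t * Phi p (‖z‖ / t)) / Real.sin (δ₁ / 2) := by rw [Finset.sum_div]
      _ ≤ (A * (2 * Real.exp ((M - N) * (p + 1 - ρ)) + C * Real.exp ((M - N) * (ρ - p - κ))) *
            ‖z‖ ^ ρ) / Real.sin (δ₁ / 2) := by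
          apply div_le_div_of_nonneg_right _ hsin.le
          exact restr_aux_tail h2 hκρ hC hPhi hNM hN0 hA T w hT hw hgr hz1 hz2
      _ = (A * (2 * Real.exp ((M - N) * (p + 1 - ρ)) + C * Real.exp ((M - N) * (ρ - p - κ))) /
            Real.sin (δ₁ / 2)) * ‖z‖ ^ ρ := by ring
      _ ≤ ε / 2 * ‖z‖ ^ ρ := by gcongr
  refine ⟨∑ t ∈ S, ENNReal.ofReal (w t) • Measure.dirac t, ⟨?_, ?_⟩, ?_, ?_⟩
  · rw [restr_aux_measure hSw]
    have : S.filter (fun t => t ≤ 0) = ∅ := by
      rw [Finset.filter_eq_empty_iff]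
      intro t ht
      exact not_le.mpr (hT t (hST t ht))
    rw [this]
    simp
  · intro t ht
    rw [restr_aux_measure hSw]
    apply ENNReal.ofReal_le_ofReal
    rcases lt_or_ge t (Real.exp (-N)) with hlt | hge
    · have : S.filter (fun s => s ≤ t) = ∅ := by
        rw [Finset.filter_eq_empty_iff]
        intro s hs
        have := (Finset.mem_filter.mp hs).2.1
        exact not_le.mpr (lt_of_lt_of_le hlt this)
      rw [this]
      simp only [Finset.sum_empty]
      positivity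
    · set t₁ : ℝ := min t (Real.exp N) with ht₁
      have h3 : Real.exp (-N) ≤ t₁ := le_min hge (by rw [Real.exp_le_exp]; linarith)
      have h4 : t₁ ≤ Real.exp N := min_le_right _ _
      have h5 := hgr t₁ h3 h4
      have h6 : 0 < t₁ := lt_of_lt_of_le (Real.exp_pos _) h3
      have h7 : (∑ s ∈ S.filter (fun s => s ≤ t), w s) * Phi p 1 ≤
          ∑ s ∈ T, w s * Phi p (t₁ / s) := by
        rw [Finset.sum_mul]
        calc ∑ s ∈ S.filter (fun s => s ≤ t), w s * Phi p 1
            ≤ ∑ s ∈ S.filter (fun s => s ≤ t), w s * Phi p (t₁ / s) := by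
              refine Finset.sum_le_sum fun s hs => ?_
              have hsS := (Finset.mem_filter.mp hs).1
              have hst := (Finset.mem_filter.mp hs).2
              have hsT := hST s hsS
              have hs0 := hT s hsT
              have hsN := (Finset.mem_filter.mp hsS).2.2
              apply mul_le_mul_of_nonneg_left _ (hw s hsT)
              apply Phi_mono p zero_le_one
              rw [le_div_iff₀ hs0, one_mul]
              exact le_min hst hsN
          _ ≤ ∑ s ∈ T, w s * Phi p (t₁ / s) := by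
              refine Finset.sum_le_sum_of_subset_of_nonneg ?_ ?_
              · intro s hs
                exact hST s (Finset.mem_filter.mp hs).1
              · intro s hs _
                have hs0 := hT s hs
                exact mul_nonneg (hw s hs) (Phi_nonneg p (by positivity))
      rw [div_mul_eq_mul_div, le_div_iff₀ hP1]
      refine h7.trans (h5.trans ?_)
      apply mul_le_mul_of_nonneg_left _ hA
      exact Real.rpow_le_rpow h6.le (min_le_left _ _) hρ.le
  · intro z hz hza hz1 hz2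
    rw [restr_aux_integral hSw]
    have hza' : |z.arg| ≤ Real.pi - δ₁ := by linarith
    have e1 := hup z hz hza' (le_trans (by rw [Real.exp_le_exp]; linarith) hz1)
      (hz2.trans (by rw [Real.exp_le_exp]; linarith))
    have e2 := htail z hz hza' hz1 hz2
    have e3 := (abs_le.mp e2).1
    calc ∑ t ∈ S, w t * ker p z t ≤ (h z.arg + ε / 2) * ‖z‖ ^ ρ + ε / 2 * ‖z‖ ^ ρ := by
          linarith
      _ = (h z.arg + ε) * ‖z‖ ^ ρ := by ring
  · rw [restr_aux_integral hSw]
    have hlt := abs_lt.mp hθ₀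
    have harg : (Complex.exp (θ₀ * Complex.I)).arg = θ₀ := by
      have := Complex.arg_exp_mul_I θ₀
      rw [this, toIocMod_eq_self]
      constructor
      · linarith [hlt.1]
      · linarith [hlt.2]
    have hnorm : ‖Complex.exp (θ₀ * Complex.I)‖ = 1 := Complex.norm_exp_ofReal_mul_I θ₀
    have hslit : Complex.exp (θ₀ * Complex.I) ∈ slitPlane := by
      rw [Complex.mem_slitPlane_iff_arg]
      refine ⟨?_, Complex.exp_ne_zero _⟩
      rw [harg]
      exact ne_of_lt hlt.2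
    have e2 := htail _ hslit (by rw [harg]; linarith)
      (by rw [hnorm]; exact Real.exp_le_one_iff.mpr (by linarith))
      (by rw [hnorm]; exact Real.one_le_exp hM.le)
    rw [hnorm, Real.one_rpow, mul_one] at e2
    have e3 := (abs_le.mp e2).2
    linarith

end Helper25.Ind
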