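import Pool.Agent.Helper25.Ind.Defs
import Pool.Agent.Helper25.Ind.Glue3
import Pool.Agent.Helper25.Ind.Restr
import Pool.Agent.Helper25.Ind.Net
import Pool.Agent.Helper25.Ind.Disc
import Pool.Agent.Helper25.Ind.Canon
import Pool.Agent.Helper25.Ind.MinSeq
import Pool.Agent.Helper25.Ind.SumPhi
import Pool.Agent.Helper25.Ind.Trig

/-!
Auxiliary facts for the sufficiency part: sums over sequences as integrals, the extra minimal
sequence, summability.
-/

open Complex Filter Topology MeasureTheory Set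

namespace Helper25.Ind

lemma suff_diracs_Iic (a : ℕ → ℝ) (t : ℝ) :
    diracs a (Iic t) = ∑' k, (Iic t).indicator (1 : ℝ → ENNReal) (a k) := by
  unfold diracs
  rw [Measure.sum_apply _ measurableSet_Iic]
  refine tsum_congr fun k => ?_
  rw [Measure.dirac_apply' _ measurableSet_Iic]

lemma suff_diracs_univ (a : ℕ → ℝ) : diracs a univ = ⊤ := by
  unfold diracs
  rw [Measure.sum_apply _ MeasurableSet.univ]
  simp

lemma suff_lintegral_diracs (a : ℕ → ℝ) {g : ℝ → ENNReal} (hg : Measurable g) :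
    ∫⁻ t, g t ∂(diracs a) = ∑' k, g (a k) := by
  unfold diracs
  rw [lintegral_sum_measure]
  exact tsum_congr fun k => lintegral_dirac' _ hg

lemma suff_integral_diracs (a : ℕ → ℝ) {g : ℝ → ℝ} (hg : Integrable g (diracs a))
     :
    ∫ t, g t ∂(diracs a) = ∑' k, g (a k) := by
  unfold diracs at hg ⊢
  rw [integral_sum_measure hg]
  exact tsum_congr fun k => integral_dirac _ _

/-- growth from summability -/
lemma suff_growth_diracs {ρ : ℝ} (hρ : 0 < ρ) {b : ℕ → ℝ} (hb : ∀ k, 0 < b k)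
    (hs : Summable fun k => b k ^ (-ρ)) : Growth ρ (∑' k, b k ^ (-ρ)) (diracs b) := by
  have key : ∀ t : ℝ, 0 < t → diracs b (Iic t) ≤ ENNReal.ofReal ((∑' k, b k ^ (-ρ)) * t ^ ρ) := by
    intro t ht
    rw [suff_diracs_Iic, ← tsum_mul_right,
      ENNReal.ofReal_tsum_of_nonneg (fun k => by have := hb k; positivity) (hs.mul_right _)]
    refine ENNReal.tsum_le_tsum fun k => ?_
    by_cases hk : b k ≤ t
    · rw [indicator_of_mem (by exact hk)]
      simp only [Pi.one_apply]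
      rw [← ENNReal.ofReal_one]
      apply ENNReal.ofReal_le_ofReal
      rw [Real.rpow_neg (hb k).le, ← div_eq_inv_mul, one_le_div (Real.rpow_pos_of_pos (hb k) _)]
      exact Real.rpow_le_rpow (hb k).le hk hρ.le
    · rw [indicator_of_notMem (by exact hk)]
      simp
  refine ⟨?_, key⟩
  rw [suff_diracs_Iic]
  rw [ENNReal.tsum_eq_zero]
  intro k
  rw [indicator_of_notMem]
  simp [hb k]

lemma suff_growth_add {ρ A B : ℝ} (hA : 0 ≤ A) (hB : 0 ≤ B) {μ ν : Measure ℝ}
    (hμ : Growth ρ A μ) (hν : Growth ρ B ν) : Growth ρ (A + B) (μ + ν) := by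
  refine ⟨by simp [hμ.1, hν.1], fun t ht => ?_⟩
  rw [Measure.add_apply, add_mul, ENNReal.ofReal_add (by positivity) (by positivity)]
  exact add_le_add (hμ.2 t ht) (hν.2 t ht)

lemma suff_measurable_Phi (p : ℕ) (r : ℝ) (hr : 0 ≤ r) :
    Measurable fun t : ℝ => (Ioi (0 : ℝ)).indicator (fun t => Phi p (r / t)) t := by
  have h1 : ContinuousOn (fun t : ℝ => Phi p (r / t)) (Ioi 0) := by
    refine (continuousOn_Phi p).comp ?_ ?_
    · exact continuousOn_const.div continuousOn_id fun t ht => (ne_of_gt ht)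
    · intro t ht
      exact div_nonneg hr (le_of_lt ht)
  exact (h1.measurable_piecewise continuousOn_const measurableSet_Ioi : _)

lemma suff_ae_pos {ρ A : ℝ} {μ : Measure ℝ} (hμ : Growth ρ A μ) : ∀ᵐ t ∂μ, 0 < t := by
  rw [ae_iff]
  have : {t : ℝ | ¬ 0 < t} = Iic 0 := by
    ext t
    simp
  rw [this]
  exact hμ.1

/-- the sum of the majorants over a sequence with growth -/
lemma suff_sum_Phi {p : ℕ} {ρ : ℝ} (h1 : (p : ℝ) < ρ) (h2 : ρ < p + 1) :
    ∃ C > 0, ∀ (A : ℝ) (a : ℕ → ℝ), 0 ≤ A → (∀ k, 0 < a k) → Growth ρ A (diracs a) →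
      ∀ r : ℝ, 0 < r → (Summable fun k => Phi p (r / a k)) ∧
        ∑' k, Phi p (r / a k) ≤ C * A * r ^ ρ := by
  obtain ⟨κ, hκ, C, hC, H⟩ := lintegral_exp_weight_le h1 h2
  refine ⟨C, hC, fun A a hA ha hg r hr => ?_⟩
  have h3 := H A (diracs a) hA hg r hr
  have hnn : ∀ k, 0 ≤ Phi p (r / a k) := fun k => Phi_nonneg p (by have := ha k; positivity)
  have h4 : ∑' k, ENNReal.ofReal (Phi p (r / a k)) ≤ ENNReal.ofReal (C * A * r ^ ρ) := by
    refine le_trans ?_ h3
    have h5 : ∫⁻ t, ENNReal.ofReal ((Ioi (0 : ℝ)).indicator (fun t => Phi p (r / t)) t)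
        ∂(diracs a) = ∑' k, ENNReal.ofReal (Phi p (r / a k)) := by
      rw [suff_lintegral_diracs a (suff_measurable_Phi p r hr.le).ennreal_ofReal]
      refine tsum_congr fun k => ?_
      rw [indicator_of_mem (by exact ha k)]
    rw [← h5]
    refine lintegral_mono_ae ?_
    filter_upwards [suff_ae_pos hg] with t ht
    refine ENNReal.ofReal_le_ofReal ?_
    rw [indicator_of_mem (by exact ht)]
    have h6 : 0 ≤ Phi p (r / t) := Phi_nonneg p (by positivity)
    have h7 : 1 ≤ Real.exp (κ * |Real.log (r / t)|) := Real.one_le_exp (by positivity)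
    nlinarith
  have hpos : 0 ≤ C * A * r ^ ρ := by positivity
  have hsum : Summable fun k => Phi p (r / a k) := by
    have h8 : ∑' k, ENNReal.ofReal (Phi p (r / a k)) ≠ ⊤ := ne_top_of_le_ne_top (by simp) h4
    have h9 := ENNReal.summable_toReal h8
    refine h9.congr fun k => ?_
    rw [ENNReal.toReal_ofReal (hnn k)]
  refine ⟨hsum, ?_⟩
  rw [← ENNReal.ofReal_tsum_of_nonneg hnn hsum] at h4
  exact (ENNReal.ofReal_le_ofReal_iff hpos).1 h4

/-- genus summability from growth -/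
lemma suff_summable_inv {p : ℕ} {ρ A : ℝ} (h1 : (p : ℝ) < ρ) (h2 : ρ < p + 1) (hA : 0 ≤ A)
    {a : ℕ → ℝ} (ha : ∀ k, 1 ≤ a k) (hg : Growth ρ A (diracs a)) :
    Summable fun k => (a k)⁻¹ ^ (p + 1) := by
  obtain ⟨C, hC, H⟩ := suff_sum_Phi h1 h2
  have h3 := (H A a hA (fun k => lt_of_lt_of_le one_pos (ha k)) hg 1 one_pos).1
  refine Summable.of_nonneg_of_le (fun k => ?_) (fun k => ?_) (h3.mul_left (2 * (p + 1) : ℝ))
  · have := ha k
    positivity
  · have h4 : 0 < a k := lt_of_lt_of_le one_pos (ha k)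
    have h5 := Phi_ge p (x := 1 / a k) (by positivity)
    have h6 : 1 / a k ≤ 1 := by
      rw [div_le_one h4]
      exact ha k
    have h7 : (1 / a k) ^ (p + 1) ≤ Phi p (1 / a k) * ((p + 1) * (1 + 1 / a k)) := by
      rwa [div_le_iff₀ (by positivity)] at h5
    have h8 : 0 ≤ Phi p (1 / a k) := Phi_nonneg p (by positivity)
    calc (a k)⁻¹ ^ (p + 1) = (1 / a k) ^ (p + 1) := by rw [one_div]
      _ ≤ Phi p (1 / a k) * ((p + 1) * (1 + 1 / a k)) := h7
      _ ≤ Phi p (1 / a k) * ((p + 1) * (1 + 1)) := by gcongr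
      _ = 2 * (p + 1) * Phi p (1 / a k) := by ring

end Helper25.Ind
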