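import Pool.Agent.Helper25.Ind.SuffA

/-!
From a measure to an entire function.
-/

open Complex Filter Topology MeasureTheory Set

namespace Helper25.Ind

lemma suff_ne_zero_of_slit {f : ℂ → ℂ} {ι : Type} {a : ι → ℝ} (ha : ∀ k, 0 < a k)
    (hfz : ∀ z, f z = 0 ↔ ∃ k, z = -(a k : ℂ)) {z : ℂ} (hz : z ∈ slitPlane) : f z ≠ 0 := by
  intro h
  obtain ⟨k, hk⟩ := (hfz z).1 h
  rw [hk] at hz
  rcases hz with h1 | h1
  · simp at h1
    linarith [ha k]
  · simp at h1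

theorem suff_core {p : ℕ} {ρ A : ℝ} (h1 : (p : ℝ) < ρ) (h2 : ρ < p + 1) (hA : 0 ≤ A)
    {ν : Measure ℝ} (hν : Growth ρ A ν) (h0 : ν (Iic 1) = 0) (hinf : ν univ = ⊤) :
    ∃ f : ℂ → ℂ, Differentiable ℂ f ∧ (∀ z, f z = 0 → z.im = 0 ∧ z.re < 0) ∧
      (∃ C > 0, ∀ z : ℂ, z ≠ 0 → ‖f z‖ ≤ Real.exp (C * ‖z‖ ^ ρ)) ∧
      ∀ δ : ℝ, 0 < δ → δ ≤ Real.pi → ∀ z ∈ slitPlane, |z.arg| ≤ Real.pi - δ →
        |Real.log ‖f z‖ - ∫ t, ker p z t ∂ν| ≤ Phi p ‖z‖ / Real.sin (δ / 2) := by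
  obtain ⟨a, ha1, hga, hcomp⟩ := discretize h1 h2 hA hν h0 hinf
  have ha : ∀ k, 0 < a k := fun k => lt_of_lt_of_le one_pos (ha1 k)
  obtain ⟨f, hfd, hf0, hfz, hflog⟩ := exists_canonical (p := p) a ha
    (suff_summable_inv h1 h2 hA ha1 hga)
  obtain ⟨C1, hC1, hPhi⟩ := suff_sum_Phi h1 h2
  obtain ⟨C2, hC2, hprim⟩ := norm_primary_le p
  refine ⟨f, hfd, ?_, ⟨C2 * (C1 * A) + 1, by positivity, ?_⟩, ?_⟩
  · intro z hz
    obtain ⟨k, hk⟩ := (hfz z).1 hz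
    rw [hk]
    simp [ha k]
  · intro z hz
    have hr : 0 < ‖z‖ := norm_pos_iff.2 hz
    by_cases hfz0 : f z = 0
    · rw [hfz0, norm_zero]
      positivity
    · obtain ⟨hs, hl⟩ := hflog z hfz0
      obtain ⟨hs2, hl2⟩ := hPhi A a hA ha hga ‖z‖ hr
      have h3 : ∀ k, ker p z (a k) ≤ C2 * Phi p (‖z‖ / a k) := by
        intro k
        unfold ker
        have h4 := hprim (-z / a k)
        have h5 : ‖-z / (a k : ℂ)‖ = ‖z‖ / a k := by
          rw [norm_div, norm_neg, Complex.norm_real, Real.norm_of_nonneg (ha k).le]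
        rw [h5] at h4
        have h6 : primary p (-z / a k) ≠ 0 := by
          rw [Ne, primary_eq_zero_iff]
          intro h7
          apply hfz0
          rw [hfz]
          refine ⟨k, ?_⟩
          have h8 : (a k : ℂ) ≠ 0 := by exact_mod_cast (ha k).ne'
          rw [div_eq_iff h8, one_mul] at h7
          rw [← h7, neg_neg]
        calc Real.log ‖primary p (-z / a k)‖ ≤ Real.log (Real.exp (C2 * Phi p (‖z‖ / a k))) :=
              Real.log_le_log (norm_pos_iff.2 h6) h4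
          _ = C2 * Phi p (‖z‖ / a k) := Real.log_exp _
      have h4 : Real.log ‖f z‖ ≤ C2 * (C1 * A * ‖z‖ ^ ρ) := by
        rw [hl]
        calc ∑' k, ker p z (a k) ≤ ∑' k, C2 * Phi p (‖z‖ / a k) :=
              hs.tsum_le_tsum h3 (hs2.mul_left _)
          _ = C2 * ∑' k, Phi p (‖z‖ / a k) := tsum_mul_left
          _ ≤ C2 * (C1 * A * ‖z‖ ^ ρ) := by gcongr
      have h5 : 0 < ‖f z‖ := norm_pos_iff.2 hfz0
      rw [← Real.log_le_iff_le_exp h5]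
      have h6 : 0 ≤ ‖z‖ ^ ρ := by positivity
      nlinarith
  · intro δ hδ hδ' z hz hz'
    have h3 := hcomp δ hδ hδ' z hz hz'
    have h4 : f z ≠ 0 := suff_ne_zero_of_slit ha hfz hz
    rw [(hflog z h4).2, ← suff_integral_diracs a (integrable_ker h1 h2 hA hga hz)]
    exact h3

end Helper25.Ind
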