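import Pool.Agent.Helper25.Ind.SuffB

/-!
Sufficiency: from the glued measure to the function.
-/

open Complex Filter Topology MeasureTheory Set

namespace Helper25.Ind

lemma suff_norm {r : ℝ} (hr : 0 ≤ r) (θ : ℝ) :
    ‖(r : ℂ) * Complex.exp (θ * Complex.I)‖ = r := by
  rw [norm_mul, Complex.norm_exp_ofReal_mul_I, mul_one, Complex.norm_real,
    Real.norm_of_nonneg hr]

lemma suff_arg {r θ : ℝ} (hr : 0 < r) (hθ : |θ| < Real.pi) :
    ((r : ℂ) * Complex.exp (θ * Complex.I)).arg = θ := by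
  rw [Complex.arg_real_mul _ hr]
  have h := abs_lt.1 hθ
  have := Complex.arg_mul_cos_add_sin_mul_I (r := 1) one_pos (θ := θ) ⟨h.1, h.2.le⟩
  rw [Complex.ofReal_one, one_mul] at this
  rw [Complex.exp_mul_I]
  exact this

lemma suff_slit {r θ : ℝ} (hr : 0 < r) (hθ : |θ| < Real.pi) :
    (r : ℂ) * Complex.exp (θ * Complex.I) ∈ slitPlane := by
  rw [Complex.mem_slitPlane_iff_arg]
  constructor
  · rw [suff_arg hr hθ]
    exact ne_of_lt (abs_lt.1 hθ).2
  · rw [← norm_pos_iff, suff_norm hr.le]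
    exact hr

lemma suff_Phi_small {p : ℕ} {ρ : ℝ} (h1 : (p : ℝ) < ρ) {ε : ℝ} (hε : 0 < ε) :
    ∃ R > 0, ∀ r : ℝ, R ≤ r → Phi p r ≤ ε * r ^ ρ := by
  obtain ⟨κ, hκ0, hκ1, hκ2⟩ : ∃ κ : ℝ, 0 < κ ∧ κ ≤ 1 ∧ (p : ℝ) + κ < ρ :=
    ⟨min 1 ((ρ - p) / 2), by
      refine ⟨lt_min one_pos (by linarith), min_le_left _ _, ?_⟩
      have := min_le_right 1 ((ρ - p) / 2)
      linarith⟩
  have h3 : Tendsto (fun r : ℝ => r ^ (-(ρ - (p + κ)))) atTop (𝓝 0) :=
    tendsto_rpow_neg_atTop (by linarith)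
  have h4 : ∀ᶠ r : ℝ in atTop, r ^ (-(ρ - (p + κ))) < ε * (p + κ) :=
    h3.eventually_lt_const (by positivity)
  obtain ⟨R, hR⟩ := eventually_atTop.1 h4
  refine ⟨max R 1, by positivity, fun r hr => ?_⟩
  have hr1 : 1 ≤ r := le_trans (le_max_right _ _) hr
  have hr0 : 0 < r := by linarith
  have h5 := hR r (le_trans (le_max_left _ _) hr)
  have h6 := Phi_le_rpow p hκ0 hκ1 hr0.le
  refine h6.trans ?_
  rw [div_le_iff₀ (by positivity)]
  have h7 : r ^ ((p : ℝ) + κ) = r ^ (-(ρ - (p + κ))) * r ^ ρ := by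
    rw [← Real.rpow_add hr0]
    ring_nf
  rw [h7]
  have h8 : 0 < r ^ ρ := Real.rpow_pos_of_pos hr0 _
  nlinarith

lemma suff_small {p : ℕ} {ρ : ℝ} (h1 : (p : ℝ) < ρ) (h2 : ρ < p + 1) {b : ℕ → ℝ}
    (hb : ∀ k, 0 < b k) (hs : Summable fun k => b k ^ (-ρ)) {δ : ℝ} (hδ : 0 < δ)
    (hδ' : δ ≤ Real.pi) {ε : ℝ} (hε : 0 < ε) :
    ∃ R > 0, ∀ z ∈ slitPlane, |z.arg| ≤ Real.pi - δ → R ≤ ‖z‖ →
      |∫ t, ker p z t ∂(diracs b)| ≤ ε * ‖z‖ ^ ρ := by
  have hρ : 0 < ρ := lt_of_le_of_lt (Nat.cast_nonneg p) h1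
  have hsin : 0 < Real.sin (δ / 2) := Real.sin_pos_of_pos_of_lt_pi (by linarith)
    (by linarith [Real.pi_pos])
  have h3 := tendsto_sum_Phi h1 h2.le b hb hs
  have h4 := h3.eventually_lt_const (show 0 < ε * Real.sin (δ / 2) by positivity)
  obtain ⟨R, hR⟩ := eventually_atTop.1 h4
  have hg := suff_growth_diracs hρ hb hs
  have hA : 0 ≤ ∑' k, b k ^ (-ρ) := tsum_nonneg fun k => (Real.rpow_pos_of_pos (hb k) _).le
  refine ⟨max R 1, by positivity, fun z hz hz' hzR => ?_⟩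
  have hr1 : 1 ≤ ‖z‖ := le_trans (le_max_right _ _) hzR
  have hr0 : 0 < ‖z‖ := by linarith
  have h5 := hR ‖z‖ (le_trans (le_max_left _ _) hzR)
  rw [div_lt_iff₀ (Real.rpow_pos_of_pos hr0 _)] at h5
  have hsum := summable_Phi h1 h2.le b hb hs hr0.le
  rw [suff_integral_diracs b (integrable_ker h1 h2 hA hg hz)]
  have h6 : ∀ k, ‖ker p z (b k)‖ ≤ Phi p (‖z‖ / b k) / Real.sin (δ / 2) := fun k =>
    abs_ker_le p hz hδ hδ' hz' (hb k)
  have h7 : ‖∑' k, ker p z (b k)‖ ≤ ∑' k, Phi p (‖z‖ / b k) / Real.sin (δ / 2) :=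
    tsum_of_norm_bounded (hsum.div_const _).hasSum h6
  rw [Real.norm_eq_abs, tsum_div_const] at h7
  refine h7.trans ?_
  rw [div_le_iff₀ hsin]
  nlinarith

/-- positive direction, lower bound -/
lemma suff_star_lower {p : ℕ} {ρ : ℝ} (h1 : (p : ℝ) < ρ) (h2 : ρ < p + 1) {b : ℕ → ℝ}
    (hb : ∀ k, 0 < b k) (hs : Summable fun k => b k ^ (-ρ)) {r : ℝ} (hr : 0 < r) {n : ℕ}
    (hn : ∀ k < n, b k ≤ r) :
    s0 p * Phi p 1 * n ≤
      ∫ t, ker p (r * Complex.exp (star p * Complex.I)) t ∂(diracs b) := by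
  have hρ : 0 < ρ := lt_of_le_of_lt (Nat.cast_nonneg p) h1
  have hg := suff_growth_diracs hρ hb hs
  have hA : 0 ≤ ∑' k, b k ^ (-ρ) := tsum_nonneg fun k => (Real.rpow_pos_of_pos (hb k) _).le
  have hstar : |star p| < Real.pi := by
    rw [abs_of_nonneg (star_nonneg p)]
    exact star_lt_pi p
  have hz := suff_slit hr hstar
  have hint := integrable_ker h1 h2 hA hg hz
  rw [suff_integral_diracs b hint]
  have hs0 := s0_pos p
  have h3 : ∀ k, 0 ≤ ker p (r * Complex.exp (star p * Complex.I)) (b k) := fun k =>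
    le_trans (mul_nonneg hs0.le (Phi_nonneg p (by have := hb k; positivity)))
      (ker_star_ge p hr (hb k))
  have hsum : Summable fun k => ker p (r * Complex.exp (star p * Complex.I)) (b k) := by
    have h4 := summable_Phi h1 h2.le b hb hs hr.le
    have hδ : 0 < Real.pi - star p := by linarith [star_lt_pi p]
    refine Summable.of_norm_bounded (g := fun k => Phi p (r / b k) /
      Real.sin ((Real.pi - star p) / 2)) (h4.div_const _) fun k => ?_
    have h5 := abs_ker_le p hz hδ (by linarith [star_nonneg p]) (t := b k) (by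
      rw [suff_arg hr hstar, abs_of_nonneg (star_nonneg p)]
      linarith) (hb k)
    rw [suff_norm hr.le] at h5
    exact h5
  calc s0 p * Phi p 1 * n = ∑ k ∈ Finset.range n, s0 p * Phi p 1 := by
        rw [Finset.sum_const, Finset.card_range, nsmul_eq_mul]
        ring
    _ ≤ ∑ k ∈ Finset.range n, ker p (r * Complex.exp (star p * Complex.I)) (b k) := by
        refine Finset.sum_le_sum fun k hk => ?_
        have h6 := hn k (Finset.mem_range.1 hk)
        have h7 : 1 ≤ r / b k := by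
          rw [one_le_div (hb k)]
          exact h6
        calc s0 p * Phi p 1 ≤ s0 p * Phi p (r / b k) := by
              gcongr
              exact Phi_mono p zero_le_one h7
          _ ≤ _ := ker_star_ge p hr (hb k)
    _ ≤ _ := hsum.sum_le_tsum _ fun k _ => h3 k

end Helper25.Ind
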